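import Pool.Agent.SNX.Defs
import Pool.Agent.NST.P_GN

/-!
# SNX, part F: reduction to countable fields

`T_M2x`: countable fields (as `NST.T_M2`, with `Gd` replaced by openness of the `q`-th powers);
`T_EN`: the engine for the residue fields of countable strongly NIP ordered fields;
`T_GNx`: the henselian property for all strongly NIP ordered fields.
-/

set_option autoImplicit false
set_option linter.unusedSectionVars false

noncomputable section

namespace SNX

open Filter Polynomial NST FirstOrder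

/-- for the residue fields of all convex valuation rings and all primes `q` the `q`-th powers are
open in all finite extensions -/
def OPr (K : Type) [Field K] [LinearOrder K] [IsStrictOrderedRing K] : Prop :=
  ∀ W : ValuationSubring K, Cvx W → ∀ (k : Type) [Field k] [LinearOrder k]
    [IsStrictOrderedRing k] (π : W →+* k), OR W k π → ∀ q : ℕ, q.Prime → OpA k q

/-- M2x (countable fields) -/
def T_M2x : Prop :=
  ∀ (K : Type) [Field K] [LinearOrder K] [IsStrictOrderedRing K] [Countable K], OPr K →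
    Hen (natV K) ∧ RCr (natV K)

/-- EN (the engine applied to residue fields) -/
def T_EN : Prop :=
  ∀ (K : Type) [Field K] [LinearOrder K] [IsStrictOrderedRing K] [Ring.CompatibleRing K]
    [Language.order.Structure K] [Language.order.OrderedStructure K] [Countable K],
    SNIPn K → NFV.NIP K → OPr K

/-- GNx -/
def T_GNx : Prop :=
  ∀ (K : Type) [Field K] [LinearOrder K] [IsStrictOrderedRing K] [Ring.CompatibleRing K]
    [Language.order.Structure K] [Language.order.OrderedStructure K], SNIPn K → NFV.NIP K →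
    Hen (natV K) ∧ RCr (natV K)

/-- countable subfields with the properties of the conclusion -/
theorem GNx_sub (h1 : NST.T_EL) (h2 : NST.T_NE2) (h5 : T_EN) (h6 : T_M2x)
    (K : Type) [Field K] [LinearOrder K] [IsStrictOrderedRing K] [Ring.CompatibleRing K]
    [Language.order.Structure K] [Language.order.OrderedStructure K] (hS : SNIPn K)
    (hN : NFV.NIP K) (s : Set K) (hs : s.Countable) :
    ∃ (K₀ : Type) (_ : Field K₀) (_ : LinearOrder K₀) (_ : IsStrictOrderedRing K₀)
      (ι : K₀ →+* K), natV K₀ = (natV K).comap ι ∧ s ⊆ Set.range ι ∧ Hen (natV K₀) ∧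
      RCr (natV K₀) := by
  obtain ⟨K₀, i1, i2, i3, i4, i5, i6, ι, e, hc, hm, hs', he⟩ := h1 K s hs
  have n0 : NFV.NIP K₀ := h2 K₀ K e hN
  have e0 : NFV.Lor.ElementarilyEquivalent K₀ K := e.elementarilyEquivalent
  have s0 : SNIPn K₀ := fun M _ hM => hS M (hM.trans e0)
  have m0 := h6 K₀ (h5 K₀ s0 n0)
  exact ⟨K₀, i1, i2, i3, ι, GN_comap ι hm, hs', m0.1, m0.2⟩

theorem p_GNx (h1 : NST.T_EL) (h2 : NST.T_NE2) (h5 : T_EN) (h6 : T_M2x) : T_GNx := by
  intro K _ _ _ _ _ _ hS hN
  refine ⟨?_, ?_, ?_⟩
  · intro f hf hc a₀ ha₀ h7 h8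
    obtain ⟨K₀, _, _, _, ι, hV, hs, hH, _⟩ := GNx_sub h1 h2 h5 h6 K hS hN
      (Set.range f.coeff ∪ {a₀}) ((Set.countable_range _).union (Set.countable_singleton _))
    obtain ⟨f₀, rfl, hf₀⟩ := GN_lift ι f hf (Set.subset_union_left.trans hs)
    obtain ⟨b₀, rfl⟩ := hs (Or.inr rfl)
    have h9 := hH f₀ hf₀ (by
      intro i
      rw [hV, NST.mem_comap']
      have h10 := hc i
      rw [coeff_map] at h10
      exact h10) b₀ (by
      rw [hV]
      exact ha₀) (by
      rw [hV, nu_comap, GN_eval]
      exact h7) (by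
      rw [hV, nu_comap, GN_eval]
      rw [derivative_map] at h8
      exact h8)
    obtain ⟨a, ha, ha'⟩ := h9
    refine ⟨ι a, ?_, ?_⟩
    · rw [← GN_eval, ha, map_zero]
    · rw [hV, nu_comap, map_sub] at ha'
      exact ha'
  · intro c hc
    obtain ⟨K₀, _, _, _, ι, hV, hs, _, hR⟩ := GNx_sub h1 h2 h5 h6 K hS hN {c}
      (Set.countable_singleton _)
    obtain ⟨c₀, rfl⟩ := hs rfl
    obtain ⟨b, hb, hb'⟩ := hR.1 c₀ (by
      rw [hV]
      exact hc)
    refine ⟨ι b, ?_, ?_⟩
    · rw [hV] at hb
      exact hb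
    · rcases hb' with hb' | hb'
      · left
        rw [hV, nu_comap, map_sub, map_pow] at hb'
        exact hb'
      · right
        rw [hV, nu_comap, map_add, map_pow] at hb'
        exact hb'
  · intro p hp hodd hc
    obtain ⟨K₀, _, _, _, ι, hV, hs, _, hR⟩ := GNx_sub h1 h2 h5 h6 K hS hN
      (Set.range p.coeff) (Set.countable_range _)
    obtain ⟨p₀, rfl, hp₀⟩ := GN_lift ι p hp hs
    obtain ⟨x, hx, hx'⟩ := hR.2 p₀ hp₀ (by
      rw [natDegree_map] at hodd
      exact hodd) (by
      intro i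
      rw [hV, NST.mem_comap']
      have h10 := hc i
      rw [coeff_map] at h10
      exact h10)
    refine ⟨ι x, ?_, ?_⟩
    · rw [hV] at hx
      exact hx
    · rw [hV, nu_comap, GN_eval] at hx'
      exact hx'

/-- the final step: strongly NIP ordered fields are almost real closed -/
theorem main_of (h1 : NST.T_EL) (h2 : NST.T_NE2) (h5 : T_EN) (h6 : T_M2x)
    (hs : ∀ (K : Type) [Nonempty K] [NFV.Lor.Structure K], NST.SNIP K → SNIPn K)
    (hn : ∀ (K : Type) [Field K] [LinearOrder K] [IsStrictOrderedRing K] [Ring.CompatibleRing K]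
      [Language.order.Structure K] [Language.order.OrderedStructure K], NST.SNIP K → NFV.NIP K)
    (h7 : NST.T_HE) (h8 : NST.T_RR)
    (K : Type) [Field K] [LinearOrder K] [IsStrictOrderedRing K] [Ring.CompatibleRing K]
    [Language.order.Structure K] [Language.order.OrderedStructure K] (hK : NST.SNIP K) :
    ∃ O : ValuationSubring K, HenselianLocalRing O ∧
        (∀ (n : ℕ) (f : Fin n → IsLocalRing.ResidueField O), ∑ i, f i ^ 2 ≠ -1) ∧
        (∀ c : IsLocalRing.ResidueField O, ∃ b, b ^ 2 = c ∨ b ^ 2 = -c) ∧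
        (∀ p : Polynomial (IsLocalRing.ResidueField O), Odd p.natDegree → ∃ x, p.IsRoot x) := by
  obtain ⟨g1, g2⟩ := p_GNx h1 h2 h5 h6 K (hs K hK) (hn K hK)
  obtain ⟨h3, h4, h5⟩ := h8 K (natV K) natV_cvx g2
  exact ⟨natV K, h7 K (natV K) g1, h3, h4, h5⟩

end SNX
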