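import Pool.Agent.SNX.F_EQ2
import Pool.Agent.SNX.F_GN2

/-!
# SNX, final part: countable fields (`p_M2x : T_M2x`)

`Gd2 K`: `K` is countable and for all primes `q` and all finite extensions the `q`-th powers are
controlled by finitely many monadic valuation rings (`OpA K q`).  Parts E2, E3, E4 of project NST are
repeated without the hypothesis on the square classes (`F_EQ2` is used instead of `EQ`).
-/

set_option autoImplicit false
set_option linter.unusedSectionVars false

noncomputable section

namespace SNX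

open Filter Polynomial NST FirstOrder

/-- good ordered fields, without the condition on the square classes -/
structure Gd2 (K : Type) [Field K] [LinearOrder K] [IsStrictOrderedRing K] : Prop where
  cnt : Countable K
  op : ∀ q : ℕ, q.Prime → OpA K q

/-- the dichotomy -/
theorem F_DI (K : Type) [Field K] [LinearOrder K] [IsStrictOrderedRing K] (hG : Gd2 K) :
    IsRealClosed K ∨ Uns (Vord K) := by
  have hc : Countable K := hG.cnt
  by_cases h : ∀ (E : Type) [Field E] [Algebra K E] [FiniteDimensional K E] (q : ℕ) (ζ j : E),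
      q.Prime → IsPrimitiveRoot ζ q → j ^ 2 = -1 → Ful E q
  · left
    exact p_AC K h
  · right
    push Not at h
    obtain ⟨E, iF, iA, iD, q, ζ, j, hq, hζ, hj, hF⟩ := h
    obtain ⟨V, hV, hU⟩ := a_UNS K E q ζ j hq hζ hj (hG.op q hq) hF
    have hM := a_RS K E V hV.mon
    have hT := F_EQ2 K (hG.op 2 Nat.prime_two) _ hM hU
    rw [← hT]
    exact hU

/-- archimedean fields -/
theorem F_AR (K : Type) [Field K] [LinearOrder K] [IsStrictOrderedRing K] (hG : Gd2 K)
    (hA : Archimedean K) : IsRealClosed K := by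
  have := hG.cnt
  refine p_AC K ?_
  intro E _ _ _ q ζ j hq hζ hj
  by_contra hF
  obtain ⟨V, hV, hU⟩ := a_UNS K E q ζ j hq hζ hj (hG.op q hq) hF
  have hT := F_EQ2 K (hG.op 2 Nat.prime_two) _ (a_RS K E V hV.mon) hU
  have : CharZero E := charZero_of_injective_algebraMap (algebraMap K E).injective
  let ι₀ : K →+*o ℝ := ConditionallyCompleteLinearOrderedField.inducedOrderRingHom K ℝ
  let _ : Algebra K ℂ := (Complex.ofRealHom.comp (ι₀ : K →+* ℝ)).toAlgebra
  let ι' : E →ₐ[K] ℂ := IsAlgClosed.lift
  let ι : E →+* ℂ := ι'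
  have hι : ∀ a : K, ι (algebraMap K E a) = ((ι₀ a : ℝ) : ℂ) := fun a => ι'.commutes a
  have hc := AR_comap ι₀ ι hι
  have hVV : V = AR_V ι := by
    refine hU E V (AR_V ι) rfl ?_
    rw [hT, hc]
  apply hF
  intro x
  by_cases hx : x = 0
  · exact ⟨0, by rw [hx, zero_pow hq.ne_zero]⟩
  have hz := fun n => AR_root ι j hj q hq.pos x hx n
  choose z hz using hz
  have hn : cst x * (mk z) ^ q - 1 ∈ V.nonunits := by
    rw [hVV]
    have h5 : cst x * (mk z) ^ q - 1 = mk fun n => x * z n ^ q - 1 := rfl
    rw [h5]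
    refine AR_nu fun m => ?_
    filter_upwards [eventually_ge m] with n hn
    refine le_trans ?_ (hz n)
    have : (m : ℝ) ≤ n := by exact_mod_cast hn
    gcongr
  obtain ⟨y, hy⟩ := hV.pow _ hn
  have h0 := ne_zero_of_one hn
  have hz0 : mk z ≠ 0 := by
    intro h
    apply h0
    rw [h, zero_pow hq.ne_zero, mul_zero]
  refine cst_pow_iff.1 ⟨y / mk z, ?_⟩
  rw [div_pow, ← hy, mul_div_assoc, div_self (pow_ne_zero _ hz0), mul_one]

/-- the natural valuation ring does not split, its residue field is real closed -/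
theorem F_M1 (K : Type) [Field K] [LinearOrder K] [IsStrictOrderedRing K] [Countable K]
    (hGd : ∀ W : ValuationSubring K, Cvx W → ∀ (k : Type) [Field k] [LinearOrder k]
      [IsStrictOrderedRing k] (π : W →+* k), OR W k π → Gd2 k) :
    UnsS (natV K) ∧ ∀ (k : Type) [Field k] [LinearOrder k] [IsStrictOrderedRing k]
      (π : natV K →+* k), OR (natV K) k π → IsRealClosed k := by
  constructor
  · intro N _ _ _ _
    have hf : (algebraMap K N).IsIntegral := by
      rw [algebraMap_isIntegral_iff]
      infer_instance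
    have hfin : (algebraMap K N).Finite := by
      rw [RingHom.finite_algebraMap]
      infer_instance
    obtain ⟨W, hW1, hW2, hW3⟩ := b_F1 K N (algebraMap K N) hf (natV K)
    by_cases hW : W = natV K
    · rw [hW] at hW2
      exact hW2
    exfalso
    have hWc : Cvx W := Cvx.of_le hW1
    obtain ⟨k, _, _, _, π, hOR⟩ := p_RO K W hWc
    obtain ⟨A, hA⟩ := p_CH K N (algebraMap K N) W
    obtain ⟨n, _, ρ, g, hρs, hρk, hρg, hgf⟩ :=
      p_RF K N (algebraMap K N) hfin W A hA k π hOR.surj hOR.ker
    let _ : Algebra k n := g.toAlgebra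
    have halg : algebraMap k n = g := rfl
    have : FiniteDimensional k n := hgf
    have gd : Gd2 k := hGd W hWc k π hOR
    have := gd.cnt
    have hnt : natV k ≠ ⊤ := by
      intro htop
      have hex : ∃ x, x ∈ W ∧ x ∉ natV K := by
        by_contra hcon
        push Not at hcon
        exact hW (le_antisymm hcon hW1)
      obtain ⟨x, hxW, hx⟩ := hex
      have hmem : π ⟨x, hxW⟩ ∈ natV k := by rw [htop]; trivial
      obtain ⟨m, hm⟩ := mem_natV.1 hmem
      exact M1_.not_abs_le hOR ⟨x, hxW⟩ hx m hm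
    have hkey : ∀ O : ValuationSubring k, Cvx O → O ≠ ⊤ → ¬ UnI (algebraMap k n) O := by
      intro O hO hOt hUn
      rw [halg] at hUn
      obtain ⟨P, hP, hPU⟩ := b_F2 K N k n (algebraMap K N) g W A π ρ hOR.surj hρs hOR.ker hρk hA
        hρg hW2 O hUn
      have hle : natV K ≤ P := by
        intro x hx
        obtain ⟨m, hm⟩ := mem_natV.1 hx
        have hxW : x ∈ W := hW1 hx
        refine (hP x).2 ⟨hxW, hO.natV_le (mem_natV.2 ⟨m, ?_⟩)⟩
        exact M1_.bd_le hOR ⟨x, hxW⟩ m hm
      have hWP := hW3 P hle hPU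
      apply hOt
      rw [eq_top_iff]
      intro y _
      obtain ⟨x, rfl⟩ := hOR.surj y
      obtain ⟨h, hy⟩ := (hP x).1 (hWP x.2)
      exact hy
    have hns : ¬ Uns (Vord k) := b_F3 k n hnt hkey
    have hrc : IsRealClosed k := (F_DI k gd).resolve_right hns
    exact hkey (natV k) natV_cvx hnt (b_F4 k hrc (natV k) natV_cvx n)
  · intro k _ _ _ π hOR
    have gd : Gd2 k := hGd (natV K) natV_cvx k π hOR
    have harch : Archimedean k := by
      rw [archimedean_iff_nat_le]
      intro c
      obtain ⟨a, rfl⟩ := hOR.surj c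
      obtain ⟨m, hm⟩ := mem_natV.1 a.2
      exact ⟨m, le_trans (le_abs_self _) (M1_.bd_le hOR a m hm)⟩
    exact F_AR k gd harch

/-- countable fields -/
theorem F_M2 (K : Type) [Field K] [LinearOrder K] [IsStrictOrderedRing K] [Countable K]
    (hGd : ∀ W : ValuationSubring K, Cvx W → ∀ (k : Type) [Field k] [LinearOrder k]
      [IsStrictOrderedRing k] (π : W →+* k), OR W k π → Gd2 k) :
    Hen (natV K) ∧ RCr (natV K) := by
  obtain ⟨hU, hC⟩ := F_M1 K hGd
  refine ⟨b_HN K (natV K) hU, ?_⟩
  obtain ⟨k, _, _, _, π, hπ⟩ := p_RO K (natV K) natV_cvx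
  exact M2_.rcr (hC k π hπ) (natV K) π hπ.surj hπ.ker

/-- M2x: countable fields -/
theorem p_M2x : T_M2x := by
  intro K _ _ _ _ hK
  refine F_M2 K (fun W hW k _ _ _ π hπ => ⟨?_, hK W hW k π hπ⟩)
  obtain ⟨f, hf⟩ := hπ.surj.hasRightInverse
  exact Function.Injective.countable hf.injective

end SNX
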