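import Pool.Agent.SNX.Defs

/-!
# SNX: targets, part E: the engine

`M` is a field of characteristic `0` (usually countable), `L = Lx M` its ultrapower, `q > 0`.
`II M q` = infinitesimals of the group of the nonzero `q`-th powers, `Rg M q R`: `R` is the ring
of bounded elements.  The index of the group may be infinite.  Complete proofs are in the
docstrings; the paper proof is ideas row 1950 of MP_32850b_lc.  Compare `Pool/Agent/NST/TA.lean`
and its proofs `Pool/Agent/NST/P_*.lean` (finite index).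
API in `Defs.lean`: `Hq.mul`, `Hq.inv`, `Hq.div`, `Hq.mul_iff`, `Hq_mk`, `Hq_cst`, `mem_St_BB`.
-/

set_option autoImplicit false
set_option linter.unusedSectionVars false

noncomputable section

namespace SNX

open Filter Polynomial NST

/-- no `d` pairs `(x, t)` are shattered by the relation `(x + y) / t` is a nonzero `q`-th power -/
def VC1 (M : Type) [Field M] (q d : ℕ) : Prop :=
  ∀ (x t : Fin d → M) (y : Finset (Fin d) → M), ¬ ∀ i T, (Hq q ((x i + y T) / t i) ↔ i ∈ T)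

/-- no `d` elements `t` are shattered by the relation `y * t ∈ BB q S` -/
def VC2 {M : Type} [Field M] (q : ℕ) (S : Finset M) (d : ℕ) : Prop :=
  ∀ (t : Fin d → M) (y : Finset (Fin d) → M), ¬ ∀ i T, (y T * t i ∈ BB q S ↔ i ∈ T)

/-- the dual weight bound -/
def DWp (M : Type) [Field M] (q d : ℕ) : Prop :=
  ∀ t : Fin d → Lx M, ∃ i, ∀ x : Lx M, (∀ j, j ≠ i → x * t j ∈ II M q) → x * t i ∈ II M q

/-- the conclusion of Lemma W -/
def LWp (M : Type) [Field M] (q d : ℕ) : Prop :=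
  ∀ m : Fin d → M, Function.Injective m → ∀ w : Lx M, (∀ i, w + cst (m i) ≠ 0) →
    ∃ i, (w + cst (m i))⁻¹ ∈ WW M q

/-- descending towers of length `N` (read from the coarse end) -/
def Tow {M : Type} [Field M] (q : ℕ) (R : Subring (Lx M)) (N : ℕ) : Prop :=
  ∃ w f : ℕ → Lx M, (∀ n < N, f n ∈ II M q ∧ f n ≠ 0) ∧
    (∀ n k, n < k → k < N → f n * w k ∈ II M q) ∧
    ∀ n < N, ∀ r : ℕ → Lx M, (∀ k, r k ∈ R) →
      f n * w n ≠ r n + f n * ∑ k ∈ Finset.range n, r k * w k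

/-! ## Finite VC dimension -/

/-- V1.  PROOF.  `Hq q ((x + y) / t) ↔ ∃ z w, x + y = t * z ^ q ∧ (x + y) * t * w = 1` (for all
`q`). This is a `PEr` relation of `(y; x, t)` (`Fin 1 ⊕ Fin 2`, `l = 2`, two polynomials); `NFp`.
-/
def T_V1 : Prop := ∀ (M : Type) [Field M] (q : ℕ), NFp M → ∃ d, VC1 M q d

/-- V2.  PROOF.  `y * t ∈ BB q S` iff for all `s ∈ S` some `z, w` satisfy `1 + y * t * s = z ^ q`,
`(1 + y * t * s) * w = 1`.  Enumerate `S` as `s_1, …, s_p`: a `PEr` relation of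
`(y; t, s_1, …, s_p)` with `2 p` unknowns; `NFp M` with `m = p + 1` and the tuples
`(t i, s_1, …, s_p)`. -/
def T_V2 : Prop := ∀ (M : Type) [Field M] (q : ℕ) (S : Finset M), NFp M → ∃ d, VC2 q S d

/-! ## The property C1 -/

/-- L1 (first use of NIP).  PROOF.  Suppose every finite `U` admits `a`, `b`.  By induction on
`k`: there are `a b : ℕ → M` such that for all `j < k` and `T ⊆ {0, …, k - 1}`
(`y T = ∑ l ∈ T, b l`) `a j + y T ≠ 0` and `(Hq q ((a j + y T) / a j) ↔ j ∉ T)`.  Step: take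
`(a k, b k)` for `U` = all `y T` and all `(a j + y T)⁻¹` (`j < k`, `T ⊆ {0, …, k - 1}`).  For
`j < k` and `T' = T ∪ {k}`: `a j + y T' = v + b k = v * (1 + b k * v⁻¹)`, `v = a j + y T ≠ 0`, so
the class does not change (`Hq.mul_iff`).  For `j = k`: `(a k + y T) / a k` is in `Hq` (so
`≠ 0`), and `a k + b k + y T ≠ 0`, `(a k + b k + y T) / a k` is not in `Hq`.  For `k = d`,
`x i = t i = a i`, `y` of the complement of the set, this contradicts `VC1 M q d`. -/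
def T_L1 : Prop :=
  ∀ (M : Type) [Field M] (q d : ℕ), VC1 M q d → ∃ U : Finset M, ∀ a b : M,
    ¬ ∀ u ∈ U, Hq q ((a + u) / a) ∧ Hq q (1 + b * u) ∧ a + b + u ≠ 0 ∧
      ¬ Hq q ((a + b + u) / a)

/-- L1L (transfer of L1).  PROOF.  The same `U`; take representatives `a = mk a'`, `b = mk b'`:
if the finitely many conditions hold then they hold for almost all `(a' n, b' n)` (`Hq_mk`,
`mk_ne_zero`, `not_eventually`). -/
def T_L1L : Prop :=
  ∀ (M : Type) [Field M] (q d : ℕ), VC1 M q d → ∃ U : Finset M, ∀ a b : Lx M,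
    ¬ ∀ u ∈ U, Hq q ((a + cst u) / a) ∧ Hq q (1 + b * cst u) ∧ a + b + cst u ≠ 0 ∧
      ¬ Hq q ((a + b + cst u) / a)

/-- L2 (second use of NIP).  PROOF.  Suppose that every finite `Q` of nonzero elements admits
`w, e0, e1, c`.  By induction on `k` there are `z e0 e1 κ : ℕ → M`, `κ l ≠ 0`, such that with
`y T = 1 + ∑_{l < k} e_l z_l` (`e_l = e1 l` if `l ∈ T`, `e0 l` if not), `x j = - e1 j * z j` and
`K = ∏_{l < k} κ l`: for all `T ⊆ {0, …, k - 1}` `Hq q (y T / K)`, and for `j < k`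
`x j + y T ≠ 0` and (`Hq q ((x j + y T) / K) ↔ j ∉ T`).  Step: let `P` run over the finitely many
(nonzero) values `y T`, `x j + y T`; take `w, e0 k, e1 k, c` for `Q` = all `P⁻¹`, `z k = w⁻¹`,
`κ k = c / w`.  For `e ∈ {e0 k, e1 k, e0 k - e1 k}`: `P + e z k = P w⁻¹ (w + e P⁻¹)`, so
`Hq q ((P + e z k) / (P κ k))` (in particular `P + e z k ≠ 0`).  New values:
`y T' = y T + e z k`; `x j + y T' = (x j + y T) + e z k` for `j < k`; `x k + y T'` is `y T` if
`k ∈ T'` (and `y T / (K κ k)` is not in `Hq` because `w / c` is not), and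
`y T + (e0 k - e1 k) z k` if `k ∉ T'`.  For `k = d`, `t i = K`, and the complements of the sets,
this contradicts `VC1 M q d`. -/
def T_L2 : Prop :=
  ∀ (M : Type) [Field M] (q d : ℕ), VC1 M q d → ∃ Q : Finset M, (∀ P ∈ Q, P ≠ 0) ∧
    ∀ w e0 e1 c : M, ¬ (w ≠ 0 ∧ c ≠ 0 ∧ ¬ Hq q (w / c) ∧ ∀ P ∈ Q, Hq q ((w + e0 * P) / c) ∧
      Hq q ((w + e1 * P) / c) ∧ Hq q ((w + (e0 - e1) * P) / c))

/-- L2L (transfer of L2).  PROOF.  As L1L; `e0`, `e1` stay in `M`. -/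
def T_L2L : Prop :=
  ∀ (M : Type) [Field M] (q d : ℕ), VC1 M q d → ∃ Q : Finset M, (∀ P ∈ Q, P ≠ 0) ∧
    ∀ (w c : Lx M) (e0 e1 : M), ¬ (w ≠ 0 ∧ c ≠ 0 ∧ ¬ Hq q (w / c) ∧
      ∀ P ∈ Q, Hq q ((w + cst (e0 * P)) / c) ∧ Hq q ((w + cst (e1 * P)) / c) ∧
        Hq q ((w + cst ((e0 - e1) * P)) / c))

/-- C1.  PROOF.  (Compare `NST/P_C1.lean`.)  Let `e, e' ∈ II`.  If `e = 0` trivial.  `a = e⁻¹`,
`w = a + e' = a (1 + e e')`; to show `Hq q (w / a)`.  `Hq q ((a + cst v) / a)` for all `v ∈ M`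
(`(a + v) / a = 1 + e v`).
(1) `w + cst v ≠ 0` for all `v ∈ M`: otherwise `e' = - v - a`, so for each `r ≠ 0` in `M`
`1 + e' (- r) = 1 + r v + r a = r (a + (1 + r v) / r)` is in `Hq`; as
`(a + (1 + r v) / r) / a ∈ Hq`, `r a ∈ Hq` for all `r ≠ 0`; `r = 1`: `a ∈ Hq`, so `Hq q (cst r)`,
`Hq q r` (`Hq_cst`) for all `r ≠ 0`, against the hypothesis.
(2) Suppose `¬ Hq q (w / a)`.  `U` from L1L, `Q` from L2L.  Colouring
`C m = (P ↦ Hq q ((w + cst (m P)) / a))` (`κ = Q → Prop`, finite),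
`T = {u P⁻¹ | u ∈ U, P ∈ Q}`.  `NST.T_GB` gives good `e0, e1, e0 - e1`.
Claim: if `m` is good, `n` its number, `P ∈ Q`, then `Hq q ((w + cst (m P)) / a)`.  Otherwise
`¬ Hq q ((w + cst (m P) + cst (n u)) / a)` for all `u ∈ U`.  Put `a' = (a + cst (m P)) / n`,
`b' = e' / n`.  Then `Hq q ((a' + u) / a')` (quotient of `(a + cst (m P + n u)) / a` and
`(a + cst (m P)) / a`), `Hq q (1 + b' u)` (`e' ∈ II`), `a' + b' + u ≠ 0` by (1), and
`¬ Hq q ((a' + b' + u) / a')`: a contradiction to L1L.  So L2L is contradicted with `c = a`. -/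
def T_C1 : Prop :=
  ∀ (M : Type) [Field M] [CharZero M] (q d : ℕ), VC1 M q d → (∃ m : M, m ≠ 0 ∧ ¬ Hq q m) → C1 M q

/-- RG (the ring).  PROOF.  Word for word as `NST/P_RG.lean` (T_RG in `NST/TA.lean`), with
`Fs F x = 1` replaced by `Hq q x`. -/
def T_RG : Prop := ∀ (M : Type) [Field M] (q : ℕ), C1 M q → ∃ R : Subring (Lx M), Rg M q R

/-- S0 (compactness).  PROOF.  As `NST/P_S0.lean`.  Suppose not.  `U n` an increasing sequence of
finite subsets of `M` with union `M`.  For each `n` there is `x : Lx M` not in `RR` with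
`Hq q (1 + x s)` for `s ∈ U n`; so there is `e ∈ II` with `¬ Hq q (1 + e x)`, and
`Hq q (1 + e s)` for `s ∈ U n`.  A suitable component gives `x n, e n : M` with
`Hq q (1 + x n s)`, `Hq q (1 + e n s)` for `s ∈ U n` and `¬ Hq q (1 + e n x n)`. 
`mk x, mk e ∈ II` contradict C1. -/
def T_S0 : Prop := ∀ (M : Type) [Field M] [Countable M] (q : ℕ), C1 M q → ∃ S : Finset M, SB M q S

/-! ## Bounded sets -/

/-- RU (bounded elements and infinitesimals in terms of `B = BB q S`).  PROOF.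
(1) `S` contains some `s₀ ≠ 0`: otherwise all `x` satisfy the condition of `SB`, so `R = ⊤`; take
`e ∈ II`, `e ≠ 0`: `1 = e⁻¹ e ∈ II`, against `Rg.ne`.
(2) second claim.  `⇒`: `1 + e u s ∈ Hq`.  `⇐`: for `v ∈ M` use `u = v / s₀`.
(3) first claim, `⇐`: `b * cst u ∈ R` by `SB`, multiply by `cst u⁻¹`.  `⇒`: (a) there is a finite
`S' ⊆ M` such that `Hq q (1 + x b)` for all `x : Lx M` with `Hq q (1 + x cst s)`, `s ∈ S'`. 
Otherwise let `M = {m 0, m 1, …}`, and for each `k` let `x k : Lx M` be such that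
`Hq q (1 + x k * cst (m i))` for `i < k` and `¬ Hq q (1 + x k * b)`; choose representatives
`x k = mk (x' k)`, `b = mk b'`; by `NST.exists_level` for `P k n :=` (`k = 0` or
(`Hq q (1 + x' k n * m i)` for `i < k` and `¬ Hq q (1 + x' k n * b' n)`)) one gets `l` with `l n`
large almost everywhere, and `y = mk (fun n => x' (l n) n)` is in `II` with `¬ Hq q (1 + y b)`,
against `b ∈ R`. (b) `e ∈ II`, `e ≠ 0`, `e = mk e'`: for almost all `n`, `e' n ≠ 0` and
`Hq q (1 + e' n * s * s')` for `s ∈ S`, `s' ∈ S'`.  `u = e' n` for such an `n`: by (a)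
`Hq q (1 + cst (u * s) * b)` for `s ∈ S`. -/
def T_RU : Prop :=
  ∀ (M : Type) [Field M] [Countable M] (q : ℕ) (R : Subring (Lx M)) (S : Finset M), Rg M q R →
    SB M q S → (∃ e ∈ II M q, e ≠ 0) →
    (∀ b, b ∈ R ↔ ∃ u : M, u ≠ 0 ∧ b * cst u ∈ St (BB q S)) ∧
    ∀ e, e ∈ II M q ↔ ∀ u : M, e * cst u ∈ St (BB q S)

/-- DS (shrinking).  PROOF.  Suppose not: for each `u ≠ 0` there are `x u, y u ∈ BB q S` and
`c u ∈ C` with `(x u - y u) * u * c u ∉ BB q S`.  `e ∈ II`, `e ≠ 0`, `e = mk e'`;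
`x = mk (fun n => x (e' n))`, `y = mk (fun n => y (e' n))`; by `exists_lim` there is `c ∈ C` with
`c (e' n) = c` for almost all `n` (or treat each `c ∈ C`).  `x, y ∈ St (BB q S) ⊆ R`, so
`(x - y) * e ∈ II`, `(x - y) * e * cst c ∈ II ⊆ St (BB q S)` (`Rg.mul`; `mem_St_BB`): a
contradiction (`e' n ≠ 0` almost everywhere). -/
def T_DS : Prop :=
  ∀ (M : Type) [Field M] (q : ℕ) (R : Subring (Lx M)) (S : Finset M), Rg M q R →
    SB M q S → (∃ e ∈ II M q, e ≠ 0) → ∀ C : Finset M, ∃ u : M, u ≠ 0 ∧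
    ∀ x ∈ BB q S, ∀ y ∈ BB q S, ∀ c ∈ C, (x - y) * u * c ∈ BB q S

/-- FR (common multiples).  PROOF.  `M = {m 0, m 1, …}`, `v = mk v'`.  For each `n` there is
`ε' n ≠ 0` in `M` with `Hq q (1 + ε' n * m i)` and `Hq q (1 + ε' n * v' n * m i)` for `i < n`:
take `e ∈ II`, `e ≠ 0`, `e = mk e'`; almost all `e' k` satisfy these finitely many conditions
(`v' n`, `m i` are constants).  `ε = mk ε'`. -/
def T_FR : Prop :=
  ∀ (M : Type) [Field M] [Countable M] (q : ℕ), (∃ e ∈ II M q, e ≠ 0) →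
    ∀ v : Lx M, ∃ ε ∈ II M q, ε ≠ 0 ∧ ε * v ∈ II M q

/-- DW (dual weight).  PROOF.  Suppose that for each `i` there is `x i` with `x i * t j ∈ II` for
`j ≠ i` and `x i * t i ∉ II`.  By RU there is `u i ∈ M` with `x i * t i * cst (u i) ∉ St B`,
`B = BB q S`; replace `x i` by `x i * cst (u i)`.  DS for `C = {1}`: `u' ≠ 0` with
`(x - y) * u' ∈ B` for `x, y ∈ B`; this also holds for `St B`.  For `T ⊆ Fin d` put
`Y T = (∑_{i ∈ T} x i) * cst u'⁻¹`.  Claim: `Y T * t j ∈ St B ↔ j ∉ T`.  If `j ∉ T`, it is in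
`II ⊆ St B`.  If `j ∈ T` let `e = ∑_{i ∈ T, i ≠ j} x i * t j ∈ II`; `e * cst u'⁻¹ ∈ St B`; if
`Y T * t j ∈ St B` then `x j * t j = (Y T * t j - e * cst u'⁻¹) * cst u' ∈ St B`, a
contradiction.  Take representatives of the `t j` and `Y T`; for almost all `n` the claim holds
for the components, which contradicts `VC2 q S d` (with the complements of the sets). -/
def T_DW : Prop :=
  ∀ (M : Type) [Field M] [Countable M] (q d : ℕ) (R : Subring (Lx M)) (S : Finset M), Rg M q R →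
    SB M q S → (∃ e ∈ II M q, e ≠ 0) → VC2 q S d → DWp M q d

/-- DM (monotone).  PROOF.  Restrict `t : Fin d' → Lx M` to the first `d` indices. -/
def T_DM : Prop :=
  ∀ (M : Type) [Field M] (q d d' : ℕ), d ≤ d' → DWp M q d → DWp M q d'

/-! ## Radical conductors and Lemma W -/

/-- SQ (conductors are radical).  PROOF.  Let `c = {x | ∀ t ∈ T, x * t ∈ II}`, an ideal of `T`
contained in `II`; `a * a ∈ c`.  Let `s ∈ T`, `b = a * s`, so `b * b ∈ c`.  For `u ∈ M`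
`(1 + u b) (1 - u b) = 1 - u² b²` and `- u² b² ∈ II`, so its inverse is in `R ≤ T` (`Rg.inv`), so
`1 + u b ≠ 0` and `(1 + u b)⁻¹ = (1 - u b) (1 - u² b²)⁻¹ ∈ T`.  For `u, v ∈ M`:
`(1 + u b) (1 + v b) = (1 + (u + v) b) (1 + u v b² (1 + (u + v) b)⁻¹)` and
`u v b² (1 + (u + v) b)⁻¹ ∈ c ⊆ II`, so the last factor is in `Hq` (`Rg.one`).  So modulo `Hq`
the map `φ u = 1 + u b` is multiplicative: by induction on `k` `Hq q (φ (k u) / φ u ^ k)`; with
`k = q` and `u / q` for `u`: `φ u / φ (u / q) ^ q ∈ Hq`, so `φ u ∈ Hq` for all `u ∈ M`, i.e.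
`b ∈ II`. -/
def T_SQ : Prop :=
  ∀ (M : Type) [Field M] [CharZero M] (q : ℕ) (R : Subring (Lx M)), 0 < q → Rg M q R →
    ∀ T : Subring (Lx M), R ≤ T → ∀ a ∈ T, (∀ t ∈ T, a * a * t ∈ II M q) →
    ∀ t ∈ T, a * t ∈ II M q

/-- LW (Lemma W).  PROOF.  `d ≥ 2`: for `d = 0` there is no `i`; for `d = 1` `DWp` for `t 0 = 1`
and `x = 1` gives `1 ∈ II`, against `Rg.ne`.  Let `t i = (w + m i)⁻¹`, `i` from `DWp`, `z = t i`.
`J = {x | ∀ k ≤ d - 2, x * w ^ k ∈ II}`.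
(A) `x ∈ J` implies `x z ∈ II`.  `y = x ∏_{l ≠ i} (w + m l)`.  For `j ≠ i`
`y * t j = x ∏_{l ≠ i, j} (w + m l)`, a sum of terms `cst c * (x * w ^ k)` with `k ≤ d - 2`
(expand a polynomial over `M` of degree `≤ d - 2` evaluated at `w`), so in `II`.  So `y z ∈ II`.
`∏_{l ≠ i} (X + m l) = (X + m i) G + c`, `G` of degree `≤ d - 2`,
`c = ∏_{l ≠ i} (m l - m i) ≠ 0`, so `y z = x G(w) + c x z` and `c x z ∈ II`, `x z ∈ II`.
(B) `x ∈ J` implies `x z ∈ J`: `z w = 1 - m i z`, so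
`x z w ^ (k + 1) = x w ^ k - m i (x z w ^ k)`; induction. (C) `J` is stable under `R` and `z`, so
under the subring `T` generated by `R` and `z`; so `x t ∈ II` for `x ∈ J`, `t ∈ T`.
(D) Let `y ∈ II`, `y w ∈ II`.  Then `y ^ N * w ^ k = y ^ (N - k) * (y w) ^ k ∈ II` for `k ≤ N`,
`1 ≤ N` (products of elements of `II` are in `II`), so `y ^ N ∈ J` for `N = 2 ^ d`, and by SQ,
applied `d` times (to `a = y ^ (2 ^ j)`, `j = d - 1, …, 0`), `y t ∈ II` for all `t ∈ T`; in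
particular `y z ∈ II`. (F) `z ∈ WW`: let `x ∈ II`, `x z ∈ II`; `y = x z`,
`y w = x - m i x z ∈ II`; by (D) `y z ∈ II`. -/
def T_LW : Prop :=
  ∀ (M : Type) [Field M] [CharZero M] (q d : ℕ) (R : Subring (Lx M)), 0 < q → Rg M q R →
    DWp M q d → LWp M q d

/-- SW.  PROOF.  `N = {x | x ∈ II ∧ x w ∈ II}` is stable under `R` and, as `w ∈ WW`, under `w`, so
under the subring `T` generated by `R` and `w`.  `a a ∈ N`, so `a a t ∈ II` for `t ∈ T`; SQ gives
`a t ∈ II` for `t ∈ T`; take `t = 1`, `t = w`. -/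
def T_SW : Prop :=
  ∀ (M : Type) [Field M] [CharZero M] (q : ℕ) (R : Subring (Lx M)), 0 < q → Rg M q R →
    ∀ w ∈ WW M q, ∀ a ∈ R, a * a ∈ II M q → a * a * w ∈ II M q → a ∈ II M q ∧ a * w ∈ II M q

/-! ## The tower argument -/

/-- SS.  PROOF.  `w ∈ WW` with `e w ∉ II`; `v = e w`.  Let `r ∈ R`, `r v e ∈ R`.  Then
`e³ r ∈ II` and `e³ r w = e (r v e) ∈ II`.  `a = e r ∈ R`: `a⁴ = (e³ r) (e r³)`, so `a⁴ ∈ II`,
`a⁴ w ∈ II`; SW for `a²`: `a² ∈ II`, `a² w ∈ II`; SW for `a`: `a w ∈ II`.  So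
`r v = a w ∈ II ⊆ R`. If `e v ∈ R`, the same for `r = 1` gives `e w ∈ II`, a contradiction. -/
def T_SS : Prop :=
  ∀ (M : Type) [Field M] [CharZero M] (q : ℕ) (R : Subring (Lx M)), 0 < q → Rg M q R →
    (∀ e ∈ II M q, e ≠ 0 → ∃ w ∈ WW M q, e * w ∉ II M q) →
    ∀ e ∈ II M q, e ≠ 0 → ∃ v : Lx M, e * v ∉ R ∧ ∀ r ∈ R, r * v * e ∈ R → r * v ∈ R

/-- CN (towers).  PROOF.  By recursion choose `e j ∈ II`, `e j ≠ 0`, `v j` with: `e j * v j ∉ R`,
(`r ∈ R`, `r * v j * e j ∈ R` imply `r * v j ∈ R`) [hypothesis for `e j`]; `e (j + 1) = e j * ε`,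
where `ε ∈ II`, `ε ≠ 0`, `ε * v j ∈ II` (FR).  So `e j * v i ∈ II` for `i < j`, and
`e j / e i ∈ R` for `i ≤ j`.  Claim: for `j < N` and `r : ℕ → Lx M` in `R`, `r' ∈ R`:
`e j * v j ≠ r' + e j * ∑_{j < i < N} r i * v i`.  Otherwise suppose that some `i`, `j < i < N`,
has `r i * v i ∉ R`, and let `i` be the largest one.  Divide by `e j` and multiply by `e i`:
`r i * v i * e i = v j * e i - r' * (e i / e j) - ∑_{j < a < i} r a * (v a * e i) -
e i * ∑_{i < a < N} r a * v a` is in `R`, so `r i * v i ∈ R`, a contradiction.  So all `r i * v i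
∈ R` and `e j * v j ∈ R`, a contradiction.  Finally `w n = v (N - 1 - n)`, `f n = e (N - 1 -
n)`. -/
def T_CN : Prop :=
  ∀ (M : Type) [Field M] [Countable M] (q : ℕ) (R : Subring (Lx M)), Rg M q R →
    (∃ e ∈ II M q, e ≠ 0) →
    (∀ e ∈ II M q, e ≠ 0 → ∃ v : Lx M, e * v ∉ R ∧ ∀ r ∈ R, r * v * e ∈ R → r * v ∈ R) →
    ∀ N : ℕ, Tow q R N

/-- PL (the pattern in the ultrapower).  PROOF.  `B = BB q S`, `St B ⊆ R` (SB), `II ⊆ St B`.  For
`j, n < N`, `x = ∑_{k < N} cst (m (η k)) * w k`.  If `j = η n` take `b k = cst (m (η k))` for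
`k < n` and `b n = f n * ∑_{n < k < N} cst (m (η k)) * w k ∈ II`.  Conversely, subtract the
equation for `η n` from that for `j`:
`f n * (m (η n) - m j) * w n = (b n - b' n) + f n * ∑_{k < n} (b k - b' k) * w k`; divide by
`m (η n) - m j ≠ 0` (an invertible constant of `R`): contradiction to the third property. -/
def T_PL : Prop :=
  ∀ (M : Type) [Field M] (q : ℕ) (R : Subring (Lx M)) (S : Finset M), Rg M q R →
    SB M q S → ∀ (N : ℕ) (w f : ℕ → Lx M), (∀ n < N, f n ∈ II M q ∧ f n ≠ 0) →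
    (∀ n k, n < k → k < N → f n * w k ∈ II M q) →
    (∀ n < N, ∀ r : ℕ → Lx M, (∀ k, r k ∈ R) →
      f n * w n ≠ r n + f n * ∑ k ∈ Finset.range n, r k * w k) →
    ∀ m : ℕ → M, (∀ i < N, ∀ j < N, m i = m j → i = j) → (∀ i < N, m i ∈ BB q S) →
    ∀ η : ℕ → ℕ, (∀ i, η i < N) → ∀ n < N, ∀ j < N,
      ((∃ b : ℕ → Lx M, (∀ k, b k ∈ St (BB q S)) ∧
        f n * (∑ k ∈ Finset.range N, cst (m (η k)) * w k - cst (m j) * w n) =
          b n + f n * ∑ k ∈ Finset.range n, b k * w k) ↔ j = η n)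

/-- PT (towers of all lengths contradict strong NIP).  PROOF.  `S = {s_1, …, s_p}`.  Row `n`: the
relation between `x ∈ M` and the parameters `(c, f, w_0, …, w_{n-1}, s_1, …, s_p)`
(`m n = n + 2 + p`): there are `b_0, …, b_n` with `f (x - c) = b_n + f ∑_{k < n} b_k w_k` and
`Hq q (1 + b_k s_i)` for all `k ≤ n`, `i ≤ p`, i.e. there are `z, z'` with `1 + b_k s_i = z ^ q`,
`(1 + b_k s_i) z' = 1`: a `PEr` relation.  Let `N` be the number of `SNF M`, `w, f` a tower of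
length `N`.  `m j` (`j < N`) distinct elements of `BB q S`: if `e ∈ II`, `e ≠ 0`, `e = mk e'`,
almost all `n` have `e' n ≠ 0`, `j * e' n ∈ BB q S` for `j < N`; take `m j = j * e' n`
(`j * e ∈ II ⊆ St (BB q S)`).  PL.  Choose representatives of `w k`, `f k`; `∃ b` over `Lx M` is
equivalent to `∃ b` for almost all components.  For almost all `i` the equivalences of PL hold
for the `i`-th components, for all `n, j < N` and all of the finitely many `η` restricted to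
`{0, …, N - 1}`.  One such `i` contradicts `SNF M` with
`a n j = (m j * w n, f n, w_0, …, w_{n-1}, s)` and `x = ∑_{k < N} m (η k) * w k`. -/
def T_PT : Prop :=
  ∀ (M : Type) [Field M] [CharZero M] [Countable M] (q : ℕ) (R : Subring (Lx M))
    (S : Finset M), 0 < q → Rg M q R → SB M q S → (∃ e ∈ II M q, e ≠ 0) → SNF M →
    ¬ ∀ N : ℕ, Tow q R N

/-- TW.  PROOF.  Otherwise the hypothesis of SS holds; CN, PT. -/
def T_TW : Prop :=
  ∀ (M : Type) [Field M] [CharZero M] [Countable M] (q : ℕ) (R : Subring (Lx M))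
    (S : Finset M), 0 < q → Rg M q R → SB M q S → (∃ e ∈ II M q, e ≠ 0) → SNF M →
    ∃ ε ∈ II M q, ε ≠ 0 ∧ ∀ w ∈ WW M q, ε * w ∈ II M q

/-! ## The structure of the ring -/

/-- IN (inverses).  PROOF.  `B = BB q S`, `ε = mk ε'` the given element.  For each `w : Lx M` with
`w + m i ≠ 0` for all `i`, some `i` has `ε (w + m i)⁻¹ ∈ II ⊆ St B`.  Suppose that for each
`δ ≠ 0` in `M` there is `g δ ∈ M` with `g δ + m i ≠ 0` and `δ (g δ + m i)⁻¹ ∉ B` for all `i`; then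
`w = mk (fun n => g (ε' n))` contradicts this.  So there is `δ ≠ 0` in `M` such that each `a ∈ M`
has some `i` with `a + m i = 0` or `δ (a + m i)⁻¹ ∈ B`.  Let `w = mk w'`: by `exists_lim` (or
`eventually_or'`) there is one `i` for almost all `n`: `w + m i = 0`, or
`cst δ (w + m i)⁻¹ ∈ St B ⊆ R`, so `(w + m i)⁻¹ ∈ R`. -/
def T_IN : Prop :=
  ∀ (M : Type) [Field M] (q d : ℕ) (R : Subring (Lx M)) (S : Finset M), Rg M q R →
    SB M q S → LWp M q d → (∃ ε ∈ II M q, ε ≠ 0 ∧ ∀ w ∈ WW M q, ε * w ∈ II M q) →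
    ∀ m : Fin d → M, Function.Injective m → ∀ w : Lx M,
      (∃ i, w + cst (m i) = 0) ∨ ∃ i, (w + cst (m i))⁻¹ ∈ R

/-- FM (finitely many maximal ideals).  PROOF.  There are fewer than `d` maximal ideals:
otherwise let `P i`, `i < d`, be different ones; they are pairwise coprime, so (Chinese remainder
theorem, `Ideal.quotientInfRingEquivPiQuotient` or `Ideal.exists_forall_sub_mem_ideal`) there is
`w ∈ R` with `w + m i ∈ P i` for all `i`.  If `w + m i = 0` take `j ≠ i` (`d ≥ 2`):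
`w + m j = m j - m i` is a unit of `R` in `P j`; if `(w + m i)⁻¹ ∈ R` then `w + m i` is a unit in
`P i`. -/
def T_FM : Prop :=
  ∀ (L : Type) [Field L] (R : Subring L) (d : ℕ) (m : Fin d → L), 2 ≤ d → (∀ i, m i ∈ R) →
    (∀ i j, i ≠ j → m i - m j ≠ 0 ∧ (m i - m j)⁻¹ ∈ R) →
    (∀ w ∈ R, (∃ i, w + m i = 0) ∨ ∃ i, (w + m i)⁻¹ ∈ R) → Finite (MaximalSpectrum R)

/-- JC (`I` is the Jacobson radical).  PROOF.  See T_JC in `NST/TA.lean` and its proof
`NST/P_JC.lean` (the proof there uses only the properties listed here; `NST.T_CR` may be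
assumed). -/
def T_JC : Prop :=
  ∀ (L : Type) [Field L] [CharZero L] (R : Subring L) (I : Set L), (0 : L) ∈ I →
    (∀ c : ℕ, 0 < c → ((c : L))⁻¹ ∈ R) → (∀ e ∈ I, e ∈ R) → (∀ e ∈ I, ∀ e' ∈ I, e + e' ∈ I) →
    (∀ b ∈ R, ∀ e ∈ I, b * e ∈ I) → (∀ e ∈ I, (1 + e)⁻¹ ∈ R) → (∃ e ∈ I, e ≠ 0) →
    (1 : L) ∉ I → (∀ b, (∀ e ∈ I, b * e ∈ I) → b ∈ R) → (∀ b ∈ R, b * b ∈ I → b ∈ I) →
    ∀ (n : ℕ) (V : Fin n → ValuationSubring L),
    (∀ x, x ∈ R ↔ ∀ k, x ∈ V k) → (∀ k l, k ≠ l → ¬ V k ≤ V l) →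
    ∀ x, x ∈ I ↔ ∀ k, x ∈ (V k).nonunits

/-- IM (`II` is an intersection of standard sets).  PROOF.  As `NST/P_IM.lean`:
`M = {u 0, u 1, …}`, `D i = {x | ∀ j ≤ i, Hq q (1 + x * u j)}`. -/
def T_IM : Prop :=
  ∀ (M : Type) [Field M] [Countable M] (q : ℕ),
    ∃ D : ℕ → Set M, Antitone D ∧ ∀ x, x ∈ II M q ↔ ∀ i, x ∈ St (D i)

/-- NE (there are nonzero infinitesimals).  The proof is the block of helper51 (`SNX/TN.lean`). -/
def T_NE : Prop :=
  ∀ (M : Type) [Field M] [CharZero M] [Countable M] (q : ℕ), 0 < q → NFp M → SNF M →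
    ∃ e ∈ II M q, e ≠ 0

/-- OP (the engine).  PROOF.  If `Hq q m` for all `m ≠ 0` then `s = ∅` controls: `mk_pow_iff`.
Otherwise V1, C1, RG, S0, NE, V2, DW, DM (so that `d ≥ 2`), LW, TW, IN for `m i = (i : M)`;
FM and `NST.T_V0` give `n, V` (for `V0`: each `w : Lx M` has `m ∈ R` with `w + m ≠ 0`,
`(w + m)⁻¹ ∈ R`: by IN, or, if `w + cst (m i) = 0`, `w` is a constant, take `m = 1 - w`).  JC for
`I = II` (SQ with `T = R` gives radical).  `V k ≠ ⊤` (if `V k = ⊤` then by incomparability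
`n = 1` and `II = {0}`).  IM, `NST.T_SP`: all `V k` are `Mon`.  `s = range V`; if `x - 1` is in
all nonunits then `x - 1 ∈ II`, `Hq q (1 + (x - 1) * cst 1)`. -/
def T_OP : Prop :=
  ∀ (M : Type) [Field M] [CharZero M] [Countable M] (q : ℕ), 0 < q → NFp M → SNF M →
    NST.OpF M q

end SNX
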