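import Pool.Agent.SNX.L_NS
import Pool.Agent.SNX.TE
import Pool.Agent.SNX.F_GN2

/-!
# SNX: the engine applied to the finite extensions of the residue fields
-/

set_option autoImplicit false
set_option linter.unusedSectionVars false

noncomputable section

namespace SNX

open Filter Polynomial NST FirstOrder

theorem p_EN (h1 : NST.T_LI) (h2 : T_OP) : T_EN := by
  intro K _ _ _ _ _ _ _ hS hN W hW k _ _ _ π hπ q hq E _ _ _
  have hc : Countable k := hπ.surj.countable
  have hE : Countable E := by
    let b := Module.finBasis k E
    exact (b.equivFun.toEquiv.injective).countable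
  have h0 : CharZero E := charZero_of_injective_algebraMap (algebraMap k E).injective
  exact h2 E q hq.pos (l_NFp h1 K hN W hW k π hπ E) (l_SNF h1 K hS W hW k π hπ E)

end SNX
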