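import Mathlib

/-!
# SNX-Null: small joint translates exist (ideas row 1925 (2), finite form of row 1957 (B))

`Nul X`: some finite family of points has only a small part in every translate of `X`.
For a relation `E` on an infinite field `F` with the one variable pigeonhole `h1` and NIP `h2`
every finite system of relations `E (y i + l * e) (y i)` has a solution `e ≠ 0` outside a null
set of `y`.
-/

set_option autoImplicit false

noncomputable section

namespace SNX.NE

open Finset

/-- null sets of an abelian group -/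
def Nul {G : Type} [AddCommGroup G] (X : Set G) : Prop :=
  ∀ k : ℕ, ∃ (N : ℕ) (w : Fin N → G), 0 < N ∧
    ∀ g : G, ∀ s : Finset (Fin N), (∀ i ∈ s, w i + g ∈ X) → k * s.card ≤ N

theorem Nul.of_fintype {G : Type} [AddCommGroup G] {X : Set G}
    (h : ∀ k : ℕ, ∃ (ι : Type) (_ : Fintype ι) (w : ι → G), 0 < Fintype.card ι ∧
      ∀ g : G, ∀ s : Finset ι, (∀ i ∈ s, w i + g ∈ X) → k * s.card ≤ Fintype.card ι) : Nul X := by
  intro k
  obtain ⟨ι, _, w, h0, h1⟩ := h k
  let e := Fintype.equivFin ι
  refine ⟨Fintype.card ι, fun i => w (e.symm i), h0, fun g s hs => ?_⟩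
  have := h1 g (s.map e.symm.toEmbedding) (by
    intro i hi
    rw [Finset.mem_map] at hi
    obtain ⟨j, hj, rfl⟩ := hi
    exact hs j hj)
  rwa [Finset.card_map] at this

theorem Nul.mono {G : Type} [AddCommGroup G] {X Y : Set G} (hX : Nul X) (h : Y ⊆ X) : Nul Y := by
  intro k
  obtain ⟨N, w, h0, h1⟩ := hX k
  exact ⟨N, w, h0, fun g s hs => h1 g s fun i hi => h (hs i hi)⟩

theorem Nul.empty {G : Type} [AddCommGroup G] : Nul (∅ : Set G) := by
  intro k
  refine ⟨1, fun _ => 0, one_pos, fun g s hs => ?_⟩
  have : s = ∅ := by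
    ext i
    simp only [Finset.notMem_empty, iff_false]
    intro hi
    exact (Set.mem_empty_iff_false _).1 (hs i hi)
  simp [this]

theorem Nul.union {G : Type} [AddCommGroup G] {X Y : Set G} (hX : Nul X) (hY : Nul Y) :
    Nul (X ∪ Y) := by
  classical
  apply Nul.of_fintype
  intro k
  obtain ⟨N, w, h0, h1⟩ := hX (2 * k)
  obtain ⟨M, v, g0, g1⟩ := hY (2 * k)
  refine ⟨Fin N × Fin M, inferInstance, fun p => w p.1 + v p.2, ?_, fun g s hs => ?_⟩
  · rw [Fintype.card_prod, Fintype.card_fin, Fintype.card_fin]
    exact Nat.mul_pos h0 g0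
  · let s1 := s.filter fun p => w p.1 + v p.2 + g ∈ X
    let s2 := s.filter fun p => w p.1 + v p.2 + g ∈ Y
    have hcov : s ⊆ s1 ∪ s2 := by
      intro p hp
      rcases hs p hp with h | h
      · exact Finset.mem_union_left _ (Finset.mem_filter.2 ⟨hp, h⟩)
      · exact Finset.mem_union_right _ (Finset.mem_filter.2 ⟨hp, h⟩)
    have c0 : s.card ≤ s1.card + s2.card :=
      (Finset.card_le_card hcov).trans (Finset.card_union_le _ _)
    have c1 : 2 * k * s1.card ≤ M * N := by
      have e1 : s1.card = ∑ j : Fin M, (s1.filter fun p => p.2 = j).card :=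
        Finset.card_eq_sum_card_fiberwise fun _ _ => Finset.mem_univ _
      rw [e1, Finset.mul_sum]
      calc ∑ j : Fin M, 2 * k * (s1.filter fun p => p.2 = j).card ≤ ∑ _j : Fin M, N := by
            apply Finset.sum_le_sum
            intro j _
            have e2 : (s1.filter fun p => p.2 = j).card
                = ((s1.filter fun p => p.2 = j).image Prod.fst).card := by
              rw [Finset.card_image_of_injOn]
              intro p hp q hq hpq
              rw [Finset.mem_coe, Finset.mem_filter] at hp hq
              exact Prod.ext hpq (hp.2.trans hq.2.symm)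
            rw [e2]
            apply h1 (v j + g)
            intro i hi
            obtain ⟨p, hp, rfl⟩ := Finset.mem_image.1 hi
            obtain ⟨hp1, rfl⟩ := Finset.mem_filter.1 hp
            have := (Finset.mem_filter.1 hp1).2
            rwa [add_assoc] at this
        _ = M * N := by simp
    have c2 : 2 * k * s2.card ≤ M * N := by
      have e1 : s2.card = ∑ j : Fin N, (s2.filter fun p => p.1 = j).card :=
        Finset.card_eq_sum_card_fiberwise fun _ _ => Finset.mem_univ _
      rw [e1, Finset.mul_sum]
      calc ∑ j : Fin N, 2 * k * (s2.filter fun p => p.1 = j).card ≤ ∑ _j : Fin N, M := by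
            apply Finset.sum_le_sum
            intro j _
            have e2 : (s2.filter fun p => p.1 = j).card
                = ((s2.filter fun p => p.1 = j).image Prod.snd).card := by
              rw [Finset.card_image_of_injOn]
              intro p hp q hq hpq
              rw [Finset.mem_coe, Finset.mem_filter] at hp hq
              exact Prod.ext (hp.2.trans hq.2.symm) hpq
            rw [e2]
            apply g1 (w j + g)
            intro i hi
            obtain ⟨p, hp, rfl⟩ := Finset.mem_image.1 hi
            obtain ⟨hp1, rfl⟩ := Finset.mem_filter.1 hp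
            have := (Finset.mem_filter.1 hp1).2
            rwa [add_comm (w p.1) (v p.2), add_assoc] at this
        _ = M * N := by simp [mul_comm]
    rw [Fintype.card_prod, Fintype.card_fin, Fintype.card_fin]
    nlinarith [Nat.mul_le_mul_left (2 * k) c0]

theorem Nul.biUnion {G κ : Type} [AddCommGroup G] (t : Finset κ) (X : κ → Set G)
    (h : ∀ a ∈ t, Nul (X a)) : Nul {g | ∃ a ∈ t, g ∈ X a} := by
  classical
  induction t using Finset.induction_on with
  | empty =>
    refine Nul.empty.mono ?_
    rintro g ⟨a, ha, -⟩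
    exact absurd ha (Finset.notMem_empty _)
  | insert a t ha ih =>
    have h1 := (h a (Finset.mem_insert_self _ _)).union
      (ih fun b hb => h b (Finset.mem_insert_of_mem hb))
    refine h1.mono ?_
    rintro g ⟨b, hb, hg⟩
    rcases Finset.mem_insert.1 hb with rfl | hb
    · exact Or.inl hg
    · exact Or.inr ⟨b, hb, hg⟩

/-- powers of a set which is not null are not null -/
theorem notNul_pow {G : Type} [AddCommGroup G] {X : Set G} (h : ¬ Nul X) :
    ∃ K : ℕ, ∀ (n : ℕ) (κ : Type) (s : Finset κ) (w : κ → Fin n → G),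
      ∃ g : Fin n → G, ∃ s' ⊆ s, (∀ i ∈ s', ∀ j, w i j + g j ∈ X) ∧ s.card ≤ K ^ n * s'.card := by
  classical
  unfold Nul at h
  push Not at h
  obtain ⟨K, hK⟩ := h
  refine ⟨K, fun n => ?_⟩
  induction n with
  | zero =>
    intro κ s w
    exact ⟨fun i => i.elim0, s, subset_rfl, fun i _ j => j.elim0, by simp⟩
  | succ n ih =>
    intro κ s w
    rcases s.eq_empty_or_nonempty with rfl | hs
    · exact ⟨0, ∅, subset_rfl, fun i hi => absurd hi (Finset.notMem_empty _), by simp⟩
    · let e := s.equivFin
      obtain ⟨g0, t, ht, hc⟩ := hK s.card (fun i => w (e.symm i) 0) (Finset.card_pos.2 hs)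
      let s1 : Finset κ := t.map (e.symm.toEmbedding.trans (Function.Embedding.subtype _))
      have hs1 : s1 ⊆ s := by
        intro a ha
        obtain ⟨i, -, rfl⟩ := Finset.mem_map.1 ha
        exact (e.symm i).2
      have hs1c : s1.card = t.card := Finset.card_map _
      have hs1X : ∀ a ∈ s1, w a 0 + g0 ∈ X := by
        intro a ha
        obtain ⟨i, hi, rfl⟩ := Finset.mem_map.1 ha
        exact ht i hi
      obtain ⟨g, s', hs', h1, h2⟩ := ih κ s1 fun a j => w a j.succ
      refine ⟨Fin.cons g0 g, s', hs'.trans hs1, fun i hi j => ?_, ?_⟩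
      · refine Fin.cases ?_ (fun j => ?_) j
        · simpa using hs1X i (hs' hi)
        · simpa using h1 i hi j
      · calc s.card ≤ K * t.card := hc.le
          _ = K * s1.card := by rw [hs1c]
          _ ≤ K * (K ^ n * s'.card) := Nat.mul_le_mul_left _ h2
          _ = K ^ (n + 1) * s'.card := by ring

section Field

variable {F : Type} [Field F]

/-- bad points of the system `L` -/
def Bad (E : F → F → Prop) {ι : Type} (L : ι → Finset F) : Set (ι → F) :=
  {y | (∀ i, y i ≠ 0) ∧ ∀ e : F, e ≠ 0 → ∃ i, ∃ l ∈ L i, ¬ E (y i + l * e) (y i)}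

/-- pigeonhole: on each line of a given direction only boundedly many points `t` are isolated -/
def H1 (E : F → F → Prop) : Prop :=
  ∀ (r : ℕ) (l : Fin r → F), ∃ k : ℕ, ∀ y : Fin r → F, ∀ s : Finset F,
    (∀ t ∈ s, (∀ i, y i + l i * t ≠ 0) ∧
      ∀ t', t' ≠ t → ∃ i, ¬ E (y i + l i * t') (y i + l i * t)) → s.card ≤ k

/-- NIP -/
def H2 (E : F → F → Prop) : Prop :=
  ∀ (r : ℕ) (L : Fin r → Finset F), ∃ n : ℕ,
    ¬ ∃ (y : Fin n → Fin r → F) (e : Finset (Fin n) → F), (∀ j i, y j i ≠ 0) ∧
      ∀ (S : Finset (Fin n)) (j : Fin n),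
        (∀ i, ∀ l ∈ L i, E (y j i + l * e S) (y j i)) ↔ j ∈ S

/-- every finite system has a null set of bad points -/
theorem nul_Bad [Infinite F] (E : F → F → Prop) (h1 : H1 E) (h2 : H2 E)
    (k : ℕ) (ι : Type) [Fintype ι] (L : ι → Finset F) (hL : ∀ i, (L i).card ≤ k + 1) :
    Nul (Bad E L) := by
  classical
  induction k generalizing ι with
  | zero =>
    -- one translate in every coordinate
    have hl' : ∀ i, ∃ l : F, ∀ l' ∈ L i, l' = l := by
      intro i
      rcases (L i).eq_empty_or_nonempty with h | ⟨l, hl⟩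
      · exact ⟨0, fun l' h' => by rw [h] at h'; exact absurd h' (Finset.notMem_empty _)⟩
      · exact ⟨l, fun l' h' => Finset.card_le_one.1 (hL i) l' h' l hl⟩
    choose l hl2 using hl'
    let e := Fintype.equivFin ι
    obtain ⟨k0, hk0⟩ := h1 (Fintype.card ι) fun i => l (e.symm i)
    apply Nul.of_fintype
    intro k
    let em := Infinite.natEmbedding F
    refine ⟨Fin (k * k0 + 1), inferInstance, fun j i => em j * l i, by simp, fun g s hs => ?_⟩
    rw [Fintype.card_fin]
    have : s.card ≤ k0 := by
      have h3 := hk0 (fun i => g (e.symm i)) (s.image fun j : Fin (k * k0 + 1) => em (j : ℕ)) (by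
        intro t ht
        obtain ⟨j, hj, rfl⟩ := Finset.mem_image.1 ht
        refine ⟨fun i => ?_, fun t' htt' => ?_⟩
        · have h4 := (hs j hj).1 (e.symm i)
          simp only [Pi.add_apply] at h4
          rwa [show em j * l (e.symm i) + g (e.symm i) = g (e.symm i) + l (e.symm i) * em j by
            ring] at h4
        · obtain ⟨i, l', hl', hne⟩ := (hs j hj).2 (t' - em j) (sub_ne_zero.2 htt')
          refine ⟨e i, ?_⟩
          rw [e.symm_apply_apply]
          rw [hl2 i l' hl'] at hne
          simp only [Pi.add_apply] at hne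
          rw [show em j * l i + g i + l i * (t' - em j) = g i + l i * t' by ring,
            show em j * l i + g i = g i + l i * em j by ring] at hne
          exact hne)
      rwa [Finset.card_image_of_injective _ (fun a b h => by
        simpa [Fin.ext_iff] using em.injective h)] at h3
    calc k * s.card ≤ k * k0 := Nat.mul_le_mul_left _ this
      _ ≤ k * k0 + 1 := Nat.le_succ _
  | succ k ih =>
    -- split every `L i`
    have hsplit : ∀ i, ∃ A B : Finset F, L i = A ∪ B ∧ A.card ≤ k + 1 ∧ B.card ≤ k + 1 := by
      intro i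
      rcases (L i).eq_empty_or_nonempty with h | ⟨l, hl⟩
      · exact ⟨∅, ∅, by simp [h], by simp, by simp⟩
      · refine ⟨(L i).erase l, {l}, ?_, ?_, by simp⟩
        · ext x
          simp only [Finset.mem_union, Finset.mem_erase, Finset.mem_singleton]
          by_cases hx : x = l
          · simp [hx, hl]
          · simp [hx]
        · rw [Finset.card_erase_of_mem hl]
          have := hL i
          omega
    choose A B hAB hA hB using hsplit
    by_contra hbad
    obtain ⟨K, hK⟩ := notNul_pow hbad
    let e := Fintype.equivFin ι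
    obtain ⟨n, hn⟩ := h2 (Fintype.card ι) fun i => A (e.symm i)
    apply hn
    -- the systems
    let LS : Finset (Fin n) → Fin n × ι → Finset F := fun S p => if p.1 ∈ S then A p.2 else B p.2
    have hLS : ∀ S, Nul (Bad E (LS S)) := by
      intro S
      apply ih
      intro p
      simp only [LS]
      split_ifs
      · exact hA _
      · exact hB _
    have hU := Nul.biUnion (Finset.univ : Finset (Finset (Fin n))) (fun S => Bad E (LS S))
      fun S _ => hLS S
    obtain ⟨N, w, hN, hw⟩ := hU (K ^ n + 1)
    obtain ⟨g, s', -, hs1, hs2⟩ := hK n (Fin N) Finset.univ fun a j i => w a (j, i)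
    rw [Finset.card_univ, Fintype.card_fin] at hs2
    obtain ⟨a, ha, hna⟩ : ∃ a ∈ s', w a + (fun p : Fin n × ι => g p.1 p.2) ∉
        {y | ∃ S ∈ (Finset.univ : Finset (Finset (Fin n))), y ∈ Bad E (LS S)} := by
      by_contra hcon
      push Not at hcon
      have h3 := hw (fun p : Fin n × ι => g p.1 p.2) s' hcon
      have h4 : 0 < s'.card := by
        rcases Nat.eq_zero_or_pos s'.card with h | h
        · rw [h] at hs2
          omega
        · exact h
      nlinarith
    have hnz : ∀ p : Fin n × ι, w a p + g p.1 p.2 ≠ 0 := fun p => (hs1 a ha p.1).1 p.2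
    -- the solutions
    have hsol : ∀ S : Finset (Fin n), ∃ e : F, e ≠ 0 ∧ ∀ p : Fin n × ι, ∀ l ∈ LS S p,
        E (w a p + g p.1 p.2 + l * e) (w a p + g p.1 p.2) := by
      intro S
      by_contra hcon
      push Not at hcon
      apply hna
      refine ⟨S, Finset.mem_univ _, hnz, fun e he => ?_⟩
      obtain ⟨p, l, hl, hne⟩ := hcon e he
      exact ⟨p, l, hl, hne⟩
    choose eS he0 heS using hsol
    refine ⟨fun j i => w a (j, e.symm i) + g j (e.symm i), eS, fun j i => hnz (j, e.symm i),
      fun S j => ⟨fun h => ?_, fun h => ?_⟩⟩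
    · by_contra hj
      obtain ⟨i, l, hl, hne⟩ := (hs1 a ha j).2 (eS S) (he0 S)
      rw [hAB, Finset.mem_union] at hl
      rcases hl with hl | hl
      · apply hne
        have := h (e i) l (by simpa using hl)
        simpa using this
      · apply hne
        exact heS S (j, i) l (by simpa [LS, hj] using hl)
    · intro i l hl
      exact heS S (j, e.symm i) l (by simpa [LS, h] using hl)

/-- joint small translates -/
theorem exists_small [Infinite F] (E : F → F → Prop) (h1 : H1 E)
    (h2 : H2 E) (L : Finset F) : ∃ y e : F, y ≠ 0 ∧ e ≠ 0 ∧ ∀ l ∈ L, E (y + l * e) y := by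
  classical
  have hN : Nul (Bad E fun _ : Unit => L) :=
    nul_Bad E h1 h2 L.card Unit (fun _ => L) fun _ => by omega
  obtain ⟨N, w, h0, hw⟩ := hN 2
  -- a translate which is not zero
  obtain ⟨t, ht⟩ : ∃ t : F, ∀ i, w i () + t ≠ 0 := by
    obtain ⟨t, ht⟩ := Infinite.exists_notMem_finset (Finset.univ.image fun i => -w i ())
    refine ⟨t, fun i hi => ht ?_⟩
    rw [Finset.mem_image]
    exact ⟨i, Finset.mem_univ _, by linear_combination -hi⟩
  by_contra hcon
  push Not at hcon
  have h3 := hw (fun _ => t) Finset.univ (by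
    intro i _
    refine ⟨fun _ => ht i, fun e he => ?_⟩
    obtain ⟨l, hl, hne⟩ := hcon (w i () + t) e (ht i) he
    exact ⟨(), l, hl, hne⟩)
  rw [Finset.card_univ, Fintype.card_fin] at h3
  omega

end Field

end SNX.NE

end
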