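import Pool.Agent.SNX.PN_PE
import Pool.Agent.SNX.Null

/-!
# SNX: the pigeonhole from strong NIP (ideas row 1925 (1), with the repair 1957 (A))
-/

set_option autoImplicit false

noncomputable section

namespace SNX.NE

open MvPolynomial SNX

variable {F : Type} [Field F]

/-- comparison of digits -/
theorem digits {q m : ℕ} (hq : 0 < q) (hM : Mq F q m) (N i : ℕ) (hi : i < N) (A B : ℕ → F) (z : F)
    (hA : ∀ j < N, A j ≠ 0)
    (heq : ∏ j ∈ Finset.range N, A j ^ q ^ j
      = (∏ j ∈ Finset.range i, B j ^ q ^ j) * B i ^ q ^ i * z ^ q ^ (i + 1))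
    (k : ℕ) (hk : k ≤ i) (hB : ∀ j < k, B j = A j) : HH q m (B k / A k) := by
  -- split the products
  have hL : ∏ j ∈ Finset.range N, A j ^ q ^ j
      = (∏ j ∈ Finset.range k, A j ^ q ^ j) * (A k ^ q ^ k *
        (∏ j ∈ Finset.Ico (k + 1) N, A j ^ q ^ (j - (k + 1))) ^ q ^ (k + 1)) := by
    rw [← Finset.prod_pow, ← Finset.prod_range_mul_prod_Ico _ (show k + 1 ≤ N by omega),
      Finset.prod_range_succ, mul_assoc]
    congr 2
    apply Finset.prod_congr rfl
    intro j hj
    rw [Finset.mem_Ico] at hj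
    rw [← pow_mul, ← pow_add, show j - (k + 1) + (k + 1) = j by omega]
  have hR : (∏ j ∈ Finset.range i, B j ^ q ^ j) * B i ^ q ^ i * z ^ q ^ (i + 1)
      = (∏ j ∈ Finset.range k, B j ^ q ^ j) * (B k ^ q ^ k *
        ((∏ j ∈ Finset.Ico (k + 1) (i + 1), B j ^ q ^ (j - (k + 1))) * z ^ q ^ (i - k))
          ^ q ^ (k + 1)) := by
    rw [← Finset.prod_range_succ (fun j => B j ^ q ^ j), mul_pow, ← Finset.prod_pow,
      ← Finset.prod_range_mul_prod_Ico _ (show k + 1 ≤ i + 1 by omega),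
      Finset.prod_range_succ (fun j => B j ^ q ^ j) k]
    have h1 : (z ^ q ^ (i - k)) ^ q ^ (k + 1) = z ^ q ^ (i + 1) := by
      rw [← pow_mul, ← pow_add, show i - k + (k + 1) = i + 1 by omega]
    have h2 : ∏ j ∈ Finset.Ico (k + 1) (i + 1), (B j ^ q ^ (j - (k + 1))) ^ q ^ (k + 1)
        = ∏ j ∈ Finset.Ico (k + 1) (i + 1), B j ^ q ^ j := by
      apply Finset.prod_congr rfl
      intro j hj
      rw [Finset.mem_Ico] at hj
      rw [← pow_mul, ← pow_add, show j - (k + 1) + (k + 1) = j by omega]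
    rw [h1, h2]
    ring
  set C := ∏ j ∈ Finset.Ico (k + 1) N, A j ^ q ^ (j - (k + 1)) with hC
  set D := (∏ j ∈ Finset.Ico (k + 1) (i + 1), B j ^ q ^ (j - (k + 1))) * z ^ q ^ (i - k) with hD
  have hC0 : C ≠ 0 := by
    rw [hC]
    apply Finset.prod_ne_zero_iff.2
    intro j hj
    rw [Finset.mem_Ico] at hj
    exact pow_ne_zero _ (hA j hj.2)
  have hP : ∏ j ∈ Finset.range k, B j ^ q ^ j = ∏ j ∈ Finset.range k, A j ^ q ^ j :=
    Finset.prod_congr rfl fun j hj => by rw [hB j (Finset.mem_range.1 hj)]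
  have hP0 : ∏ j ∈ Finset.range k, A j ^ q ^ j ≠ 0 := by
    apply Finset.prod_ne_zero_iff.2
    intro j hj
    rw [Finset.mem_range] at hj
    exact pow_ne_zero _ (hA j (by omega))
  rw [hL, hR, hP] at heq
  have heq := mul_left_cancel₀ hP0 heq
  have hAk : A k ≠ 0 := hA k (by omega)
  have hne : A k ^ q ^ k * C ^ q ^ (k + 1) ≠ 0 := mul_ne_zero (pow_ne_zero _ hAk) (pow_ne_zero _ hC0)
  rw [heq] at hne
  have hq' : q ^ k ≠ 0 := (pow_pos hq k).ne'
  have hq'' : q ^ (k + 1) ≠ 0 := (pow_pos hq (k + 1)).ne'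
  have hBk : B k ≠ 0 := by
    intro h0
    apply hne
    rw [h0, zero_pow hq', zero_mul]
  have hD0 : D ≠ 0 := by
    intro h0
    apply hne
    rw [h0, zero_pow hq'', mul_zero]
  have hCD : C / D ≠ 0 := div_ne_zero hC0 hD0
  have h1 : (B k / (A k * (C / D) ^ q)) ^ q ^ k = 1 := by
    rw [div_pow, mul_pow, ← pow_mul, ← pow_succ']
    rw [div_pow]
    have h2 : A k ^ q ^ k ≠ 0 := pow_ne_zero _ hAk
    have h3 : C ^ q ^ (k + 1) ≠ 0 := pow_ne_zero _ hC0
    have h4 : D ^ q ^ (k + 1) ≠ 0 := pow_ne_zero _ hD0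
    field_simp
    linear_combination -heq
  have h2 := hM k _ h1
  have h3 : B k / A k = B k / (A k * (C / D) ^ q) * (C / D) ^ q := by
    have h5 : (C / D) ^ q ≠ 0 := pow_ne_zero _ hCD
    field_simp
  rw [h3]
  exact h2.mul (HH.of_Hq (Hq.of_pow hCD))

/-- the rows of the pattern -/
def Row (q r i : ℕ) (v : Fin r ⊕ (Unit ⊕ (Fin r ⊕ Fin r)) → F) : Prop :=
  ∃ (t : Fin i → F) (z w : Fin r → F), ∀ a : Fin r,
    v (Sum.inl a) = (∏ j : Fin i, (v (Sum.inr (Sum.inr (Sum.inl a)))
      + v (Sum.inr (Sum.inr (Sum.inr a))) * t j) ^ q ^ (j : ℕ))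
      * (v (Sum.inr (Sum.inr (Sum.inl a)))
      + v (Sum.inr (Sum.inr (Sum.inr a))) * v (Sum.inr (Sum.inl ()))) ^ q ^ i * z a ^ q ^ (i + 1)
    ∧ v (Sum.inl a) * w a = 1

theorem per_Row (q r i : ℕ) : PEr (Row (F := F) q r i) := by
  apply PEr.of_fintype (Fin i ⊕ (Fin r ⊕ Fin r)) (Fin r ⊕ Fin r)
    (Sum.elim
      (fun a => X (Sum.inl (Sum.inl a)) - (∏ j : Fin i, (X (Sum.inl (Sum.inr (Sum.inr (Sum.inl a))))
        + X (Sum.inl (Sum.inr (Sum.inr (Sum.inr a)))) * X (Sum.inr (Sum.inl j))) ^ q ^ (j : ℕ))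
        * (X (Sum.inl (Sum.inr (Sum.inr (Sum.inl a))))
        + X (Sum.inl (Sum.inr (Sum.inr (Sum.inr a)))) * X (Sum.inl (Sum.inr (Sum.inl ()))))
          ^ q ^ i * X (Sum.inr (Sum.inr (Sum.inl a))) ^ q ^ (i + 1))
      (fun a => X (Sum.inl (Sum.inl a)) * X (Sum.inr (Sum.inr (Sum.inr a))) - 1))
  intro v
  constructor
  · rintro ⟨t, z, w, h⟩
    refine ⟨Sum.elim t (Sum.elim z w), ?_⟩
    rintro (a | a)
    · simp only [Sum.elim_inl, map_sub, map_mul, map_pow, map_prod, map_add, aeval_X,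
        Sum.elim_inr]
      rw [← (h a).1, sub_self]
    · simp only [Sum.elim_inl, map_sub, map_mul, aeval_X, Sum.elim_inr, map_one]
      rw [(h a).2, sub_self]
  · rintro ⟨u, hu⟩
    refine ⟨fun j => u (Sum.inl j), fun a => u (Sum.inr (Sum.inl a)),
      fun a => u (Sum.inr (Sum.inr a)), fun a => ⟨?_, ?_⟩⟩
    · have := hu (Sum.inl a)
      simp only [Sum.elim_inl, map_sub, map_mul, map_pow, map_prod, map_add, aeval_X,
        Sum.elim_inr] at this
      exact sub_eq_zero.1 this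
    · have := hu (Sum.inr a)
      simp only [Sum.elim_inl, map_sub, map_mul, aeval_X, Sum.elim_inr, map_one] at this
      exact sub_eq_zero.1 this

/-- pigeonhole -/
theorem h1_of_SNF {q m : ℕ} (hq : 0 < q) (hM : Mq F q m) (hS : SNF F) :
    H1 (F := F) fun x y => HH q m (x / y) := by
  classical
  intro r l
  obtain ⟨N, hN⟩ := hS.fintype (Fin r) (fun _ => Unit ⊕ (Fin r ⊕ Fin r))
    (fun i => Row q r i) fun i => per_Row q r i
  refine ⟨N, fun y s hs => ?_⟩
  by_contra hcard
  push Not at hcard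
  -- distinct elements
  let τ : ℕ → F := fun j => if h : j < s.card then (s.equivFin.symm ⟨j, h⟩ : F) else 0
  have hτs : ∀ j < N, τ j ∈ s := by
    intro j hj
    have h : j < s.card := by omega
    simp only [τ, dif_pos h]
    exact (s.equivFin.symm ⟨j, h⟩).2
  have hτi : ∀ i < N, ∀ j < N, τ i = τ j → i = j := by
    intro i hi j hj h
    have h1 : i < s.card := by omega
    have h2 : j < s.card := by omega
    simp only [τ, dif_pos h1, dif_pos h2] at h
    have := s.equivFin.symm.injective (Subtype.ext h)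
    simpa using this
  obtain ⟨η, hη, hx⟩ := hN fun _ j => Sum.elim (fun _ => τ j) (Sum.elim y l)
  -- the point
  let A : Fin r → ℕ → F := fun a j => y a + l a * τ (η j)
  have hA : ∀ a j, A a j ≠ 0 := fun a j => (hs _ (hτs _ (hη j))).1 a
  apply hx fun a => ∏ j ∈ Finset.range N, A a j ^ q ^ j
  intro i hi j hj
  constructor
  · -- exactness
    rintro ⟨t, z, w, h⟩
    let t' : ℕ → F := fun k => if hk : k < i then t ⟨k, hk⟩ else τ j
    have ht' : ∀ a, ∏ k ∈ Finset.range N, A a k ^ q ^ k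
        = (∏ k ∈ Finset.range i, (y a + l a * t' k) ^ q ^ k) * (y a + l a * t' i) ^ q ^ i
          * z a ^ q ^ (i + 1) := by
      intro a
      have h1 := (h a).1
      simp only [Sum.elim_inl, Sum.elim_inr] at h1
      rw [h1]
      congr 2
      · rw [← Fin.prod_univ_eq_prod_range (fun k => (y a + l a * t' k) ^ q ^ k) i]
        apply Finset.prod_congr rfl
        intro k _
        simp [t']
      · simp [t']
    have key : ∀ k, k ≤ i → t' k = τ (η k) := by
      intro k
      induction k using Nat.strong_induction_on with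
      | _ k ih =>
        intro hk
        by_contra hne
        obtain ⟨a, ha⟩ := (hs _ (hτs _ (hη k))).2 (t' k) hne
        apply ha
        refine digits hq hM N i hi (A a) (fun k => y a + l a * t' k) (z a) (fun j _ => hA a j)
          (ht' a) k hk ?_
        intro k' hk'
        simp only [A]
        rw [ih k' hk' (by omega)]
    have h2 := key i le_rfl
    have h3 : t' i = τ j := by simp [t']
    rw [h3] at h2
    exact hτi j hj (η i) (hη i) h2
  · rintro rfl
    refine ⟨fun k => τ (η k), fun a => ∏ k ∈ Finset.Ico (i + 1) N, A a k ^ q ^ (k - (i + 1)),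
      fun a => (∏ j ∈ Finset.range N, A a j ^ q ^ j)⁻¹, fun a => ⟨?_, ?_⟩⟩
    · simp only [Sum.elim_inl, Sum.elim_inr]
      rw [← Finset.prod_pow, ← Finset.prod_range_mul_prod_Ico _ (show i + 1 ≤ N by omega),
        Finset.prod_range_succ]
      congr 1
      · congr 1
        rw [← Fin.prod_univ_eq_prod_range (fun k => A a k ^ q ^ k) i]
      · apply Finset.prod_congr rfl
        intro k hk
        rw [Finset.mem_Ico] at hk
        rw [← pow_mul, ← pow_add, show k - (i + 1) + (i + 1) = k by omega]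
    · simp only [Sum.elim_inl]
      apply mul_inv_cancel₀
      apply Finset.prod_ne_zero_iff.2
      intro k _
      exact pow_ne_zero _ (hA a k)

end SNX.NE

end
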