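import Pool.Agent.SNX.PN_PE
import Pool.Agent.SNX.Null

/-!
# SNX: NIP for systems of power class relations
-/

set_option autoImplicit false

noncomputable section

namespace SNX.NE

open MvPolynomial SNX

variable {F : Type} [Field F]

/-- the relation; `κ` is the set of the pairs (coordinate, translate) -/
def Rl (q m r : ℕ) (κ : Type) (f : κ → Fin r) (v : Unit ⊕ (Fin r ⊕ κ) → F) : Prop :=
  ∃ ξ u w : κ → F, ∀ p : κ, ξ p ^ q ^ m = 1 ∧
    v (Sum.inr (Sum.inl (f p))) + v (Sum.inr (Sum.inr p)) * v (Sum.inl ())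
      = ξ p * u p ^ q * v (Sum.inr (Sum.inl (f p))) ∧
    (v (Sum.inr (Sum.inl (f p))) + v (Sum.inr (Sum.inr p)) * v (Sum.inl ())) * w p = 1

theorem per_Rl (q m r : ℕ) (κ : Type) [Fintype κ] (f : κ → Fin r) :
    PEr (Rl (F := F) q m r κ f) := by
  apply PEr.of_fintype (κ ⊕ (κ ⊕ κ)) (κ ⊕ (κ ⊕ κ))
    (Sum.elim (fun p => X (Sum.inr (Sum.inl p)) ^ q ^ m - 1)
      (Sum.elim
        (fun p => X (Sum.inl (Sum.inr (Sum.inl (f p))))
          + X (Sum.inl (Sum.inr (Sum.inr p))) * X (Sum.inl (Sum.inl ()))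
          - X (Sum.inr (Sum.inl p)) * X (Sum.inr (Sum.inr (Sum.inl p))) ^ q
            * X (Sum.inl (Sum.inr (Sum.inl (f p)))))
        (fun p => (X (Sum.inl (Sum.inr (Sum.inl (f p))))
          + X (Sum.inl (Sum.inr (Sum.inr p))) * X (Sum.inl (Sum.inl ())))
          * X (Sum.inr (Sum.inr (Sum.inr p))) - 1)))
  intro v
  constructor
  · rintro ⟨ξ, u, w, h⟩
    refine ⟨Sum.elim ξ (Sum.elim u w), ?_⟩
    rintro (p | p | p)
    · simp only [Sum.elim_inl, map_sub, map_pow, aeval_X, Sum.elim_inr, map_one]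
      rw [(h p).1, sub_self]
    · simp only [Sum.elim_inl, map_sub, map_mul, map_pow, map_add, aeval_X, Sum.elim_inr]
      rw [(h p).2.1, sub_self]
    · simp only [Sum.elim_inl, map_sub, map_mul, map_add, aeval_X, Sum.elim_inr, map_one]
      rw [(h p).2.2, sub_self]
  · rintro ⟨z, hz⟩
    refine ⟨fun p => z (Sum.inl p), fun p => z (Sum.inr (Sum.inl p)),
      fun p => z (Sum.inr (Sum.inr p)), fun p => ⟨?_, ?_, ?_⟩⟩
    · have := hz (Sum.inl p)
      simp only [Sum.elim_inl, map_sub, map_pow, aeval_X, Sum.elim_inr, map_one] at this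
      exact sub_eq_zero.1 this
    · have := hz (Sum.inr (Sum.inl p))
      simp only [Sum.elim_inl, map_sub, map_mul, map_pow, map_add, aeval_X, Sum.elim_inr] at this
      exact sub_eq_zero.1 this
    · have := hz (Sum.inr (Sum.inr p))
      simp only [Sum.elim_inl, map_sub, map_mul, map_add, aeval_X, Sum.elim_inr, map_one] at this
      exact sub_eq_zero.1 this

theorem h2_of_NFp {q m : ℕ} (hN : NFp F) : H2 (F := F) fun x y => HH q m (x / y) := by
  classical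
  intro r L
  let κ : Type := Σ i : Fin r, L i
  obtain ⟨n, hn⟩ := hN.fintype Unit (Fin r ⊕ κ) (Rl q m r κ fun p => p.1)
    (per_Rl q m r κ fun p => p.1)
  refine ⟨n, ?_⟩
  rintro ⟨y, e, hy0, h⟩
  obtain ⟨S, hS⟩ := hn fun j => Sum.elim (y j) fun p => (p.2 : F)
  apply hS fun _ => e S
  intro j
  rw [← h S j]
  constructor
  · rintro ⟨ξ, u, w, hR⟩ i l hl
    obtain ⟨h1, h2, h3⟩ := hR ⟨i, ⟨l, hl⟩⟩
    simp only [Sum.elim_inr, Sum.elim_inl] at h2 h3
    have hne : y j i + l * e S ≠ 0 := by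
      intro h0
      rw [h0, zero_mul] at h3
      exact zero_ne_one h3
    refine ⟨div_ne_zero hne (hy0 j i), ξ ⟨i, ⟨l, hl⟩⟩, u ⟨i, ⟨l, hl⟩⟩, h1, ?_⟩
    rw [h2, mul_div_assoc, div_self (hy0 j i), mul_one]
  · intro hR
    have h1 : ∀ p : κ, ∃ ξ u : F, ξ ^ q ^ m = 1 ∧
        (y j p.1 + (p.2 : F) * e S) / y j p.1 = ξ * u ^ q := fun p => (hR p.1 p.2 p.2.2).2
    choose ξ u h1 h2 using h1
    refine ⟨ξ, u, fun p => (y j p.1 + (p.2 : F) * e S)⁻¹, fun p => ⟨h1 p, ?_, ?_⟩⟩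
    · simp only [Sum.elim_inr, Sum.elim_inl]
      rw [← h2 p, div_mul_cancel₀ _ (hy0 j p.1)]
    · simp only [Sum.elim_inr, Sum.elim_inl]
      apply mul_inv_cancel₀
      have h3 := (hR p.1 p.2 p.2.2).ne
      intro h0
      rw [h0, zero_div] at h3
      exact h3 rfl

end SNX.NE

end
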