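import Pool.Agent.SNX.Defs

/-!
# SNX: roots of unity of `q`-power order modulo `q`-th powers
-/

set_option autoImplicit false

noncomputable section

namespace SNX

variable {F : Type} [Field F]

/-- among `q + 1` roots of unity of `q`-power order two differ by a `q`-th power -/
theorem card_le_of_roots {q : ℕ} (hq : 0 < q) (m : ℕ) (s : Finset F)
    (hs : ∀ ξ ∈ s, ξ ^ q ^ m = 1)
    (hp : ∀ ξ ∈ s, ∀ ξ' ∈ s, ξ ≠ ξ' → ¬ ∃ y, y ≠ 0 ∧ ξ = ξ' * y ^ q) : s.card ≤ q := by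
  classical
  have : NeZero (q ^ m) := ⟨(pow_pos hq m).ne'⟩
  have : NeZero q := ⟨hq.ne'⟩
  obtain ⟨g, hg⟩ := IsCyclic.exists_generator (α := rootsOfUnity (q ^ m) F)
  have h1 : ∀ ξ : s, ∃ a : ℤ, (ξ : F) = ((g : Fˣ) : F) ^ a := by
    intro ξ
    obtain ⟨a, ha⟩ := hg (rootsOfUnity.mkOfPowEq (ξ : F) (hs ξ ξ.2))
    refine ⟨a, ?_⟩
    have h2 : ((rootsOfUnity.mkOfPowEq (ξ : F) (hs ξ ξ.2) : rootsOfUnity (q ^ m) F) : Fˣ)
        = (g : Fˣ) ^ a := by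
      rw [← ha]
      rfl
    have h3 := congrArg (fun u : Fˣ => (u : F)) h2
    simpa using h3
  choose a ha using h1
  have hinj : Function.Injective fun ξ : s => ((a ξ : ℤ) : ZMod q) := by
    intro ξ ξ' h
    by_contra hne
    have h4 := (ZMod.intCast_eq_intCast_iff_dvd_sub _ _ _).1 h
    obtain ⟨c, hc⟩ := h4
    apply hp (ξ' : F) ξ'.2 (ξ : F) ξ.2 (fun h' => hne (Subtype.ext h'.symm))
    refine ⟨((g : Fˣ) : F) ^ c, zpow_ne_zero _ (g : Fˣ).ne_zero, ?_⟩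
    rw [ha ξ, ha ξ', ← zpow_natCast, ← zpow_mul, ← zpow_add₀ (g : Fˣ).ne_zero]
    congr 1
    linarith [mul_comm (q : ℤ) c]
  have h5 := Fintype.card_le_of_injective _ hinj
  rwa [Fintype.card_coe, ZMod.card] at h5

theorem exists_Mq {q : ℕ} (hq : 0 < q) : ∃ m, Mq F q m := by
  classical
  -- a maximal set
  let Pr : Finset F → Prop := fun s => (∃ m, ∀ ξ ∈ s, ξ ^ q ^ m = 1) ∧
    ∀ ξ ∈ s, ∀ ξ' ∈ s, ξ ≠ ξ' → ¬ ∃ y, y ≠ 0 ∧ ξ = ξ' * y ^ q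
  have hb : ∀ s, Pr s → s.card ≤ q := by
    rintro s ⟨⟨m, hm⟩, hp⟩
    exact card_le_of_roots hq m s hm hp
  obtain ⟨s, hs, hmax⟩ : ∃ s, Pr s ∧ ∀ s', Pr s' → s'.card ≤ s.card := by
    let Q : ℕ → Prop := fun n => ∃ s, Pr s ∧ s.card = n
    have h0 : Q 0 := ⟨∅, ⟨⟨0, fun ξ hξ => absurd hξ (Finset.notMem_empty _)⟩,
      fun ξ hξ => absurd hξ (Finset.notMem_empty _)⟩, rfl⟩
    have h1 := Nat.findGreatest_spec (P := Q) (Nat.zero_le q) h0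
    obtain ⟨s, hs, hsc⟩ := h1
    refine ⟨s, hs, fun s' hs' => ?_⟩
    rw [hsc]
    exact Nat.le_findGreatest (hb s' hs') ⟨s', hs', rfl⟩
  obtain ⟨⟨m, hm⟩, hp⟩ := hs
  refine ⟨m, fun k ξ hξ => ?_⟩
  have hξ0 : ξ ≠ 0 := by
    rintro rfl
    rw [zero_pow (pow_pos hq k).ne'] at hξ
    exact zero_ne_one hξ
  refine ⟨hξ0, ?_⟩
  by_cases hmem : ξ ∈ s
  · exact ⟨ξ, 1, hm ξ hmem, by simp⟩
  by_contra hcon
  push Not at hcon
  have hno : ∀ ξ' ∈ s, ¬ ∃ y, y ≠ 0 ∧ ξ = ξ' * y ^ q := by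
    rintro ξ' hξ' ⟨y, -, hy⟩
    exact hcon ξ' y (hm ξ' hξ') hy
  have hno' : ∀ ξ' ∈ s, ¬ ∃ y, y ≠ 0 ∧ ξ' = ξ * y ^ q := by
    rintro ξ' hξ' ⟨y, hy0, hy⟩
    apply hno ξ' hξ'
    refine ⟨y⁻¹, inv_ne_zero hy0, ?_⟩
    rw [hy, inv_pow, mul_assoc, mul_inv_cancel₀ (pow_ne_zero _ hy0), mul_one]
  have hnew : Pr (insert ξ s) := by
    refine ⟨⟨max m k, ?_⟩, ?_⟩
    · intro ξ' hξ'
      rcases Finset.mem_insert.1 hξ' with rfl | h
      · obtain ⟨c, hc⟩ := pow_dvd_pow q (le_max_right m k)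
        rw [hc, pow_mul, hξ, one_pow]
      · obtain ⟨c, hc⟩ := pow_dvd_pow q (le_max_left m k)
        rw [hc, pow_mul, hm _ h, one_pow]
    · intro ξ1 h1 ξ2 h2 hne
      rcases Finset.mem_insert.1 h1 with e1 | g1
      · rcases Finset.mem_insert.1 h2 with e2 | g2
        · exact absurd (e1.trans e2.symm) hne
        · rw [e1]
          exact hno ξ2 g2
      · rcases Finset.mem_insert.1 h2 with e2 | g2
        · rw [e2]
          exact hno' ξ1 g1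
        · exact hp ξ1 g1 ξ2 g2 hne
  have := hmax _ hnew
  rw [Finset.card_insert_of_notMem hmem] at this
  omega

end SNX

end
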