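import Pool.Agent.SNX.TN
import Pool.Agent.SNX.PN_MQ
import Pool.Agent.SNX.PN_H1
import Pool.Agent.SNX.PN_H2
import Pool.Agent.NST.P_G0

/-!
# SNX-NE: nonzero infinitesimals exist
-/

set_option autoImplicit false

noncomputable section

namespace SNX

open Filter NST

namespace NE

variable {M : Type} [Field M]

theorem HH_mk {q m : ℕ} {x : ℕ → M} (h : ∀ᶠ n in (Uf : Filter ℕ), HH q m (x n)) :
    HH q m (mk x) := by
  classical
  have h1 : ∀ n, ∃ ξ y : M, HH q m (x n) → (ξ ^ q ^ m = 1 ∧ x n = ξ * y ^ q) := by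
    intro n
    by_cases hn : HH q m (x n)
    · obtain ⟨-, ξ, y, h2⟩ := hn
      exact ⟨ξ, y, fun _ => h2⟩
    · exact ⟨0, 0, fun h => absurd h hn⟩
  choose ξ y h1 using h1
  refine ⟨mk_ne_zero.2 (h.mono fun n hn => hn.ne), mk ξ, mk y, ?_, ?_⟩
  · rw [mk_pow, mk_one, mk_eq]
    exact h.mono fun n hn => (h1 n hn).1
  · rw [mk_pow, mk_mul, mk_eq]
    exact h.mono fun n hn => (h1 n hn).2

/-- saturation -/
theorem sat [Countable M] [Infinite M] (G : M → Prop) (G2 : Lx M → Prop)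
    (hG : ∀ x : ℕ → M, (∀ᶠ n in (Uf : Filter ℕ), G (x n)) → G2 (mk x))
    (h : ∀ T : Finset M, ∃ e : M, e ≠ 0 ∧ ∀ t ∈ T, G (1 + e * t)) :
    ∃ e : Lx M, e ≠ 0 ∧ ∀ u : M, G2 (1 + e * cst u) := by
  classical
  obtain ⟨f, hf⟩ := exists_surjective_nat M
  choose e he0 he using fun n : ℕ => h ((Finset.range (n + 1)).image f)
  refine ⟨mk e, mk_ne_zero.2 (Eventually.of_forall he0), fun u => ?_⟩
  obtain ⟨k, rfl⟩ := hf u
  have h1 : (1 : Lx M) + mk e * cst (f k) = mk fun n => 1 + e n * f k := rfl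
  rw [h1]
  apply hG
  filter_upwards [eventually_ge k] with n hn
  exact he n (f k) (Finset.mem_image.2 ⟨k, Finset.mem_range.2 (by omega), rfl⟩)

end NE

open SNX.NE

theorem n_NE : T_NE := by
  classical
  intro M _ _ _ q hq hN hS
  have : Infinite M := inferInstance
  obtain ⟨m, hm⟩ := exists_Mq (F := M) hq
  -- joint small translates
  have h1 : ∀ T : Finset M, ∃ e : M, e ≠ 0 ∧ ∀ t ∈ T, HH q m (1 + e * t) := by
    intro T
    obtain ⟨y, e, hy, he, h⟩ := exists_small (fun x y => HH q m (x / y)) (h1_of_SNF hq hm hS)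
      (h2_of_NFp hN) T
    refine ⟨e / y, div_ne_zero he hy, fun t ht => ?_⟩
    have h2 : (y + t * e) / y = 1 + e / y * t := by
      field_simp
    rw [← h2]
    exact h t ht
  obtain ⟨e, he, hHH⟩ := sat (fun x : M => HH q m x) (fun x : Lx M => HH q m x)
    (fun x hx => HH_mk hx) h1
  -- the finite group of the roots of unity
  let κ : Type := {ξ : Lx M // ξ ^ q ^ m = 1}
  have : Finite κ := by
    have h2 : {ξ : Lx M | ξ ^ q ^ m = 1}.Finite := by
      refine ((Polynomial.nthRoots (q ^ m) (1 : Lx M)).toFinset.finite_toSet).subset ?_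
      intro ξ hξ
      rw [Finset.mem_coe, Multiset.mem_toFinset, Polynomial.mem_nthRoots (pow_pos hq m)]
      exact hξ
    exact h2.to_subtype
  have h2 : ∀ u : M, ∃ ξ : κ, ∃ y : Lx M, y ≠ 0 ∧ 1 + e * cst u = (ξ : Lx M) * y ^ q := by
    intro u
    obtain ⟨h0, ξ, y, h3, h4⟩ := hHH u
    refine ⟨⟨ξ, h3⟩, y, ?_, h4⟩
    rintro rfl
    apply h0
    rw [h4, zero_pow hq.ne', mul_zero]
  choose C y hy0 hC using h2
  have h3 : ∀ T : Finset M, ∃ e' : M, e' ≠ 0 ∧ ∀ t ∈ T, Hq q (1 + e' * t) := by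
    intro T
    obtain ⟨b, n, hn, hb⟩ := p_G0 M κ C T
    have hb0 : (1 : Lx M) + e * cst b ≠ 0 := (hHH b).ne
    let e' : Lx M := e * (n : Lx M) / (1 + e * cst b)
    have he' : e' ≠ 0 := by
      refine div_ne_zero (mul_ne_zero he ?_) hb0
      exact_mod_cast hn.ne'
    have h5 : ∀ t ∈ T, Hq q (1 + e' * cst t) := by
      intro t ht
      have h6 : 1 + e' * cst t = (1 + e * cst (b + n * t)) / (1 + e * cst b) := by
        rw [cst_add, cst_mul, cst_natCast]
        simp only [e']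
        field_simp
        ring
      have h7 : (C b : Lx M) ≠ 0 := by
        intro h8
        have := (C b).2
        rw [h8, zero_pow (pow_pos hq m).ne'] at this
        exact zero_ne_one this
      rw [h6, hC, hC b, hb t ht, mul_div_mul_left _ _ h7]
      exact (Hq.of_pow (hy0 _)).div (Hq.of_pow (hy0 _))
    obtain ⟨f, hf⟩ := exists_mk e'
    rw [← hf] at he' h5
    have h8 : ∀ t ∈ T, ∀ᶠ n in (Uf : Filter ℕ), Hq q (1 + f n * t) := by
      intro t ht
      exact Hq_mk.1 (h5 t ht)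
    have h9 : ∀ᶠ n in (Uf : Filter ℕ), ∀ t ∈ T, Hq q (1 + f n * t) :=
      (Finset.eventually_all T).2 h8
    obtain ⟨n, hn1, hn2⟩ := ((mk_ne_zero.1 he').and h9).exists
    exact ⟨f n, hn1, hn2⟩
  obtain ⟨e', he', h4⟩ := sat (fun x : M => Hq q x) (fun x : Lx M => Hq q x)
    (fun x hx => Hq_mk.2 hx) h3
  exact ⟨e', h4, he'⟩

end SNX

end
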