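import Pool.Agent.SNX.TE
import Pool.Agent.NST.TA

/-!
# SNX, C1: the infinitesimals are bounded
-/

set_option autoImplicit false

noncomputable section

namespace SNX

open Filter Polynomial NST

theorem p_C1 (h1 : T_L1L) (h2 : T_L2L) (h3 : NST.T_GB) : T_C1 := by
  classical
  intro M _ _ q d hV hN e he e' he'
  by_cases h0 : e = 0
  · rw [h0, zero_mul, add_zero]
    exact Hq.one
  obtain ⟨a, haa⟩ : ∃ a, a = e⁻¹ := ⟨_, rfl⟩
  have ha0 : a ≠ 0 := by rw [haa]; exact inv_ne_zero h0
  have hea : a * e = 1 := by rw [haa, inv_mul_cancel₀ h0]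
  have hav : ∀ v : M, Hq q ((a + cst v) / a) := by
    intro v
    have : (a + cst v) / a = 1 + e * cst v := by
      rw [div_eq_iff ha0]
      linear_combination (-cst v) * hea
    rw [this]
    exact he v
  have hane : ∀ v : M, a + cst v ≠ 0 := by
    intro v h
    have := (hav v).ne
    rw [h, zero_div] at this
    exact this rfl
  obtain ⟨w, hww⟩ : ∃ w, w = a + e' := ⟨_, rfl⟩
  have hwe : w / a = 1 + e * e' := by
    rw [hww, div_eq_iff ha0]
    linear_combination (-e') * hea
  have hw : ∀ v : M, w + cst v ≠ 0 := by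
    intro v hv
    have hE : e' = -cst v - a := by
      rw [hww] at hv
      linear_combination hv
    have hr : ∀ r : M, r ≠ 0 → Hq q (cst r * a) := by
      intro r hr
      have hcr : cst r ≠ 0 := cst_ne_zero hr
      have h4 := he' (-r)
      have h5 : (1 : Lx M) + e' * cst (-r) =
          cst r * a * ((a + cst ((1 + r * v) / r)) / a) := by
        rw [hE, cst_neg, cst_div, cst_add, cst_mul, cst_one]
        field_simp
        ring
      rw [h5] at h4
      exact (Hq.mul_iff (hav _)).1 h4
    have hqa : Hq q a := by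
      have := hr 1 one_ne_zero
      rwa [cst_one, one_mul] at this
    obtain ⟨m, hm, hm1⟩ := hN
    exact hm1 (Hq_cst.1 ((Hq.mul_iff hqa).1 (hr m hm)))
  rw [← hwe]
  by_contra hne
  obtain ⟨U, hU⟩ := h1 M q d hV
  obtain ⟨Q, hQ0, hQ⟩ := h2 M q d hV
  let T : Finset M := Finset.image₂ (fun u P => u * P⁻¹) U Q
  let C : M → (Q → Prop) := fun m P => Hq q ((w + cst (m * (P : M))) / a)
  obtain ⟨e0, e1, g0, g1, g2⟩ := h3 M (Q → Prop) C T
  have claim : ∀ m : M, Good C T m → ∀ P ∈ Q, Hq q ((w + cst (m * P)) / a) := by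
    rintro m ⟨n, hn, hg⟩ P hP
    by_contra hgc
    have hP0 := hQ0 P hP
    have hnM : (n : M) ≠ 0 := Nat.cast_ne_zero.2 hn.ne'
    have hN0 : cst (n : M) ≠ 0 := cst_ne_zero hnM
    have hA := hane (m * P)
    refine hU ((a + cst (m * P)) / cst (n : M)) (e' / cst (n : M)) ?_
    intro u hu
    have huT : u * P⁻¹ ∈ T := Finset.mem_image₂_of_mem hu hP
    have h4 : Hq q ((w + cst ((m + n * (u * P⁻¹)) * P)) / a) = Hq q ((w + cst (m * P)) / a) :=
      congrFun (hg _ huT) ⟨P, hP⟩
    have h5 : (m + n * (u * P⁻¹)) * P = m * P + n * u := by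
      field_simp
    rw [h5] at h4
    have h6 : (a + cst (m * P)) / cst (n : M) + e' / cst (n : M) + cst u =
        (w + cst (m * P + n * u)) / cst (n : M) := by
      rw [hww, cst_add (m * P), cst_mul (n : M) u]
      field_simp
      ring
    refine ⟨?_, ?_, ?_, ?_⟩
    · have : ((a + cst (m * P)) / cst (n : M) + cst u) / ((a + cst (m * P)) / cst (n : M)) =
          ((a + cst (m * P + n * u)) / a) / ((a + cst (m * P)) / a) := by
        rw [cst_add (m * P) (n * u), cst_mul (n : M) u]
        field_simp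
        ring
      rw [this]
      exact (hav _).div (hav _)
    · have : (1 : Lx M) + e' / cst (n : M) * cst u = 1 + e' * cst (u / n) := by
        rw [cst_div]
        ring
      rw [this]
      exact he' _
    · rw [h6]
      exact div_ne_zero (hw _) hN0
    · rw [h6]
      intro h7
      have h8 := h7.mul (hav (m * P))
      have h9 : (w + cst (m * P + n * u)) / cst (n : M) / ((a + cst (m * P)) / cst (n : M)) *
          ((a + cst (m * P)) / a) = (w + cst (m * P + n * u)) / a := by
        field_simp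
      rw [h9] at h8
      exact hgc (h4 ▸ h8)
  refine hQ w a e0 e1 ⟨?_, ha0, hne,
    fun P hP => ⟨claim _ g0 P hP, claim _ g1 P hP, claim _ g2 P hP⟩⟩
  have := hw 0
  rwa [cst_zero, add_zero] at this

end SNX
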