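import Pool.Agent.SNX.TE

/-!
# SNX: towers (CN)
-/

set_option autoImplicit false
set_option linter.unusedSectionVars false

noncomputable section

namespace SNX

open Filter Polynomial NST

namespace CN_

variable {M : Type} [Field M]

/-- the states of the recursion -/
def Good (q : ℕ) (R : Subring (Lx M)) (p : Lx M × Lx M) : Prop :=
  p.1 ∈ II M q ∧ p.1 ≠ 0 ∧ p.1 * p.2 ∉ R ∧ ∀ r ∈ R, r * p.2 * p.1 ∈ R → r * p.2 ∈ R

theorem step {q : ℕ} {R : Subring (Lx M)} (hR : Rg M q R)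
    (hFR : ∀ v : Lx M, ∃ ε ∈ II M q, ε ≠ 0 ∧ ε * v ∈ II M q)
    (hv : ∀ e ∈ II M q, e ≠ 0 → ∃ v : Lx M, e * v ∉ R ∧ ∀ r ∈ R, r * v * e ∈ R → r * v ∈ R)
    (p : {p : Lx M × Lx M // Good q R p}) :
    ∃ p' : {p : Lx M × Lx M // Good q R p}, ∃ ε : Lx M, ε ∈ II M q ∧ ε * p.1.2 ∈ II M q ∧
      p'.1.1 = p.1.1 * ε := by
  obtain ⟨⟨e, v⟩, he, he0, h1, h2⟩ := p
  obtain ⟨ε, hε, hε0, hεv⟩ := hFR v
  have he' : e * ε ∈ II M q := hR.mul _ (hR.sub _ he) _ hε
  obtain ⟨v', hv1, hv2⟩ := hv _ he' (mul_ne_zero he0 hε0)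
  exact ⟨⟨(e * ε, v'), he', mul_ne_zero he0 hε0, hv1, hv2⟩, ε, hε, hεv, rfl⟩

theorem seqs {q : ℕ} {R : Subring (Lx M)} (hR : Rg M q R)
    (hne : ∃ e ∈ II M q, e ≠ 0)
    (hFR : ∀ v : Lx M, ∃ ε ∈ II M q, ε ≠ 0 ∧ ε * v ∈ II M q)
    (hv : ∀ e ∈ II M q, e ≠ 0 → ∃ v : Lx M, e * v ∉ R ∧ ∀ r ∈ R, r * v * e ∈ R → r * v ∈ R) :
    ∃ e v : ℕ → Lx M, (∀ j, e j ∈ II M q ∧ e j ≠ 0 ∧ e j * v j ∉ R ∧
      ∀ r ∈ R, r * v j * e j ∈ R → r * v j ∈ R) ∧
      ∀ j, ∃ ε : Lx M, ε ∈ II M q ∧ ε * v j ∈ II M q ∧ e (j + 1) = e j * ε := by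
  choose nx hnx using step hR hFR hv
  obtain ⟨e0, he0, hne0⟩ := hne
  obtain ⟨v0, hv1, hv2⟩ := hv e0 he0 hne0
  set s : ℕ → {p : Lx M × Lx M // Good q R p} :=
    fun n => Nat.rec ⟨(e0, v0), he0, hne0, hv1, hv2⟩ (fun _ p => nx p) n with hs
  refine ⟨fun j => (s j).1.1, fun j => (s j).1.2, fun j => (s j).2, fun j => ?_⟩
  exact hnx (s j)

theorem ratio {q : ℕ} {R : Subring (Lx M)} (hR : Rg M q R) {e v : ℕ → Lx M}
    (h : ∀ j, ∃ ε : Lx M, ε ∈ II M q ∧ ε * v j ∈ II M q ∧ e (j + 1) = e j * ε) (i d : ℕ) :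
    ∃ ρ ∈ R, e (i + d) = e i * ρ := by
  induction d with
  | zero => exact ⟨1, R.one_mem, by simp⟩
  | succ d ih =>
    obtain ⟨ρ, hρ, hd⟩ := ih
    obtain ⟨ε, hε, -, hs⟩ := h (i + d)
    refine ⟨ρ * ε, R.mul_mem hρ (hR.sub _ hε), ?_⟩
    rw [← add_assoc, hs, hd, mul_assoc]

theorem small {q : ℕ} {R : Subring (Lx M)} (hR : Rg M q R) {e v : ℕ → Lx M}
    (he : ∀ j, e j ∈ II M q)
    (h : ∀ j, ∃ ε : Lx M, ε ∈ II M q ∧ ε * v j ∈ II M q ∧ e (j + 1) = e j * ε) {i j : ℕ}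
    (hij : i < j) : e j * v i ∈ II M q := by
  obtain ⟨d, rfl⟩ : ∃ d, j = (i + 1) + d := ⟨j - (i + 1), by omega⟩
  obtain ⟨ρ, hρ, hd⟩ := ratio hR h (i + 1) d
  obtain ⟨ε, hε, hεv, hs⟩ := h i
  have h1 : e (i + 1 + d) * v i = (e i * ρ) * (ε * v i) := by
    rw [hd, hs]
    ring
  rw [h1]
  exact hR.mul _ (R.mul_mem (hR.sub _ (he i)) hρ) _ hεv

end CN_

theorem p_CN (h : T_FR) : T_CN := by
  intro M _ _ q R hR hne hv N
  obtain ⟨e, v, h1, h2⟩ := CN_.seqs hR hne (h M q hne) hv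
  have he : ∀ j, e j ∈ II M q := fun j => (h1 j).1
  refine ⟨fun n => v (N - 1 - n), fun n => e (N - 1 - n), fun n _ => ⟨he _, (h1 _).2.1⟩,
    fun n k hnk hk => ?_, ?_⟩
  · exact CN_.small hR he h2 (by omega)
  · intro n hn r hr heq
    have hall : ∀ k, k < n → r k * v (N - 1 - k) ∈ R := by
      intro k
      induction k using Nat.strong_induction_on with
      | _ k ih =>
        intro hk
        obtain ⟨ρ, hρ, hρe⟩ := CN_.ratio hR h2 (N - 1 - n) ((N - 1 - k) - (N - 1 - n))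
        have hidx : N - 1 - n + ((N - 1 - k) - (N - 1 - n)) = N - 1 - k := by omega
        rw [hidx] at hρe
        apply (h1 (N - 1 - k)).2.2.2 (r k) (hr k)
        -- the sum without the term of index `k`
        have hsum : ∑ k' ∈ Finset.range n, r k' * v (N - 1 - k') =
            r k * v (N - 1 - k) + ∑ k' ∈ (Finset.range n).erase k, r k' * v (N - 1 - k') :=
          (Finset.add_sum_erase _ _ (Finset.mem_range.2 hk)).symm
        have hval : r k * v (N - 1 - k) * e (N - 1 - k) =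
            e (N - 1 - k) * v (N - 1 - n) - r n * ρ -
              ∑ k' ∈ (Finset.range n).erase k, r k' * v (N - 1 - k') * e (N - 1 - k) := by
          rw [← Finset.sum_mul]
          have h3 := congrArg (fun x => x * ρ) heq
          simp only [hsum] at h3
          have h4 : e (N - 1 - n) * v (N - 1 - n) * ρ = e (N - 1 - k) * v (N - 1 - n) := by
            rw [hρe]; ring
          have h5 : (r n + e (N - 1 - n) * (r k * v (N - 1 - k) +
              ∑ k' ∈ (Finset.range n).erase k, r k' * v (N - 1 - k'))) * ρ =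
              r n * ρ + e (N - 1 - k) * (r k * v (N - 1 - k) +
              ∑ k' ∈ (Finset.range n).erase k, r k' * v (N - 1 - k')) := by
            rw [hρe]; ring
          rw [h4, h5] at h3
          rw [h3]
          ring
        rw [hval]
        refine R.sub_mem (R.sub_mem (hR.sub _ (CN_.small hR he h2 (by omega)))
          (R.mul_mem (hr n) hρ)) (R.sum_mem fun k' hk' => ?_)
        rw [Finset.mem_erase, Finset.mem_range] at hk'
        rcases lt_or_gt_of_ne hk'.1 with hlt | hgt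
        · exact R.mul_mem (ih k' hlt (by omega)) (hR.sub _ (he _))
        · have h6 : r k' * v (N - 1 - k') * e (N - 1 - k) =
              r k' * (e (N - 1 - k) * v (N - 1 - k')) := by ring
          rw [h6]
          exact R.mul_mem (hr k') (hR.sub _ (CN_.small hR he h2 (by omega)))
    apply (h1 (N - 1 - n)).2.2.1
    rw [heq]
    exact R.add_mem (hr n) (R.mul_mem (hR.sub _ (he _))
      (R.sum_mem fun k hk => hall k (Finset.mem_range.1 hk)))

end SNX
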