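import Pool.Agent.SNX.TE

set_option autoImplicit false

noncomputable section

namespace SNX

theorem p_DM : T_DM := by
  intro M _ q d d' hdd h t
  obtain ⟨i, hi⟩ := h (fun k => t (Fin.castLE hdd k))
  refine ⟨Fin.castLE hdd i, fun x hx => hi x fun j hj => hx _ fun hc => hj ?_⟩
  exact Fin.castLE_injective hdd hc

end SNX
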