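import Pool.Agent.SNX.TE

/-!
# SNX: proof of DS (shrinking)
-/

set_option autoImplicit false

noncomputable section

namespace SNX

open Filter Polynomial NST

theorem p_DS : T_DS := by
  classical
  intro M _ q R S hR hS hne C
  by_contra hcon
  push Not at hcon
  choose! x hx y hy c hc hbad using hcon
  obtain ⟨e, he, he0⟩ := hne
  obtain ⟨e', rfl⟩ := exists_mk e
  have he0' : ∀ᶠ n in (Uf : Filter ℕ), e' n ≠ 0 := mk_ne_zero.1 he0
  have hX : (mk fun n => x (e' n)) ∈ St (BB q S) :=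
    mem_St.2 (he0'.mono fun n hn => hx _ hn)
  have hY : (mk fun n => y (e' n)) ∈ St (BB q S) :=
    mem_St.2 (he0'.mono fun n hn => hy _ hn)
  have hXR : (mk fun n => x (e' n)) ∈ R := (hR.mem _).2 (hS _ ((mem_St_BB M q).1 hX))
  have hYR : (mk fun n => y (e' n)) ∈ R := (hR.mem _).2 (hS _ ((mem_St_BB M q).1 hY))
  have h1 : ((mk fun n => x (e' n)) - (mk fun n => y (e' n))) * mk e' ∈ II M q :=
    hR.mul _ (sub_mem hXR hYR) _ he
  have h2 : ∀ k ∈ C, ∀ᶠ n in (Uf : Filter ℕ), (x (e' n) - y (e' n)) * e' n * k ∈ BB q S := by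
    intro k _
    have h3 : ((mk fun n => x (e' n)) - (mk fun n => y (e' n))) * mk e' * cst k ∈ II M q := by
      rw [mul_comm]
      exact hR.mul _ (hR.cst k) _ h1
    have h4 : ((mk fun n => x (e' n)) - (mk fun n => y (e' n))) * mk e' * cst k ∈
        St (BB q S) := (mem_St_BB M q).2 fun s _ => h3 s
    exact h4
  have h5 := (Finset.eventually_all C).2 h2
  obtain ⟨n, hn0, hn⟩ := (he0'.and h5).exists
  exact hbad (e' n) hn0 (hn _ (hc _ hn0))

end SNX
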