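import Pool.Agent.SNX.TE

/-!
# SNX: DW, the dual weight bound
-/

set_option autoImplicit false

namespace SNX

open Filter Polynomial NST

namespace DW_

variable {M : Type} [Field M] {q : ℕ}

lemma II_St {S : Finset M} {e : Lx M} (he : e ∈ II M q) : e ∈ St (BB q S) :=
  (mem_St_BB M q).2 fun s _ => he s

lemma II_cst {R : Subring (Lx M)} (hR : Rg M q R) {e : Lx M} (he : e ∈ II M q) (u : M) :
    e * cst u ∈ II M q := by
  rw [mul_comm]
  exact hR.mul _ (hR.cst u) _ he

lemma II_sum {R : Subring (Lx M)} (hR : Rg M q R) {ι : Type} (T : Finset ι) (f : ι → Lx M)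
    (h : ∀ i ∈ T, f i ∈ II M q) : ∑ i ∈ T, f i ∈ II M q := by
  classical
  induction T using Finset.induction_on with
  | empty =>
    rw [Finset.sum_empty]
    exact hR.zero
  | insert a T ha ih =>
    rw [Finset.sum_insert ha]
    exact hR.add _ (h a (Finset.mem_insert_self a T)) _
      (ih fun i hi => h i (Finset.mem_insert_of_mem hi))

lemma St_sub {S : Finset M} {u : M} (hu : ∀ x ∈ BB q S, ∀ y ∈ BB q S, (x - y) * u ∈ BB q S)
    {X Y : Lx M} (hX : X ∈ St (BB q S)) (hY : Y ∈ St (BB q S)) :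
    (X - Y) * cst u ∈ St (BB q S) := by
  obtain ⟨x, rfl⟩ := exists_mk X
  obtain ⟨y, rfl⟩ := exists_mk Y
  rw [mem_St] at hX hY
  have h1 : (mk x - mk y) * cst u = mk fun n => (x n - y n) * u := rfl
  rw [h1, mem_St]
  filter_upwards [hX, hY] with n h1 h2
  exact hu _ h1 _ h2

end DW_

open DW_ in
theorem p_DW (h1 : T_RU) (h2 : T_DS) : T_DW := by
  classical
  intro M _ _ q d R S hR hS hE hV t
  by_contra hcon
  push Not at hcon
  choose x hx hx' using hcon
  have hII := (h1 M q R S hR hS hE).2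
  have hu : ∀ i, ∃ u : M, x i * t i * cst u ∉ St (BB q S) := by
    intro i
    by_contra hc
    push Not at hc
    exact hx' i ((hII _).2 hc)
  choose u hu using hu
  obtain ⟨w, hw0, hw⟩ := h2 M q R S hR hS hE {1}
  have hw' : ∀ x ∈ BB q S, ∀ y ∈ BB q S, (x - y) * w ∈ BB q S := by
    intro x hx y hy
    have := hw x hx y hy 1 (Finset.mem_singleton_self 1)
    rwa [mul_one] at this
  have hc0 : cst w ≠ 0 := cst_ne_zero hw0
  set X : Fin d → Lx M := fun i => x i * cst (u i) with hX
  have hXI : ∀ i j, j ≠ i → X i * t j ∈ II M q := by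
    intro i j hij
    have e1 : X i * t j = x i * t j * cst (u i) := by
      simp only [hX]
      ring
    rw [e1]
    exact II_cst hR (hx i j hij) _
  have hXB : ∀ i, X i * t i ∉ St (BB q S) := by
    intro i
    have e1 : X i * t i = x i * t i * cst (u i) := by
      simp only [hX]
      ring
    rw [e1]
    exact hu i
  set Y : Finset (Fin d) → Lx M := fun T => (∑ i ∈ T, X i) * (cst w)⁻¹ with hY
  have hwi : (cst w)⁻¹ = cst w⁻¹ := rfl
  have hYn : ∀ T j, j ∉ T → Y T * t j ∈ St (BB q S) := by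
    intro T j hj
    have e1 : Y T * t j = (∑ i ∈ T, X i * t j) * cst w⁻¹ := by
      simp only [hY, hwi]
      rw [← Finset.sum_mul]
      ring
    rw [e1]
    refine II_St (II_cst hR (II_sum hR T _ fun i hi => hXI i j ?_) _)
    rintro rfl
    exact hj hi
  have hYm : ∀ T j, j ∈ T → Y T * t j ∉ St (BB q S) := by
    intro T j hj hcon
    have he : (∑ i ∈ T.erase j, X i * t j) ∈ II M q :=
      II_sum hR _ _ fun i hi => hXI i j (Finset.ne_of_mem_erase hi).symm
    have he' := II_St (S := S) (II_cst hR he w⁻¹)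
    have e2 := St_sub hw' hcon he'
    have e3 : (Y T * t j - (∑ i ∈ T.erase j, X i * t j) * cst w⁻¹) * cst w = X j * t j := by
      simp only [hY, ← hwi]
      rw [← Finset.add_sum_erase T X hj, ← Finset.sum_mul]
      field_simp
      ring
    rw [e3] at e2
    exact hXB j e2
  choose t' ht' using fun j => exists_mk (t j)
  choose Y' hY' using fun T => exists_mk (Y T)
  have hev : ∀ T j, ∀ᶠ n in (Uf : Filter ℕ), (Y' T n * t' j n ∈ BB q S ↔ j ∉ T) := by
    intro T j
    have e1 : Y T * t j = mk fun n => Y' T n * t' j n := by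
      rw [← ht', ← hY']
      rfl
    by_cases hj : j ∈ T
    · have e2 := hYm T j hj
      rw [e1, mem_St, NST.not_eventually] at e2
      exact e2.mono fun n hn => by simp [hn, hj]
    · have e2 := hYn T j hj
      rw [e1, mem_St] at e2
      exact e2.mono fun n hn => by simp [hn, hj]
  have hall : ∀ᶠ n in (Uf : Filter ℕ), ∀ T j, (Y' T n * t' j n ∈ BB q S ↔ j ∉ T) :=
    eventually_all.2 fun T => eventually_all.2 fun j => hev T j
  obtain ⟨n, hn⟩ := hall.exists
  refine hV (fun j => t' j n) (fun T => Y' Tᶜ n) fun i T => ?_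
  rw [hn Tᶜ i, Finset.mem_compl, not_not]

end SNX
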