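import Pool.Agent.SNX.TE

/-!
# SNX: finitely many maximal ideals (FM)
-/

set_option autoImplicit false
set_option linter.unusedSectionVars false

noncomputable section

namespace SNX

theorem p_FM : T_FM := by
  intro L _ R d m hd hm hmm hw
  by_contra hinf
  rw [not_finite_iff_infinite] at hinf
  let P : Fin d → MaximalSpectrum R := fun i => Infinite.natEmbedding (MaximalSpectrum R) i.val
  have hP : Function.Injective P := fun i j h =>
    Fin.ext ((Infinite.natEmbedding (MaximalSpectrum R)).injective h)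
  have hcop : Pairwise fun i j : Fin d => IsCoprime (P i).asIdeal (P j).asIdeal := by
    intro i j hij
    rw [Ideal.isCoprime_iff_sup_eq]
    exact Ideal.IsMaximal.coprime_of_ne (P i).isMaximal (P j).isMaximal
      fun h => hij (hP (MaximalSpectrum.ext h))
  obtain ⟨w, hwP⟩ := Ideal.exists_forall_sub_mem_ideal hcop
    (fun i => (-(⟨m i, hm i⟩ : R) : R))
  have hwm : ∀ i, w + ⟨m i, hm i⟩ ∈ (P i).asIdeal := by
    intro i
    have h1 := hwP i
    rwa [sub_neg_eq_add] at h1
  -- an element with an inverse in `R` is not in a maximal ideal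
  have key : ∀ (i : Fin d) (x : R), x ∈ (P i).asIdeal → (x : L) ≠ 0 → ((x : L))⁻¹ ∈ R →
      False := by
    intro i x hx hx0 hxi
    have h1 : (⟨(x : L)⁻¹, hxi⟩ : R) * x = 1 := Subtype.ext (inv_mul_cancel₀ hx0)
    have h2 : (1 : R) ∈ (P i).asIdeal := by
      rw [← h1]
      exact Ideal.mul_mem_left _ _ hx
    exact (P i).isMaximal.ne_top ((Ideal.eq_top_iff_one _).2 h2)
  have zero : ∀ i : Fin d, (w : L) + m i = 0 → False := by
    intro i hi
    obtain ⟨j, hj⟩ : ∃ j : Fin d, j ≠ i := by
      have : Nontrivial (Fin d) := Fin.nontrivial_iff_two_le.2 hd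
      exact exists_ne i
    have h1 : (w : L) + m j = m j - m i := by
      rw [← sub_eq_zero]
      linear_combination hi
    refine key j (w + ⟨m j, hm j⟩) (hwm j) ?_ ?_
    · change (w : L) + m j ≠ 0
      rw [h1]
      exact (hmm j i hj).1
    · change ((w : L) + m j)⁻¹ ∈ R
      rw [h1]
      exact (hmm j i hj).2
  rcases hw w w.2 with ⟨i, hi⟩ | ⟨i, hi⟩
  · exact zero i hi
  · by_cases h0 : (w : L) + m i = 0
    · exact zero i h0
    · exact key i (w + ⟨m i, hm i⟩) (hwm i) h0 hi

end SNX
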