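import Pool.Agent.SNX.TE

/-!
# SNX: common multiples (FR)
-/

set_option autoImplicit false
set_option linter.unusedSectionVars false

noncomputable section

namespace SNX

open Filter Polynomial NST

theorem p_FR : T_FR := by
  intro M _ _ q hne v
  obtain ⟨e, he, he0⟩ := hne
  obtain ⟨m, hm⟩ := exists_surjective_nat M
  obtain ⟨e', rfl⟩ := exists_mk e
  obtain ⟨v', rfl⟩ := exists_mk v
  have h1 : ∀ u : M, ∀ᶠ k in (Uf : Filter ℕ), Hq q (1 + e' k * u) := by
    intro u
    have h2 := he u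
    have h3 : (1 : Lx M) + mk e' * cst u = mk fun k => 1 + e' k * u := rfl
    rwa [h3, Hq_mk] at h2
  have h4 : ∀ n : ℕ, ∃ x : M, x ≠ 0 ∧ (∀ i ∈ Finset.range n, Hq q (1 + x * m i)) ∧
      ∀ i ∈ Finset.range n, Hq q (1 + x * (v' n * m i)) := by
    intro n
    have h5 : ∀ᶠ k in (Uf : Filter ℕ), ∀ i ∈ Finset.range n, Hq q (1 + e' k * m i) :=
      (Finset.eventually_all _).2 fun i _ => h1 _
    have h6 : ∀ᶠ k in (Uf : Filter ℕ), ∀ i ∈ Finset.range n, Hq q (1 + e' k * (v' n * m i)) :=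
      (Finset.eventually_all _).2 fun i _ => h1 _
    obtain ⟨k, hk1, hk2, hk3⟩ := ((mk_ne_zero.1 he0).and (h5.and h6)).exists
    exact ⟨e' k, hk1, hk2, hk3⟩
  choose ε h0 h5 h6 using h4
  refine ⟨mk ε, ?_, mk_ne_zero.2 (Eventually.of_forall h0), ?_⟩
  · intro u
    obtain ⟨i, rfl⟩ := hm u
    have h3 : (1 : Lx M) + mk ε * cst (m i) = mk fun n => 1 + ε n * m i := rfl
    rw [h3, Hq_mk]
    filter_upwards [eventually_ge (i + 1)] with n hn
    exact h5 n i (Finset.mem_range.2 (by omega))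
  · intro u
    obtain ⟨i, rfl⟩ := hm u
    have h3 : (1 : Lx M) + mk ε * mk v' * cst (m i) = mk fun n => 1 + ε n * v' n * m i := rfl
    rw [h3, Hq_mk]
    filter_upwards [eventually_ge (i + 1)] with n hn
    have h7 := h6 n i (Finset.mem_range.2 (by omega))
    rwa [← mul_assoc] at h7

end SNX
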