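import Pool.Agent.SNX.TE

/-!
# SNX: the set `II` is an intersection of standard sets (target `T_IM`)
-/

set_option autoImplicit false

namespace SNX

open Filter NST

/-- `II` is an intersection of standard sets. -/
theorem p_IM : T_IM := by
  intro M _ _ q
  obtain ⟨u, hu⟩ := exists_surjective_nat M
  refine ⟨fun i => {x | ∀ j ≤ i, Hq q (1 + x * u j)}, ?_, ?_⟩
  · intro i i' h x hx j hj
    exact hx j (hj.trans h)
  · intro x
    obtain ⟨f, rfl⟩ := exists_mk x
    constructor
    · intro hx i
      rw [mem_St]
      have h : ∀ᶠ n in (Uf : Filter ℕ), ∀ j ∈ Finset.range (i + 1), Hq q (1 + f n * u j) := by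
        refine (Finset.eventually_all _).2 fun j _ => ?_
        have hj := hx (u j)
        have e : (1 : Lx M) + mk f * cst (u j) = mk fun n => 1 + f n * u j := rfl
        rw [e, Hq_mk] at hj
        exact hj
      exact h.mono fun n hn j hj => hn j (Finset.mem_range.2 (by omega))
    · intro hx v
      obtain ⟨i, rfl⟩ := hu v
      have h := hx i
      rw [mem_St] at h
      have e : (1 : Lx M) + mk f * cst (u i) = mk fun n => 1 + f n * u i := rfl
      rw [e, Hq_mk]
      exact h.mono fun n hn => hn i le_rfl

end SNX
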