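import Pool.Agent.SNX.TE

/-!
# SNX-IN: some translate is zero or has a bounded inverse
-/

set_option autoImplicit false

noncomputable section

namespace SNX

open Filter NST

namespace IN_

/-- One nonzero element of `M` works for all elements of `M`. -/
theorem step {M : Type} [Field M] {q d : ℕ} {S : Finset M} (hL : LWp M q d)
    (hε : ∃ ε ∈ II M q, ε ≠ 0 ∧ ∀ w ∈ WW M q, ε * w ∈ II M q) (m : Fin d → M)
    (hm : Function.Injective m) :
    ∃ δ : M, δ ≠ 0 ∧ ∀ a : M, ∃ i, a + m i = 0 ∨ δ * (a + m i)⁻¹ ∈ BB q S := by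
  classical
  by_contra hcon
  push Not at hcon
  choose! g hg using hcon
  obtain ⟨ε, hεI, hε0, hεW⟩ := hε
  obtain ⟨ε', rfl⟩ := exists_mk ε
  have h0 := mk_ne_zero.1 hε0
  have hw : ∀ i, mk (fun n => g (ε' n)) + cst (m i) ≠ 0 := by
    intro i
    have h1 : mk (fun n => g (ε' n)) + cst (m i) = mk fun n => g (ε' n) + m i := rfl
    rw [h1, mk_ne_zero]
    exact h0.mono fun n hn => (hg _ hn i).1
  obtain ⟨i, hi⟩ := hL m hm _ hw
  have h2 := hεW _ hi
  have h3 : mk ε' * (mk (fun n => g (ε' n)) + cst (m i))⁻¹ =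
      mk fun n => ε' n * (g (ε' n) + m i)⁻¹ := rfl
  have h4 : mk ε' * (mk (fun n => g (ε' n)) + cst (m i))⁻¹ ∈ St (BB q S) := by
    rw [mem_St_BB]
    intro s _
    exact h2 s
  rw [h3, mem_St] at h4
  obtain ⟨n, hn1, hn2⟩ := (h4.and h0).exists
  exact (hg _ hn2 i).2 hn1

end IN_

theorem p_IN : T_IN := by
  classical
  intro M _ q d R S hR hS hL hε m hm w
  obtain ⟨δ, hδ, h⟩ := IN_.step (S := S) hL hε m hm
  obtain ⟨w', rfl⟩ := exists_mk w
  choose f hf using fun n => h (w' n)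
  obtain ⟨i, hi⟩ := exists_lim f
  have h1 : ∀ᶠ n in (Uf : Filter ℕ),
      w' n + m i = 0 ∨ δ * (w' n + m i)⁻¹ ∈ BB q S :=
    hi.mono fun n hn => by
      rw [← hn]
      exact hf n
  rcases eventually_or'.1 h1 with h2 | h2
  · left
    refine ⟨i, ?_⟩
    have h3 : mk w' + cst (m i) = mk fun n => w' n + m i := rfl
    rw [h3, mk_zero, mk_eq]
    exact h2
  · right
    refine ⟨i, ?_⟩
    have h3 : cst δ * (mk w' + cst (m i))⁻¹ ∈ St (BB q S) := h2
    have h4 : cst δ * (mk w' + cst (m i))⁻¹ ∈ R := by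
      rw [hR.mem]
      apply hS
      rw [mem_St_BB] at h3
      exact h3
    have h5 : (mk w' + cst (m i))⁻¹ =
        cst δ⁻¹ * (cst δ * (mk w' + cst (m i))⁻¹) := by
      rw [← mul_assoc, ← cst_mul, inv_mul_cancel₀ hδ, cst_one, one_mul]
    rw [h5]
    exact R.mul_mem (hR.cst _) h4

end SNX
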