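import Pool.Agent.SNX.TE
import Pool.Agent.NST.P_JC

/-!
# SNX: the set `I` is the Jacobson radical (JC)
-/

set_option autoImplicit false

noncomputable section

namespace SNX

open Filter Polynomial NST

namespace JC_

/-- the hypotheses on `R` and `I` -/
structure Hy {L : Type} [Field L] (R : Subring L) (I : Set L) : Prop where
  zero : (0 : L) ∈ I
  nat : ∀ c : ℕ, 0 < c → ((c : L))⁻¹ ∈ R
  sub : ∀ e ∈ I, e ∈ R
  add : ∀ e ∈ I, ∀ e' ∈ I, e + e' ∈ I
  mul : ∀ b ∈ R, ∀ e ∈ I, b * e ∈ I
  inv : ∀ e ∈ I, (1 + e)⁻¹ ∈ R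
  ne : (1 : L) ∉ I
  colon : ∀ b, (∀ e ∈ I, b * e ∈ I) → b ∈ R
  rad : ∀ b ∈ R, b * b ∈ I → b ∈ I

variable {L : Type} [Field L]

theorem one_add {R : Subring L} {I : Set L} (hR : Hy R I) {e : L} (he : e ∈ I) : 1 + e ≠ 0 := by
  intro h0
  apply hR.ne
  have h1 := hR.mul (-1) (neg_mem (one_mem R)) e he
  have h2 : -1 * e = 1 := by linear_combination -h0
  rwa [h2] at h1

theorem sumI {R : Subring L} {I : Set L} (hR : Hy R I) {ι : Type} (s : Finset ι)
    (f : ι → L) (h : ∀ i ∈ s, f i ∈ I) : ∑ i ∈ s, f i ∈ I := by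
  classical
  induction s using Finset.induction_on with
  | empty => simpa using hR.zero
  | insert a s ha ih =>
    rw [Finset.sum_insert ha]
    exact hR.add _ (h a (Finset.mem_insert_self a s)) _
      (ih fun i hi => h i (Finset.mem_insert_of_mem hi))

theorem root {R : Subring L} {I : Set L} (hR : Hy R I) (b : L)
    (hb : b ∈ R) (N : ℕ) (h : b ^ N ∈ I) : b ∈ I := by
  have key : ∀ m : ℕ, b ^ 2 ^ m ∈ I → b ∈ I := by
    intro m
    induction m with
    | zero =>
      intro h
      simpa using h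
    | succ m ih =>
      intro h
      apply ih
      apply hR.rad _ (R.pow_mem hb _)
      rw [← sq, ← pow_mul, ← pow_succ]
      exact h
  apply key N
  have h3 : N ≤ 2 ^ N := Nat.lt_two_pow_self.le
  obtain ⟨d, hd⟩ := Nat.exists_eq_add_of_le h3
  rw [hd, add_comm N d, pow_add]
  exact hR.mul _ (R.pow_mem hb _) _ h

theorem core [CharZero L] (h1 : NST.T_CR) (R : Subring L) (I : Set L) (hR : Hy R I) (n : ℕ)
    (V : Fin n → ValuationSubring L) (hn : 0 < n)
    (hV : ∀ x, x ∈ R ↔ ∀ k, x ∈ V k) (hinc : ∀ k l, k ≠ l → ¬ V k ≤ V l) (x : L) :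
    x ∈ I ↔ ∀ k, x ∈ (V k).nonunits := by
  classical
  have hnat : ∀ c : ℕ, 0 < c → ((c : L))⁻¹ ∈ R := hR.nat
  have hnatk : ∀ k, ∀ c : ℕ, 0 < c → ((c : L))⁻¹ ∈ V k := fun k c hc => (hV _).1 (hnat c hc) k
  obtain ⟨hA, hB⟩ := h1 L n V hinc hnatk
  have hc0 : ∀ c : ℕ, 0 < c → (c : L) ≠ 0 := fun c hc => Nat.cast_ne_zero.2 (by omega)
  have hcu : ∀ k, ∀ c : ℕ, 0 < c → (c : L) ∉ (V k).nonunits := by
    intro k c hc h
    exact JC_not h (hc0 c hc) (hnatk k c hc)
  constructor
  · intro hx k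
    by_contra hk
    obtain ⟨hx0, hxi⟩ := JC_inv hk
    obtain ⟨b, hb1, hb2⟩ := hB (fun j => if j = k then -x⁻¹ else 0) (by
      intro j
      split_ifs with h
      · rw [h]
        exact neg_mem hxi
      · exact zero_mem _)
    have hbR : b ∈ R := (hV b).2 hb1
    have h3 := hb2 k
    rw [if_pos rfl, sub_neg_eq_add] at h3
    have h4 : x * (b + x⁻¹) ∈ (V k).nonunits := JC_mul ((hV x).1 (hR.sub x hx) k) h3
    have h5 : x * (b + x⁻¹) = 1 + b * x := by
      field_simp
      ring
    rw [h5] at h4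
    have h6 : b * x ∈ I := hR.mul b hbR x hx
    have h7 : (1 + b * x) ≠ 0 := one_add hR h6
    exact JC_not h4 h7 ((hV _).1 (hR.inv _ h6) k)
  · intro hx
    by_contra hxI
    have hxR : x ∈ R := (hV x).2 fun k => JC_le (hx k)
    have hx0 : x ≠ 0 := by
      rintro rfl
      exact hxI hR.zero
    -- the set `K₁` of the indices of type (B)
    have hK : ∃ k, ¬ ∃ (N : ℕ) (s : L), s ∈ R ∧ s ∉ (V k).nonunits ∧ s * x ^ N ∈ I := by
      by_contra hcon
      push Not at hcon
      choose N s hsR hsk hsI using hcon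
      have hch : ∀ k, ∃ y : L, (∀ j, y ∈ V j) ∧ (y - (s k)⁻¹ ∈ (V k).nonunits) ∧
          ∀ j, j ≠ k → y ∈ (V j).nonunits := by
        intro k
        obtain ⟨y, hy1, hy2⟩ := hB (fun j => if j = k then (s k)⁻¹ else 0) (by
          intro j
          split_ifs with h
          · rw [h]
            exact (JC_inv (hsk k)).2
          · exact zero_mem _)
        refine ⟨y, hy1, ?_, ?_⟩
        · have := hy2 k
          rwa [if_pos rfl] at this
        · intro j hj
          have := hy2 j
          rwa [if_neg hj, sub_zero] at this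
      choose y hy1 hy2 hy3 using hch
      have hu : ∀ j, ∑ k, s k * y k ∉ (V j).nonunits := by
        intro j
        apply JC_near (JC_one (V j))
        rw [← Finset.add_sum_erase Finset.univ _ (Finset.mem_univ j), add_sub_right_comm]
        apply JC_add
        · have h3 : s j * y j - 1 = s j * (y j - (s j)⁻¹) := by
            rw [mul_sub, mul_inv_cancel₀ (JC_inv (hsk j)).1]
          rw [h3]
          exact JC_mul ((hV _).1 (hsR j) j) (hy2 j)
        · apply JC_sum
          intro i hi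
          exact JC_mul ((hV _).1 (hsR i) j) (hy3 i j (Finset.ne_of_mem_erase hi).symm)
      have hui : (∑ k, s k * y k)⁻¹ ∈ R := (hV _).2 fun j => (JC_inv (hu j)).2
      have hu0 : (∑ k, s k * y k) ≠ 0 := (JC_inv (hu ⟨0, hn⟩)).1
      have h4 : (∑ k, s k * y k) * x ^ (∑ k, N k) ∈ I := by
        rw [Finset.sum_mul]
        apply sumI hR
        intro k _
        rw [← Finset.add_sum_erase Finset.univ _ (Finset.mem_univ k), pow_add]
        have h5 : s k * y k * (x ^ N k * x ^ (∑ i ∈ Finset.univ.erase k, N i)) =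
            (y k * x ^ (∑ i ∈ Finset.univ.erase k, N i)) * (s k * x ^ N k) := by ring
        rw [h5]
        exact hR.mul _ (R.mul_mem ((hV _).2 (hy1 k)) (R.pow_mem hxR _)) _ (hsI k)
      have h6 : x ^ (∑ k, N k) ∈ I := by
        have := hR.mul _ hui _ h4
        rwa [← mul_assoc, inv_mul_cancel₀ hu0, one_mul] at this
      exact hxI (root hR x hxR _ h6)
    obtain ⟨k0, hk0⟩ := hK
    have hdiv : ∀ k, (¬ ∃ (N : ℕ) (s : L), s ∈ R ∧ s ∉ (V k).nonunits ∧ s * x ^ N ∈ I) →
        ∀ z ∈ I, z / x ^ 2 ∈ V k := by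
      intro k hk z hz
      by_contra hcon
      have hz0 : z ≠ 0 := by
        rintro rfl
        rw [zero_div] at hcon
        exact hcon (zero_mem _)
      have h3 : x ^ 2 / z ∈ V k := by
        rcases (V k).mem_or_inv_mem (z / x ^ 2) with h | h
        · exact absurd h hcon
        · rwa [inv_div] at h
      obtain ⟨c, hc, hc1, hc2⟩ := hA (x ^ 2 / z)
      apply hk
      refine ⟨2, (x ^ 2 / z + c)⁻¹, (hV _).2 hc2, ?_, ?_⟩
      · intro h4
        have h5 := JC_not h4 (inv_ne_zero hc1)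
        rw [inv_inv] at h5
        exact h5 (add_mem h3 (natCast_mem (V k) c))
      · have h6 : (x ^ 2 / z + c)⁻¹ * x ^ 2 = (1 - c * (x ^ 2 / z + c)⁻¹) * z := by
          have h7 : (x ^ 2 / z + c)⁻¹ * (x ^ 2 / z + c) = 1 := inv_mul_cancel₀ hc1
          have h8 : x ^ 2 = (x ^ 2 / z) * z := by field_simp
          have h9 : (x ^ 2 / z + c)⁻¹ * (x ^ 2 / z) = 1 - c * (x ^ 2 / z + c)⁻¹ := by
            rw [← h7]
            ring
          calc (x ^ 2 / z + c)⁻¹ * x ^ 2 = (x ^ 2 / z + c)⁻¹ * ((x ^ 2 / z) * z) := by rw [← h8]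
            _ = (x ^ 2 / z + c)⁻¹ * (x ^ 2 / z) * z := by ring
            _ = (1 - c * (x ^ 2 / z + c)⁻¹) * z := by rw [h9]
        rw [h6]
        exact hR.mul _ (sub_mem (one_mem R) (R.mul_mem (natCast_mem R c) ((hV _).2 hc2))) _ hz
    -- the element `e`
    obtain ⟨e, he1, he2⟩ := hB (fun k => if (∃ (N : ℕ) (s : L), s ∈ R ∧ s ∉ (V k).nonunits ∧
        s * x ^ N ∈ I) then 1 else 0) (by
      intro j
      split_ifs with h
      · exact one_mem _
      · exact zero_mem _)
    have heR : e ∈ R := (hV e).2 he1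
    have hgood : ∃ c : ℕ, 0 < c ∧ ∀ k, (x + c * e) / x ∉ (V k).nonunits := by
      by_contra hcon
      push Not at hcon
      choose g hg using fun c : Fin (n + 1) => hcon (c.1 + 1) (by omega)
      obtain ⟨c, c', hcc, hgg⟩ := Fintype.exists_ne_map_eq_of_card_lt g (by simp)
      have h3 := hg c
      have h4 := hg c'
      rw [← hgg] at h4
      have key : ∀ (a a' : ℕ), a < a' → (x + a * e) / x ∈ (V (g c)).nonunits →
          (x + a' * e) / x ∈ (V (g c)).nonunits → False := by
        intro a a' haa h5 h6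
        apply hcu (g c) (a' - a) (by omega)
        have h7 : (((a' - a : ℕ)) : L) = a' * ((x + a * e) / x) - a * ((x + a' * e) / x) := by
          rw [Nat.cast_sub haa.le]
          field_simp
          ring
        rw [h7]
        exact JC_sub (JC_mul (natCast_mem _ _) h5) (JC_mul (natCast_mem _ _) h6)
      rcases Nat.lt_or_gt_of_ne (fun h => hcc (Fin.ext h) : c.1 ≠ c'.1) with h | h
      · exact key (c.1 + 1) (c'.1 + 1) (by omega) h3 h4
      · exact key (c'.1 + 1) (c.1 + 1) (by omega) h4 h3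
    obtain ⟨c, hc, hcg⟩ := hgood
    have hb0 : x + c * e ≠ 0 := by
      have := (JC_inv (hcg k0)).1
      intro h
      rw [h, zero_div] at this
      exact this rfl
    have hbR : x + c * e ∈ R := R.add_mem hxR (R.mul_mem (natCast_mem R c) heR)
    have hq : ∀ z ∈ I, z / (x + c * e) ^ 2 ∈ R := by
      intro z hz
      rw [hV]
      intro k
      by_cases hk : ∃ (N : ℕ) (s : L), s ∈ R ∧ s ∉ (V k).nonunits ∧ s * x ^ N ∈ I
      · have h3 := he2 k
        rw [if_pos hk] at h3
        have h4 : (x + c * e) ∉ (V k).nonunits := by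
          apply JC_near (hcu k c hc)
          have h5 : x + c * e - c = x + c * (e - 1) := by ring
          rw [h5]
          exact JC_add (hx k) (JC_mul (natCast_mem _ _) h3)
        rw [div_eq_mul_inv, ← inv_pow]
        exact mul_mem ((hV _).1 (hR.sub z hz) k) (pow_mem (JC_inv h4).2 2)
      · have h3 := (JC_inv (hcg k)).2
        rw [inv_div] at h3
        have h4 : z / (x + c * e) ^ 2 = z / x ^ 2 * (x / (x + c * e)) ^ 2 := by
          field_simp
        rw [h4]
        exact mul_mem (hdiv k hk z hz) (pow_mem h3 2)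
    have hcol : (x + c * e)⁻¹ ∈ R := by
      apply hR.colon
      intro z hz
      have h3 : (x + c * e)⁻¹ * z = (x + c * e) * (z / (x + c * e) ^ 2) := by
        field_simp
      apply hR.rad
      · rw [h3]
        exact R.mul_mem hbR (hq z hz)
      · have h4 : (x + c * e)⁻¹ * z * ((x + c * e)⁻¹ * z) = (z / (x + c * e) ^ 2) * z := by
          field_simp
        rw [h4]
        exact hR.mul _ (hq z hz) _ hz
    have h5 : (x + c * e) ∈ (V k0).nonunits := by
      have h3 := he2 k0
      rw [if_neg hk0, sub_zero] at h3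
      exact JC_add (hx k0) (JC_mul (natCast_mem _ _) h3)
    exact JC_not h5 hb0 ((hV _).1 hcol k0)

end JC_

theorem p_JC (h : NST.T_CR) : T_JC := by
  intro L _ _ R I h0 hnat hsub hadd hmul hinv hne h1 hcol hrad n V hV hinc x
  have hR : JC_.Hy R I := ⟨h0, hnat, hsub, hadd, hmul, hinv, h1, hcol, hrad⟩
  refine JC_.core h R I hR n V ?_ hV hinc x
  rcases Nat.eq_zero_or_pos n with rfl | h
  · exfalso
    obtain ⟨e, he, he0⟩ := hne
    have h3 : e⁻¹ ∈ R := (hV _).2 fun k => k.elim0
    have h4 := hR.mul _ h3 _ he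
    rw [inv_mul_cancel₀ he0] at h4
    exact hR.ne h4
  · exact h

end SNX
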