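import Pool.Agent.SNX.TE

/-!
# SNX: target L1
-/

set_option autoImplicit false

namespace SNX

open NST

namespace L1_

theorem step (M : Type) [Field M] (q : ℕ)
    (hU : ∀ U : Finset M, ∃ a b : M, ∀ u ∈ U, Hq q ((a + u) / a) ∧ Hq q (1 + b * u) ∧
      a + b + u ≠ 0 ∧ ¬ Hq q ((a + b + u) / a)) (k : ℕ) :
    ∃ a b : ℕ → M, ∀ j < k, ∀ S ⊆ Finset.range k, a j + ∑ l ∈ S, b l ≠ 0 ∧
      (Hq q ((a j + ∑ l ∈ S, b l) / a j) ↔ j ∉ S) := by
  classical
  induction k with
  | zero => exact ⟨fun _ => 0, fun _ => 0, fun j hj => by omega⟩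
  | succ k ih =>
    obtain ⟨a, b, hab⟩ := ih
    obtain ⟨a', b', h'⟩ := hU
      ((Finset.range k).powerset.image (fun S => ∑ l ∈ S, b l) ∪
        ((Finset.range k) ×ˢ (Finset.range k).powerset).image
          (fun p => (a p.1 + ∑ l ∈ p.2, b l)⁻¹))
    have hy : ∀ S ⊆ Finset.range k, Hq q ((a' + ∑ l ∈ S, b l) / a') ∧
        a' + b' + ∑ l ∈ S, b l ≠ 0 ∧ ¬ Hq q ((a' + b' + ∑ l ∈ S, b l) / a') := by
      intro S hS
      have := h' (∑ l ∈ S, b l) (Finset.mem_union_left _
        (Finset.mem_image_of_mem (fun S => ∑ l ∈ S, b l) (Finset.mem_powerset.2 hS)))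
      exact ⟨this.1, this.2.2⟩
    have hv : ∀ j < k, ∀ S ⊆ Finset.range k, Hq q (1 + b' * (a j + ∑ l ∈ S, b l)⁻¹) := by
      intro j hj S hS
      have h3 : (j, S) ∈ (Finset.range k) ×ˢ (Finset.range k).powerset :=
        Finset.mem_product.2 ⟨Finset.mem_range.2 hj, Finset.mem_powerset.2 hS⟩
      have := h' ((a j + ∑ l ∈ S, b l)⁻¹) (Finset.mem_union_right _
        (Finset.mem_image_of_mem (fun p : ℕ × Finset ℕ => (a p.1 + ∑ l ∈ p.2, b l)⁻¹) h3))
      exact this.2.1
    refine ⟨Function.update a k a', Function.update b k b', fun j hj S hS => ?_⟩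
    have hsum : ∀ T : Finset ℕ, k ∉ T → ∑ l ∈ T, Function.update b k b' l = ∑ l ∈ T, b l := by
      intro T hT
      refine Finset.sum_congr rfl fun l hl => ?_
      rw [Function.update_of_ne]
      rintro rfl
      exact hT hl
    have hsub : ∀ T : Finset ℕ, T ⊆ Finset.range (k + 1) → k ∉ T → T ⊆ Finset.range k := by
      intro T hT hk l hl
      have := Finset.mem_range.1 (hT hl)
      rw [Finset.mem_range]
      have h4 : l ≠ k := by
        rintro rfl
        exact hk hl
      omega
    by_cases hk : k ∈ S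
    · have hS0 : k ∉ S.erase k := Finset.notMem_erase k S
      have hSs : S.erase k ⊆ Finset.range k :=
        hsub _ ((Finset.erase_subset k S).trans hS) hS0
      have hs : ∑ l ∈ S, Function.update b k b' l = b' + ∑ l ∈ S.erase k, b l := by
        rw [← Finset.add_sum_erase S _ hk, hsum _ hS0, Function.update_self]
      rw [hs]
      by_cases hjk : j = k
      · subst hjk
        rw [Function.update_self, ← add_assoc]
        have h5 := (hy _ hSs).2
        exact ⟨h5.1, fun h => absurd h h5.2, fun h => absurd hk h⟩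
      · have hjk' : j < k := by omega
        rw [Function.update_of_ne hjk]
        obtain ⟨h7, h5⟩ := hab j hjk' _ hSs
        have hvv := hv j hjk' _ hSs
        have h8 : a j + (b' + ∑ l ∈ S.erase k, b l) =
            (a j + ∑ l ∈ S.erase k, b l) * (1 + b' * (a j + ∑ l ∈ S.erase k, b l)⁻¹) := by
          field_simp
          ring
        rw [h8]
        refine ⟨mul_ne_zero h7 hvv.ne, ?_⟩
        rw [mul_div_right_comm, hvv.mul_iff, h5]
        constructor
        · intro h hj
          exact h (Finset.mem_erase.2 ⟨hjk, hj⟩)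
        · intro h hj
          exact h (Finset.mem_of_mem_erase hj)
    · have hSs : S ⊆ Finset.range k := hsub _ hS hk
      rw [hsum S hk]
      by_cases hjk : j = k
      · subst hjk
        rw [Function.update_self]
        have h5 := (hy _ hSs).1
        refine ⟨fun h => h5.ne ?_, fun _ => hk, fun _ => h5⟩
        rw [h, zero_div]
      · have hjk' : j < k := by omega
        rw [Function.update_of_ne hjk]
        exact hab j hjk' _ hSs

end L1_

theorem p_L1 : T_L1 := by
  classical
  intro M _ q d hVC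
  by_contra hcon
  push Not at hcon
  obtain ⟨a, b, hab⟩ := L1_.step M q hcon d
  refine hVC (fun i => a i) (fun i => a i)
    (fun T => ∑ l ∈ Tᶜ.image (fun i : Fin d => (i : ℕ)), b l) ?_
  intro i T
  have hS : Tᶜ.image (fun i : Fin d => (i : ℕ)) ⊆ Finset.range d := by
    intro l hl
    obtain ⟨i, _, rfl⟩ := Finset.mem_image.1 hl
    exact Finset.mem_range.2 i.2
  have h3 := (hab i i.2 _ hS).2
  have h4 : (i : ℕ) ∈ Tᶜ.image (fun i : Fin d => (i : ℕ)) ↔ i ∉ T := by
    constructor
    · intro h
      obtain ⟨j, hj, hij⟩ := Finset.mem_image.1 h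
      rw [Fin.ext hij] at hj
      exact Finset.mem_compl.1 hj
    · intro h
      exact Finset.mem_image_of_mem (fun i : Fin d => (i : ℕ)) (Finset.mem_compl.2 h)
  rw [h3, h4, not_not]

end SNX
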