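import Pool.Agent.SNX.TE

/-!
# SNX-L1L: transfer of L1 to the ultrapower
-/

set_option autoImplicit false

namespace SNX

open Filter Polynomial NST

theorem p_L1L (h1 : T_L1) : T_L1L := by
  intro M _ q d hd
  obtain ⟨U, hU⟩ := h1 M q d hd
  refine ⟨U, fun a b h => ?_⟩
  obtain ⟨a, rfl⟩ := exists_mk a
  obtain ⟨b, rfl⟩ := exists_mk b
  have key : ∀ᶠ n in (Uf : Filter ℕ), ∀ u ∈ U, Hq q ((a n + u) / a n) ∧ Hq q (1 + b n * u) ∧
      a n + b n + u ≠ 0 ∧ ¬ Hq q ((a n + b n + u) / a n) := by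
    refine (Finset.eventually_all U).2 fun u hu => ?_
    obtain ⟨h2, h3, h4, h5⟩ := h u hu
    have e2 : (mk a + cst u) / mk a = mk fun n => (a n + u) / a n := rfl
    have e3 : 1 + mk b * cst u = mk fun n => 1 + b n * u := rfl
    have e4 : mk a + mk b + cst u = mk fun n => a n + b n + u := rfl
    have e5 : (mk a + mk b + cst u) / mk a = mk fun n => (a n + b n + u) / a n := rfl
    rw [e2, Hq_mk] at h2
    rw [e3, Hq_mk] at h3
    rw [e4, mk_ne_zero] at h4
    rw [e5, Hq_mk, NST.not_eventually] at h5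
    filter_upwards [h2, h3, h4, h5] with n h2 h3 h4 h5
    exact ⟨h2, h3, h4, h5⟩
  obtain ⟨n, hn⟩ := key.exists
  exact hU (a n) (b n) hn

end SNX
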