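import Pool.Agent.SNX.TE

/-!
# SNX-L2 (second use of NIP)
-/

set_option autoImplicit false

noncomputable section

namespace SNX

open Filter Polynomial NST

namespace L2_

variable {M : Type} [Field M]

/-- the point `y S` of level `k` -/
def yy (z e0 e1 : ℕ → M) (k : ℕ) (S : Finset ℕ) : M :=
  1 + ∑ l ∈ Finset.range k, (if l ∈ S then e1 l else e0 l) * z l

/-- the point `x j` -/
def xx (z e1 : ℕ → M) (j : ℕ) : M := - e1 j * z j

lemma yy_succ (z e0 e1 : ℕ → M) (k : ℕ) (S : Finset ℕ) :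
    yy z e0 e1 (k + 1) S = yy z e0 e1 k S + (if k ∈ S then e1 k else e0 k) * z k := by
  simp only [yy, Finset.sum_range_succ, add_assoc]

lemma yy_congr {z e0 e1 z' e0' e1' : ℕ → M} (k : ℕ) (hz : ∀ l < k, z l = z' l)
    (h0 : ∀ l < k, e0 l = e0' l) (h1 : ∀ l < k, e1 l = e1' l) (S : Finset ℕ) :
    yy z e0 e1 k S = yy z' e0' e1' k S := by
  simp only [yy]
  congr 1
  refine Finset.sum_congr rfl fun l hl => ?_
  have hl' := Finset.mem_range.mp hl
  rw [hz l hl', h0 l hl', h1 l hl']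

lemma yy_inter (z e0 e1 : ℕ → M) (k : ℕ) (S : Finset ℕ) :
    yy z e0 e1 k S = yy z e0 e1 k (S ∩ Finset.range k) := by
  simp only [yy]
  congr 1
  refine Finset.sum_congr rfl fun l hl => ?_
  have : (l ∈ S ∩ Finset.range k) ↔ l ∈ S := by
    rw [Finset.mem_inter]; exact and_iff_left hl
  by_cases h : l ∈ S
  · rw [if_pos h, if_pos (this.mpr h)]
  · rw [if_neg h, if_neg (fun h' => h (this.mp h'))]

/-- the product of the factors -/
def KK (κ : ℕ → M) (k : ℕ) : M := ∏ l ∈ Finset.range k, κ l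

lemma KK_succ (κ : ℕ → M) (k : ℕ) : KK κ (k + 1) = KK κ k * κ k := by
  simp only [KK, Finset.prod_range_succ]

lemma KK_congr {κ κ' : ℕ → M} (k : ℕ) (h : ∀ l < k, κ l = κ' l) : KK κ k = KK κ' k :=
  Finset.prod_congr rfl fun l hl => h l (Finset.mem_range.mp hl)

/-- the induction statement -/
def Stt (q : ℕ) (k : ℕ) (z e0 e1 κ : ℕ → M) : Prop :=
  KK κ k ≠ 0 ∧ (∀ S : Finset ℕ, Hq q (yy z e0 e1 k S / KK κ k)) ∧
  ∀ j < k, ∀ S : Finset ℕ, xx z e1 j + yy z e0 e1 k S ≠ 0 ∧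
    (Hq q ((xx z e1 j + yy z e0 e1 k S) / KK κ k) ↔ j ∉ S)

lemma move {q : ℕ} {w P e c K : M} (hw : w ≠ 0) (hP : P ≠ 0) (hc : c ≠ 0)
    (h : Hq q ((w + e * P⁻¹) / c)) : P + e * w⁻¹ ≠ 0 ∧
      (Hq q ((P + e * w⁻¹) / (K * (c / w))) ↔ Hq q (P / K)) := by
  have h0 : w + e * P⁻¹ ≠ 0 := by
    intro h0
    exact h.ne (by rw [h0, zero_div])
  have e1 : P + e * w⁻¹ = P * w⁻¹ * (w + e * P⁻¹) := by
    field_simp
  refine ⟨?_, ?_⟩
  · rw [e1]
    exact mul_ne_zero (mul_ne_zero hP (inv_ne_zero hw)) h0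
  · have e2 : (P + e * w⁻¹) / (K * (c / w)) = P / K * ((w + e * P⁻¹) / c) := by
      rw [e1]
      rcases eq_or_ne K 0 with rfl | hK
      · simp
      · field_simp
    rw [e2]
    exact Hq.mul_iff h

lemma step (q : ℕ)
    (H : ∀ Q : Finset M, (∀ P ∈ Q, P ≠ 0) → ∃ w e0 e1 c : M, w ≠ 0 ∧ c ≠ 0 ∧
      ¬ Hq q (w / c) ∧ ∀ P ∈ Q, Hq q ((w + e0 * P) / c) ∧ Hq q ((w + e1 * P) / c) ∧
        Hq q ((w + (e0 - e1) * P) / c))
    (k : ℕ) (z e0 e1 κ : ℕ → M) (hS : Stt q k z e0 e1 κ) :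
    ∃ z' e0' e1' κ' : ℕ → M, Stt q (k + 1) z' e0' e1' κ' := by
  classical
  obtain ⟨hK, hY, hX⟩ := hS
  have hYne : ∀ S, yy z e0 e1 k S ≠ 0 := fun S h => by
    have := (hY S).ne
    rw [h, zero_div] at this
    exact this rfl
  have hXne : ∀ j < k, ∀ S, xx z e1 j + yy z e0 e1 k S ≠ 0 := fun j hj S => (hX j hj S).1
  set Q : Finset M := ((Finset.range k).powerset.image fun S => (yy z e0 e1 k S)⁻¹) ∪
    (((Finset.range k).powerset ×ˢ Finset.range k).image fun p =>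
      (xx z e1 p.2 + yy z e0 e1 k p.1)⁻¹) with hQ
  have hQne : ∀ P ∈ Q, P ≠ 0 := by
    intro P hP
    rcases Finset.mem_union.mp hP with h | h
    · obtain ⟨S, _, rfl⟩ := Finset.mem_image.mp h
      exact inv_ne_zero (hYne S)
    · obtain ⟨p, hp, rfl⟩ := Finset.mem_image.mp h
      exact inv_ne_zero (hXne p.2 (Finset.mem_range.mp (Finset.mem_product.mp hp).2) p.1)
  obtain ⟨w, a0, a1, c, hwne, hcne, hwc, hw⟩ := H Q hQne
  have memY : ∀ S, (yy z e0 e1 k S)⁻¹ ∈ Q := fun S => by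
    rw [yy_inter]
    exact Finset.mem_union_left _ (Finset.mem_image.mpr ⟨S ∩ Finset.range k,
      Finset.mem_powerset.mpr Finset.inter_subset_right, rfl⟩)
  have memX : ∀ j < k, ∀ S, (xx z e1 j + yy z e0 e1 k S)⁻¹ ∈ Q := fun j hj S => by
    rw [yy_inter]
    exact Finset.mem_union_right _ (Finset.mem_image.mpr ⟨(S ∩ Finset.range k, j),
      Finset.mem_product.mpr ⟨Finset.mem_powerset.mpr Finset.inter_subset_right,
        Finset.mem_range.mpr hj⟩, rfl⟩)
  -- moving a value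
  have mv : ∀ P : M, P ≠ 0 → P⁻¹ ∈ Q → (P + a0 * w⁻¹ ≠ 0 ∧
      (Hq q ((P + a0 * w⁻¹) / (KK κ k * (c / w))) ↔ Hq q (P / KK κ k))) ∧
      (P + a1 * w⁻¹ ≠ 0 ∧
      (Hq q ((P + a1 * w⁻¹) / (KK κ k * (c / w))) ↔ Hq q (P / KK κ k))) ∧
      (P + (a0 - a1) * w⁻¹ ≠ 0 ∧
      (Hq q ((P + (a0 - a1) * w⁻¹) / (KK κ k * (c / w))) ↔ Hq q (P / KK κ k))) :=
    fun P hP hPQ => ⟨move hwne hP hcne (hw _ hPQ).1, move hwne hP hcne (hw _ hPQ).2.1,
      move hwne hP hcne (hw _ hPQ).2.2⟩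
  refine ⟨Function.update z k w⁻¹, Function.update e0 k a0, Function.update e1 k a1,
    Function.update κ k (c / w), ?_⟩
  set z' := Function.update z k w⁻¹ with hz'
  set e0' := Function.update e0 k a0 with he0'
  set e1' := Function.update e1 k a1 with he1'
  set κ' := Function.update κ k (c / w) with hκ'
  have hyk : ∀ S, yy z' e0' e1' k S = yy z e0 e1 k S := fun S =>
    yy_congr k (fun l hl => by rw [hz', Function.update_of_ne (ne_of_lt hl)])
      (fun l hl => by rw [he0', Function.update_of_ne (ne_of_lt hl)])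
      (fun l hl => by rw [he1', Function.update_of_ne (ne_of_lt hl)]) S
  have hxk : ∀ j < k, xx z' e1' j = xx z e1 j := fun j hj => by
    rw [xx, xx, hz', he1', Function.update_of_ne (ne_of_lt hj), Function.update_of_ne (ne_of_lt hj)]
  have hzk : z' k = w⁻¹ := by rw [hz', Function.update_self]
  have h0k : e0' k = a0 := by rw [he0', Function.update_self]
  have h1k : e1' k = a1 := by rw [he1', Function.update_self]
  have hKk : KK κ' (k + 1) = KK κ k * (c / w) := by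
    rw [KK_succ, hκ', Function.update_self]
    congr 1
    exact KK_congr k fun l hl => by rw [Function.update_of_ne (ne_of_lt hl)]
  refine ⟨?_, fun S => ?_, fun j hj S => ?_⟩
  · rw [hKk]
    exact mul_ne_zero hK (div_ne_zero hcne hwne)
  · rw [yy_succ, hyk, hzk, h0k, h1k, hKk]
    by_cases hkS : k ∈ S
    · rw [if_pos hkS]; exact (mv _ (hYne S) (memY S)).2.1.2.2 (hY S)
    · rw [if_neg hkS]; exact (mv _ (hYne S) (memY S)).1.2.2 (hY S)
  · rcases Nat.lt_succ_iff_lt_or_eq.mp hj with hj | rfl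
    · rw [yy_succ, hyk, hzk, h0k, h1k, hxk j hj, ← add_assoc, hKk]
      by_cases hkS : k ∈ S
      · rw [if_pos hkS]
        have h2 := (mv _ (hXne j hj S) (memX j hj S)).2.1
        exact ⟨h2.1, h2.2.trans (hX j hj S).2⟩
      · rw [if_neg hkS]
        have h2 := (mv _ (hXne j hj S) (memX j hj S)).1
        exact ⟨h2.1, h2.2.trans (hX j hj S).2⟩
    · rw [yy_succ, hyk, xx, hzk, h0k, h1k, hKk]
      by_cases hjS : j ∈ S
      · rw [if_pos hjS]
        have e2 : -a1 * w⁻¹ + (yy z e0 e1 j S + a1 * w⁻¹) = yy z e0 e1 j S := by ring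
        rw [e2]
        refine ⟨hYne S, ?_⟩
        constructor
        · intro h
          exfalso
          apply hwc
          have h3 := (hY S).inv.mul h
          have e3 : (yy z e0 e1 j S / KK κ j)⁻¹ * (yy z e0 e1 j S / (KK κ j * (c / w))) =
              w / c := by
            have := hYne S
            field_simp
          rwa [e3] at h3
        · intro h
          exact absurd hjS h
      · rw [if_neg hjS]
        have e2 : -a1 * w⁻¹ + (yy z e0 e1 j S + a0 * w⁻¹) =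
            yy z e0 e1 j S + (a0 - a1) * w⁻¹ := by ring
        rw [e2]
        have h2 := (mv _ (hYne S) (memY S)).2.2
        exact ⟨h2.1, fun _ => hjS, fun _ => h2.2.2 (hY S)⟩

end L2_

open L2_ in
theorem p_L2 : T_L2 := by
  classical
  intro M _ q d hV
  by_contra hcon
  push Not at hcon
  have H : ∀ Q : Finset M, (∀ P ∈ Q, P ≠ 0) → ∃ w e0 e1 c : M, w ≠ 0 ∧ c ≠ 0 ∧
      ¬ Hq q (w / c) ∧ ∀ P ∈ Q, Hq q ((w + e0 * P) / c) ∧ Hq q ((w + e1 * P) / c) ∧
        Hq q ((w + (e0 - e1) * P) / c) := hcon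
  have all : ∀ k : ℕ, ∃ z e0 e1 κ : ℕ → M, Stt q k z e0 e1 κ := by
    intro k
    induction k with
    | zero =>
      refine ⟨fun _ => 0, fun _ => 0, fun _ => 0, fun _ => 0, ?_, fun S => ?_,
        fun j hj => absurd hj (Nat.not_lt_zero j)⟩
      · simp [KK]
      · simp only [yy, KK, Finset.range_zero, Finset.sum_empty, add_zero, Finset.prod_empty,
          div_one]
        exact Hq.one
    | succ k ih =>
      obtain ⟨z, e0, e1, κ, h⟩ := ih
      exact step q H k z e0 e1 κ h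
  obtain ⟨z, e0, e1, κ, -, -, hX⟩ := all d
  refine hV (fun i => xx z e1 i) (fun _ => KK κ d)
    (fun T => yy z e0 e1 d (Tᶜ.map Fin.valEmbedding)) fun i T => ?_
  have hmem : ((i : ℕ) ∈ Tᶜ.map Fin.valEmbedding) ↔ i ∉ T := by
    rw [← Fin.valEmbedding_apply, Finset.mem_map' Fin.valEmbedding, Finset.mem_compl]
  rw [(hX i i.isLt _).2, hmem, not_not]

end SNX
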