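import Pool.Agent.SNX.TE

/-!
# SNX: L2L, transfer of L2 to the ultrapower
-/

set_option autoImplicit false

namespace SNX

open Filter NST

namespace L2L_

variable {M : Type} [Field M]

theorem aux {q : ℕ} {w c : ℕ → M} {e : M} (h : Hq q ((mk w + cst e) / mk c)) :
    ∀ᶠ n in (Uf : Filter ℕ), Hq q ((w n + e) / c n) := by
  rw [cst, mk_add, mk_div] at h
  exact Hq_mk.1 h

theorem aux0 {q : ℕ} {w c : ℕ → M} (h : ¬ Hq q (mk w / mk c)) :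
    ∀ᶠ n in (Uf : Filter ℕ), ¬ Hq q (w n / c n) := by
  rw [mk_div, Hq_mk] at h
  exact not_eventually.1 h

end L2L_

open L2L_

/-- transfer of L2 -/
theorem p_L2L (h : T_L2) : T_L2L := by
  intro M _ q d hd
  obtain ⟨Q, hQ0, hQ⟩ := h M q d hd
  refine ⟨Q, hQ0, ?_⟩
  rintro w c e0 e1 ⟨hw, hc, hn, hP⟩
  obtain ⟨w, rfl⟩ := exists_mk w
  obtain ⟨c, rfl⟩ := exists_mk c
  have h1 : ∀ᶠ n in (Uf : Filter ℕ), w n ≠ 0 := mk_ne_zero.1 hw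
  have h2 : ∀ᶠ n in (Uf : Filter ℕ), c n ≠ 0 := mk_ne_zero.1 hc
  have h3 : ∀ᶠ n in (Uf : Filter ℕ), ∀ P ∈ Q, Hq q ((w n + e0 * P) / c n) ∧
      Hq q ((w n + e1 * P) / c n) ∧ Hq q ((w n + (e0 - e1) * P) / c n) := by
    refine (Finset.eventually_all Q).2 fun P hPQ => ?_
    obtain ⟨ha, hb, hc'⟩ := hP P hPQ
    filter_upwards [aux ha, aux hb, aux hc'] with n a b c'
    exact ⟨a, b, c'⟩
  obtain ⟨n, ⟨⟨h1n, h2n⟩, h3n⟩, h4n⟩ := (((h1.and h2).and (aux0 hn)).and h3).exists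
  exact hQ (w n) e0 e1 (c n) ⟨h1n, h2n, h3n, h4n⟩

end SNX
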