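import Pool.Agent.SNX.TE

set_option autoImplicit false
set_option linter.unusedSectionVars false

noncomputable section

namespace SNX

open Filter Polynomial NST

namespace LW_

variable {M : Type} [Field M] {q : ℕ} {R : Subring (Lx M)}

/-- `II` is closed under finite sums -/
theorem sum_mem (hR : Rg M q R) {ι : Type} (s : Finset ι) (f : ι → Lx M)
    (h : ∀ i ∈ s, f i ∈ II M q) : ∑ i ∈ s, f i ∈ II M q := by
  classical
  induction s using Finset.induction_on with
  | empty => simpa using hR.zero
  | insert a s ha ih =>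
    rw [Finset.sum_insert ha]
    exact hR.add _ (h a (Finset.mem_insert_self a s)) _
      (ih fun i hi => h i (Finset.mem_insert_of_mem hi))

theorem sub_mem (hR : Rg M q R) {a b : Lx M} (ha : a ∈ II M q) (hb : b ∈ II M q) :
    a - b ∈ II M q := by
  rw [sub_eq_add_neg]
  exact hR.add _ ha _ (hR.neg _ hb)

/-- the set `J` -/
def J (M : Type) [Field M] (q d : ℕ) (w : Lx M) : Set (Lx M) :=
  {x | ∀ k, k + 2 ≤ d → x * w ^ k ∈ II M q}

/-- evaluation of a polynomial of small degree -/
theorem poly_mem (hR : Rg M q R) {d : ℕ} {w x : Lx M} (hx : x ∈ J M q d w) (p : M[X])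
    (hp : p.natDegree + 2 ≤ d) : x * p.eval₂ cstR w ∈ II M q := by
  rw [eval₂_eq_sum_range, Finset.mul_sum]
  refine sum_mem hR _ _ fun k hk => ?_
  have hk' : k ≤ p.natDegree := Nat.lt_succ_iff.1 (Finset.mem_range.1 hk)
  have h1 := hR.mul _ (hR.cst (p.coeff k)) _ (hx k (by omega))
  have h2 : x * (cstR (p.coeff k) * w ^ k) = cst (p.coeff k) * (x * w ^ k) := by
    rw [cstR_apply]
    ring
  rwa [h2]

theorem natDegree_prod {d : ℕ} (s : Finset (Fin d)) (m : Fin d → M) :
    (∏ l ∈ s, (X + C (m l))).natDegree = s.card := by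
  rw [natDegree_prod_of_monic _ _ fun l _ => monic_X_add_C (m l)]
  simp

theorem eval_prod {d : ℕ} (s : Finset (Fin d)) (m : Fin d → M) (w : Lx M) :
    (∏ l ∈ s, (X + C (m l))).eval₂ cstR w = ∏ l ∈ s, (w + cst (m l)) := by
  rw [eval₂_finsetProd]
  refine Finset.prod_congr rfl fun l _ => ?_
  simp

/-- step (A) -/
theorem stepA (hR : Rg M q R) {d : ℕ} (hd : 2 ≤ d) {m : Fin d → M}
    (hm : Function.Injective m) {w : Lx M} (hw : ∀ i, w + cst (m i) ≠ 0) {i : Fin d}
    (hi : ∀ x : Lx M, (∀ j, j ≠ i → x * (w + cst (m j))⁻¹ ∈ II M q) →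
      x * (w + cst (m i))⁻¹ ∈ II M q) {x : Lx M} (hx : x ∈ J M q d w) :
    x * (w + cst (m i))⁻¹ ∈ II M q := by
  classical
  set z := (w + cst (m i))⁻¹ with hz
  set P : M[X] := ∏ l ∈ Finset.univ.erase i, (X + C (m l)) with hP
  have hPdeg : P.natDegree = d - 1 := by
    rw [hP, natDegree_prod, Finset.card_erase_of_mem (Finset.mem_univ i), Finset.card_univ,
      Fintype.card_fin]
  have h1 : x * P.eval₂ cstR w * z ∈ II M q := by
    refine hi _ fun j hj => ?_
    have hj' : j ∈ Finset.univ.erase i := Finset.mem_erase.2 ⟨hj, Finset.mem_univ j⟩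
    have h2 : P = (X + C (m j)) * ∏ l ∈ (Finset.univ.erase i).erase j, (X + C (m l)) := by
      exact (Finset.mul_prod_erase (Finset.univ.erase i) (fun l => X + C (m l)) hj').symm
    have h3 := poly_mem hR hx (∏ l ∈ (Finset.univ.erase i).erase j, (X + C (m l))) (by
      rw [natDegree_prod, Finset.card_erase_of_mem hj',
        Finset.card_erase_of_mem (Finset.mem_univ i), Finset.card_univ, Fintype.card_fin]
      omega)
    have h4 : P.eval₂ cstR w = (w + cst (m j)) *
        (∏ l ∈ (Finset.univ.erase i).erase j, (X + C (m l))).eval₂ cstR w := by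
      rw [h2, eval₂_mul]
      simp
    rw [h4]
    have h5 : x * ((w + cst (m j)) *
        (∏ l ∈ (Finset.univ.erase i).erase j, (X + C (m l))).eval₂ cstR w) *
        (w + cst (m j))⁻¹ = x *
        (∏ l ∈ (Finset.univ.erase i).erase j, (X + C (m l))).eval₂ cstR w := by
      field_simp [hw j]
    rwa [h5]
  set G : M[X] := P /ₘ (X - C (-m i)) with hG
  have h6 : P = C (P.eval (-m i)) + (X - C (-m i)) * G := by
    have := modByMonic_add_div P (X - C (-m i))
    rw [modByMonic_X_sub_C_eq_C_eval] at this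
    exact this.symm
  have hGdeg : G.natDegree = d - 2 := by
    rw [hG, natDegree_divByMonic _ (monic_X_sub_C _), hPdeg, natDegree_X_sub_C]
    omega
  have h7 := poly_mem hR hx G (by rw [hGdeg]; omega)
  have h8 : P.eval₂ cstR w = cst (P.eval (-m i)) + (w + cst (m i)) * G.eval₂ cstR w := by
    conv_lhs => rw [h6]
    rw [eval₂_add, eval₂_mul, eval₂_sub]
    simp
  have h9 : P.eval (-m i) ≠ 0 := by
    rw [hP, Polynomial.eval_prod, Finset.prod_ne_zero_iff]
    intro l hl h
    have h10 : m l = m i := by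
      have : -m i + m l = 0 := by simpa using h
      linear_combination this
    exact (Finset.mem_erase.1 hl).1 (hm h10)
  have h11 : cst (P.eval (-m i)) * (x * z) ∈ II M q := by
    have h12 : cst (P.eval (-m i)) * (x * z) =
        x * P.eval₂ cstR w * z - x * G.eval₂ cstR w := by
      rw [h8]
      have h13 : (w + cst (m i)) * z = 1 := mul_inv_cancel₀ (hw i)
      linear_combination (- x * G.eval₂ cstR w) * h13
    rw [h12]
    exact sub_mem hR h1 h7
  have h14 := hR.mul _ (hR.cst (P.eval (-m i))⁻¹) _ h11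
  have h15 : cst (P.eval (-m i))⁻¹ * (cst (P.eval (-m i)) * (x * z)) = x * z := by
    rw [← mul_assoc, ← cst_mul, inv_mul_cancel₀ h9, cst_one, one_mul]
  rwa [h15] at h14

/-- step (B) -/
theorem stepB (hR : Rg M q R) {d : ℕ} {a : M} {w z : Lx M}
    (hz : z * w = 1 - cst a * z) (hA : ∀ x ∈ J M q d w, x * z ∈ II M q) {x : Lx M}
    (hx : x ∈ J M q d w) : x * z ∈ J M q d w := by
  intro k
  induction k with
  | zero =>
    intro _
    simpa using hA x hx
  | succ k ih =>
    intro hk
    have h1 := ih (by omega)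
    have h2 := hx k (by omega)
    have h3 : x * z * w ^ (k + 1) = x * w ^ k - cst a * (x * z * w ^ k) := by
      rw [pow_succ]
      linear_combination (x * w ^ k) * hz
    rw [h3]
    exact sub_mem hR h2 (hR.mul _ (hR.cst a) _ h1)

/-- step (C) -/
theorem stepC (hR : Rg M q R) {d : ℕ} {w z : Lx M}
    (hB : ∀ x ∈ J M q d w, x * z ∈ J M q d w) {t : Lx M}
    (ht : t ∈ Subring.closure ((R : Set (Lx M)) ∪ {z})) :
    ∀ x ∈ J M q d w, x * t ∈ J M q d w := by
  induction ht using Subring.closure_induction with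
  | mem y hy =>
    intro x hx
    rcases hy with hy | hy
    · intro k hk
      have h1 := hR.mul _ hy _ (hx k hk)
      have h2 : x * y * w ^ k = y * (x * w ^ k) := by ring
      rwa [h2]
    · rw [Set.mem_singleton_iff.1 hy]
      exact hB x hx
  | zero =>
    intro x _ k _
    simpa using hR.zero
  | one =>
    intro x hx
    simpa using hx
  | add a b _ _ ha hb =>
    intro x hx k hk
    have h1 := hR.add _ (ha x hx k hk) _ (hb x hx k hk)
    have h2 : x * (a + b) * w ^ k = x * a * w ^ k + x * b * w ^ k := by ring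
    rwa [h2]
  | neg a _ ha =>
    intro x hx k hk
    have h1 := hR.neg _ (ha x hx k hk)
    have h2 : x * (-a) * w ^ k = -(x * a * w ^ k) := by ring
    rwa [h2]
  | mul a b _ _ ha hb =>
    intro x hx
    have h1 := hb _ (ha x hx)
    rwa [mul_assoc] at h1

/-- powers -/
theorem pow_mem (hR : Rg M q R) {y w : Lx M} (hy : y ∈ II M q) (hyw : y * w ∈ II M q) :
    ∀ N k : ℕ, 1 ≤ N → k ≤ N → y ^ N * w ^ k ∈ II M q := by
  intro N
  induction N with
  | zero =>
    intro k h
    omega
  | succ N ih =>
    intro k _ hk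
    rcases Nat.eq_zero_or_pos N with hN | hN
    · subst hN
      rcases Nat.eq_zero_or_pos k with h0 | h0
      · subst h0
        simpa using hy
      · have h1 : k = 1 := by omega
        subst h1
        simpa using hyw
    · rcases Nat.eq_zero_or_pos k with h0 | h0
      · subst h0
        have h1 := hR.mul _ (hR.sub _ hy) _ (ih 0 hN (Nat.zero_le _))
        have h2 : y ^ (N + 1) * w ^ 0 = y * (y ^ N * w ^ 0) := by ring
        rwa [h2]
      · obtain ⟨k', rfl⟩ : ∃ k', k = k' + 1 := ⟨k - 1, by omega⟩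
        have h1 := hR.mul _ (hR.sub _ hyw) _ (ih k' hN (by omega))
        have h2 : y ^ (N + 1) * w ^ (k' + 1) = y * w * (y ^ N * w ^ k') := by ring
        rwa [h2]

end LW_

open LW_ in
theorem p_LW (h : T_SQ) : T_LW := by
  intro M _ _ q d R hq hR hDW m hm w hw
  obtain ⟨i, hi⟩ := hDW fun j => (w + cst (m j))⁻¹
  refine ⟨i, ?_⟩
  have hd : 2 ≤ d := by
    by_contra hd
    have hd1 : d = 1 := by
      have := i.2
      omega
    subst hd1
    obtain ⟨j, hj⟩ := hDW fun _ => 1
    have h1 := hj 1 fun k hk => absurd (Subsingleton.elim k j) hk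
    exact hR.ne (by simpa using h1)
  set z := (w + cst (m i))⁻¹ with hz
  have hwz : z * w = 1 - cst (m i) * z := by
    have h1 : (w + cst (m i)) * z = 1 := mul_inv_cancel₀ (hw i)
    linear_combination h1
  have hA : ∀ x ∈ J M q d w, x * z ∈ II M q := fun x hx => stepA hR hd hm hw hi hx
  have hB : ∀ x ∈ J M q d w, x * z ∈ J M q d w := fun x hx => stepB hR hwz hA hx
  set T : Subring (Lx M) := Subring.closure ((R : Set (Lx M)) ∪ {z}) with hT
  have hRT : R ≤ T := fun b hb => Subring.subset_closure (Or.inl hb)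
  have hzT : z ∈ T := Subring.subset_closure (Or.inr rfl)
  have hC : ∀ x ∈ J M q d w, ∀ t ∈ T, x * t ∈ II M q := by
    intro x hx t ht
    have h1 := stepC hR hB ht x hx 0 (by omega)
    simpa using h1
  -- step (D)
  have hD : ∀ y ∈ II M q, y * w ∈ II M q → ∀ t ∈ T, y * t ∈ II M q := by
    intro y hy hyw
    have hJ : y ^ 2 ^ d ∈ J M q d w := by
      intro k hk
      refine pow_mem hR hy hyw _ _ Nat.one_le_two_pow ?_
      have := Nat.lt_two_pow_self (n := d)
      omega
    have key : ∀ j, j ≤ d → ∀ t ∈ T, y ^ 2 ^ (d - j) * t ∈ II M q := by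
      intro j
      induction j with
      | zero =>
        intro _ t ht
        exact hC _ hJ t ht
      | succ j ih =>
        intro hj
        have h1 := ih (by omega)
        have h2 : y ^ 2 ^ (d - (j + 1)) * y ^ 2 ^ (d - (j + 1)) = y ^ 2 ^ (d - j) := by
          rw [← pow_add]
          congr 1
          have h3 : d - j = (d - (j + 1)) + 1 := by omega
          rw [h3, pow_succ]
          ring
        refine h M q R hq hR T hRT _ (pow_mem (hRT (hR.sub _ hy)) _) ?_
        intro t ht
        rw [h2]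
        exact h1 t ht
    intro t ht
    have h1 := key d le_rfl t ht
    simpa using h1
  -- step (F)
  intro x hx hxz
  refine hD (x * z) hxz ?_ z hzT
  have h1 : x * z * w = x - cst (m i) * (x * z) := by
    linear_combination x * hwz
  rw [h1]
  exact sub_mem hR hx (hR.mul _ (hR.cst (m i)) _ hxz)

end SNX
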