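import Pool.Agent.SNX.TE
import Pool.Agent.NST.TB

/-!
# SNX-OP: the engine (assembly)
-/

set_option autoImplicit false
set_option linter.unusedSectionVars false

noncomputable section

namespace SNX

open Filter Polynomial NST

/-- the nonunits of the trivial valuation ring -/
theorem OP_nonunits_top {L : Type} [Field L] (V : ValuationSubring L) (hV : V = ⊤) (e : L)
    (he : e ∈ V.nonunits) : e = 0 := by
  by_contra h0
  have h1 : V.valuation e < 1 := (ValuationSubring.mem_nonunits_iff V).1 he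
  have h2 : e⁻¹ ∈ V := by
    rw [hV]
    exact ValuationSubring.mem_top _
  have h3 : V.valuation e⁻¹ ≤ 1 := (ValuationSubring.valuation_le_one_iff V _).2 h2
  have h4 : V.valuation e * V.valuation e⁻¹ = 1 := by
    rw [← map_mul, mul_inv_cancel₀ h0, map_one]
  have h5 : V.valuation e * V.valuation e⁻¹ < 1 := by
    calc V.valuation e * V.valuation e⁻¹ ≤ V.valuation e * 1 := mul_le_mul_right h3 _
      _ < 1 := by rwa [mul_one]
  exact absurd h4 (ne_of_lt h5)

theorem OP_triv {M : Type} [Field M] (q : ℕ) (h : ¬ ∃ m : M, m ≠ 0 ∧ ¬ Hq q m) :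
    NST.OpF M q := by
  refine ⟨∅, Set.finite_empty, fun V hV => absurd hV (Set.notMem_empty V), ?_⟩
  intro x hx _
  obtain ⟨f, rfl⟩ := exists_mk x
  have h1 : Hq q (mk f) := by
    rw [Hq_mk]
    filter_upwards [mk_ne_zero.1 hx] with n hn
    by_contra hc
    exact h ⟨f n, hn, hc⟩
  exact h1.2

theorem p_OP (hV1 : T_V1) (hV2 : T_V2) (hC1 : T_C1) (hRG : T_RG) (hS0 : T_S0) (hNE : T_NE)
    (hDW : T_DW) (hDM : T_DM) (hSQ : T_SQ) (hLW : T_LW) (hTW : T_TW) (hIN : T_IN) (hFM : T_FM)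
    (hJC : T_JC) (hIM : T_IM) (hV0 : NST.T_V0) (hSP : NST.T_SP) : T_OP := by
  intro M _ _ _ q hq hNF hSN
  by_cases hN : ∃ m : M, m ≠ 0 ∧ ¬ Hq q m
  swap
  · exact OP_triv q hN
  obtain ⟨d1, hd1⟩ := hV1 M q hNF
  have hC : C1 M q := hC1 M q d1 hd1 hN
  obtain ⟨R, hR⟩ := hRG M q hC
  obtain ⟨S, hS⟩ := hS0 M q hC
  have hne : ∃ e ∈ II M q, e ≠ 0 := hNE M q hq hNF hSN
  obtain ⟨d2, hd2⟩ := hV2 M q S hNF
  have hDW2 : DWp M q d2 := hDW M q d2 R S hR hS hne hd2
  have hDWd : DWp M q (max d2 2) := hDM M q d2 (max d2 2) (le_max_left _ _) hDW2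
  have hLWd : LWp M q (max d2 2) := hLW M q (max d2 2) R hq hR hDWd
  have hTWr := hTW M q R S hq hR hS hne hSN
  have hinj : Function.Injective (fun i : Fin (max d2 2) => ((i : ℕ) : M)) := by
    intro i j hij
    exact Fin.ext (Nat.cast_injective hij)
  have hINd := hIN M q (max d2 2) R S hR hS hLWd hTWr (fun i => ((i : ℕ) : M)) hinj
  have hfin : Finite (MaximalSpectrum R) := by
    apply hFM (Lx M) R (max d2 2) (fun i => cst ((i : ℕ) : M)) (le_max_right _ _)
      (fun i => hR.cst _) _ (fun w _ => hINd w)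
    intro i j hij
    have h1 : (cst ((i : ℕ) : M) : Lx M) - cst ((j : ℕ) : M)
        = cst (((i : ℕ) : M) - ((j : ℕ) : M)) := rfl
    have h2 : ((i : ℕ) : M) - ((j : ℕ) : M) ≠ 0 := by
      intro h
      exact hij (hinj (sub_eq_zero.1 h))
    refine ⟨?_, ?_⟩
    · rw [h1, Ne, ← cst_zero, cst_inj]
      exact h2
    · rw [h1]
      have h3 : (cst (((i : ℕ) : M) - ((j : ℕ) : M)) : Lx M)⁻¹
          = cst ((((i : ℕ) : M) - ((j : ℕ) : M))⁻¹) := rfl
      rw [h3]
      exact hR.cst _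
  have hinv : ∀ w : Lx M, ∃ m ∈ R, w + m ≠ 0 ∧ (w + m)⁻¹ ∈ R := by
    intro w
    have hcase : ∀ u : M, w + cst u = 0 → ∃ m ∈ R, w + m ≠ 0 ∧ (w + m)⁻¹ ∈ R := by
      intro u hu
      refine ⟨1 + cst u, R.add_mem R.one_mem (hR.cst u), ?_, ?_⟩
      · have h1 : w + (1 + cst u) = 1 := by
          calc w + (1 + cst u) = (w + cst u) + 1 := by ring
            _ = 1 := by rw [hu, zero_add]
        rw [h1]
        exact one_ne_zero
      · have h1 : w + (1 + cst u) = 1 := by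
          calc w + (1 + cst u) = (w + cst u) + 1 := by ring
            _ = 1 := by rw [hu, zero_add]
        rw [h1, inv_one]
        exact R.one_mem
    rcases hINd w with ⟨i, hi⟩ | ⟨i, hi⟩
    · exact hcase _ hi
    · by_cases h0 : w + cst ((i : ℕ) : M) = 0
      · exact hcase _ h0
      · exact ⟨cst ((i : ℕ) : M), hR.cst _, h0, hi⟩
  obtain ⟨n, V, hVR, hVi⟩ := hV0 (Lx M) R hfin hinv
  have hrad : ∀ b ∈ R, b * b ∈ II M q → b ∈ II M q := by
    intro b hb hbb
    have h1 := hSQ M q R hq hR R le_rfl b hb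
      (fun t ht => by
        have h2 := hR.mul t ht (b * b) hbb
        rwa [mul_comm] at h2) 1 R.one_mem
    rwa [mul_one] at h1
  have hnat : ∀ c : ℕ, 0 < c → ((c : Lx M))⁻¹ ∈ R := by
    intro c _
    have h1 : ((c : Lx M))⁻¹ = cst ((c : M)⁻¹) := by
      rw [← cst_natCast c]
      rfl
    rw [h1]
    exact hR.cst _
  have hJ := hJC (Lx M) R (II M q) hR.zero hnat hR.sub hR.add hR.mul hR.inv hne hR.ne hR.colon
    hrad n V hVR hVi
  have hTop : ∀ k, V k ≠ ⊤ := by
    intro k hk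
    obtain ⟨e, he1, he2⟩ := hne
    exact he2 (OP_nonunits_top (V k) hk e ((hJ e).1 he1 k))
  have hcst : ∀ k (u : M), cst u ∈ V k := fun k u => (hVR _).1 (hR.cst u) k
  obtain ⟨D, hD, hD2⟩ := hIM M q
  have hmon := hSP M n V D hD (fun x => (hJ x).symm.trans (hD2 x)) hTop hcst hVi
  refine ⟨Set.range V, Set.finite_range V, ?_, ?_⟩
  · rintro _ ⟨k, rfl⟩
    exact hmon k
  · intro x _ h
    have h4 : x - 1 ∈ II M q := (hJ _).2 fun k => h _ ⟨k, rfl⟩
    have h5 : Hq q (1 + (x - 1) * cst 1) := h4 1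
    rw [cst_one, mul_one, add_sub_cancel] at h5
    exact h5.2

end SNX
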