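import Pool.Agent.SNX.Defs

/-!
# SNX: closure properties of positive existential relations
-/

set_option autoImplicit false
set_option linter.unusedSectionVars false

noncomputable section

namespace SNX

open MvPolynomial

section PE

variable {F : Type} [Field F] {ι κ : Type}

theorem PEr.congr {R R' : (ι → F) → Prop} (h : PEr R) (h' : ∀ v, R' v ↔ R v) : PEr R' := by
  obtain ⟨l, t, P, hP⟩ := h
  exact ⟨l, t, P, fun v => (h' v).trans (hP v)⟩

/-- polynomial equations -/
theorem PEr.eq (P : MvPolynomial ι ℤ) : PEr (fun v : ι → F => aeval v P = 0) := by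
  refine ⟨0, 1, fun _ => rename Sum.inl P, fun v => ?_⟩
  have h : ∀ z : Fin 0 → F, aeval (Sum.elim v z) (rename Sum.inl P) = aeval v P := by
    intro z
    rw [aeval_rename]
    rfl
  constructor
  · intro h1
    exact ⟨Fin.elim0, fun _ => by rw [h]; exact h1⟩
  · rintro ⟨z, hz⟩
    have := hz 0
    rwa [h] at this

/-- equations between two polynomials -/
theorem PEr.eq2 (P Q : MvPolynomial ι ℤ) : PEr (fun v : ι → F => aeval v P = aeval v Q) :=
  (PEr.eq (P - Q)).congr fun v => by rw [map_sub, sub_eq_zero]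

theorem PEr.true : PEr (fun _ : ι → F => True) :=
  (PEr.eq (0 : MvPolynomial ι ℤ)).congr fun v => by simp

/-- substitution of polynomials -/
theorem PEr.comp {R : (κ → F) → Prop} (h : PEr R) (f : κ → MvPolynomial ι ℤ) :
    PEr (fun v : ι → F => R fun j => aeval v (f j)) := by
  obtain ⟨l, t, P, hP⟩ := h
  refine ⟨l, t, fun j => bind₁ (Sum.elim (fun k => rename Sum.inl (f k)) fun i => X (Sum.inr i))
    (P j), fun v => (hP _).trans ?_⟩
  refine exists_congr fun z => forall_congr' fun j => ?_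
  have h1 : aeval (Sum.elim v z) (bind₁ (Sum.elim (fun k => rename Sum.inl (f k))
      fun i => X (Sum.inr i)) (P j)) = aeval (Sum.elim (fun k => aeval v (f k)) z) (P j) := by
    rw [aeval_bind₁]
    congr 2
    funext k
    rcases k with k | k
    · simp only [Sum.elim_inl]
      rw [aeval_rename]
      rfl
    · simp
  rw [h1]

/-- change of variables -/
theorem PEr.reindex {R : (κ → F) → Prop} (h : PEr R) (f : κ → ι) :
    PEr (fun v : ι → F => R fun j => v (f j)) :=
  (h.comp (fun j => X (f j) : κ → MvPolynomial ι ℤ)).congr fun v => by simp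

/-- existential quantifiers -/
theorem PEr.ex {k : ℕ} {R : (ι ⊕ Fin k → F) → Prop} (h : PEr R) :
    PEr (fun v : ι → F => ∃ z : Fin k → F, R (Sum.elim v z)) := by
  obtain ⟨l, t, P, hP⟩ := h
  refine ⟨k + l, t, fun j => rename (Sum.elim (Sum.elim Sum.inl fun i => Sum.inr (Fin.castAdd l i))
    fun i => Sum.inr (Fin.natAdd k i)) (P j), fun v => ?_⟩
  have h1 : ∀ (z : Fin k → F) (z' : Fin l → F) (j : Fin t),
      aeval (Sum.elim v (Fin.append z z')) (rename (Sum.elim (Sum.elim Sum.inl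
        fun i => Sum.inr (Fin.castAdd l i)) fun i => Sum.inr (Fin.natAdd k i)) (P j)) =
      aeval (Sum.elim (Sum.elim v z) z') (P j) := by
    intro z z' j
    rw [aeval_rename]
    congr 2
    funext x
    rcases x with (x | x) | x
    · simp
    · simp
    · simp
  constructor
  · rintro ⟨z, hz⟩
    obtain ⟨z', hz'⟩ := (hP _).1 hz
    exact ⟨Fin.append z z', fun j => by rw [h1]; exact hz' j⟩
  · rintro ⟨z, hz⟩
    refine ⟨fun i => z (Fin.castAdd l i), (hP _).2 ⟨fun i => z (Fin.natAdd k i), fun j => ?_⟩⟩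
    rw [← h1]
    have h2 : Fin.append (fun i => z (Fin.castAdd l i)) (fun i => z (Fin.natAdd k i)) = z :=
      Fin.append_castAdd_natAdd
    rw [h2]
    exact hz j

/-- existential quantifiers over an arbitrary finite index type -/
theorem PEr.exT {κ : Type} [Finite κ] {R : (ι ⊕ κ → F) → Prop} (h : PEr R) :
    PEr (fun v : ι → F => ∃ z : κ → F, R (Sum.elim v z)) := by
  obtain ⟨n, ⟨e⟩⟩ := Finite.exists_equiv_fin κ
  have h1 : PEr (fun v : ι ⊕ Fin n → F => R fun j => v (Sum.map id e j)) := h.reindex _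
  refine (PEr.ex h1).congr fun v => ?_
  constructor
  · rintro ⟨z, hz⟩
    refine ⟨fun i => z (e.symm i), ?_⟩
    have h2 : (fun j => Sum.elim v (fun i => z (e.symm i)) (Sum.map id e j)) = Sum.elim v z := by
      funext j
      rcases j with j | j
      · simp
      · simp
    rw [h2]
    exact hz
  · rintro ⟨z, hz⟩
    refine ⟨fun i => z (e i), ?_⟩
    have h2 : (fun j => Sum.elim v z (Sum.map id e j)) = Sum.elim v fun i => z (e i) := by
      funext j
      rcases j with j | j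
      · simp
      · simp
    rw [← h2]
    exact hz

/-- conjunctions over finite types -/
theorem PEr.allT {κ : Type} [Finite κ] {R : κ → (ι → F) → Prop} (h : ∀ k, PEr (R k)) :
    PEr (fun v : ι → F => ∀ k, R k v) := by
  classical
  cases nonempty_fintype κ
  choose l t P hP using h
  let e := Fintype.equivFin (Σ k, Fin (t k))
  let G : (Σ k, Fin (t k)) → MvPolynomial (ι ⊕ (Σ k, Fin (l k))) ℤ := fun p =>
    rename (Sum.elim Sum.inl fun i => Sum.inr ⟨p.1, i⟩) (P p.1 p.2)
  have h1 : PEr (fun v : ι ⊕ (Σ k, Fin (l k)) → F => ∀ j : Fin (Fintype.card (Σ k, Fin (t k))),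
      aeval v (G (e.symm j)) = 0) := by
    refine ⟨0, Fintype.card (Σ k, Fin (t k)), fun j => rename Sum.inl (G (e.symm j)),
      fun v => ?_⟩
    have h2 : ∀ (z : Fin 0 → F) (p : MvPolynomial (ι ⊕ (Σ k, Fin (l k))) ℤ),
        aeval (Sum.elim v z) (rename Sum.inl p) = aeval v p := by
      intro z p
      rw [aeval_rename]
      rfl
    simp only [h2]
    exact ⟨fun h => ⟨Fin.elim0, h⟩, fun ⟨_, h⟩ => h⟩
  refine (PEr.exT h1).congr fun v => ?_
  have h3 : ∀ (z : (Σ k, Fin (l k)) → F) (k : κ) (j : Fin (t k)),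
      aeval (Sum.elim v z) (G ⟨k, j⟩) = aeval (Sum.elim v fun i => z ⟨k, i⟩) (P k j) := by
    intro z k j
    change aeval (Sum.elim v z) (rename (Sum.elim Sum.inl fun i => Sum.inr ⟨k, i⟩) (P k j)) = _
    rw [aeval_rename]
    congr 2
    funext x
    rcases x with x | x
    · simp
    · simp
  constructor
  · intro h
    choose z hz using fun k => (hP k v).1 (h k)
    refine ⟨fun p => z p.1 p.2, fun j => ?_⟩
    have h4 := h3 (fun p => z p.1 p.2) (e.symm j).1 (e.symm j).2
    rw [Sigma.eta] at h4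
    rw [h4]
    exact hz _ _
  · rintro ⟨z, hz⟩ k
    refine (hP k v).2 ⟨fun i => z ⟨k, i⟩, fun j => ?_⟩
    rw [← h3]
    have h4 := hz (e ⟨k, j⟩)
    rwa [Equiv.symm_apply_apply] at h4

theorem PEr.and {R R' : (ι → F) → Prop} (h : PEr R) (h' : PEr R') :
    PEr (fun v => R v ∧ R' v) := by
  have h1 : PEr (fun v : ι → F => ∀ b : Bool, (if b then R v else R' v)) := by
    refine PEr.allT fun b => ?_
    cases b
    · exact h'.congr fun v => by simp
    · exact h.congr fun v => by simp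
  refine h1.congr fun v => ?_
  simp [Bool.forall_bool, and_comm]

/-- one existential quantifier; the new variable is `Sum.inr ()` -/
theorem PEr.ex1 {R : (ι ⊕ Unit → F) → Prop} (h : PEr R) :
    PEr (fun v : ι → F => ∃ z : F, R (Sum.elim v fun _ => z)) := by
  refine (PEr.exT h).congr fun v => ?_
  constructor
  · rintro ⟨z, hz⟩
    exact ⟨fun _ => z, hz⟩
  · rintro ⟨z, hz⟩
    refine ⟨z (), ?_⟩
    have : (fun _ : Unit => z ()) = z := by
      funext u
      rfl
    rw [this]
    exact hz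

theorem Hq_div_iff {q : ℕ} {x t : F} :
    Hq q (x / t) ↔ ∃ z w : F, x = t * z ^ q ∧ x * t * w = 1 := by
  constructor
  · rintro ⟨h0, y, hy⟩
    have ht : t ≠ 0 := by
      rintro rfl
      simp at h0
    have hx : x ≠ 0 := by
      rintro rfl
      simp at h0
    refine ⟨y, (x * t)⁻¹, ?_, mul_inv_cancel₀ (mul_ne_zero hx ht)⟩
    rw [← hy]
    field_simp
  · rintro ⟨z, w, h1, h2⟩
    have hx : x ≠ 0 := by
      rintro rfl
      simp at h2
    have ht : t ≠ 0 := by
      rintro rfl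
      simp at h2
    refine ⟨div_ne_zero hx ht, z, ?_⟩
    rw [h1]
    field_simp

theorem HH_div_iff {q m : ℕ} {x t : F} :
    HH q m (x / t) ↔ ∃ ξ z w : F, ξ ^ q ^ m = 1 ∧ x = t * ξ * z ^ q ∧ x * t * w = 1 := by
  constructor
  · rintro ⟨h0, ξ, y, hξ, hy⟩
    have ht : t ≠ 0 := by
      rintro rfl
      simp at h0
    have hx : x ≠ 0 := by
      rintro rfl
      simp at h0
    refine ⟨ξ, y, (x * t)⁻¹, hξ, ?_, mul_inv_cancel₀ (mul_ne_zero hx ht)⟩
    rw [mul_assoc, ← hy]
    field_simp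
  · rintro ⟨ξ, z, w, hξ, h1, h2⟩
    have hx : x ≠ 0 := by
      rintro rfl
      simp at h2
    have ht : t ≠ 0 := by
      rintro rfl
      simp at h2
    refine ⟨div_ne_zero hx ht, ξ, z, hξ, ?_⟩
    rw [h1]
    field_simp

/-- quotients in the group of the nonzero `q`-th powers -/
theorem PEr.HqDiv (q : ℕ) (P T : MvPolynomial ι ℤ) :
    PEr (fun v : ι → F => Hq q (aeval v P / aeval v T)) := by
  have h1 : PEr (fun v : (ι ⊕ Unit) ⊕ Unit → F =>
      aeval v (rename (fun i => Sum.inl (Sum.inl i)) P : MvPolynomial ((ι ⊕ Unit) ⊕ Unit) ℤ) =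
        aeval v (rename (fun i => Sum.inl (Sum.inl i)) T * X (Sum.inl (Sum.inr ())) ^ q :
          MvPolynomial ((ι ⊕ Unit) ⊕ Unit) ℤ) ∧
      aeval v (rename (fun i => Sum.inl (Sum.inl i)) P * rename (fun i => Sum.inl (Sum.inl i)) T *
        X (Sum.inr ()) : MvPolynomial ((ι ⊕ Unit) ⊕ Unit) ℤ) =
          aeval v (1 : MvPolynomial ((ι ⊕ Unit) ⊕ Unit) ℤ)) :=
    (PEr.eq2 _ _).and (PEr.eq2 _ _)
  refine (h1.ex1.ex1).congr fun v => ?_
  rw [Hq_div_iff]
  refine exists_congr fun z => exists_congr fun w => ?_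
  simp only [map_mul, map_pow, aeval_rename, aeval_X, map_one, Sum.elim_inl, Sum.elim_inr]
  rfl

theorem PEr.HHDiv (q m : ℕ) (P T : MvPolynomial ι ℤ) :
    PEr (fun v : ι → F => HH q m (aeval v P / aeval v T)) := by
  have h1 : PEr (fun v : ((ι ⊕ Unit) ⊕ Unit) ⊕ Unit → F =>
      aeval v (X (Sum.inl (Sum.inl (Sum.inr ()))) ^ q ^ m :
        MvPolynomial (((ι ⊕ Unit) ⊕ Unit) ⊕ Unit) ℤ) =
          aeval v (1 : MvPolynomial (((ι ⊕ Unit) ⊕ Unit) ⊕ Unit) ℤ) ∧
      aeval v (rename (fun i => Sum.inl (Sum.inl (Sum.inl i))) P :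
        MvPolynomial (((ι ⊕ Unit) ⊕ Unit) ⊕ Unit) ℤ) =
        aeval v (rename (fun i => Sum.inl (Sum.inl (Sum.inl i))) T *
          X (Sum.inl (Sum.inl (Sum.inr ()))) * X (Sum.inl (Sum.inr ())) ^ q :
          MvPolynomial (((ι ⊕ Unit) ⊕ Unit) ⊕ Unit) ℤ) ∧
      aeval v (rename (fun i => Sum.inl (Sum.inl (Sum.inl i))) P *
        rename (fun i => Sum.inl (Sum.inl (Sum.inl i))) T *
        X (Sum.inr ()) : MvPolynomial (((ι ⊕ Unit) ⊕ Unit) ⊕ Unit) ℤ) =
          aeval v (1 : MvPolynomial (((ι ⊕ Unit) ⊕ Unit) ⊕ Unit) ℤ)) :=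
    (PEr.eq2 _ _).and ((PEr.eq2 _ _).and (PEr.eq2 _ _))
  refine (h1.ex1.ex1.ex1).congr fun v => ?_
  rw [HH_div_iff]
  refine exists_congr fun ξ => exists_congr fun z => exists_congr fun w => ?_
  simp only [map_mul, map_pow, aeval_rename, aeval_X, map_one, Sum.elim_inl, Sum.elim_inr]
  rfl

/-- the group of the nonzero `q`-th powers -/
theorem PEr.Hq (q : ℕ) (P : MvPolynomial ι ℤ) : PEr (fun v : ι → F => SNX.Hq q (aeval v P)) :=
  (PEr.HqDiv q P 1).congr fun v => by rw [map_one, div_one]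

theorem PEr.HH (q m : ℕ) (P : MvPolynomial ι ℤ) :
    PEr (fun v : ι → F => SNX.HH q m (aeval v P)) :=
  (PEr.HHDiv q m P 1).congr fun v => by rw [map_one, div_one]

end PE

end SNX
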