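import Pool.Agent.SNX.TE
import Pool.Agent.SNX.PE

/-!
# SNX, job PT: towers of all lengths contradict strong NIP
-/

set_option autoImplicit false
set_option linter.unusedSectionVars false

noncomputable section

namespace SNX

open Filter NST

namespace PT_

variable {M : Type} [Field M]

/-- the relation of row `n` -/
def Rel {T : Type} (q n : ℕ) (x c f : M) (w : Fin n → M) (s : T → M) : Prop :=
  ∃ b : Option (Fin n) → M, f * (x - c) = b none + f * ∑ k : Fin n, b (some k) * w k ∧
    ∀ k t, Hq q (1 + b k * s t)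

/-- the variables -/
abbrev Va (T : Type) (n : ℕ) : Type := Fin 3 ⊕ (Fin n ⊕ T)

theorem Rel_PEr (M T : Type) [Field M] [Finite T] (q n : ℕ) :
    PEr (fun v : Va T n → M => Rel q n (v (Sum.inl 0)) (v (Sum.inl 1)) (v (Sum.inl 2))
      (fun k => v (Sum.inr (Sum.inl k))) (fun t : T => v (Sum.inr (Sum.inr t)))) := by
  have h1 : PEr (fun v : Va T n ⊕ Option (Fin n) → M =>
      MvPolynomial.aeval v (MvPolynomial.X (Sum.inl (Sum.inl 2)) *
        (MvPolynomial.X (Sum.inl (Sum.inl 0)) - MvPolynomial.X (Sum.inl (Sum.inl 1))) :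
        MvPolynomial (Va T n ⊕ Option (Fin n)) ℤ) =
      MvPolynomial.aeval v (MvPolynomial.X (Sum.inr none) + MvPolynomial.X (Sum.inl (Sum.inl 2)) *
        ∑ k : Fin n, MvPolynomial.X (Sum.inr (some k)) *
          MvPolynomial.X (Sum.inl (Sum.inr (Sum.inl k))) :
        MvPolynomial (Va T n ⊕ Option (Fin n)) ℤ) ∧
      ∀ p : Option (Fin n) × T, Hq q (MvPolynomial.aeval v (1 + MvPolynomial.X (Sum.inr p.1) *
        MvPolynomial.X (Sum.inl (Sum.inr (Sum.inr p.2))) :
        MvPolynomial (Va T n ⊕ Option (Fin n)) ℤ))) :=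
    (PEr.eq2 _ _).and (PEr.allT fun p => PEr.Hq q _)
  refine (PEr.exT h1).congr fun v => ?_
  unfold Rel
  refine exists_congr fun b => ?_
  simp only [map_mul, map_sub, map_add, map_one, map_sum, MvPolynomial.aeval_X, Sum.elim_inl,
    Sum.elim_inr, Prod.forall]

/-- transfer of the pattern -/
theorem transfer (q : ℕ) (S : Finset M) (n : ℕ) (x c f : ℕ → M) (w : ℕ → ℕ → M) :
    (∃ b : ℕ → Lx M, (∀ k, b k ∈ St (BB q S)) ∧
      mk f * (mk x - mk c) = b n + mk f * ∑ k ∈ Finset.range n, b k * mk (w k)) ↔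
    ∀ᶠ i in (Uf : Filter ℕ), Rel q n (x i) (c i) (f i) (fun k : Fin n => w k i)
      (fun t : S => (t : M)) := by
  classical
  have hsum : ∀ B : ℕ → ℕ → M, ∑ k ∈ Finset.range n, mk (B k) * mk (w k) =
      mk fun i => ∑ k : Fin n, B k i * w k i := by
    intro B
    have h0 : ∀ s : Finset ℕ, ∑ k ∈ s, mk (B k) * mk (w k) =
        mk fun i => ∑ k ∈ s, B k i * w k i := by
      intro s
      induction s using Finset.induction_on with
      | empty =>
        simp only [Finset.sum_empty]
        exact mk_zero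
      | insert a s ha ih =>
        rw [Finset.sum_insert ha, ih, mk_mul, mk_add]
        congr 1
        funext i
        rw [Finset.sum_insert ha]
    rw [h0]
    congr 1
    funext i
    exact (Fin.sum_univ_eq_sum_range (fun k => B k i * w k i) n).symm
  constructor
  · rintro ⟨b, hb, he⟩
    choose B hB using fun k => exists_mk (b k)
    have hb' : ∀ k, ∀ᶠ i in (Uf : Filter ℕ), B k i ∈ BB q S := by
      intro k
      have := hb k
      rwa [← hB k, mem_St] at this
    have hb2 : ∀ᶠ i in (Uf : Filter ℕ), ∀ k ∈ Finset.range (n + 1), B k i ∈ BB q S :=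
      (Finset.eventually_all _).2 fun k _ => hb' k
    simp only [← hB] at he
    rw [hsum, mk_sub, mk_mul, mk_mul, mk_add, mk_eq] at he
    filter_upwards [hb2, he] with i h1 h2
    refine ⟨fun o => o.elim (B n i) fun k => B k i, ?_, ?_⟩
    · exact h2
    · rintro (_ | k) ⟨s, hs⟩
      · exact h1 n (by simp) s hs
      · exact h1 k (by simp) s hs
  · intro h
    have h1 : ∀ i, ∃ b : Option (Fin n) → M, Rel q n (x i) (c i) (f i) (fun k : Fin n => w k i)
        (fun t : S => (t : M)) → (f i * (x i - c i) = b none +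
          f i * ∑ k : Fin n, b (some k) * w k i ∧ ∀ k (t : S), Hq q (1 + b k * (t : M))) := by
      intro i
      by_cases hi : Rel q n (x i) (c i) (f i) (fun k : Fin n => w k i) (fun t : S => (t : M))
      · obtain ⟨b, hb⟩ := hi
        exact ⟨b, fun _ => hb⟩
      · exact ⟨fun _ => 0, fun h => absurd h hi⟩
    choose b hb using h1
    let B : ℕ → ℕ → M := fun k i => if hk : k < n then b i (some ⟨k, hk⟩) else b i none
    refine ⟨fun k => mk (B k), fun k => ?_, ?_⟩
    · rw [mem_St]
      filter_upwards [h] with i hi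
      intro s hs
      by_cases hk : k < n
      · simp only [B, dif_pos hk]
        exact (hb i hi).2 _ ⟨s, hs⟩
      · simp only [B, dif_neg hk]
        exact (hb i hi).2 _ ⟨s, hs⟩
    · rw [hsum, mk_sub, mk_mul, mk_mul, mk_add, mk_eq]
      filter_upwards [h] with i hi
      have h2 := (hb i hi).1
      have h3 : ∀ k : Fin n, B k i = b i (some k) := fun k => by
        simp only [B, dif_pos k.2]
      have h4 : B n i = b i none := by
        simp only [B, lt_irrefl, dif_neg, not_false_eq_true]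
      simp only [h3, h4]
      exact h2

/-- distinct elements of a standard neighbourhood -/
theorem exists_m [CharZero M] (q : ℕ) (R : Subring (Lx M)) (S : Finset M) (hR : Rg M q R)
    (he : ∃ e ∈ II M q, e ≠ 0) (N : ℕ) :
    ∃ m : ℕ → M, (∀ i < N, ∀ j < N, m i = m j → i = j) ∧ ∀ i < N, m i ∈ BB q S := by
  obtain ⟨e, he, hne⟩ := he
  obtain ⟨e', rfl⟩ := exists_mk e
  rw [mk_ne_zero] at hne
  have h1 : ∀ j : ℕ, ∀ᶠ n in (Uf : Filter ℕ), (j : M) * e' n ∈ BB q S := by
    intro j
    have h2 : ((j : ℕ) : Lx M) * mk e' ∈ II M q := hR.mul _ (natCast_mem R j) _ he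
    have h3 : ((j : ℕ) : Lx M) * mk e' ∈ St (BB q S) := (mem_St_BB M q).2 fun s _ => h2 s
    rw [mk_natCast, mk_mul, mem_St] at h3
    exact h3
  have h4 : ∀ᶠ n in (Uf : Filter ℕ), ∀ j ∈ Finset.range N, (j : M) * e' n ∈ BB q S :=
    (Finset.eventually_all _).2 fun j _ => h1 j
  obtain ⟨n, hn, hn'⟩ := (hne.and h4).exists
  refine ⟨fun j => (j : M) * e' n, ?_, ?_⟩
  · intro i _ j _ h
    have := mul_right_cancel₀ hn h
    exact_mod_cast this
  · intro i hi
    exact hn' i (Finset.mem_range.2 hi)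

end PT_

open PT_ in
theorem p_PT (h : T_PL) : T_PT := by
  classical
  intro M _ _ _ q R S hq hR hS he hF hT
  -- the rows
  let κ : ℕ → Type := fun n => Fin 2 ⊕ (Fin n ⊕ S)
  let m : ℕ → ℕ := fun n => Fintype.card (Fin 2 ⊕ (Fin n ⊕ S))
  let e : ∀ n, (Fin 2 ⊕ (Fin n ⊕ S)) ≃ Fin (m n) := fun n =>
    Fintype.equivFin (Fin 2 ⊕ (Fin n ⊕ S))
  let Q : ∀ n, (Fin 1 ⊕ Fin (m n) → M) → Prop := fun n v =>
    Rel q n (v (Sum.inl 0)) (v (Sum.inr (e n (Sum.inl 0)))) (v (Sum.inr (e n (Sum.inl 1))))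
      (fun k => v (Sum.inr (e n (Sum.inr (Sum.inl k)))))
      (fun t : S => v (Sum.inr (e n (Sum.inr (Sum.inr t)))))
  have hQ : ∀ n, PEr (Q n) := by
    intro n
    refine ((Rel_PEr M S q n).reindex (Sum.elim ![Sum.inl 0, Sum.inr (e n (Sum.inl 0)),
      Sum.inr (e n (Sum.inl 1))] fun z => Sum.inr (e n (Sum.inr z)))).congr fun v => ?_
    rfl
  obtain ⟨N, hN⟩ := hF 1 m Q hQ
  obtain ⟨w, f, h1, h2, h3⟩ := hT N
  obtain ⟨c, hc, hcB⟩ := exists_m q R S hR he N
  choose w' hw' using fun k => exists_mk (w k)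
  choose f' hf' using fun k => exists_mk (f k)
  -- the parameters
  let a : ℕ → ∀ n, ℕ → Fin (m n) → M := fun i n j z =>
    Sum.elim ![c j * w' n i, f' n i] (Sum.elim (fun k : Fin n => w' k i)
      (fun t : S => (t : M))) ((e n).symm z)
  have ha : ∀ i n j (x : Fin 1 → M), Q n (Sum.elim x (a i n j)) ↔
      Rel q n (x 0) (c j * w' n i) (f' n i) (fun k : Fin n => w' k i) (fun t : S => (t : M)) := by
    intro i n j x
    simp only [Q, a, Sum.elim_inl, Sum.elim_inr, Equiv.symm_apply_apply]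
    rfl
  choose η hη hη' using fun i => hN (a i)
  obtain ⟨g, hg⟩ := exists_lim fun i => fun k : Fin N => (⟨η i k, hη i k⟩ : Fin N)
  have hN0 : 0 < N := lt_of_le_of_lt (Nat.zero_le _) (hη 0 0)
  let θ : ℕ → ℕ := fun k => if hk : k < N then (g ⟨k, hk⟩ : ℕ) else 0
  have hθ : ∀ k, θ k < N := by
    intro k
    by_cases hk : k < N
    · simp only [θ, dif_pos hk]
      exact (g ⟨k, hk⟩).2
    · simp only [θ, dif_neg hk]
      exact hN0
  have hθg : ∀ᶠ i in (Uf : Filter ℕ), ∀ k < N, η i k = θ k := by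
    filter_upwards [hg] with i hi k hk
    simp only [θ, dif_pos hk, ← hi]
  -- the pattern
  let X : ℕ → M := fun i => ∑ k ∈ Finset.range N, c (θ k) * w' k i
  have hX : ∑ k ∈ Finset.range N, cst (c (θ k)) * w k = mk X := by
    have h0 : ∀ s : Finset ℕ, ∑ k ∈ s, cst (c (θ k)) * w k =
        mk fun i => ∑ k ∈ s, c (θ k) * w' k i := by
      intro s
      induction s using Finset.induction_on with
      | empty =>
        simp only [Finset.sum_empty]
        exact mk_zero
      | insert b s hb ih =>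
        rw [Finset.sum_insert hb, ih, ← hw' b]
        change (mk fun _ => c (θ b)) * mk (w' b) + _ = _
        rw [mk_mul, mk_add]
        congr 1
        funext i
        rw [Finset.sum_insert hb]
    exact h0 _
  have hpat : ∀ n < N, ∀ j < N, ∀ᶠ i in (Uf : Filter ℕ),
      (Rel q n (X i) (c j * w' n i) (f' n i) (fun k : Fin n => w' k i)
        (fun t : S => (t : M)) ↔ j = θ n) := by
    intro n hn j hj
    have h4 := h M q R S hR hS N w f h1 h2 h3 c hc hcB θ hθ n hn j hj
    have h5 := transfer q S n X (fun i => c j * w' n i) (f' n) w'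
    have h6 : cst (c j) * w n = mk fun i => c j * w' n i := by
      rw [← hw' n]
      rfl
    rw [hX, h6, ← hf' n] at h4
    simp only [← hw'] at h4
    rw [h5] at h4
    by_cases hjn : j = θ n
    · filter_upwards [h4.2 hjn] with i hi
      exact ⟨fun _ => hjn, fun _ => hi⟩
    · have h7 := NST.not_eventually.1 fun h8 => hjn (h4.1 h8)
      filter_upwards [h7] with i hi
      exact ⟨fun h8 => absurd h8 hi, fun h8 => absurd h8 hjn⟩
  have hall : ∀ᶠ i in (Uf : Filter ℕ), ∀ n ∈ Finset.range N, ∀ j ∈ Finset.range N,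
      (Rel q n (X i) (c j * w' n i) (f' n i) (fun k : Fin n => w' k i)
        (fun t : S => (t : M)) ↔ j = θ n) :=
    (Finset.eventually_all _).2 fun n hn => (Finset.eventually_all _).2 fun j hj =>
      hpat n (Finset.mem_range.1 hn) j (Finset.mem_range.1 hj)
  obtain ⟨i, hi1, hi2⟩ := (hθg.and hall).exists
  refine hη' i (fun _ => X i) fun n hn j hj => ?_
  rw [ha, hi1 n hn]
  exact hi2 n (Finset.mem_range.2 hn) j (Finset.mem_range.2 hj)

end SNX
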