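import Pool.Agent.SNX.TE

/-!
# SNX: target RG, the ring of bounded elements
-/

set_option autoImplicit false
set_option linter.unusedSectionVars false

noncomputable section

namespace SNX

open Filter NST

namespace RG_

variable {M : Type} [Field M] {q : ℕ}

theorem mulc {e : Lx M} (he : e ∈ II M q) (u : M) : e * cst u ∈ II M q := by
  intro v
  have h := he (u * v)
  rw [cst_mul, ← mul_assoc] at h
  exact h

theorem zero : (0 : Lx M) ∈ II M q := by
  intro u
  rw [zero_mul, add_zero]
  exact Hq.one

theorem neg {e : Lx M} (he : e ∈ II M q) : -e ∈ II M q := by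
  have h := mulc he (-1)
  rw [cst_neg, cst_one, mul_neg, mul_one] at h
  exact h

theorem one {e : Lx M} (he : e ∈ II M q) : Hq q (1 + e) := by
  have h := he 1
  rw [cst_one, mul_one] at h
  exact h

theorem ne : (1 : Lx M) ∉ II M q := by
  intro h
  have h1 := (h (-1)).ne
  rw [cst_neg, cst_one, one_mul, add_neg_cancel] at h1
  exact h1 rfl

theorem div {e : Lx M} (he : e ∈ II M q) : e / (1 + e) ∈ II M q := by
  intro u
  have h0 : 1 + e ≠ 0 := (one he).ne
  have h1 : 1 + e / (1 + e) * cst u = (1 + e * cst (1 + u)) / (1 + e) := by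
    rw [cst_add, cst_one]
    field_simp
    ring
  rw [h1]
  exact (he (1 + u)).div (one he)

theorem bd (hC : C1 M q) {e : Lx M} (he : e ∈ II M q) : 1 + e ∈ RR M q := by
  intro d hd
  have h0 : 1 + d ≠ 0 := (one hd).ne
  have h1 : 1 + d * (1 + e) = (1 + d) * (1 + d / (1 + d) * e) := by
    field_simp
    ring
  rw [h1]
  exact (one hd).mul (hC _ (div hd) _ he)

theorem inv (hC : C1 M q) {e : Lx M} (he : e ∈ II M q) : (1 + e)⁻¹ ∈ RR M q := by
  have h0 : 1 + e ≠ 0 := (one he).ne
  have h1 : (1 + e)⁻¹ = 1 + -(e / (1 + e)) := by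
    field_simp
    ring
  rw [h1]
  exact bd hC (neg (div he))

theorem mul {b e : Lx M} (hb : b ∈ RR M q) (he : e ∈ II M q) : b * e ∈ II M q := by
  intro u
  have h := hb _ (mulc he u)
  have h1 : 1 + b * e * cst u = 1 + e * cst u * b := by ring
  rw [h1]
  exact h

theorem add (hC : C1 M q) {e e' : Lx M} (he : e ∈ II M q) (he' : e' ∈ II M q) :
    e + e' ∈ II M q := by
  intro u
  have h0 : 1 + e * cst u ≠ 0 := (he u).ne
  have h1 : 1 + (e + e') * cst u =
      (1 + e * cst u) * (1 + (1 + e * cst u)⁻¹ * (e' * cst u)) := by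
    field_simp
    ring
  rw [h1]
  exact (he u).mul (one (mul (inv hC (mulc he u)) (mulc he' u)))

/-- the ring of bounded elements -/
def ring (hC : C1 M q) : Subring (Lx M) where
  carrier := RR M q
  mul_mem' := by
    intro b b' hb hb' e he
    have h := hb' _ (mul hb he)
    have h1 : 1 + e * (b * b') = 1 + b * e * b' := by ring
    rw [h1]
    exact h
  one_mem' := by
    intro e he
    rw [mul_one]
    exact one he
  add_mem' := by
    intro b b' hb hb' e he
    have h := one (add hC (mul hb he) (mul hb' he))
    have h1 : 1 + e * (b + b') = 1 + (b * e + b' * e) := by ring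
    rw [h1]
    exact h
  zero_mem' := by
    intro e _
    rw [mul_zero, add_zero]
    exact Hq.one
  neg_mem' := by
    intro b hb e he
    have h := hb _ (neg he)
    have h1 : 1 + e * -b = 1 + -e * b := by ring
    rw [h1]
    exact h

end RG_

theorem p_RG : T_RG := by
  intro M _ q hC
  refine ⟨RG_.ring hC, ?_⟩
  exact {
    mem := fun b => Iff.rfl
    cst := fun u e he => he u
    sub := fun e he e' he' => hC e' he' e he
    zero := RG_.zero
    neg := fun e he => RG_.neg he
    add := fun e he e' he' => RG_.add hC he he'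
    mul := fun b hb e he => RG_.mul hb he
    one := fun e he => RG_.one he
    inv := fun e he => RG_.inv hC he
    ne := RG_.ne
    colon := by
      intro b hb e he
      have h := RG_.one (hb e he)
      have h1 : 1 + e * b = 1 + b * e := by ring
      rw [h1]
      exact h }

end SNX
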