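import Pool.Agent.SNX.TE

/-!
# SNX-RU: bounded elements and infinitesimals in terms of one neighbourhood (helper78)
-/

set_option autoImplicit false

noncomputable section

namespace SNX

open Filter Polynomial NST

namespace RU_

variable {M : Type} [Field M]

/-- a nonzero element in a set which forces boundedness -/
theorem exists_ne {q : ℕ} {R : Subring (Lx M)} {S : Finset M} (hR : Rg M q R) (hS : SB M q S)
    (he : ∃ e ∈ II M q, e ≠ 0) : ∃ s ∈ S, s ≠ 0 := by
  by_contra h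
  push Not at h
  obtain ⟨e, he1, he2⟩ := he
  have h1 : e⁻¹ ∈ R := by
    rw [hR.mem]
    apply hS
    intro s hs
    rw [h s hs, cst_zero, mul_zero, add_zero]
    exact Hq.one
  have h2 := hR.mul _ h1 e he1
  rw [inv_mul_cancel₀ he2] at h2
  exact hR.ne h2

/-- one finite set of conditions suffices for a bounded element -/
theorem exists_fin [Countable M] {q : ℕ} {b : Lx M} (hb : b ∈ RR M q) :
    ∃ S' : Finset M, ∀ x : Lx M, (∀ s ∈ S', Hq q (1 + x * cst s)) → Hq q (1 + x * b) := by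
  classical
  by_contra h
  push Not at h
  obtain ⟨u, hu⟩ := exists_surjective_nat M
  choose x hx1 hx2 using fun k : ℕ => h ((Finset.range k).image u)
  choose x' hx' using fun k : ℕ => exists_mk (x k)
  obtain ⟨b', rfl⟩ := exists_mk b
  have hP : ∀ k : ℕ, ∀ᶠ n in (Uf : Filter ℕ), k = 0 ∨ ((∀ i < k, Hq q (1 + x' k n * u i)) ∧
      ¬ Hq q (1 + x' k n * b' n)) := by
    intro k
    have h1 : ∀ᶠ n in (Uf : Filter ℕ), ∀ i ∈ Finset.range k, Hq q (1 + x' k n * u i) := by
      refine (Finset.eventually_all _).2 fun i hi => ?_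
      have h2 := hx1 k (u i) (Finset.mem_image_of_mem u hi)
      rw [← hx' k] at h2
      exact Hq_mk.1 h2
    have h3 : ∀ᶠ n in (Uf : Filter ℕ), ¬ Hq q (1 + x' k n * b' n) := by
      have h4 := hx2 k
      rw [← hx' k] at h4
      refine not_eventually.1 fun h5 => h4 ?_
      exact Hq_mk.2 h5
    filter_upwards [h1, h3] with n hn1 hn2
    exact Or.inr ⟨fun i hi => hn1 i (Finset.mem_range.2 hi), hn2⟩
  obtain ⟨l, hl1, hl2⟩ := exists_level (fun k n => k = 0 ∨ ((∀ i < k, Hq q (1 + x' k n * u i)) ∧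
      ¬ Hq q (1 + x' k n * b' n))) (fun _ => Or.inl rfl) hP
  have hy : (mk fun n => x' (l n) n) ∈ II M q := by
    intro m
    obtain ⟨i, rfl⟩ := hu m
    have h1 : ∀ᶠ n in (Uf : Filter ℕ), Hq q (1 + x' (l n) n * u i) := by
      filter_upwards [hl2 (i + 1)] with n hn
      rcases hl1 n (l n) le_rfl with h2 | h2
      · omega
      · exact h2.1 i (by omega)
    exact Hq_mk.2 h1
  have h1 : Hq q (1 + (mk fun n => x' (l n) n) * mk b') := hb _ hy
  have h2 : ∀ᶠ n in (Uf : Filter ℕ), Hq q (1 + x' (l n) n * b' n) := Hq_mk.1 h1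
  obtain ⟨n, hn1, hn2⟩ := (h2.and (hl2 1)).exists
  rcases hl1 n (l n) le_rfl with h3 | h3
  · omega
  · exact h3.2 hn1

end RU_

theorem p_RU : T_RU := by
  intro M _ _ q R S hR hS he
  obtain ⟨s₀, hs₀, hs₀'⟩ := RU_.exists_ne hR hS he
  refine ⟨fun b => ⟨fun hb => ?_, ?_⟩, fun e => ⟨fun h u => ?_, fun h v => ?_⟩⟩
  · obtain ⟨S', hS'⟩ := RU_.exists_fin ((hR.mem b).1 hb)
    obtain ⟨e, he1, he2⟩ := he
    obtain ⟨e', rfl⟩ := exists_mk e
    have h1 : ∀ᶠ n in (Uf : Filter ℕ), ∀ s ∈ S, ∀ s' ∈ S', Hq q (1 + e' n * (s * s')) := by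
      refine (Finset.eventually_all _).2 fun s _ => (Finset.eventually_all _).2 fun s' _ => ?_
      exact Hq_mk.1 (he1 (s * s'))
    obtain ⟨n, hn1, hn2⟩ := ((mk_ne_zero.1 he2).and h1).exists
    refine ⟨e' n, hn1, ?_⟩
    rw [mem_St_BB]
    intro s hs
    have h2 : (1 : Lx M) + b * cst (e' n) * cst s = 1 + cst (e' n * s) * b := by
      rw [cst_mul]
      ring
    rw [h2]
    apply hS'
    intro s' hs'
    have h3 : (1 : Lx M) + cst (e' n * s) * cst s' = cst (1 + e' n * (s * s')) := by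
      rw [cst_add, cst_mul, cst_mul, cst_mul, cst_one]
      ring
    rw [h3, Hq_cst]
    exact hn2 s hs s' hs'
  · rintro ⟨u, hu, hb⟩
    rw [mem_St_BB] at hb
    have h1 : b * cst u ∈ R := (hR.mem _).2 (hS _ hb)
    have h2 : b = b * cst u * cst u⁻¹ := by
      rw [mul_assoc, ← cst_mul, mul_inv_cancel₀ hu, cst_one, mul_one]
    rw [h2]
    exact R.mul_mem h1 (hR.cst _)
  · rw [mem_St_BB]
    intro s _
    rw [mul_assoc, ← cst_mul]
    exact h (u * s)
  · have h1 := h (v / s₀)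
    rw [mem_St_BB] at h1
    have h2 := h1 s₀ hs₀
    rwa [mul_assoc, ← cst_mul, div_mul_cancel₀ v hs₀'] at h2

end SNX
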