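import Pool.Agent.SNX.TE

/-!
# SNX: compactness (S0)
-/

set_option autoImplicit false

noncomputable section

namespace SNX

open Filter NST

theorem S0_.step {M : Type} [Field M] (q : ℕ) (U : Finset M) (h : ¬ SB M q U) :
    ∃ x e : M, (∀ s ∈ U, Hq q (1 + x * s)) ∧ (∀ s ∈ U, Hq q (1 + e * s)) ∧
      ¬ Hq q (1 + e * x) := by
  unfold SB at h
  push Not at h
  obtain ⟨x, hx, hxR⟩ := h
  unfold RR at hxR
  simp only [Set.mem_ofPred_eq, not_forall] at hxR
  obtain ⟨e, he, hex⟩ := hxR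
  obtain ⟨x', rfl⟩ := exists_mk x
  obtain ⟨e', rfl⟩ := exists_mk e
  have h1 : ∀ᶠ n in (Uf : Filter ℕ), ∀ s ∈ U, Hq q (1 + x' n * s) := by
    refine (Finset.eventually_all U).2 fun s hs => ?_
    have := hx s hs
    unfold cst at this
    rwa [mk_one, mk_mul, mk_add, Hq_mk] at this
  have h2 : ∀ᶠ n in (Uf : Filter ℕ), ∀ s ∈ U, Hq q (1 + e' n * s) := by
    refine (Finset.eventually_all U).2 fun s hs => ?_
    have := he s
    unfold cst at this
    rwa [mk_one, mk_mul, mk_add, Hq_mk] at this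
  have h3 : ∀ᶠ n in (Uf : Filter ℕ), ¬ Hq q (1 + e' n * x' n) := by
    rw [← NST.not_eventually]
    intro h
    apply hex
    rw [mk_one, mk_mul, mk_add, Hq_mk]
    exact h
  obtain ⟨n, h1, h2, h3⟩ := (h1.and (h2.and h3)).exists
  exact ⟨x' n, e' n, h1, h2, h3⟩

theorem S0_.mem {M : Type} [Field M] (q : ℕ)
    (f : ℕ → M) (hf : Function.Surjective f) (x : ℕ → M)
    (h : ∀ n, ∀ i ≤ n, Hq q (1 + x n * f i)) : mk x ∈ II M q := by
  intro u
  obtain ⟨i, rfl⟩ := hf u
  unfold cst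
  rw [mk_one, mk_mul, mk_add, Hq_mk]
  filter_upwards [eventually_ge i] with n hn
  exact h n i hn

/-- S0. -/
theorem p_S0 : T_S0 := by
  classical
  intro M _ _ q hC
  by_contra h
  push Not at h
  obtain ⟨f, hf⟩ := exists_surjective_nat M
  have h1 : ∀ n : ℕ, ∃ x e : M, (∀ i ≤ n, Hq q (1 + x * f i)) ∧ (∀ i ≤ n, Hq q (1 + e * f i)) ∧
      ¬ Hq q (1 + e * x) := by
    intro n
    obtain ⟨x, e, h1, h2, h3⟩ := S0_.step q ((Finset.range (n + 1)).image f) (h _)
    refine ⟨x, e, fun i hi => h1 _ ?_, fun i hi => h2 _ ?_, h3⟩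
    · exact Finset.mem_image_of_mem f (Finset.mem_range.2 (by omega))
    · exact Finset.mem_image_of_mem f (Finset.mem_range.2 (by omega))
  choose x e h1 h2 h3 using h1
  have hx := S0_.mem q f hf x h1
  have he := S0_.mem q f hf e h2
  have := hC _ he _ hx
  rw [mk_one, mk_mul, mk_add, Hq_mk] at this
  obtain ⟨n, hn⟩ := this.exists
  exact h3 n hn

end SNX
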