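import Pool.Agent.SNX.TE

/-!
# SNX: conductors are radical
-/

set_option autoImplicit false
set_option linter.unusedSectionVars false

noncomputable section

namespace SNX

open Filter Polynomial NST

namespace SQ_

variable {M : Type} [Field M] {q : ℕ} {R T : Subring (Lx M)} {b : Lx M}

/-- the inverses of `1 + b u` -/
theorem inv_mem (hR : Rg M q R) (hT : R ≤ T) (hb : b ∈ T) (h : ∀ t ∈ T, b * b * t ∈ II M q)
    (u : M) : 1 + b * cst u ≠ 0 ∧ (1 + b * cst u)⁻¹ ∈ T := by
  have hu : cst u ∈ T := hT (hR.cst u)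
  have he : b * b * (-(cst u * cst u)) ∈ II M q := h _ (T.neg_mem (T.mul_mem hu hu))
  have h1 : (1 + b * b * (-(cst u * cst u)))⁻¹ ∈ T := hT (hR.inv _ he)
  have h2 : 1 + b * b * (-(cst u * cst u)) ≠ 0 := (hR.one _ he).ne
  have h3 : (1 + b * cst u) * (1 - b * cst u) = 1 + b * b * (-(cst u * cst u)) := by ring
  have h4 : 1 + b * cst u ≠ 0 := by
    intro h0
    rw [h0, zero_mul] at h3
    exact h2 h3.symm
  have h5 : 1 - b * cst u ≠ 0 := by
    intro h0
    rw [h0, mul_zero] at h3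
    exact h2 h3.symm
  refine ⟨h4, ?_⟩
  have h6 : (1 + b * cst u)⁻¹ = (1 - b * cst u) * (1 + b * b * (-(cst u * cst u)))⁻¹ := by
    rw [← h3, mul_inv]
    field_simp
  rw [h6]
  exact T.mul_mem (T.sub_mem T.one_mem (T.mul_mem hb hu)) h1

/-- `1 + b u` is multiplicative modulo `q`-th powers -/
theorem mul_mem (hR : Rg M q R) (hT : R ≤ T) (hb : b ∈ T) (h : ∀ t ∈ T, b * b * t ∈ II M q)
    (u v : M) : Hq q ((1 + b * cst u) * (1 + b * cst v) / (1 + b * cst (u + v))) := by
  obtain ⟨h1, h2⟩ := inv_mem hR hT hb h (u + v)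
  have hu : cst u ∈ T := hT (hR.cst u)
  have hv : cst v ∈ T := hT (hR.cst v)
  have he := h _ (T.mul_mem (T.mul_mem hu hv) h2)
  have h3 := hR.one _ he
  have h4 : (1 + b * cst u) * (1 + b * cst v) / (1 + b * cst (u + v)) =
      1 + b * b * (cst u * cst v * (1 + b * cst (u + v))⁻¹) := by
    rw [cst_add] at h1 ⊢
    field_simp
    ring
  rw [h4]
  exact h3

/-- powers -/
theorem pow_mem (hR : Rg M q R) (hT : R ≤ T) (hb : b ∈ T) (h : ∀ t ∈ T, b * b * t ∈ II M q)
    (u : M) (k : ℕ) : Hq q ((1 + b * cst u) ^ k / (1 + b * cst (k * u))) := by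
  induction k with
  | zero =>
    have h1 : (1 + b * cst u) ^ 0 / (1 + b * cst ((0 : ℕ) * u)) = 1 := by
      rw [Nat.cast_zero, zero_mul, cst_zero, mul_zero, add_zero, pow_zero, div_one]
    rw [h1]
    exact Hq.one
  | succ k ih =>
    have h1 := ih.mul (mul_mem hR hT hb h (k * u) u)
    have h2 := (inv_mem hR hT hb h ((k : M) * u)).1
    have h3 : (k : M) * u + u = ((k + 1 : ℕ) : M) * u := by
      push_cast
      ring
    rw [h3] at h1
    have h4 : (1 + b * cst u) ^ (k + 1) / (1 + b * cst (((k + 1 : ℕ) : M) * u)) =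
        (1 + b * cst u) ^ k / (1 + b * cst ((k : M) * u)) *
        ((1 + b * cst ((k : M) * u)) * (1 + b * cst u) /
          (1 + b * cst (((k + 1 : ℕ) : M) * u))) := by
      rw [div_mul_div_comm, pow_succ, mul_comm (1 + b * cst ((k : M) * u)) (1 + b * cst u),
        ← mul_assoc, mul_comm (1 + b * cst ((k : M) * u))
          (1 + b * cst (((k + 1 : ℕ) : M) * u)), mul_div_mul_right _ _ h2]
    rw [h4]
    exact h1

end SQ_

open SQ_

theorem p_SQ : T_SQ := by
  intro M _ _ q R hq hR T hT a ha h s hs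
  have hb : a * s ∈ T := T.mul_mem ha hs
  have h' : ∀ t ∈ T, a * s * (a * s) * t ∈ II M q := by
    intro t ht
    have h1 := h (s * s * t) (T.mul_mem (T.mul_mem hs hs) ht)
    have h2 : a * s * (a * s) * t = a * a * (s * s * t) := by ring
    rw [h2]
    exact h1
  intro u
  have hq' : (q : M) ≠ 0 := Nat.cast_ne_zero.2 hq.ne'
  have h1 := pow_mem hR hT hb h' (u / q) q
  rw [mul_div_cancel₀ u hq'] at h1
  have h2 : Hq q ((1 + a * s * cst (u / q)) ^ q) :=
    Hq.of_pow (inv_mem hR hT hb h' (u / q)).1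
  have h3 := h2.div h1
  rwa [div_div_cancel₀ h2.ne] at h3

end SNX
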