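import Pool.Agent.SNX.TE

/-!
# SNX: SS
-/

set_option autoImplicit false
set_option linter.unusedSectionVars false

noncomputable section

namespace SNX

open Filter Polynomial NST

theorem p_SS (h : T_SW) : T_SS := by
  intro M _ _ q R hq hR hS e he he0
  obtain ⟨w, hw, hew⟩ := hS e he he0
  have heR : e ∈ R := hR.sub e he
  have key : ∀ r ∈ R, r * (e * w) * e ∈ R → r * (e * w) ∈ II M q := by
    intro r hr hre
    have haR : e * r ∈ R := R.mul_mem heR hr
    have h1 : (e * r) * (e * r) * ((e * r) * (e * r)) ∈ II M q := by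
      have h2 : (e * r) * (e * r) * ((e * r) * (e * r)) =
          ((e * r) * (e * r) * (e * r) * r) * e := by
        ring
      rw [h2]
      exact hR.mul _ (R.mul_mem (R.mul_mem (R.mul_mem haR haR) haR) hr) e he
    have h3 : (e * r) * (e * r) * ((e * r) * (e * r)) * w ∈ II M q := by
      have h4 : (e * r) * (e * r) * ((e * r) * (e * r)) * w =
          (e * r * r * r) * ((r * (e * w) * e) * e) := by
        ring
      rw [h4]
      exact hR.mul _ (R.mul_mem (R.mul_mem haR hr) hr) _ (hR.mul _ hre e he)
    have h5 := h M q R hq hR w hw ((e * r) * (e * r)) (R.mul_mem haR haR) h1 h3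
    have h6 := (h M q R hq hR w hw (e * r) haR h5.1 h5.2).2
    have h7 : r * (e * w) = e * r * w := by ring
    rw [h7]
    exact h6
  refine ⟨e * w, fun h1 => hew ?_, fun r hr hre => hR.sub _ (key r hr hre)⟩
  have h2 := key 1 R.one_mem (by
    have h3 : 1 * (e * w) * e = e * (e * w) := by ring
    rw [h3]
    exact h1)
  rwa [one_mul] at h2

end SNX
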