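import Pool.Agent.SNX.TE

/-!
# SNX: SW
-/

set_option autoImplicit false
set_option linter.unusedSectionVars false

noncomputable section

namespace SNX

open Filter Polynomial NST

namespace SW_

variable {M : Type} [Field M] {q : ℕ} {R : Subring (Lx M)}

/-- the set `N` is stable under the subring generated by `R` and `w` -/
theorem stable (hR : Rg M q R) {w : Lx M} (hw : w ∈ WW M q) {t : Lx M}
    (ht : t ∈ Subring.closure ((R : Set (Lx M)) ∪ {w})) :
    ∀ x : Lx M, x ∈ II M q → x * w ∈ II M q → x * t ∈ II M q ∧ x * t * w ∈ II M q := by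
  induction ht using Subring.closure_induction with
  | mem t ht =>
    intro x h1 h2
    rcases ht with ht | ht
    · constructor
      · rw [mul_comm]
        exact hR.mul t ht x h1
      · rw [mul_comm x t, mul_assoc]
        exact hR.mul t ht _ h2
    · rw [Set.mem_singleton_iff] at ht
      subst ht
      exact ⟨h2, hw x h1 h2⟩
  | zero =>
    intro x _ _
    rw [mul_zero, zero_mul]
    exact ⟨hR.zero, hR.zero⟩
  | one =>
    intro x h1 h2
    rw [mul_one]
    exact ⟨h1, h2⟩
  | add s t _ _ hs ht =>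
    intro x h1 h2
    rw [mul_add, add_mul]
    exact ⟨hR.add _ (hs x h1 h2).1 _ (ht x h1 h2).1, hR.add _ (hs x h1 h2).2 _ (ht x h1 h2).2⟩
  | neg t _ ht =>
    intro x h1 h2
    rw [mul_neg, neg_mul]
    exact ⟨hR.neg _ (ht x h1 h2).1, hR.neg _ (ht x h1 h2).2⟩
  | mul s t _ _ hs ht =>
    intro x h1 h2
    rw [← mul_assoc]
    exact ht (x * s) (hs x h1 h2).1 (hs x h1 h2).2

end SW_

theorem p_SW (h : T_SQ) : T_SW := by
  intro M _ _ q R hq hR w hw a ha h1 h2
  have hRT : R ≤ Subring.closure ((R : Set (Lx M)) ∪ {w}) := fun r hr =>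
    Subring.subset_closure (Or.inl hr)
  have hwT : w ∈ Subring.closure ((R : Set (Lx M)) ∪ {w}) :=
    Subring.subset_closure (Or.inr rfl)
  have h3 := h M q R hq hR _ hRT a (hRT ha)
    (fun t ht => (SW_.stable hR hw ht (a * a) h1 h2).1)
  have h4 := h3 1 (Subring.one_mem _)
  rw [mul_one] at h4
  exact ⟨h4, h3 w hwT⟩

end SNX
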