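import Pool.Agent.SNX.TE

/-!
# SNX: proof of T_TW
-/

set_option autoImplicit false

noncomputable section

namespace SNX

theorem p_TW (h1 : T_SS) (h2 : T_CN) (h3 : T_PT) : T_TW := by
  intro M _ _ _ q R S hq hR hS he hN
  by_contra hcon
  have h4 : ∀ e ∈ II M q, e ≠ 0 → ∃ w ∈ WW M q, e * w ∉ II M q := by
    intro e he' hne
    by_contra h5
    apply hcon
    refine ⟨e, he', hne, fun w hw => ?_⟩
    by_contra h6
    exact h5 ⟨w, hw, h6⟩
  exact h3 M q R S hq hR hS he hN (h2 M q R hR he (h1 M q R hq hR h4))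

end SNX
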