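import Pool.Agent.SNX.TE
import Pool.Agent.SNX.PE

/-!
# SNX, target V1: finite VC dimension of the relation `(x + y) / t` is a nonzero `q`-th power
-/

set_option autoImplicit false
set_option linter.unusedSectionVars false

noncomputable section

namespace SNX

open Filter Polynomial NST

namespace V1_

/-- the relation `(x + y) / t` is a nonzero `q`-th power, in the variables `(y; x, t)` -/
theorem per_hq {F : Type} [Field F] (q : ℕ) :
    PEr (fun v : Fin 1 ⊕ Fin 2 → F =>
      Hq q ((v (Sum.inr 0) + v (Sum.inl 0)) / v (Sum.inr 1))) :=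
  (PEr.HqDiv q (MvPolynomial.X (Sum.inr 0) + MvPolynomial.X (Sum.inl 0))
    (MvPolynomial.X (Sum.inr 1))).congr fun v => by simp

end V1_

theorem p_V1 : T_V1 := by
  intro M _ q hN
  obtain ⟨n, hn⟩ := hN 1 2 _ (V1_.per_hq q)
  refine ⟨n, fun x t y hty => ?_⟩
  obtain ⟨T, hT⟩ := hn fun i => ![x i, t i]
  refine hT (fun _ => y T) fun i => ?_
  rw [← hty i T]
  simp

end SNX
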