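import Pool.Agent.SNX.TE

/-!
# SNX, target V2: finite VC dimension of the neighbourhoods of zero
-/

set_option autoImplicit false
set_option linter.unusedSectionVars false

noncomputable section

namespace SNX

open Filter Polynomial NST

namespace V2_

/-- systems of equations indexed by arbitrary finite types -/
theorem per_of {F : Type} [Field F] {ι A B : Type} [Fintype A] [Fintype B]
    {R : (ι → F) → Prop} (P : B → MvPolynomial (ι ⊕ A) ℤ)
    (h : ∀ v, R v ↔ ∃ z : A → F, ∀ j, MvPolynomial.aeval (Sum.elim v z) (P j) = 0) : PEr R := by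
  refine ⟨Fintype.card A, Fintype.card B,
    fun j => MvPolynomial.rename (Sum.map id (Fintype.equivFin A))
      (P ((Fintype.equivFin B).symm j)),
    fun v => ?_⟩
  rw [h v]
  constructor
  · rintro ⟨z, hz⟩
    refine ⟨z ∘ (Fintype.equivFin A).symm, fun j => ?_⟩
    rw [MvPolynomial.aeval_rename]
    have e : Sum.elim v (z ∘ (Fintype.equivFin A).symm) ∘ Sum.map id (Fintype.equivFin A) =
        Sum.elim v z := by
      funext x
      rcases x with x | x <;> simp
    rw [e]
    exact hz _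
  · rintro ⟨z, hz⟩
    refine ⟨z ∘ Fintype.equivFin A, fun j => ?_⟩
    have h1 := hz (Fintype.equivFin B j)
    rw [MvPolynomial.aeval_rename, Equiv.symm_apply_apply] at h1
    have e : Sum.elim v z ∘ Sum.map id (Fintype.equivFin A) =
        Sum.elim v (z ∘ Fintype.equivFin A) := by
      funext x
      rcases x with x | x <;> simp
    rwa [e] at h1

theorem hq_iff {F : Type} [Field F] {q : ℕ} {x : F} :
    Hq q x ↔ ∃ z w : F, x - z ^ q = 0 ∧ x * w - 1 = 0 := by
  constructor
  · rintro ⟨h0, y, hy⟩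
    exact ⟨y, x⁻¹, sub_eq_zero.2 hy, by rw [mul_inv_cancel₀ h0, sub_self]⟩
  · rintro ⟨z, w, h1, h2⟩
    refine ⟨?_, z, sub_eq_zero.1 h1⟩
    rintro rfl
    rw [zero_mul, zero_sub] at h2
    exact one_ne_zero (neg_eq_zero.1 h2)

/-- the relation `1 + y t s_i` is a nonzero `q`-th power for all `i` -/
theorem per_BB {F : Type} [Field F] (q p : ℕ) :
    PEr (fun v : Fin 1 ⊕ Fin (p + 1) → F =>
      ∀ i : Fin p, Hq q (1 + v (Sum.inl 0) * v (Sum.inr 0) * v (Sum.inr i.succ))) := by
  apply per_of (A := Fin p ⊕ Fin p) (B := Fin p ⊕ Fin p)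
    (Sum.elim
      (fun i : Fin p => 1 + MvPolynomial.X (Sum.inl (Sum.inl 0)) *
        MvPolynomial.X (Sum.inl (Sum.inr 0)) * MvPolynomial.X (Sum.inl (Sum.inr i.succ)) -
        MvPolynomial.X (Sum.inr (Sum.inl i)) ^ q)
      (fun i : Fin p => (1 + MvPolynomial.X (Sum.inl (Sum.inl 0)) *
        MvPolynomial.X (Sum.inl (Sum.inr 0)) * MvPolynomial.X (Sum.inl (Sum.inr i.succ))) *
        MvPolynomial.X (Sum.inr (Sum.inr i)) - 1))
  intro v
  constructor
  · intro h
    have h1 : ∀ i : Fin p, ∃ z w : F,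
        1 + v (Sum.inl 0) * v (Sum.inr 0) * v (Sum.inr i.succ) - z ^ q = 0 ∧
        (1 + v (Sum.inl 0) * v (Sum.inr 0) * v (Sum.inr i.succ)) * w - 1 = 0 :=
      fun i => hq_iff.1 (h i)
    choose z w hzw using h1
    refine ⟨Sum.elim z w, fun j => ?_⟩
    rcases j with j | j
    · simpa using (hzw j).1
    · simpa using (hzw j).2
  · rintro ⟨z, hz⟩ i
    refine hq_iff.2 ⟨z (Sum.inl i), z (Sum.inr i), ?_, ?_⟩
    · simpa using hz (Sum.inl i)
    · simpa using hz (Sum.inr i)

end V2_

theorem p_V2 : T_V2 := by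
  intro M _ q S hN
  obtain ⟨n, hn⟩ := hN 1 (S.card + 1) _ (V2_.per_BB q S.card)
  refine ⟨n, fun t y hty => ?_⟩
  obtain ⟨T, hT⟩ := hn fun i => Fin.cons (t i) fun j => (S.equivFin.symm j : M)
  refine hT (fun _ => y T) fun i => ?_
  rw [← hty i T, mem_BB]
  constructor
  · intro h s hs
    have h1 := h (S.equivFin ⟨s, hs⟩)
    simpa using h1
  · intro h j
    have h1 := h (S.equivFin.symm j) (S.equivFin.symm j).2
    simpa using h1

end SNX
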