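import Pool.Agent.NST.TC
import Pool.Agent.NFV.Defs

/-!
# SNX: definitions

Project SNX (helper82, helper54): the full Q1 of MP_32850b_lc (`S14553`): strongly NIP ordered
fields are almost real closed.  Paper proof: ideas rows 1950 (and 1782, 1886, 1925, 1953).
`Lx M` is the ultrapower of `M` (see `Pool/Agent/NST/Base.lean`: `mk`, `cst`, `St`, `Uf`).
-/

set_option autoImplicit false
set_option linter.unusedSectionVars false

noncomputable section

namespace SNX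

open Filter Polynomial NST FirstOrder

/-! ## Strong NIP -/

/-- strongly NIP in all numbers of variables -/
def SNIPn (K : Type) [NFV.Lor.Structure K] : Prop :=
  ∀ (M : Type) [NFV.Lor.Structure M], NFV.Lor.ElementarilyEquivalent M K →
    ∀ (r : ℕ) (m : ℕ → ℕ) (φ : ∀ i, NFV.Lor.Formula (Fin r ⊕ Fin (m i)))
      (a : ∀ i, ℕ → Fin (m i) → M),
      ¬ ∀ η : ℕ → ℕ, ∀ n : ℕ, ∃ x : Fin r → M, ∀ i < n, ∀ j < n,
        ((φ i).Realize (Sum.elim x (a i j)) ↔ j = η i)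

/-- positive existential relations: `R v` iff a finite system of polynomial equations with integer
coefficients in `v` and further unknowns `z` has a solution `z` -/
def PEr {F : Type} [Field F] {ι : Type} (R : (ι → F) → Prop) : Prop :=
  ∃ (l t : ℕ) (P : Fin t → MvPolynomial (ι ⊕ Fin l) ℤ),
    ∀ v, R v ↔ ∃ z : Fin l → F, ∀ j, MvPolynomial.aeval (Sum.elim v z) (P j) = 0

/-- NIP for positive existential relations -/
def NFp (F : Type) [Field F] : Prop :=
  ∀ (r m : ℕ) (R : (Fin r ⊕ Fin m → F) → Prop), PEr R → ∃ n : ℕ, ∀ a : Fin n → Fin m → F,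
    ∃ S : Finset (Fin n), ∀ x : Fin r → F, ¬ ∀ i, (R (Sum.elim x (a i)) ↔ i ∈ S)

/-- strong NIP for positive existential relations, in finite form: for each sequence of relations
there is `N` such that there is no pattern with `N` rows and `N` columns -/
def SNF (F : Type) [Field F] : Prop :=
  ∀ (r : ℕ) (m : ℕ → ℕ) (R : ∀ i, (Fin r ⊕ Fin (m i) → F) → Prop), (∀ i, PEr (R i)) →
    ∃ N : ℕ, ∀ a : ∀ i, ℕ → Fin (m i) → F, ∃ η : ℕ → ℕ, (∀ i, η i < N) ∧
      ∀ x : Fin r → F, ¬ ∀ i < N, ∀ j < N, (R i (Sum.elim x (a i j)) ↔ j = η i)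

/-! ## Power classes -/

section Powers

variable {F : Type} [Field F]

/-- `x` is a nonzero `q`-th power -/
def Hq (q : ℕ) (x : F) : Prop := x ≠ 0 ∧ ∃ y, x = y ^ q

/-- `x` is nonzero and a `q`-th power times a root of unity of order dividing `q ^ m` -/
def HH (q m : ℕ) (x : F) : Prop := x ≠ 0 ∧ ∃ ξ y : F, ξ ^ q ^ m = 1 ∧ x = ξ * y ^ q

/-- all roots of unity of `q`-power order are in `HH q m` -/
def Mq (F : Type) [Field F] (q m : ℕ) : Prop := ∀ (k : ℕ) (ξ : F), ξ ^ q ^ k = 1 → HH q m ξ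

theorem Hq.ne {q : ℕ} {x : F} (h : Hq q x) : x ≠ 0 := h.1

theorem Hq.one {q : ℕ} : Hq q (1 : F) := ⟨one_ne_zero, 1, (one_pow q).symm⟩

theorem Hq.mul {q : ℕ} {x y : F} (h : Hq q x) (h' : Hq q y) : Hq q (x * y) := by
  obtain ⟨h0, u, hu⟩ := h
  obtain ⟨h0', u', hu'⟩ := h'
  exact ⟨mul_ne_zero h0 h0', u * u', by rw [hu, hu', mul_pow]⟩

theorem Hq.inv {q : ℕ} {x : F} (h : Hq q x) : Hq q x⁻¹ := by
  obtain ⟨h0, u, hu⟩ := h
  exact ⟨inv_ne_zero h0, u⁻¹, by rw [hu, inv_pow]⟩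

theorem Hq.div {q : ℕ} {x y : F} (h : Hq q x) (h' : Hq q y) : Hq q (x / y) := by
  rw [div_eq_mul_inv]
  exact h.mul h'.inv

theorem Hq.of_pow {q : ℕ} {y : F} (hy : y ≠ 0) : Hq q (y ^ q) := ⟨pow_ne_zero _ hy, y, rfl⟩

/-- cancellation -/
theorem Hq.mul_iff {q : ℕ} {x y : F} (h : Hq q y) : Hq q (x * y) ↔ Hq q x := by
  constructor
  · intro h'
    have h1 := h'.div h
    rwa [mul_div_cancel_right₀ _ h.1] at h1
  · intro h'
    exact h'.mul h

theorem HH.ne {q m : ℕ} {x : F} (h : HH q m x) : x ≠ 0 := h.1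

theorem HH.one {q m : ℕ} : HH q m (1 : F) := ⟨one_ne_zero, 1, 1, by simp, by simp⟩

theorem HH.mul {q m : ℕ} {x y : F} (h : HH q m x) (h' : HH q m y) : HH q m (x * y) := by
  obtain ⟨h0, ξ, u, hξ, hu⟩ := h
  obtain ⟨h0', ξ', u', hξ', hu'⟩ := h'
  refine ⟨mul_ne_zero h0 h0', ξ * ξ', u * u', ?_, ?_⟩
  · rw [mul_pow, hξ, hξ', one_mul]
  · rw [hu, hu', mul_pow]
    ring

theorem HH.inv {q m : ℕ} {x : F} (h : HH q m x) : HH q m x⁻¹ := by
  obtain ⟨h0, ξ, u, hξ, hu⟩ := h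
  refine ⟨inv_ne_zero h0, ξ⁻¹, u⁻¹, ?_, ?_⟩
  · rw [inv_pow, hξ, inv_one]
  · rw [hu, mul_inv, inv_pow]

theorem HH.div {q m : ℕ} {x y : F} (h : HH q m x) (h' : HH q m y) : HH q m (x / y) := by
  rw [div_eq_mul_inv]
  exact h.mul h'.inv

theorem HH.of_Hq {q m : ℕ} {x : F} (h : Hq q x) : HH q m x := by
  obtain ⟨h0, u, hu⟩ := h
  exact ⟨h0, 1, u, one_pow _, by rw [one_mul]; exact hu⟩

end Powers

section Ultrapower

variable {M : Type} [Field M]

theorem Hq_mk {q : ℕ} {x : ℕ → M} : Hq q (mk x) ↔ ∀ᶠ n in (Uf : Filter ℕ), Hq q (x n) := by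
  unfold Hq
  rw [mk_ne_zero, mk_pow_iff]
  exact eventually_and.symm

theorem Hq_cst {q : ℕ} {x : M} : Hq q (cst x) ↔ Hq q x := by
  unfold cst
  rw [Hq_mk]
  constructor
  · intro h
    exact h.exists.choose_spec
  · intro h
    exact Eventually.of_forall fun _ => h

variable (M) (q : ℕ)

/-- the infinitesimals of the group of the nonzero `q`-th powers -/
def II : Set (Lx M) := {e | ∀ u : M, Hq q (1 + e * cst u)}

/-- the bounded elements -/
def RR : Set (Lx M) := {b | ∀ e ∈ II M q, Hq q (1 + e * b)}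

/-- the main property: infinitesimals are bounded -/
def C1 : Prop := ∀ e ∈ II M q, ∀ e' ∈ II M q, Hq q (1 + e * e')

/-- the finite set `S` forces boundedness -/
def SB (S : Finset M) : Prop := ∀ x : Lx M, (∀ s ∈ S, Hq q (1 + x * cst s)) → x ∈ RR M q

/-- `R` is the ring of bounded elements, and its properties -/
structure Rg (R : Subring (Lx M)) : Prop where
  mem : ∀ b, b ∈ R ↔ b ∈ RR M q
  cst : ∀ u : M, cst u ∈ R
  sub : ∀ e ∈ II M q, e ∈ R
  zero : (0 : Lx M) ∈ II M q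
  neg : ∀ e ∈ II M q, -e ∈ II M q
  add : ∀ e ∈ II M q, ∀ e' ∈ II M q, e + e' ∈ II M q
  mul : ∀ b ∈ R, ∀ e ∈ II M q, b * e ∈ II M q
  one : ∀ e ∈ II M q, Hq q (1 + e)
  inv : ∀ e ∈ II M q, (1 + e)⁻¹ ∈ R
  ne : (1 : Lx M) ∉ II M q
  colon : ∀ b, (∀ e ∈ II M q, b * e ∈ II M q) → b ∈ R

/-- the neighbourhood of zero given by a finite set -/
def BB {M : Type} [Field M] (q : ℕ) (S : Finset M) : Set M := {x | ∀ s ∈ S, Hq q (1 + x * s)}

theorem mem_BB {S : Finset M} {x : M} : x ∈ BB q S ↔ ∀ s ∈ S, Hq q (1 + x * s) := Iff.rfl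

theorem mem_St_BB {S : Finset M} {x : Lx M} :
    x ∈ St (BB q S) ↔ ∀ s ∈ S, Hq q (1 + x * cst s) := by
  obtain ⟨x, rfl⟩ := exists_mk x
  rw [mem_St]
  constructor
  · intro h s hs
    have h1 : (1 : Lx M) + mk x * cst s = mk fun n => 1 + x n * s := rfl
    rw [h1, Hq_mk]
    exact h.mono fun n hn => hn s hs
  · intro h
    have h1 : ∀ s ∈ S, ∀ᶠ n in (Uf : Filter ℕ), Hq q (1 + x n * s) := by
      intro s hs
      have h2 := h s hs
      have h3 : (1 : Lx M) + mk x * cst s = mk fun n => 1 + x n * s := rfl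
      rwa [h3, Hq_mk] at h2
    exact (Finset.eventually_all S).2 h1

/-- the elements `w` such that `x, x w` infinitesimal imply `x w ^ 2` infinitesimal -/
def WW : Set (Lx M) := {w | ∀ x ∈ II M q, x * w ∈ II M q → x * w * w ∈ II M q}

end Ultrapower

/-! ## Null sets -/

/-- `A` is null: for each `m` there is a finite family of translates of `A` such that each point is
in at most the `m`-th part of them -/
def Null {G : Type} [AddCommGroup G] (A : Set G) : Prop :=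
  ∀ m : ℕ, ∃ (N : ℕ) (c : Fin N → G), 0 < N ∧
    ∀ g : G, ∀ J : Finset (Fin N), (∀ j ∈ J, g + c j ∈ A) → m * J.card ≤ N

end SNX
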