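import Pool.Agent.SNX.SubD
import Pool.Agent.SNX.Defs

/-!
# SNX, part S (subadditivity): `s_main` (helper54)

A strongly NIP structure (no ict-patterns of depth `ω` in one variable, in elementarily equivalent
structures) has no ict-patterns of depth `ω` in `r` variables.  Proof: mutually indiscernible arrays
(`SubA` - `SubD`).
-/

set_option autoImplicit false

noncomputable section

namespace SNX

open Filter FirstOrder FirstOrder.Language

theorem s_main : ∀ (K : Type) [Nonempty K] [NFV.Lor.Structure K], NST.SNIP K → SNX.SNIPn K := by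
  classical
  intro K _ _ hS M _ hMK r m φ a h
  have hSM : NST.SNIP M := SNIP.of_ee hS hMK
  have hne : Nonempty M := by
    by_contra hM
    rw [not_nonempty_iff] at hM
    -- an empty structure has no strong pattern; here it is enough that `M ≡ K` and `K` is nonempty
    have h1 : M ⊨ (FirstOrder.Language.Sentence.cardGe NFV.Lor 1) ↔
        K ⊨ (FirstOrder.Language.Sentence.cardGe NFV.Lor 1) :=
      (FirstOrder.Language.elementarilyEquivalent_iff.1 hMK) _
    rw [FirstOrder.Language.Sentence.realize_cardGe, FirstOrder.Language.Sentence.realize_cardGe] at h1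
    have h2 : ((1 : ℕ) : Cardinal) ≤ Cardinal.mk K := by
      rw [Nat.cast_one]
      exact Cardinal.one_le_iff_ne_zero.2 (Cardinal.mk_ne_zero K)
    have h3 := h1.2 h2
    rw [Cardinal.mk_eq_zero M, Nat.cast_one] at h3
    exact absurd h3 (by simp)
  let φ' : ℕ → NFV.Lor.Formula (Fin r ⊕ ℕ) := fun i => (φ i).relabel (Sum.map id (fun l : Fin (m i) => (l : ℕ)))
  let a' : ℕ → ℕ → ℕ → M := fun i j l => if hl : l < m i then a i j ⟨l, hl⟩ else
    Classical.arbitrary M
  obtain ⟨M', _, _, w, x, hMM, hw, hx⟩ := exists_MI φ' a' fun η n => by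
    obtain ⟨x, hx⟩ := h η n
    refine ⟨x, fun i hi j hj => ?_⟩
    rw [← hx i hi j hj, Formula.realize_relabel]
    refine iff_of_eq (congrArg _ ?_)
    funext v
    cases v with
    | inl v => rfl
    | inr l => exact dif_pos l.2
  have hS' : NST.SNIP M' := SNIP.of_ee hS (hMM.trans hMK)
  exact no_multi (nipone_of_NIP1 (NST.p_SN1 M' hS')) (SNIP.noPat hS') hw φ' x hx

end SNX
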