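import Pool.Agent.NST.MainB
import Pool.Agent.SNX.P_C1
import Pool.Agent.SNX.P_CN
import Pool.Agent.SNX.P_DM
import Pool.Agent.SNX.P_DS
import Pool.Agent.SNX.P_DW
import Pool.Agent.SNX.P_FM
import Pool.Agent.SNX.P_FR
import Pool.Agent.SNX.P_IM
import Pool.Agent.SNX.P_IN
import Pool.Agent.SNX.P_JC
import Pool.Agent.SNX.P_L1
import Pool.Agent.SNX.P_L1L
import Pool.Agent.SNX.P_L2
import Pool.Agent.SNX.P_L2L
import Pool.Agent.SNX.P_LW
import Pool.Agent.SNX.P_OP
import Pool.Agent.SNX.P_PL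
import Pool.Agent.SNX.P_PT
import Pool.Agent.SNX.P_RG
import Pool.Agent.SNX.P_RU
import Pool.Agent.SNX.P_S0
import Pool.Agent.SNX.P_SQ
import Pool.Agent.SNX.P_SS
import Pool.Agent.SNX.P_SW
import Pool.Agent.SNX.P_TW
import Pool.Agent.SNX.P_V1
import Pool.Agent.SNX.P_V2
import Pool.Agent.SNX.PN_NE
import Pool.Agent.SNX.L_EN
import Pool.Agent.SNX.F_MAIN
import Pool.Agent.SNX.S_Main

/-!
# SNX: assembly

Every strongly NIP ordered field is almost real closed.
-/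

set_option autoImplicit false

open FirstOrder

namespace SNX

theorem a_L2L : T_L2L := p_L2L p_L2
theorem a_C1 : T_C1 := p_C1 (p_L1L p_L1) a_L2L NST.a_GB
theorem a_DW : T_DW := p_DW p_RU p_DS
theorem a_LW : T_LW := p_LW p_SQ
theorem a_SS : T_SS := p_SS (p_SW p_SQ)
theorem a_CN : T_CN := p_CN p_FR
theorem a_PT : T_PT := p_PT p_PL
theorem a_TW : T_TW := p_TW a_SS a_CN a_PT
theorem a_JC : T_JC := p_JC NST.p_CR
theorem a_OP : T_OP :=
  p_OP p_V1 p_V2 a_C1 p_RG p_S0 n_NE a_DW p_DM p_SQ a_LW a_TW p_IN p_FM a_JC p_IM NST.p_V0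
    NST.a_SP
theorem a_EN : T_EN := p_EN NST.p_LI a_OP

/-- every strongly NIP ordered field is almost real closed -/
theorem main (K : Type) [Field K] [LinearOrder K] [IsStrictOrderedRing K] [Ring.CompatibleRing K]
    [Language.order.Structure K] [Language.order.OrderedStructure K] (hK : NST.SNIP K) :
    ∃ O : ValuationSubring K, HenselianLocalRing O ∧
        (∀ (n : ℕ) (f : Fin n → IsLocalRing.ResidueField O), ∑ i, f i ^ 2 ≠ -1) ∧
        (∀ c : IsLocalRing.ResidueField O, ∃ b, b ^ 2 = c ∨ b ^ 2 = -c) ∧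
        (∀ p : Polynomial (IsLocalRing.ResidueField O), Odd p.natDegree → ∃ x, p.IsRoot x) :=
  main_of NST.p_EL NST.p_NE2 a_EN p_M2x s_main (fun K _ _ _ _ _ _ h => NST.b_SN2 K (NST.p_SN1 K h))
    NST.p_HE NST.p_RR K hK

end SNX
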