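import Pool.Agent.NST.MainB

/-!
# SNX, final part: the unsplit topology is the order topology (without the hypothesis on units)
-/

set_option autoImplicit false
set_option linter.unusedSectionVars false

noncomputable section

namespace SNX

open Filter Polynomial NST

/-- the field `K(i)` with the conjugation and coordinates -/
theorem F_quad {K : Type} [Field K] (c : K) (hc : ∀ b : K, b ^ 2 ≠ c) :
    ∃ (N : Type) (_ : Field N) (_ : Algebra K N) (_ : FiniteDimensional K N) (s : N)
      (σ : N →+* N), s ^ 2 = algebraMap K N c ∧ σ s = -s ∧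
      (∀ a, σ (algebraMap K N a) = algebraMap K N a) ∧
      ∀ z : N, ∃ a b : K, z = algebraMap K N a + algebraMap K N b * s := by
  have hirr : Irreducible (X ^ 2 - C c : K[X]) := X_pow_sub_C_irreducible_of_prime Nat.prime_two hc
  have : Fact (Irreducible (X ^ 2 - C c : K[X])) := ⟨hirr⟩
  have hs : (AdjoinRoot.root (X ^ 2 - C c : K[X])) ^ 2 = algebraMap K _ c := by
    have h := AdjoinRoot.eval₂_root (X ^ 2 - C c : K[X])
    rw [eval₂_sub, eval₂_X_pow, eval₂_C, sub_eq_zero] at h
    exact h
  have hroot : (X ^ 2 - C c : K[X]).eval₂ (AdjoinRoot.of (X ^ 2 - C c : K[X]))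
      (-AdjoinRoot.root (X ^ 2 - C c : K[X])) = 0 := by
    rw [eval₂_sub, eval₂_X_pow, eval₂_C, neg_sq, hs, sub_eq_zero]
    rfl
  have hmon : (X ^ 2 - C c : K[X]).Monic := monic_X_pow_sub_C c (by norm_num)
  refine ⟨AdjoinRoot (X ^ 2 - C c : K[X]), inferInstance, inferInstance,
    (AdjoinRoot.powerBasis hirr.ne_zero).finite, AdjoinRoot.root _,
    AdjoinRoot.lift (AdjoinRoot.of _) (-AdjoinRoot.root _) hroot, hs, ?_, ?_, ?_⟩
  · exact AdjoinRoot.lift_root hroot
  · intro a
    exact AdjoinRoot.lift_of hroot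
  · intro z
    obtain ⟨g, rfl⟩ := AdjoinRoot.mk_surjective z
    have h1 : AdjoinRoot.mk (X ^ 2 - C c : K[X]) g =
        AdjoinRoot.mk (X ^ 2 - C c : K[X]) (g %ₘ (X ^ 2 - C c)) := by
      have h2 := modByMonic_add_div g (X ^ 2 - C c : K[X])
      conv_lhs => rw [← h2]
      rw [map_add, map_mul, AdjoinRoot.mk_self, zero_mul, add_zero]
    have h3 : (g %ₘ (X ^ 2 - C c : K[X])).natDegree ≤ 1 := by
      have h4 := natDegree_modByMonic_lt g hmon (by
        intro h5
        have h6 := congrArg natDegree h5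
        rw [natDegree_X_pow_sub_C, natDegree_one] at h6
        omega)
      rw [natDegree_X_pow_sub_C] at h4
      omega
    obtain ⟨a, b, hab⟩ := exists_eq_X_add_C_of_natDegree_le_one h3
    refine ⟨b, a, ?_⟩
    rw [h1, hab, map_add, map_mul, AdjoinRoot.mk_C, AdjoinRoot.mk_C, AdjoinRoot.mk_X, add_comm]
    rfl

/-- negative elements which are squares in `K(i)` -/
theorem F_neg {K N : Type} [Field K] [LinearOrder K] [IsStrictOrderedRing K] [Field N]
    [Algebra K N] {s : N} {σ : N →+* N} (hs : s ^ 2 = algebraMap K N (-1)) (hσs : σ s = -s)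
    (hσ : ∀ a, σ (algebraMap K N a) = algebraMap K N a)
    (hz : ∀ z : N, ∃ a b : K, z = algebraMap K N a + algebraMap K N b * s) (x : K) (hx : x < 0)
    (w : N) (hw : algebraMap K N x = w ^ 2) : ∃ y, x = -1 * y ^ 2 := by
  have hinj : Function.Injective (algebraMap K N) := (algebraMap K N).injective
  have h20 : (2 : N) ≠ 0 := by
    have h : algebraMap K N 2 ≠ 0 := by
      rw [Ne, map_eq_zero]
      exact two_ne_zero
    rwa [map_ofNat] at h
  have hs0 : s ≠ 0 := by
    rintro rfl
    have h : algebraMap K N (-1) = 0 := by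
      rw [← hs]
      simp
    rw [map_eq_zero] at h
    norm_num at h
  obtain ⟨a, b, rfl⟩ := hz w
  have h1 : algebraMap K N x = algebraMap K N (a ^ 2 - b ^ 2) + algebraMap K N (2 * a * b) * s := by
    have h2 : (algebraMap K N a + algebraMap K N b * s) ^ 2 = algebraMap K N (a ^ 2) +
        algebraMap K N (b ^ 2) * s ^ 2 + algebraMap K N (2 * a * b) * s := by
      rw [map_mul, map_mul, map_pow, map_pow, map_ofNat]
      ring
    rw [hw, h2, hs, map_sub, map_neg, map_one]
    ring
  have h3 := congrArg σ h1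
  rw [hσ, map_add, map_mul, hσ, hσ, hσs] at h3
  have h4 : algebraMap K N (2 * a * b) = 0 := by
    have h5 : 2 * (algebraMap K N (2 * a * b) * s) = 0 := by
      rw [h1] at h3
      linear_combination h3
    rcases mul_eq_zero.1 h5 with h6 | h6
    · exact absurd h6 h20
    · exact (mul_eq_zero.1 h6).resolve_right hs0
  rw [h4, zero_mul, add_zero] at h1
  have h7 := hinj h1
  rw [map_eq_zero] at h4
  have h8 : a = 0 := by
    by_contra ha
    have hb : b = 0 := by
      rcases mul_eq_zero.1 h4 with h9 | h9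
      · rcases mul_eq_zero.1 h9 with h10 | h10
        · exact absurd h10 two_ne_zero
        · exact absurd h10 ha
      · exact h9
    rw [hb] at h7
    have h11 := sq_nonneg a
    have h12 : x = a ^ 2 := by
      rw [h7]
      ring
    linarith
  refine ⟨b, ?_⟩
  rw [h7, h8]
  ring

/-- EQ2: the topology which does not split is the order topology. -/
theorem F_EQ2 (K : Type) [Field K] [LinearOrder K] [IsStrictOrderedRing K] [Countable K]
    (hop : OpA K 2) (T : ValuationSubring (Lx K)) (hT : Mon T) (hU : Uns T) : T = Vord K := by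
  classical
  by_contra hne
  obtain ⟨hV, hnu⟩ := p_VM K
  obtain ⟨N, _, _, _, s, σ, hs, hσs, hσ, hz⟩ := F_quad (-1 : K) (fun b hb => by
    have := sq_nonneg b
    rw [hb] at this
    linarith)
  have hs1 : s ^ 2 = -1 := by rw [hs, map_neg, map_one]
  have : CharZero N := charZero_of_injective_algebraMap (algebraMap K N).injective
  set φ := mapR (algebraMap K N) with hφ
  -- an element congruent to `1` at `T`, to `-1` at the order topology, a square in `Lx N`
  have key : ∃ x : Lx K, x - 1 ∈ T.nonunits ∧ x + 1 ∈ (Vord K).nonunits ∧ ∃ w, φ x = w ^ 2 := by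
    have hbase : ∃ x : Lx K, x - 1 ∈ T.nonunits ∧ x + 1 ∈ (Vord K).nonunits := by
      obtain ⟨x, hx⟩ := a_AA K {T, Vord K} (Set.toFinite _) (by
        rintro V (rfl | rfl)
        · exact hT
        · exact hV) (fun V => if V = T then 1 else -1) (fun _ => 1) (fun _ _ => one_ne_zero)
      refine ⟨x, ?_, ?_⟩
      · have h := hx T (Or.inl rfl)
        rw [if_pos rfl, _root_.div_one] at h
        exact h
      · have h := hx (Vord K) (Or.inr rfl)
        rw [if_neg (Ne.symm hne), _root_.div_one, sub_neg_eq_add] at h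
        exact h
    have hprim : IsPrimitiveRoot (-1 : N) 2 := IsPrimitiveRoot.neg_one 0 (by norm_num)
    rcases a_ON N 2 (-1) Nat.prime_two hprim (p_OT K N 2 hop) with hF | ⟨V, hVo⟩
    · obtain ⟨x, hx1, hx2⟩ := hbase
      refine ⟨x, hx1, hx2, ?_⟩
      obtain ⟨x', rfl⟩ := exists_mk x
      choose f hf using fun n => hF (algebraMap K N (x' n))
      refine ⟨mk f, ?_⟩
      rw [hφ, mapR_mk, mk_pow, mk_eq]
      exact Eventually.of_forall hf
    · have hT0 : Mon (V.comap φ) := a_RS K N V hVo.mon
      by_cases h0 : V.comap φ = Vord K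
      · obtain ⟨x, hx1, hx2⟩ := hbase
        refine ⟨x, hx1, hx2, ?_⟩
        have h1 : φ (-x) - 1 ∈ V.nonunits := by
          have h2 : -(x + 1) ∈ (V.comap φ).nonunits := by
            rw [h0]
            exact (Vord K).nonunits.neg_mem hx2
          rw [nu_comap] at h2
          have h3 : φ (-(x + 1)) = φ (-x) - 1 := by
            rw [show -(x + 1) = -x - 1 by ring, map_sub, map_one]
          rwa [h3] at h2
        obtain ⟨y, hy⟩ := hVo.pow _ h1
        refine ⟨cst s * y, ?_⟩
        have h4 : (cst s : Lx N) ^ 2 = -1 := by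
          rw [← cst_pow, hs1, cst_neg, cst_one]
        rw [_root_.mul_pow, h4, ← hy, map_neg]
        ring
      · obtain ⟨x, hx⟩ := a_AA K {T, V.comap φ, Vord K} (Set.toFinite _) (by
          rintro W (rfl | rfl | rfl)
          · exact hT
          · exact hT0
          · exact hV) (fun W => if W = Vord K then -1 else 1) (fun _ => 1)
            (fun _ _ => one_ne_zero)
        have hx1 : x - 1 ∈ T.nonunits := by
          have h := hx T (Or.inl rfl)
          rw [if_neg hne, _root_.div_one] at h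
          exact h
        have hx2 : x + 1 ∈ (Vord K).nonunits := by
          have h := hx (Vord K) (Or.inr (Or.inr rfl))
          rw [if_pos rfl, _root_.div_one, sub_neg_eq_add] at h
          exact h
        refine ⟨x, hx1, hx2, ?_⟩
        have h := hx (V.comap φ) (Or.inr (Or.inl rfl))
        rw [if_neg h0, _root_.div_one, nu_comap, map_sub, map_one] at h
        exact hVo.pow _ h
  obtain ⟨x, hx1, hx2, w0, hw0⟩ := key
  obtain ⟨x', rfl⟩ := exists_mk x
  obtain ⟨w1, rfl⟩ := exists_mk w0
  have hx3 : ∀ᶠ n in (Uf : Filter ℕ), |x' n + 1| ≤ 1 / 2 := by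
    have h := (hnu _).1 hx2 (1 / 2) (by norm_num)
    rw [mk_one, mk_add, mem_St] at h
    exact h
  have hx4 : ∀ᶠ n in (Uf : Filter ℕ), ∃ y, x' n = -1 * y ^ 2 := by
    rw [hφ, mapR_mk, mk_pow, mk_eq] at hw0
    filter_upwards [hx3, hw0] with n h1 h2
    refine F_neg hs hσs hσ hz (x' n) ?_ (w1 n) h2
    rw [_root_.abs_le] at h1
    linarith [h1.2]
  obtain ⟨y', hy'⟩ := hx4.choice
  have hxy : mk x' = cst (-1) * mk y' ^ 2 := by
    unfold cst
    rw [mk_pow, mk_mul, mk_eq]
    exact hy'
  obtain ⟨V', hV'⟩ := p_CH (Lx K) (Lx N) φ T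
  set w : Lx N := cst s * φ (mk y') with hw
  have hw2 : w ^ 2 = φ (mk x') := by
    rw [hxy, map_mul, map_pow, hw, _root_.mul_pow, ← cst_pow, hs, hφ, mapR_cst]
  have hnT : ∀ u : Lx K, φ u ∈ V'.nonunits ↔ u ∈ T.nonunits := by
    intro u
    rw [← hV', nu_comap]
  have hprod : (w - 1) * (w + 1) ∈ V'.nonunits := by
    have h4 : (w - 1) * (w + 1) = φ (mk x' - 1) := by
      rw [map_sub, map_one, ← hw2]
      ring
    rw [h4, hnT]
    exact hx1
  have hwV : w ∈ V' := by
    refine nu_pow_mem 2 ?_ (by norm_num)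
    rw [hw2]
    have h5 : mk x' ∈ T := mem_of_one hx1
    rw [← hV'] at h5
    exact h5
  have hw1 : w - 1 ∈ V' := V'.sub_mem hwV V'.one_mem
  have hw1' : w + 1 ∈ V' := V'.add_mem _ _ hwV V'.one_mem
  -- the conjugate ring
  have hVV : V'.comap (mapR σ) = V' := by
    refine hU N _ _ ?_ hV'
    rw [← hV']
    ext u
    rw [NST.mem_comap', NST.mem_comap', NST.mem_comap']
    obtain ⟨u, rfl⟩ := exists_mk u
    rw [mapR_mk, mapR_mk]
    have h6 : (fun n => σ (algebraMap K N (u n))) = fun n => algebraMap K N (u n) := by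
      funext n
      exact hσ _
    rw [h6]
  have hconj : ∀ u : Lx N, u ∈ V'.nonunits → mapR σ u ∈ V'.nonunits := by
    intro u hu
    rw [← nu_comap, hVV]
    exact hu
  have hσw : mapR σ w = -w := by
    rw [hw, map_mul, mapR_cst, hσs, hφ, mapR_mk, mapR_mk, cst_neg, neg_mul]
    congr 2
    congr 1
    funext n
    exact hσ _
  have h2T : (2 : Lx K) ∉ T.nonunits := by
    rw [nu_iff]
    push Not
    refine ⟨two_ne_zero, ?_⟩
    have h7 : (2 : Lx K)⁻¹ = cst ((2 : K)⁻¹) := rfl
    rw [h7]
    exact hT.cst_mem _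
  have h2V : (2 : Lx N) ∉ V'.nonunits := by
    intro h
    apply h2T
    rw [← hnT]
    have h8 : φ 2 = 2 := map_ofNat φ 2
    rw [h8]
    exact h
  rcases EQ_prime hw1 hw1' hprod with h | h
  · have h9 := hconj _ h
    rw [map_sub, map_one, hσw] at h9
    have h10 := V'.nonunits.neg_mem (V'.nonunits.add_mem h h9)
    apply h2V
    have h11 : -(w - 1 + (-w - 1)) = 2 := by ring
    rwa [h11] at h10
  · have h9 := hconj _ h
    rw [map_add, map_one, hσw] at h9
    have h10 := V'.nonunits.add_mem h h9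
    apply h2V
    have h11 : w + 1 + (-w + 1) = 2 := by ring
    rwa [h11] at h10

end SNX
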