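import Pool.Agent.SNX.Defs
import Pool.Agent.NST.P_VCK

/-!
# SNX, part L: the lifting formula

`Rel P b x a δ C`: the approximate form, in a finite extension `E` of the ordered field `K` with
basis `b`, of the positive existential relation given by the polynomials `P`.
-/

set_option autoImplicit false
set_option linter.unusedSectionVars false

noncomputable section

namespace SNX

open Filter Polynomial NST FirstOrder FirstOrder.Language FirstOrder.Ring NST.VCK_

/-- the indices of the unit vector and of the structure constants -/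
abbrev Cs (r : ℕ) : Type := Fin r ⊕ (Fin r × Fin r × Fin r)

/-- the unit vector and the structure constants -/
def csv {K E : Type} [Field K] [Field E] [Algebra K E] {r : ℕ} (b : Module.Basis (Fin r) K E) :
    Cs r → K := Sum.elim (b.repr 1) fun p => b.repr (b p.1 * b p.2.1) p.2.2

/-- coordinates of polynomial expressions are polynomials in the coordinates -/
theorem coordP {K E : Type} [Field K] [Field E] [Algebra K E] {r : ℕ}
    (b : Module.Basis (Fin r) K E) {σ : Type} (P : MvPolynomial σ ℤ) :
    ∃ T : Fin r → FreeCommRing ((σ × Fin r) ⊕ Cs r), ∀ (u : σ → E) (c : Fin r),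
      FreeCommRing.lift (Sum.elim (fun p => b.repr (u p.1) p.2) (csv b)) (T c) =
        b.repr (MvPolynomial.aeval u P) c := by
  induction P using MvPolynomial.induction_on with
  | C n =>
    refine ⟨fun c => n • FreeCommRing.of (Sum.inr (Sum.inl c)), fun u c => ?_⟩
    rw [map_zsmul, FreeCommRing.lift_of]
    have h : (MvPolynomial.aeval u (MvPolynomial.C n) : E) = n • (1 : E) := by
      rw [MvPolynomial.aeval_C]
      simp
    rw [h, map_zsmul]
    rfl
  | add p q hp hq =>
    obtain ⟨T, hT⟩ := hp
    obtain ⟨T', hT'⟩ := hq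
    refine ⟨fun c => T c + T' c, fun u c => ?_⟩
    rw [map_add, hT, hT', map_add, map_add, Finsupp.add_apply]
  | mul_X p s hp =>
    obtain ⟨T, hT⟩ := hp
    refine ⟨fun c => mulV (fun i j l => FreeCommRing.of (Sum.inr (Sum.inr (i, j, l)))) T
      (fun j => FreeCommRing.of (Sum.inl (s, j))) c, fun u c => ?_⟩
    rw [map_mulV, map_mul, MvPolynomial.aeval_X, repr_mul]
    simp only [hT]
    simp only [FreeCommRing.lift_of, Sum.elim_inl, Sum.elim_inr, csv]

/-- the approximate form of a positive existential relation -/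
def Rel {K E : Type} [Field K] [LinearOrder K] [Field E] [Algebra K E] {r r' m l t : ℕ}
    (P : Fin t → MvPolynomial ((Fin r' ⊕ Fin m) ⊕ Fin l) ℤ) (b : Module.Basis (Fin r) K E)
    (x : Fin r' → E) (a : Fin m → E) (δ C : K) : Prop :=
  ∃ z : Fin l → E, (∀ i c, |b.repr (z i) c| ≤ C) ∧
    ∀ j c, |b.repr (MvPolynomial.aeval (Sum.elim (Sum.elim x a) z) (P j)) c| ≤ δ

/-- the coordinates of a tuple -/
def exv {K E : Type} [Field K] [Field E] [Algebra K E] {r r' : ℕ}
    (b : Module.Basis (Fin r) K E) (x : Fin r' → E) : Fin (r' * r) → K :=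
  fun p => b.repr (x (finProdFinEquiv.symm p).1) (finProdFinEquiv.symm p).2

/-- the types of variables of the lifting formula -/
abbrev VrL (r r' m l : ℕ) : Type :=
  ((Fin r' × Fin r) ⊕ ((Fin m × Fin r) ⊕ (Cs r ⊕ Fin 2))) ⊕ (Fin l × Fin r)

/-- renaming of the variables -/
def ren {r r' m l : ℕ} : ((((Fin r' ⊕ Fin m) ⊕ Fin l) × Fin r) ⊕ Cs r) → VrL r r' m l
  | Sum.inl (Sum.inl (Sum.inl i), c) => Sum.inl (Sum.inl (i, c))
  | Sum.inl (Sum.inl (Sum.inr i), c) => Sum.inl (Sum.inr (Sum.inl (i, c)))
  | Sum.inl (Sum.inr i, c) => Sum.inr (i, c)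
  | Sum.inr s => Sum.inl (Sum.inr (Sum.inr (Sum.inl s)))

def vdl {r r' m l : ℕ} : VrL r r' m l := Sum.inl (Sum.inr (Sum.inr (Sum.inr 0)))
def vC {r r' m l : ℕ} : VrL r r' m l := Sum.inl (Sum.inr (Sum.inr (Sum.inr 1)))

/-- LF (the lifting formula) -/
theorem liftF (K : Type) [Field K] [LinearOrder K] [IsStrictOrderedRing K]
    [Ring.CompatibleRing K] [Language.order.Structure K] [Language.order.OrderedStructure K]
    (E : Type) [Field E] [Algebra K E] (r r' m l t : ℕ) (b : Module.Basis (Fin r) K E)
    (P : Fin t → MvPolynomial ((Fin r' ⊕ Fin m) ⊕ Fin l) ℤ) :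
    ∃ (M : ℕ) (ψ : NFV.Lor.Formula (Fin (r' * r) ⊕ Fin M))
      (ea : (Fin m → E) → K → K → Fin M → K), ∀ (x : Fin r' → E) (a : Fin m → E) (δ C : K),
      ψ.Realize (Sum.elim (exv b x) (ea a δ C)) ↔ Rel P b x a δ C := by
  classical
  choose T hT using fun j => coordP b (P j)
  -- the formula without quantifiers
  let θ1 : NFV.Lor.Formula (VrL r r' m l) := Formula.iInf fun p : Fin l × Fin r =>
    leF (FreeCommRing.of (Sum.inr p)) (FreeCommRing.of vC) ⊓
      leF (-FreeCommRing.of (Sum.inr p)) (FreeCommRing.of vC)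
  let θ2 : NFV.Lor.Formula (VrL r r' m l) := Formula.iInf fun p : Fin t × Fin r =>
    leF (FreeCommRing.map ren (T p.1 p.2)) (FreeCommRing.of vdl) ⊓
      leF (-FreeCommRing.map ren (T p.1 p.2)) (FreeCommRing.of vdl)
  let Pm : Type := (Fin m × Fin r) ⊕ (Cs r ⊕ Fin 2)
  let eP : Pm ≃ Fin (Fintype.card Pm) := Fintype.equivFin Pm
  let eX : Fin r' × Fin r ≃ Fin (r' * r) := finProdFinEquiv
  let ψ0 : NFV.Lor.Formula ((Fin r' × Fin r) ⊕ Pm) := Formula.iExs (Fin l × Fin r) (θ1 ⊓ θ2)
  have key : ∀ (x : Fin r' → E) (a : Fin m → E) (δ C : K),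
      ψ0.Realize (Sum.elim (fun p => b.repr (x p.1) p.2)
        (Sum.elim (fun p => b.repr (a p.1) p.2) (Sum.elim (csv b) ![δ, C]))) ↔
      Rel P b x a δ C := by
    intro x a δ C
    have hlift : ∀ (z : Fin l → E) (j : Fin t) (c : Fin r),
        FreeCommRing.lift (Sum.elim (Sum.elim (fun p => b.repr (x p.1) p.2)
          (Sum.elim (fun p => b.repr (a p.1) p.2) (Sum.elim (csv b) ![δ, C])))
          (fun p => b.repr (z p.1) p.2) : VrL r r' m l → K) (FreeCommRing.map ren (T j c)) =
        b.repr (MvPolynomial.aeval (Sum.elim (Sum.elim x a) z) (P j)) c := by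
      intro z j c
      rw [← hT]
      have h1 : ∀ w : FreeCommRing ((((Fin r' ⊕ Fin m) ⊕ Fin l) × Fin r) ⊕ Cs r),
          FreeCommRing.lift (Sum.elim (Sum.elim (fun p => b.repr (x p.1) p.2)
          (Sum.elim (fun p => b.repr (a p.1) p.2) (Sum.elim (csv b) ![δ, C])))
          (fun p => b.repr (z p.1) p.2) : VrL r r' m l → K) (FreeCommRing.map ren w) =
          FreeCommRing.lift (Sum.elim (fun p => b.repr ((Sum.elim (Sum.elim x a) z) p.1) p.2)
            (csv b)) w := by
        intro w
        have h3 : (FreeCommRing.lift (Sum.elim (Sum.elim (fun p => b.repr (x p.1) p.2)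
          (Sum.elim (fun p => b.repr (a p.1) p.2) (Sum.elim (csv b) ![δ, C])))
          (fun p => b.repr (z p.1) p.2) : VrL r r' m l → K)).comp (FreeCommRing.map ren) =
          FreeCommRing.lift (Sum.elim (fun p => b.repr ((Sum.elim (Sum.elim x a) z) p.1) p.2)
            (csv b)) := by
          apply FreeCommRing.hom_ext
          intro s
          rw [RingHom.comp_apply, FreeCommRing.map_of, FreeCommRing.lift_of,
            FreeCommRing.lift_of]
          rcases s with ⟨(i | i) | i, c⟩ | s <;> rfl
        exact RingHom.congr_fun h3 w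
      exact h1 _
    rw [Formula.realize_iExs]
    unfold Rel
    have hθ : ∀ z : Fin l → E, (θ1 ⊓ θ2).Realize (Sum.elim (Sum.elim (fun p => b.repr (x p.1) p.2)
          (Sum.elim (fun p => b.repr (a p.1) p.2) (Sum.elim (csv b) ![δ, C])))
          (fun p => b.repr (z p.1) p.2) : VrL r r' m l → K) ↔
        (∀ i c, |b.repr (z i) c| ≤ C) ∧
        ∀ j c, |b.repr (MvPolynomial.aeval (Sum.elim (Sum.elim x a) z) (P j)) c| ≤ δ := by
      intro z
      rw [Formula.realize_inf, Formula.realize_iInf, Formula.realize_iInf]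
      refine and_congr ?_ ?_
      · constructor
        · intro h i c
          have h1 := h (i, c)
          rw [Formula.realize_inf, leF_realize, leF_realize, map_neg, ← abs_le'] at h1
          rw [FreeCommRing.lift_of, FreeCommRing.lift_of] at h1
          exact h1
        · rintro h ⟨i, c⟩
          rw [Formula.realize_inf, leF_realize, leF_realize, map_neg, ← abs_le']
          rw [FreeCommRing.lift_of, FreeCommRing.lift_of]
          exact h i c
      · constructor
        · intro h j c
          have h1 := h (j, c)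
          rw [Formula.realize_inf, leF_realize, leF_realize, map_neg, ← abs_le'] at h1
          rw [hlift, FreeCommRing.lift_of] at h1
          exact h1
        · rintro h ⟨j, c⟩
          rw [Formula.realize_inf, leF_realize, leF_realize, map_neg, ← abs_le']
          rw [hlift, FreeCommRing.lift_of]
          exact h j c
    constructor
    · rintro ⟨z, hz⟩
      have h4 : (fun p : Fin l × Fin r => b.repr (b.equivFun.symm (fun c => z (p.1, c))) p.2) =
          z := by
        funext p
        have h3 : (b.repr (b.equivFun.symm (fun c => z (p.1, c))) : Fin r → K) =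
          (fun c => z (p.1, c)) := b.equivFun.apply_symm_apply _
        rw [h3]
      refine ⟨fun i => b.equivFun.symm fun c => z (i, c), ?_⟩
      rw [← hθ]
      rw [h4]
      exact hz
    · rintro ⟨z, hz⟩
      exact ⟨fun p => b.repr (z p.1) p.2, (hθ z).2 hz⟩
  refine ⟨Fintype.card Pm, ψ0.relabel (Sum.map eX eP), fun a δ C =>
    (Sum.elim (fun p => b.repr (a p.1) p.2) (Sum.elim (csv b) ![δ, C])) ∘ eP.symm,
    fun x a δ C => ?_⟩
  rw [Formula.realize_relabel, ← key x a δ C]
  have h5 : (Sum.elim (exv b x) ((Sum.elim (fun p : Fin m × Fin r => b.repr (a p.1) p.2)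
      (Sum.elim (csv b) ![δ, C])) ∘ eP.symm)) ∘ (Sum.map eX eP) =
      Sum.elim (fun p : Fin r' × Fin r => b.repr (x p.1) p.2)
        (Sum.elim (fun p => b.repr (a p.1) p.2) (Sum.elim (csv b) ![δ, C])) := by
    funext p
    rcases p with p | p
    · show exv b x (eX p) = _
      unfold exv
      rw [Equiv.symm_apply_apply]
      rfl
    · show ((Sum.elim (fun p : Fin m × Fin r => b.repr (a p.1) p.2)
      (Sum.elim (csv b) ![δ, C])) ∘ eP.symm) (eP p) = _
      rw [Function.comp_apply, Equiv.symm_apply_apply]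
      rfl
  rw [h5]

end SNX
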