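import Pool.Agent.SNX.L_RE
import Pool.Agent.NST.P_SN1

/-!
# SNX, part L: NIP and strong NIP for positive existential relations in finite extensions of
residue fields
-/

set_option autoImplicit false
set_option linter.unusedSectionVars false

noncomputable section

namespace SNX

open Filter Polynomial NST FirstOrder FirstOrder.Language FirstOrder.Ring

/-- strong NIP in finite form -/
theorem snipn_fin (K : Type) [Nonempty K] [NFV.Lor.Structure K] (hN : SNIPn K) (R : ℕ)
    (M : ℕ → ℕ) (ψ : ∀ i, NFV.Lor.Formula (Fin R ⊕ Fin (M i))) :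
    ¬ ∀ N : ℕ, ∃ a' : ∀ i, ℕ → Fin (M i) → K, ∀ η : ℕ → ℕ, (∀ i, η i < N) →
      ∃ x : Fin R → K, ∀ i < N, ∀ j < N, ((ψ i).Realize (Sum.elim x (a' i j)) ↔ j = η i) := by
  classical
  intro key
  choose a' ha' using key
  -- the pattern in the ultrapower
  refine hN (SN1_.UP K) (SN1_.ee K) (R) M ψ
    (fun i j k => ((fun N => a' N i j k : ℕ → K) : SN1_.UP K)) ?_
  intro η n
  -- the truncations of `η`
  have hch : ∀ N : ℕ, ∃ x : Fin (R) → K, (∀ i < n, η i < N) → n ≤ N → ∀ i < n, ∀ j < n,
        ((ψ i).Realize (Sum.elim x (a' N i j)) ↔ j = η i) := by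
    intro N
    by_cases h : (∀ i < n, η i < N) ∧ n ≤ N ∧ N ≠ 0
    · obtain ⟨x, hx⟩ := ha' N (fun i => if i < n then η i else 0) (by
        intro i
        by_cases hi : i < n
        · simp only [if_pos hi]
          exact h.1 i hi
        · simp only [if_neg hi]
          omega)
      refine ⟨x, fun _ _ i hi j hj => ?_⟩
      rw [hx i (by omega) j (by omega), if_pos hi]
    · refine ⟨fun _ => Classical.arbitrary K, fun h2 h3 i hi j hj => ?_⟩
      exfalso
      exact h ⟨h2, h3, by omega⟩
  choose x hx using hch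
  refine ⟨fun k => ((fun N => x N k : ℕ → K) : SN1_.UP K), fun i hi j hj => ?_⟩
  have g1 : (Sum.elim (fun k => ((fun N => x N k : ℕ → K) : SN1_.UP K))
      (fun k => ((fun N => a' N i j k : ℕ → K) : SN1_.UP K)) :
        Fin (R) ⊕ Fin (M i) → SN1_.UP K) =
      fun v => (((Sum.elim (fun k N => x N k) (fun k N => a' N i j k) :
        Fin (R) ⊕ Fin (M i) → ℕ → K) v : ℕ → K) : SN1_.UP K) := by
    funext v
    cases v <;> rfl
  refine (iff_of_eq (congrArg (ψ i).Realize g1)).trans ?_
  refine (FirstOrder.Language.Ultraproduct.realize_formula_cast (M := fun _ : ℕ => K)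
    (u := Filter.hyperfilter ℕ) (ψ i)
    (Sum.elim (fun k N => x N k) (fun k N => a' N i j k))).trans ?_
  have g2 : ∀ᶠ N in ((Filter.hyperfilter ℕ : Ultrafilter ℕ) : Filter ℕ),
      (∑ i ∈ Finset.range n, η i) + n < N := by
    apply Filter.Eventually.filter_mono (Nat.hyperfilter_le_atTop)
    exact Filter.eventually_gt_atTop _
  have g3 : ∀ᶠ N in ((Filter.hyperfilter ℕ : Ultrafilter ℕ) : Filter ℕ),
      ((ψ i).Realize (fun v => (Sum.elim (fun k N => x N k) (fun k N => a' N i j k) :
        Fin (R) ⊕ Fin (M i) → ℕ → K) v N) ↔ j = η i) := by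
    filter_upwards [g2] with N hN'
    have g4 : ∀ i < n, η i < N := by
      intro i hi
      have g5 := Finset.single_le_sum (f := η) (fun i _ => Nat.zero_le _)
        (Finset.mem_range.2 hi)
      omega
    have g6 := hx N g4 (by omega) i hi j hj
    have g7 : (fun v => (Sum.elim (fun k N => x N k) (fun k N => a' N i j k) :
        Fin (R) ⊕ Fin (M i) → ℕ → K) v N) = Sum.elim (x N) (a' N i j) := by
      funext v
      cases v <;> rfl
    rw [g7]
    exact g6
  rw [Filter.eventually_congr g3]
  simp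


/-- NIP for positive existential relations in finite extensions of residue fields -/
theorem l_NFp (h1 : NST.T_LI) (K : Type) [Field K] [LinearOrder K] [IsStrictOrderedRing K]
    [Ring.CompatibleRing K] [Language.order.Structure K] [Language.order.OrderedStructure K]
    (hN : NFV.NIP K) (W : ValuationSubring K) (hW : Cvx W) (k : Type) [Field k] [LinearOrder k]
    [IsStrictOrderedRing k] (π : W →+* k) (hπ : OR W k π) (F : Type) [Field F] [Algebra k F]
    [FiniteDimensional k F] : NFp F := by
  classical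
  obtain ⟨E, iE, iA, r, b, A, ρ, hr, hA, hAn, hsurj, hρ, hAW, hc⟩ :=
    h1 K k W π hπ.surj hπ.ker F
  let _ := iE
  let _ := iA
  intro r' m R hR
  obtain ⟨l, t, P, hP⟩ := hR
  obtain ⟨M, ψ, ea, hψ⟩ := liftF K E r r' m l t b P
  obtain ⟨n, hn⟩ := hN _ _ ψ
  refine ⟨n, fun a => ?_⟩
  by_contra hcon
  push Not at hcon
  choose x hx using hcon
  choose a1 ha1 using fun i k => hsurj (a i k)
  choose x1 hx1 using fun S k => hsurj (x S k)
  obtain ⟨δ, C, hδ, hC, hrel⟩ := res_rel_fin (b := b) hW hA hAn hsurj hρ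
    (I := Finset (Fin n) × Fin n) (fun _ => m) (fun _ => l) (fun _ => t) (fun _ => P)
    (fun p => x1 p.1) (fun p => a1 p.2)
  obtain ⟨S, hS⟩ := hn fun i => ea (fun k => (a1 i k : E)) δ C
  refine hS (exv b fun k => (x1 S.toFinset k : E)) fun i => ?_
  rw [hψ]
  refine (hrel (S.toFinset, i)).trans ?_
  simp only [ha1, hx1]
  rw [← hP, hx, Set.mem_toFinset]

/-- strong NIP for positive existential relations in finite extensions of residue fields -/
theorem l_SNF (h1 : NST.T_LI) (K : Type) [Field K] [LinearOrder K] [IsStrictOrderedRing K]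
    [Ring.CompatibleRing K] [Language.order.Structure K] [Language.order.OrderedStructure K]
    (hN : SNIPn K) (W : ValuationSubring K) (hW : Cvx W) (k : Type) [Field k] [LinearOrder k]
    [IsStrictOrderedRing k] (π : W →+* k) (hπ : OR W k π) (F : Type) [Field F] [Algebra k F]
    [FiniteDimensional k F] : SNF F := by
  classical
  obtain ⟨E, iE, iA, r, b, A, ρ, hr, hA, hAn, hsurj, hρ, hAW, hc⟩ :=
    h1 K k W π hπ.surj hπ.ker F
  let _ := iE
  let _ := iA
  intro r' m R hR
  choose l t P hP using hR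
  choose M ψ ea hψ using fun i => liftF K E r r' (m i) (l i) (t i) b (P i)
  by_contra hcon
  push Not at hcon
  choose a hx using hcon
  -- the finite pattern in `K`
  have key : ∀ N : ℕ, ∃ a' : ∀ i, ℕ → Fin (M i) → K, ∀ η : ℕ → ℕ, (∀ i, η i < N) →
      ∃ x : Fin (r' * r) → K, ∀ i < N, ∀ j < N,
        ((ψ i).Realize (Sum.elim x (a' i j)) ↔ j = η i) := by
    intro N
    choose a1 ha1 using fun i j k => hsurj (a N i j k)
    -- choose solutions only for the restrictions of `η`
    let ext : (Fin N → Fin N) → ℕ → ℕ := fun e i =>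
      if h : i < N then (e ⟨i, h⟩ : ℕ) else 0
    have hext : ∀ (e : Fin N → Fin N) (i : ℕ), N ≠ 0 → ext e i < N := by
      intro e i hN0
      by_cases h : i < N
      · simp only [ext, dif_pos h]
        exact (e ⟨i, h⟩).2
      · simp only [ext, dif_neg h]
        omega
    have hsol : ∀ e : Fin N → Fin N, ∃ x : Fin r' → F, ∀ i < N, ∀ j < N,
        (R i (Sum.elim x (a N i j)) ↔ j = ext e i) := by
      intro e
      by_cases hN0 : N = 0
      · exact ⟨fun _ => 0, fun i hi => absurd hi (by omega)⟩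
      · exact hx N (ext e) fun i => hext e i hN0
    choose x hx' using hsol
    choose x1 hx1 using fun e k => hsurj (x e k)
    obtain ⟨δ, C, hδ, hC, hrel⟩ := res_rel_fin (b := b) hW hA hAn hsurj hρ
      (I := (Fin N → Fin N) × Fin N × Fin N) (fun p => m p.2.1) (fun p => l p.2.1)
      (fun p => t p.2.1) (fun p => P p.2.1) (fun p => x1 p.1) (fun p => a1 p.2.1 p.2.2)
    refine ⟨fun i j => ea i (fun k => (a1 i j k : E)) δ C, fun η hη => ?_⟩
    let e : Fin N → Fin N := fun i => ⟨η i, hη i⟩
    have he : ∀ i < N, ext e i = η i := by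
      intro i hi
      simp only [ext, dif_pos hi, e]
    refine ⟨exv b fun k => (x1 e k : E), fun i hi j hj => ?_⟩
    rw [hψ]
    refine (hrel (e, ⟨i, hi⟩, ⟨j, hj⟩)).trans ?_
    simp only [ha1, hx1]
    rw [← hP, hx' e i hi j hj, he i hi]
  exact snipn_fin K hN (r' * r) M ψ key

end SNX
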