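import Pool.Agent.SNX.L_LF
import Pool.Agent.NST.P_VN

/-!
# SNX, part L: approximate relations and residue relations
-/

set_option autoImplicit false
set_option linter.unusedSectionVars false

noncomputable section

namespace SNX

open Filter Polynomial NST FirstOrder FirstOrder.Language FirstOrder.Ring

section RE

variable {K E : Type} [Field K] [LinearOrder K] [IsStrictOrderedRing K] [Field E] [Algebra K E]
  {r r' m l t : ℕ} {b : Module.Basis (Fin r) K E}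
  {P : Fin t → MvPolynomial ((Fin r' ⊕ Fin m) ⊕ Fin l) ℤ}

/-- monotone in the bounds -/
theorem Rel.mono {x : Fin r' → E} {a : Fin m → E} {δ δ' C C' : K} (h : Rel P b x a δ C)
    (h1 : δ ≤ δ') (h2 : C ≤ C') : Rel P b x a δ' C' := by
  obtain ⟨z, hz, hz'⟩ := h
  exact ⟨z, fun i c => (hz i c).trans h2, fun j c => (hz' j c).trans h1⟩

variable {W : ValuationSubring K} {A : ValuationSubring E} {F : Type} [Field F] {ρ : A →+* F}

theorem coe_aeval (x : Fin r' → A) (a : Fin m → A) (z : Fin l → A)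
    (Q : MvPolynomial ((Fin r' ⊕ Fin m) ⊕ Fin l) ℤ) :
    ((MvPolynomial.aeval (Sum.elim (Sum.elim x a) z) Q : A) : E) =
      MvPolynomial.aeval (Sum.elim (Sum.elim (fun i => (x i : E)) (fun i => (a i : E)))
        (fun i => (z i : E))) Q := by
  have h := MvPolynomial.aeval_algebraMap_apply (A := A) E (Sum.elim (Sum.elim x a) z) Q
  rw [ValuationSubring.algebraMap_apply] at h
  rw [← h]
  congr 2
  funext s
  rcases s with (s | s) | s <;> rfl

theorem rho_aeval (x : Fin r' → A) (a : Fin m → A) (z : Fin l → A)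
    (Q : MvPolynomial ((Fin r' ⊕ Fin m) ⊕ Fin l) ℤ) :
    ρ (MvPolynomial.aeval (Sum.elim (Sum.elim x a) z) Q : A) =
      MvPolynomial.aeval (Sum.elim (Sum.elim (fun i => ρ (x i)) (fun i => ρ (a i)))
        (fun i => ρ (z i))) Q := by
  rw [MvPolynomial.aeval_def, MvPolynomial.aeval_def, MvPolynomial.hom_eval₂]
  congr 1
  · exact RingHom.ext_int _ _
  · funext s
    rcases s with (s | s) | s <;> rfl

/-- a bound in the valuation ring for finitely many elements -/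
theorem bound_mem (hW : Cvx W) {ι : Type} (s : Finset ι) (f : ι → K) (h : ∀ i ∈ s, f i ∈ W) :
    ∃ c : K, 0 ≤ c ∧ c ∈ W ∧ ∀ i ∈ s, |f i| ≤ c := by
  refine ⟨∑ i ∈ s, |f i|, Finset.sum_nonneg fun i _ => abs_nonneg _, ?_, fun i hi => ?_⟩
  · exact W.toSubring.sum_mem fun i hi => hW _ _ (le_of_eq (abs_abs _)) (h i hi)
  · exact Finset.single_le_sum (f := fun i => |f i|) (fun j _ => abs_nonneg _) hi

/-- from the approximate relation to the residue relation -/
theorem rel_res (hW : Cvx W) (hA : ∀ z, z ∈ A ↔ ∀ i, b.repr z i ∈ W)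
    (hAn : ∀ z, z ∈ A.nonunits ↔ ∀ i, b.repr z i ∈ W.nonunits)
    (hρ : ∀ a : A, ρ a = 0 ↔ (a : E) ∈ A.nonunits) (x : Fin r' → A) (a : Fin m → A) (δ C : K)
    (hδ : δ ∈ W.nonunits) (hC : C ∈ W)
    (h : Rel P b (fun i => (x i : E)) (fun i => (a i : E)) δ C) :
    ∃ z : Fin l → F, ∀ j, MvPolynomial.aeval
      (Sum.elim (Sum.elim (fun i => ρ (x i)) (fun i => ρ (a i))) z) (P j) = 0 := by
  obtain ⟨z, hz, hz'⟩ := h
  have hzA : ∀ i, z i ∈ A := by
    intro i
    rw [hA]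
    intro c
    refine hW _ C ?_ hC
    exact (hz i c).trans (le_abs_self C)
  refine ⟨fun i => ρ ⟨z i, hzA i⟩, fun j => ?_⟩
  rw [← rho_aeval x a (fun i => ⟨z i, hzA i⟩), hρ, coe_aeval, hAn]
  intro c
  refine VN_cvx hW ?_ hδ
  exact (hz' j c).trans (le_abs_self δ)

/-- from the residue relation to the approximate relation -/
theorem res_rel (hW : Cvx W) (hA : ∀ z, z ∈ A ↔ ∀ i, b.repr z i ∈ W)
    (hAn : ∀ z, z ∈ A.nonunits ↔ ∀ i, b.repr z i ∈ W.nonunits)
    (hs : Function.Surjective ρ)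
    (hρ : ∀ a : A, ρ a = 0 ↔ (a : E) ∈ A.nonunits) (x : Fin r' → A) (a : Fin m → A)
    (h : ∃ z : Fin l → F, ∀ j, MvPolynomial.aeval
      (Sum.elim (Sum.elim (fun i => ρ (x i)) (fun i => ρ (a i))) z) (P j) = 0) :
    ∃ δ C : K, 0 ≤ δ ∧ 0 ≤ C ∧ δ ∈ W.nonunits ∧ C ∈ W ∧
      Rel P b (fun i => (x i : E)) (fun i => (a i : E)) δ C := by
  obtain ⟨z, hz⟩ := h
  choose z1 hz1 using fun i => hs (z i)
  have h1 : ∀ j, MvPolynomial.aeval (Sum.elim (Sum.elim (fun i => (x i : E))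
      (fun i => (a i : E))) (fun i => (z1 i : E))) (P j) ∈ A.nonunits := by
    intro j
    rw [← coe_aeval x a z1, ← hρ, rho_aeval]
    simp only [hz1]
    exact hz j
  obtain ⟨C, hC0, hC, hCb⟩ := bound_mem hW (Finset.univ : Finset (Fin l × Fin r))
    (fun p => b.repr (z1 p.1 : E) p.2) (fun p _ => (hA _).1 (z1 p.1).2 p.2)
  obtain ⟨δ, hδ0, hδ, hδb⟩ := VN_bound hW (Finset.univ : Finset (Fin t × Fin r))
    (fun p => b.repr (MvPolynomial.aeval (Sum.elim (Sum.elim (fun i => (x i : E))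
      (fun i => (a i : E))) (fun i => (z1 i : E))) (P p.1)) p.2)
    (fun p _ => (hAn _).1 (h1 p.1) p.2)
  exact ⟨δ, C, hδ0, hC0, hδ, hC, fun i => (z1 i : E),
    fun i c => hCb (i, c) (Finset.mem_univ _), fun j c => hδb (j, c) (Finset.mem_univ _)⟩

/-- common bounds for finitely many instances -/
theorem res_rel_fin (hW : Cvx W) (hA : ∀ z, z ∈ A ↔ ∀ i, b.repr z i ∈ W)
    (hAn : ∀ z, z ∈ A.nonunits ↔ ∀ i, b.repr z i ∈ W.nonunits)
    (hs : Function.Surjective ρ)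
    (hρ : ∀ a : A, ρ a = 0 ↔ (a : E) ∈ A.nonunits) {I : Type} [Finite I]
    (m' l' t' : I → ℕ) (P' : ∀ i, Fin (t' i) → MvPolynomial ((Fin r' ⊕ Fin (m' i)) ⊕ Fin (l' i)) ℤ)
    (x : I → Fin r' → A) (a : ∀ i, Fin (m' i) → A) :
    ∃ δ C : K, δ ∈ W.nonunits ∧ C ∈ W ∧ ∀ i,
      (Rel (P' i) b (fun k => (x i k : E)) (fun k => (a i k : E)) δ C ↔
      ∃ z : Fin (l' i) → F, ∀ j, MvPolynomial.aeval
        (Sum.elim (Sum.elim (fun k => ρ (x i k)) (fun k => ρ (a i k))) z) (P' i j) = 0) := by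
  classical
  have := Fintype.ofFinite I
  have h : ∀ i, ∃ δ C : K, 0 ≤ δ ∧ 0 ≤ C ∧ δ ∈ W.nonunits ∧ C ∈ W ∧
      ((∃ z : Fin (l' i) → F, ∀ j, MvPolynomial.aeval
        (Sum.elim (Sum.elim (fun k => ρ (x i k)) (fun k => ρ (a i k))) z) (P' i j) = 0) →
      Rel (P' i) b (fun k => (x i k : E)) (fun k => (a i k : E)) δ C) := by
    intro i
    by_cases hi : ∃ z : Fin (l' i) → F, ∀ j, MvPolynomial.aeval
        (Sum.elim (Sum.elim (fun k => ρ (x i k)) (fun k => ρ (a i k))) z) (P' i j) = 0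
    · obtain ⟨δ, C, h1, h2, h3, h4, h5⟩ := res_rel hW hA hAn hs hρ (x i) (a i) hi
      exact ⟨δ, C, h1, h2, h3, h4, fun _ => h5⟩
    · exact ⟨0, 0, le_rfl, le_rfl, W.nonunits.zero_mem, W.zero_mem, fun h => absurd h hi⟩
  choose δ C h1 h2 h3 h4 h5 using h
  refine ⟨∑ i, δ i, ∑ i, C i, W.nonunits.sum_mem fun i _ => h3 i,
    W.toSubring.sum_mem fun i _ => h4 i, fun i => ⟨fun h => ?_, fun h => ?_⟩⟩
  · exact rel_res hW hA hAn hρ (x i) (a i) _ _ (W.nonunits.sum_mem fun i _ => h3 i)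
      (W.toSubring.sum_mem fun i _ => h4 i) h
  · exact (h5 i h).mono (Finset.single_le_sum (fun j _ => h1 j) (Finset.mem_univ i))
      (Finset.single_le_sum (fun j _ => h2 j) (Finset.mem_univ i))

end RE

end SNX
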