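import Pool.Agent.SNX.Defs

/-!
# SNX: positive existential relations over arbitrary finite index types
-/

set_option autoImplicit false

noncomputable section

namespace SNX

open MvPolynomial

variable {F : Type} [Field F]

theorem PEr.of_fintype {ι : Type} {R : (ι → F) → Prop} (κ τ : Type) [Fintype κ] [Fintype τ]
    (P : τ → MvPolynomial (ι ⊕ κ) ℤ)
    (h : ∀ v, R v ↔ ∃ z : κ → F, ∀ j, aeval (Sum.elim v z) (P j) = 0) : PEr R := by
  let e := Fintype.equivFin κ
  let f := Fintype.equivFin τ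
  refine ⟨Fintype.card κ, Fintype.card τ, fun j => rename (Sum.map id e) (P (f.symm j)),
    fun v => ?_⟩
  have key : ∀ z : Fin (Fintype.card κ) → F,
      (Sum.elim v z) ∘ (Sum.map id e) = Sum.elim v (z ∘ e) := by
    intro z
    rw [Sum.elim_comp_map]
    rfl
  rw [h]
  constructor
  · rintro ⟨z, hz⟩
    refine ⟨z ∘ e.symm, fun j => ?_⟩
    rw [aeval_rename, key]
    have : (z ∘ e.symm) ∘ e = z := by
      funext a
      simp
    rw [this]
    exact hz _
  · rintro ⟨z, hz⟩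
    refine ⟨z ∘ e, fun j => ?_⟩
    have := hz (f j)
    rw [aeval_rename, key, f.symm_apply_apply] at this
    exact this

theorem PEr.reindexN {ι ι' : Type} {R : (ι → F) → Prop} (hR : PEr R) (f : ι → ι') :
    PEr fun v : ι' → F => R (v ∘ f) := by
  obtain ⟨l, t, P, hP⟩ := hR
  refine ⟨l, t, fun j => rename (Sum.map f id) (P j), fun v => ?_⟩
  show R (v ∘ f) ↔ _
  rw [hP]
  have key : ∀ z : Fin l → F, (Sum.elim v z) ∘ (Sum.map f id) = Sum.elim (v ∘ f) z := by
    intro z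
    rw [Sum.elim_comp_map]
    rfl
  constructor
  · rintro ⟨z, hz⟩
    refine ⟨z, fun j => ?_⟩
    rw [aeval_rename, key]
    exact hz j
  · rintro ⟨z, hz⟩
    refine ⟨z, fun j => ?_⟩
    have := hz j
    rw [aeval_rename, key] at this
    exact this

theorem NFp.fintype (h : NFp F) (ρ μ : Type) [Fintype ρ] [Fintype μ] (R : (ρ ⊕ μ → F) → Prop)
    (hR : PEr R) : ∃ n : ℕ, ∀ a : Fin n → μ → F,
      ∃ S : Finset (Fin n), ∀ x : ρ → F, ¬ ∀ i, (R (Sum.elim x (a i)) ↔ i ∈ S) := by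
  let e := Fintype.equivFin ρ
  let f := Fintype.equivFin μ
  obtain ⟨n, hn⟩ := h (Fintype.card ρ) (Fintype.card μ)
    (fun v => R (v ∘ Sum.map e f)) (hR.reindexN _)
  refine ⟨n, fun a => ?_⟩
  obtain ⟨S, hS⟩ := hn fun i => a i ∘ f.symm
  refine ⟨S, fun x hx => hS (x ∘ e.symm) fun i => ?_⟩
  rw [← hx i]
  have : Sum.elim (x ∘ e.symm) (a i ∘ f.symm) ∘ Sum.map e f = Sum.elim x (a i) := by
    rw [Sum.elim_comp_map]
    congr 1
    · funext c
      simp
    · funext c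
      simp
  rw [this]

theorem SNF.fintype (h : SNF F) (ρ : Type) (μ : ℕ → Type) [Fintype ρ] [∀ i, Fintype (μ i)]
    (R : ∀ i, (ρ ⊕ μ i → F) → Prop) (hR : ∀ i, PEr (R i)) :
    ∃ N : ℕ, ∀ a : ∀ i, ℕ → μ i → F, ∃ η : ℕ → ℕ, (∀ i, η i < N) ∧
      ∀ x : ρ → F, ¬ ∀ i < N, ∀ j < N, (R i (Sum.elim x (a i j)) ↔ j = η i) := by
  let e := Fintype.equivFin ρ
  let f := fun i => Fintype.equivFin (μ i)
  obtain ⟨N, hN⟩ := h (Fintype.card ρ) (fun i => Fintype.card (μ i))
    (fun i v => R i (v ∘ Sum.map e (f i))) fun i => (hR i).reindexN _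
  refine ⟨N, fun a => ?_⟩
  obtain ⟨η, h1, h2⟩ := hN fun i j => a i j ∘ (f i).symm
  refine ⟨η, h1, fun x hx => h2 (x ∘ e.symm) fun i hi j hj => ?_⟩
  rw [← hx i hi j hj]
  have : Sum.elim (x ∘ e.symm) (a i j ∘ (f i).symm) ∘ Sum.map e (f i) = Sum.elim x (a i j) := by
    rw [Sum.elim_comp_map]
    congr 1
    · funext c
      simp
    · funext c
      simp
  rw [this]

end SNX

end
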