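import Pool.Agent.SNX.TL

/-!
# SNX, target CO: coordinates of polynomials
-/

set_option autoImplicit false
set_option linter.unusedSectionVars false

noncomputable section

namespace SNX

open Filter Polynomial NST FirstOrder

namespace CO_

theorem repr_mul {K E : Type} [Field K] [Field E] [Algebra K E] {s : ℕ}
    (b : Module.Basis (Fin s) K E) (u w : E) (k : Fin s) :
    b.repr (u * w) k = ∑ i : Fin s, ∑ j : Fin s,
      b.repr u i * b.repr w j * b.repr (b i * b j) k := by
  conv_lhs => rw [← b.sum_repr u, ← b.sum_repr w]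
  rw [Finset.sum_mul_sum]
  simp only [map_sum, Finsupp.coe_finsetSum, Finset.sum_apply]
  refine Finset.sum_congr rfl fun i _ => Finset.sum_congr rfl fun j _ => ?_
  rw [smul_mul_smul_comm, map_smul]
  simp

end CO_

theorem p_CO : T_CO := by
  intro K E _ _ _ s b ι P
  induction P using MvPolynomial.induction_on with
  | C n =>
    refine ⟨fun k => MvPolynomial.C n * MvPolynomial.X (Sum.inr (Sum.inl k)), fun v k => ?_⟩
    rw [map_mul, MvPolynomial.aeval_C, MvPolynomial.aeval_C, MvPolynomial.aeval_X]
    simp only [algebraMap_int_eq, eq_intCast, Sum.elim_inr, Sum.elim_inl]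
    have h1 : ((n : ℤ) : E) = (n : K) • (1 : E) := by
      rw [Algebra.smul_def, mul_one, map_intCast]
    rw [h1, map_smul]
    simp
  | add p q hp hq =>
    obtain ⟨G, hG⟩ := hp
    obtain ⟨H, hH⟩ := hq
    refine ⟨fun k => G k + H k, fun v k => ?_⟩
    rw [map_add, map_add, map_add, Finsupp.add_apply, hG, hH]
  | mul_X p i hp =>
    obtain ⟨G, hG⟩ := hp
    refine ⟨fun k => ∑ i' : Fin s, ∑ j' : Fin s, G i' * MvPolynomial.X (Sum.inl (i, j')) *
      MvPolynomial.X (Sum.inr (Sum.inr (i', j', k))), fun v k => ?_⟩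
    rw [map_mul, MvPolynomial.aeval_X, CO_.repr_mul]
    simp only [map_sum, map_mul, MvPolynomial.aeval_X, Sum.elim_inl, Sum.elim_inr]
    refine Finset.sum_congr rfl fun i' _ => Finset.sum_congr rfl fun j' _ => ?_
    rw [hG]

end SNX
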