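import Pool.Agent.SNX.TL

/-!
# SNX, target CP: compactness for strong NIP
-/

set_option autoImplicit false

noncomputable section

namespace SNX

open Filter Polynomial NST FirstOrder

namespace CP_

/-- the ultrapower -/
abbrev UP (K : Type) : Type :=
  (((Filter.hyperfilter ℕ : Ultrafilter ℕ) : Filter ℕ)).Product (fun _ : ℕ => K)

theorem ee (K : Type) [Nonempty K] [NFV.Lor.Structure K] :
    NFV.Lor.ElementarilyEquivalent (UP K) K := by
  rw [FirstOrder.Language.elementarilyEquivalent_iff]
  intro φ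
  rw [FirstOrder.Language.Ultraproduct.sentence_realize]
  simp

end CP_

theorem p_CP : T_CP := by
  classical
  intro K _ _ hS
  by_contra hN
  unfold SNL at hN
  push Not at hN
  obtain ⟨r, m, φ, hN⟩ := hN
  choose a ha using hN
  refine hS (CP_.UP K) (CP_.ee K) r m φ
    (fun i j k => ((fun n => a n i j k : ℕ → K) : CP_.UP K)) ?_
  intro η N
  have hex : ∀ n : ℕ, ∃ x : Fin r → K, N < n → (∀ i < N, η i < n) →
      ∀ i < N, ∀ j < N, ((φ i).Realize (Sum.elim x (a n i j)) ↔ j = η i) := by
    intro n
    by_cases hn : N < n ∧ ∀ i < N, η i < n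
    · obtain ⟨x, hx⟩ := ha n (fun i => if i < N then η i else 0) (by
        intro i
        by_cases hi : i < N
        · simp only [hi, if_true]
          exact hn.2 i hi
        · simp only [hi, if_false]
          omega)
      refine ⟨x, fun _ _ i hi j hj => ?_⟩
      have h1 := hx i (by omega) j (by omega)
      simp only [hi, if_true] at h1
      exact h1
    · refine ⟨fun _ => Classical.arbitrary K, fun h1 h2 => absurd ⟨h1, h2⟩ hn⟩
  choose x hx using hex
  refine ⟨fun k => ((fun n => x n k : ℕ → K) : CP_.UP K), fun i hi j hj => ?_⟩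
  have h1 : (Sum.elim (fun k => ((fun n => x n k : ℕ → K) : CP_.UP K))
      (fun k => ((fun n => a n i j k : ℕ → K) : CP_.UP K)) : Fin r ⊕ Fin (m i) → CP_.UP K) =
      fun v => (((Sum.elim (fun (k : Fin r) (n : ℕ) => x n k)
        (fun (k : Fin (m i)) (n : ℕ) => a n i j k) :
        Fin r ⊕ Fin (m i) → ℕ → K) v : ℕ → K) : CP_.UP K) := by
    funext v
    cases v <;> rfl
  refine (iff_of_eq (congrArg (φ i).Realize h1)).trans ?_
  refine (FirstOrder.Language.Ultraproduct.realize_formula_cast (M := fun _ : ℕ => K)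
    (u := Filter.hyperfilter ℕ) (φ i)
    (Sum.elim (fun (k : Fin r) (n : ℕ) => x n k)
      (fun (k : Fin (m i)) (n : ℕ) => a n i j k))).trans ?_
  have h2 : ∀ᶠ n in ((Filter.hyperfilter ℕ : Ultrafilter ℕ) : Filter ℕ),
      N < n ∧ ∀ i < N, η i < n := by
    apply Filter.Eventually.filter_mono (Nat.hyperfilter_le_atTop)
    filter_upwards [Filter.eventually_gt_atTop (N + (Finset.range N).sup η)] with n hn
    refine ⟨by omega, fun i hi => ?_⟩
    have := Finset.le_sup (f := η) (Finset.mem_range.2 hi)
    omega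
  have h3 : ∀ᶠ n in ((Filter.hyperfilter ℕ : Ultrafilter ℕ) : Filter ℕ),
      ((φ i).Realize (fun v => (Sum.elim (fun (k : Fin r) (n : ℕ) => x n k)
        (fun (k : Fin (m i)) (n : ℕ) => a n i j k) :
        Fin r ⊕ Fin (m i) → ℕ → K) v n) ↔ j = η i) := by
    filter_upwards [h2] with n hn
    have h4 := hx n hn.1 hn.2 i hi j hj
    have h5 : (fun v => (Sum.elim (fun (k : Fin r) (n : ℕ) => x n k)
        (fun (k : Fin (m i)) (n : ℕ) => a n i j k) :
        Fin r ⊕ Fin (m i) → ℕ → K) v n) = Sum.elim (x n) (a n i j) := by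
      funext v
      cases v <;> rfl
    rw [h5]
    exact h4
  rw [Filter.eventually_congr h3]
  simp

end SNX
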