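import Pool.Agent.SNX.TL
import Pool.Agent.NST.P_VCK

/-!
# SNX: FB, the formula for approximate solutions (helper12)
-/

set_option autoImplicit false

open FirstOrder FirstOrder.Language FirstOrder.Ring NST

noncomputable section

namespace SNX

namespace FB_

/-- the parameters: coordinates of `a`, of `1`, structure constants, and `δ, C` -/
abbrev Pm (m s : ℕ) : Type :=
  (Fin m × Fin s) ⊕ ((Fin s ⊕ (Fin s × Fin s × Fin s)) ⊕ (Unit ⊕ Unit))

/-- all variables -/
abbrev Vr (r m l s : ℕ) : Type := (Fin (r * s) ⊕ Pm m s) ⊕ (Fin l × Fin s)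

/-- the index of `δ` -/
def iD {r m l s : ℕ} : Vr r m l s := Sum.inl (Sum.inr (Sum.inr (Sum.inr (Sum.inl ()))))

/-- the index of `C` -/
def iC {r m l s : ℕ} : Vr r m l s := Sum.inl (Sum.inr (Sum.inr (Sum.inr (Sum.inr ()))))

/-- the variables of the coordinate polynomials -/
def tau {r m l s : ℕ} :
    ((((Fin r ⊕ Fin m) ⊕ Fin l) × Fin s) ⊕ (Fin s ⊕ (Fin s × Fin s × Fin s))) → Vr r m l s
  | Sum.inl (Sum.inl (Sum.inl i), k) => Sum.inl (Sum.inl (finProdFinEquiv (i, k)))
  | Sum.inl (Sum.inl (Sum.inr i), k) => Sum.inl (Sum.inr (Sum.inl (i, k)))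
  | Sum.inl (Sum.inr i, k) => Sum.inr (i, k)
  | Sum.inr w => Sum.inl (Sum.inr (Sum.inr (Sum.inl w)))

/-- a polynomial as an element of the free ring -/
def po {α β : Type} (τ : α → β) (p : MvPolynomial α ℤ) : FreeCommRing β :=
  (freeCommRingEquivMvPolynomialInt β).symm (MvPolynomial.rename τ p)

theorem lift_po {K : Type} [Field K] {α β : Type} (τ : α → β) (p : MvPolynomial α ℤ)
    (v : β → K) : FreeCommRing.lift v (po τ p) = MvPolynomial.aeval (v ∘ τ) p := by
  have h1 : FreeCommRing.lift v =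
      ((MvPolynomial.aeval v : MvPolynomial β ℤ →ₐ[ℤ] K) : MvPolynomial β ℤ →+* K).comp
        (freeCommRingEquivMvPolynomialInt β : FreeCommRing β →+* MvPolynomial β ℤ) := by
    refine FreeCommRing.hom_ext fun a => ?_
    have h2 : (freeCommRingEquivMvPolynomialInt β) (FreeCommRing.of a) = MvPolynomial.X a := by
      unfold freeCommRingEquivMvPolynomialInt
      simp
    simp only [FreeCommRing.lift_of, RingHom.comp_apply, RingHom.coe_coe, h2,
      MvPolynomial.aeval_X]
  rw [h1]
  unfold po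
  simp only [RingHom.comp_apply, RingHom.coe_coe, RingEquiv.apply_symm_apply,
    MvPolynomial.aeval_rename]

/-- the coordinate polynomials -/
abbrev Gt (r m l s t : ℕ) : Type := Fin t → Fin s →
  MvPolynomial ((((Fin r ⊕ Fin m) ⊕ Fin l) × Fin s) ⊕ (Fin s ⊕ (Fin s × Fin s × Fin s))) ℤ

/-- the formula without the quantifier -/
def fo {r m l s t : ℕ} (G : Gt r m l s t) : NFV.Lor.Formula (Vr r m l s) :=
  (Formula.iInf fun p : Fin l × Fin s =>
    VCK_.leF (FreeCommRing.of (Sum.inr p)) (FreeCommRing.of iC) ⊓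
      VCK_.leF (-FreeCommRing.of (Sum.inr p)) (FreeCommRing.of iC)) ⊓
  (Formula.iInf fun p : Fin t × Fin s =>
    VCK_.leF (po tau (G p.1 p.2)) (FreeCommRing.of iD) ⊓
      VCK_.leF (-po tau (G p.1 p.2)) (FreeCommRing.of iD))

theorem fo_realize {K : Type} [Field K] [LinearOrder K] [IsStrictOrderedRing K]
    [Ring.CompatibleRing K] [Language.order.Structure K] [Language.order.OrderedStructure K]
    {r m l s t : ℕ} (G : Gt r m l s t) (v : Vr r m l s → K) :
    (fo G).Realize v ↔ (∀ p : Fin l × Fin s, |v (Sum.inr p)| ≤ v iC) ∧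
      ∀ p : Fin t × Fin s, |MvPolynomial.aeval (v ∘ tau) (G p.1 p.2)| ≤ v iD := by
  unfold fo
  rw [Formula.realize_inf, Formula.realize_iInf, Formula.realize_iInf]
  refine and_congr (forall_congr' fun p => ?_) (forall_congr' fun p => ?_)
  · rw [Formula.realize_inf, VCK_.leF_realize, VCK_.leF_realize, map_neg, abs_le']
    simp only [FreeCommRing.lift_of]
  · rw [Formula.realize_inf, VCK_.leF_realize, VCK_.leF_realize, map_neg, abs_le', lift_po]
    simp only [FreeCommRing.lift_of]

/-- the formula -/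
def fm {r m l s t : ℕ} (G : Gt r m l s t) (k : ℕ) (e : Pm m s ≃ Fin k) :
    NFV.Lor.Formula (Fin (r * s) ⊕ Fin k) :=
  (Formula.iExs (Fin l × Fin s) (fo G)).relabel (Sum.map id e)

/-- the parameters -/
def enc {K E : Type} [Field K] [Field E] [Algebra K E] {s : ℕ} (b : Module.Basis (Fin s) K E)
    {m : ℕ} (a : Fin m → E) (δ C : K) : Pm m s → K :=
  Sum.elim (fun p => b.repr (a p.1) p.2)
    (Sum.elim (Sum.elim (fun k => b.repr 1 k) fun p => b.repr (b p.1 * b p.2.1) p.2.2)
      (Sum.elim (fun _ => δ) fun _ => C))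

end FB_

open FB_ in
/-- FB: the formula for approximate solutions -/
theorem p_FB (h : T_CO) : T_FB := by
  classical
  intro K E _ _ _ _ _ _ _ _ s b r m l t P
  have e : Pm m s ≃ Fin (Fintype.card (Pm m s)) := Fintype.equivFin (Pm m s)
  choose G hG using fun j : Fin t => h K E s b _ (P j)
  refine ⟨_, fm G _ e, fun a δ C => enc b a δ C ∘ e.symm, fun x a δ C => ?_⟩
  unfold fm Apx
  rw [Formula.realize_relabel, Formula.realize_iExs]
  -- the values of the variables
  have hv : ∀ z : Fin l → E,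
      (Sum.elim ((Sum.elim (encX b x) (enc b a δ C ∘ e.symm)) ∘ Sum.map id e)
        (fun p : Fin l × Fin s => b.repr (z p.1) p.2)) ∘ tau =
      (Sum.elim (fun p : ((Fin r ⊕ Fin m) ⊕ Fin l) × Fin s =>
          b.repr (Sum.elim (Sum.elim x a) z p.1) p.2)
        (Sum.elim (fun k => b.repr 1 k)
          fun p : Fin s × Fin s × Fin s => b.repr (b p.1 * b p.2.1) p.2.2)) := by
    intro z
    funext w
    rcases w with ⟨(i | i) | i, k⟩ | (k | p)
    · simp [tau, encX]
    · simp [tau, enc]
    · simp [tau]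
    · simp [tau, enc]
    · simp [tau, enc]
  have hC : ∀ u : Fin l × Fin s → K,
      Sum.elim ((Sum.elim (encX b x) (enc b a δ C ∘ e.symm)) ∘ Sum.map id e) u iC = C := by
    intro u
    simp [iC, enc]
  have hD : ∀ u : Fin l × Fin s → K,
      Sum.elim ((Sum.elim (encX b x) (enc b a δ C ∘ e.symm)) ∘ Sum.map id e) u iD = δ := by
    intro u
    simp [iD, enc]
  constructor
  · rintro ⟨u, hu⟩
    rw [fo_realize, hC, hD] at hu
    obtain ⟨h1, h2⟩ := hu
    set z : Fin l → E := fun i => b.equivFun.symm fun k => u (i, k) with hz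
    have h3 : u = fun p : Fin l × Fin s => b.repr (z p.1) p.2 := by
      funext p
      have h4 : (b.repr (z p.1) : Fin s → K) = fun k => u (p.1, k) :=
        b.equivFun.apply_symm_apply _
      rw [h4]
    refine ⟨z, fun i k => ?_, fun j k => ?_⟩
    · have h4 := h1 (i, k)
      rw [h3] at h4
      exact h4
    · have h4 := h2 (j, k)
      rw [h3, hv z] at h4
      rw [hG j]
      exact h4
  · rintro ⟨z, h1, h2⟩
    refine ⟨fun p => b.repr (z p.1) p.2, ?_⟩
    rw [fo_realize, hC, hD, hv z]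
    refine ⟨fun p => h1 p.1 p.2, fun p => ?_⟩
    have h4 := h2 p.1 p.2
    rw [hG p.1] at h4
    exact h4

end SNX
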