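import Pool.Agent.SNX.TL
import Pool.Agent.NST.P_VN

/-!
# SNX: LF, lifting of finitely many instances of a positive existential relation
-/

set_option autoImplicit false

namespace SNX

open NST

/-- ring homomorphisms commute with polynomials with integer coefficients -/
theorem LF_map {A B σ : Type} [CommRing A] [CommRing B] (φ : A →+* B) (v : σ → A)
    (P : MvPolynomial σ ℤ) :
    φ (MvPolynomial.aeval v P) = MvPolynomial.aeval (fun i => φ (v i)) P := by
  induction P using MvPolynomial.induction_on with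
  | C n => rw [MvPolynomial.aeval_C, MvPolynomial.aeval_C]; simp
  | add p q hp hq => rw [map_add, map_add, map_add, hp, hq]
  | mul_X p i hp => rw [map_mul, map_mul, map_mul, MvPolynomial.aeval_X, MvPolynomial.aeval_X, hp]

/-- a bound in the ring for finitely many elements of the ring -/
theorem LF_bound {K : Type} [Field K] [LinearOrder K] [IsStrictOrderedRing K]
    {W : ValuationSubring K} (hW : Cvx W) {ι : Type} (s : Finset ι) (f : ι → K)
    (h : ∀ i ∈ s, f i ∈ W) :
    ∃ c : K, 0 ≤ c ∧ c ∈ W ∧ ∀ i ∈ s, |f i| ≤ c := by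
  refine ⟨∑ i ∈ s, |f i|, Finset.sum_nonneg fun i _ => abs_nonneg _,
    W.toSubring.sum_mem fun i hi => hW _ _ (le_of_eq (abs_abs _)) (h i hi), fun i hi => ?_⟩
  exact Finset.single_le_sum (f := fun i => |f i|) (fun j _ => abs_nonneg _) hi

theorem p_LF : T_LF := by
  classical
  intro K E F _ _ _ _ _ _ W hW s b A ρ hA hAn hsurj hρ ι l t P Γ _ v₁
  have := Fintype.ofFinite Γ
  -- the chosen solutions
  have hz : ∀ g : Γ, ∃ z : Fin l → A,
      (∃ z : Fin l → F, ∀ j, MvPolynomial.aeval (Sum.elim (fun i => ρ (v₁ g i)) z) (P j) = 0) →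
      ∀ j, ρ (MvPolynomial.aeval (Sum.elim (v₁ g) z) (P j)) = 0 := by
    intro g
    by_cases h : ∃ z : Fin l → F,
        ∀ j, MvPolynomial.aeval (Sum.elim (fun i => ρ (v₁ g i)) z) (P j) = 0
    · obtain ⟨z, hz⟩ := h
      choose z' hz' using fun i => hsurj (z i)
      refine ⟨z', fun _ j => ?_⟩
      rw [LF_map, ← hz j]
      congr 1
      congr 1
      funext p
      rcases p with p | p
      · rfl
      · exact hz' p
    · exact ⟨0, fun h' => absurd h' h⟩
  choose z hz using hz
  obtain ⟨δ, hδ0, hδn, hδ⟩ := VN_bound hW (Finset.univ : Finset (Γ × Fin t × Fin s))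
    (fun p => if ∃ z : Fin l → F,
        ∀ j, MvPolynomial.aeval (Sum.elim (fun i => ρ (v₁ p.1 i)) z) (P j) = 0 then
      b.repr ((MvPolynomial.aeval (Sum.elim (v₁ p.1) (z p.1)) (P p.2.1) : A) : E) p.2.2 else 0) (by
      rintro ⟨g, j, k⟩ _
      dsimp only
      split_ifs with h
      · exact (hAn _).1 ((hρ _).1 (hz g h j)) k
      · exact W.nonunits.zero_mem)
  obtain ⟨C, hC0, hCW, hC⟩ := LF_bound hW (Finset.univ : Finset (Γ × Fin l × Fin s))
    (fun p => b.repr (z p.1 p.2.1 : E) p.2.2) (by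
      rintro ⟨g, i, k⟩ _
      exact (hA _).1 (z g i).2 k)
  have hco : ∀ (g : Γ) (w : Fin l → A) (j : Fin t),
      ((MvPolynomial.aeval (Sum.elim (v₁ g) w) (P j) : A) : E) =
        MvPolynomial.aeval (Sum.elim (fun i => (v₁ g i : E)) fun i => (w i : E)) (P j) := by
    intro g w j
    have h1 := LF_map A.subtype (Sum.elim (v₁ g) w) (P j)
    have h2 : (fun i => A.subtype (Sum.elim (v₁ g) w i)) =
        Sum.elim (fun i => (v₁ g i : E)) fun i => (w i : E) := by
      funext p
      rcases p with p | p <;> rfl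
    rw [h2] at h1
    exact h1
  refine ⟨δ, C, fun g => ⟨fun h => ?_, ?_⟩⟩
  · refine ⟨fun i => (z g i : E), fun i k => hC (g, i, k) (Finset.mem_univ _), fun j k => ?_⟩
    have h1 := hδ (g, j, k) (Finset.mem_univ _)
    dsimp only at h1
    rw [if_pos h, hco] at h1
    exact h1
  · rintro ⟨w, hw1, hw2⟩
    have hwA : ∀ i, w i ∈ A := fun i => (hA _).2 fun k =>
      hW _ C (by rw [abs_of_nonneg hC0]; exact hw1 i k) hCW
    refine ⟨fun i => ρ ⟨w i, hwA i⟩, fun j => ?_⟩
    have h1 : ρ (MvPolynomial.aeval (Sum.elim (v₁ g) fun i => (⟨w i, hwA i⟩ : A)) (P j)) = 0 := by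
      rw [hρ, hAn]
      intro k
      refine VN_cvx hW ?_ hδn
      rw [abs_of_nonneg hδ0, hco]
      exact hw2 j k
    rw [LF_map] at h1
    rw [← h1]
    congr 1
    congr 1
    funext p
    rcases p with p | p <;> rfl

end SNX
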