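import Pool.Agent.SNX.TL

/-!
# SNX: NP, NIP for positive existential relations in finite extensions of residue fields
-/

set_option autoImplicit false
set_option linter.unusedSectionVars false

namespace SNX

open NST FirstOrder

theorem NP_.elim_map {X Y : Type} {r m : ℕ} (f : X → Y) (u : Fin r → X) (v : Fin m → X)
    (g : Fin r → Y) (h : Fin m → Y) (hu : ∀ i, f (u i) = g i) (hv : ∀ i, f (v i) = h i) :
    (fun i => f (Sum.elim u v i)) = Sum.elim g h := by
  funext i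
  rcases i with i | i
  · exact hu i
  · exact hv i

theorem p_NP (h1 : NST.T_LI) (h2 : T_FB) (h3 : T_LF) : T_NP := by
  classical
  intro K _ _ _ _ _ _ hNIP W hW k _ _ _ π hOR F _ _ _ r m R hR
  obtain ⟨E, iE, iA, s, b, A, ρ, hr, hA, hAn, hsurj, hρ, hAW, hc⟩ :=
    h1 K k W π hOR.surj hOR.ker F
  let _ := iE
  let _ := iA
  obtain ⟨l, t, P, hP⟩ := hR
  obtain ⟨m', Φ, enc, hΦ⟩ := h2 K E s b r m l t P
  obtain ⟨n, hn⟩ := hNIP (r * s) m' Φ
  refine ⟨n, fun a => ?_⟩
  by_contra hcon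
  have hcon' : ∀ S : Finset (Fin n), ∃ x : Fin r → F,
      ∀ i, (R (Sum.elim x (a i)) ↔ i ∈ S) := by
    intro S
    by_contra h
    exact hcon ⟨S, fun x hx => h ⟨x, hx⟩⟩
  choose x hx using hcon'
  choose a1 ha1 using fun (i : Fin n) (j : Fin m) => hsurj (a i j)
  choose x1 hx1 using fun (S : Finset (Fin n)) (j : Fin r) => hsurj (x S j)
  obtain ⟨δ, C, hLF⟩ := h3 K E F W hW s b A ρ hA hAn hsurj hρ (Fin r ⊕ Fin m) l t P
    (Finset (Fin n) × Fin n) (fun p => Sum.elim (x1 p.1) (a1 p.2))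
  obtain ⟨S, hS⟩ := hn (fun i => enc (fun j => (a1 i j : E)) δ C)
  refine hS (encX b (fun j => (x1 S.toFinset j : E))) fun i => ?_
  have e1 := hΦ (fun j => (x1 S.toFinset j : E)) (fun j => (a1 i j : E)) δ C
  have e2 := hLF (S.toFinset, i)
  have e3 := hx S.toFinset i
  have q1 : (fun j => ρ (Sum.elim (x1 S.toFinset) (a1 i) j)) =
      Sum.elim (x S.toFinset) (a i) :=
    NP_.elim_map (fun z => ρ z) _ _ _ _ (fun j => hx1 _ j) (fun j => ha1 i j)
  have q2 : (fun j => ((Sum.elim (x1 S.toFinset) (a1 i) j : A) : E)) =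
      Sum.elim (fun j => (x1 S.toFinset j : E)) (fun j => (a1 i j : E)) :=
    NP_.elim_map (fun z : A => (z : E)) _ _ _ _ (fun j => rfl) (fun j => rfl)
  simp only [q1, q2] at e2
  rw [e1, ← e2, ← hP, e3, Set.mem_toFinset]

end SNX
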