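import Pool.Agent.SNX.TE

set_option autoImplicit false

noncomputable section

namespace SNX

open Filter Polynomial NST FirstOrder

namespace PL_

variable {M : Type} [Field M] {q : ℕ} {R : Subring (Lx M)} {S : Finset M}

theorem St_sub (hR : Rg M q R) (hS : SB M q S) {x : Lx M} (hx : x ∈ St (BB q S)) : x ∈ R :=
  (hR.mem x).2 (hS x ((mem_St_BB M q).1 hx))

theorem II_sub {x : Lx M} (hx : x ∈ II M q) : x ∈ St (BB q S) :=
  (mem_St_BB M q).2 fun s _ => hx s

theorem sum_mem (hR : Rg M q R) {ι : Type} (s : Finset ι) (g : ι → Lx M)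
    (hg : ∀ i ∈ s, g i ∈ II M q) : ∑ i ∈ s, g i ∈ II M q := by
  classical
  induction s using Finset.induction_on with
  | empty => simpa using hR.zero
  | insert a s ha ih =>
    rw [Finset.sum_insert ha]
    exact hR.add _ (hg a (Finset.mem_insert_self a s)) _
      (ih fun i hi => hg i (Finset.mem_insert_of_mem hi))

theorem split (N n : ℕ) (hn : n < N) (g : ℕ → Lx M) :
    ∑ k ∈ Finset.range N, g k =
      ∑ k ∈ Finset.range n, g k + g n + ∑ k ∈ Finset.Ico (n + 1) N, g k := by
  rw [← Finset.sum_range_succ, Finset.sum_range_add_sum_Ico g (by omega)]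

theorem back (hR : Rg M q R) (N : ℕ) (w f : ℕ → Lx M)
    (h2 : ∀ n k, n < k → k < N → f n * w k ∈ II M q) (m : ℕ → M)
    (hm : ∀ i < N, m i ∈ BB q S) (η : ℕ → ℕ) (hη : ∀ i, η i < N) (n : ℕ) (hn : n < N) :
    ∃ b : ℕ → Lx M, (∀ k, b k ∈ St (BB q S)) ∧
      f n * (∑ k ∈ Finset.range N, cst (m (η k)) * w k - cst (m (η n)) * w n) =
        b n + f n * ∑ k ∈ Finset.range n, b k * w k := by
  classical
  refine ⟨fun k => if k = n then f n * ∑ k ∈ Finset.Ico (n + 1) N, cst (m (η k)) * w k
    else cst (m (η k)), ?_, ?_⟩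
  · intro k
    by_cases hk : k = n
    · simp only [hk, if_true]
      refine II_sub ?_
      rw [Finset.mul_sum]
      refine sum_mem hR _ _ fun i hi => ?_
      rw [Finset.mem_Ico] at hi
      have e : f n * (cst (m (η i)) * w i) = cst (m (η i)) * (f n * w i) := by ring
      rw [e]
      exact hR.mul _ (hR.cst _) _ (h2 n i (by omega) hi.2)
    · simp only [hk, if_false]
      exact cst_mem_St.2 (hm _ (hη k))
  · rw [split N n hn]
    simp only [if_true]
    have e : ∑ k ∈ Finset.range n, (if k = n then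
        f n * ∑ k ∈ Finset.Ico (n + 1) N, cst (m (η k)) * w k else cst (m (η k))) * w k =
        ∑ k ∈ Finset.range n, cst (m (η k)) * w k := by
      refine Finset.sum_congr rfl fun k hk => ?_
      have : k ≠ n := (Finset.mem_range.1 hk).ne
      rw [if_neg this]
    rw [e]
    ring

end PL_

open PL_ in
theorem p_PL : T_PL := by
  intro M _ q R S hR hS N w f h1 h2 h3 m hm hmB η hη n hn j hj
  constructor
  · rintro ⟨b, hb, he⟩
    obtain ⟨b', hb', he'⟩ := back hR N w f h2 m hmB η hη n hn
    by_contra hne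
    have hd : m (η n) - m j ≠ 0 := by
      intro h
      exact hne (hm _ (hη n) _ hj (sub_eq_zero.1 h)).symm
    set u : M := (m (η n) - m j)⁻¹ with hu
    have hu1 : cst u * (cst (m (η n)) - cst (m j)) = 1 := by
      rw [← cst_sub, ← cst_mul, hu, inv_mul_cancel₀ hd, cst_one]
    refine h3 n hn (fun k => cst u * (b k - b' k)) (fun k => ?_) ?_
    · exact R.mul_mem (hR.cst u) (R.sub_mem (St_sub hR hS (hb k)) (St_sub hR hS (hb' k)))
    · have e1 : ∑ k ∈ Finset.range n, cst u * (b k - b' k) * w k =
          cst u * (∑ k ∈ Finset.range n, b k * w k - ∑ k ∈ Finset.range n, b' k * w k) := by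
        rw [← Finset.sum_sub_distrib, Finset.mul_sum]
        refine Finset.sum_congr rfl fun k _ => ?_
        ring
      show f n * w n = cst u * (b n - b' n) +
        f n * ∑ k ∈ Finset.range n, cst u * (b k - b' k) * w k
      rw [e1]
      have e2 : f n * w n = cst u * (cst (m (η n)) - cst (m j)) * (f n * w n) := by
        rw [hu1, one_mul]
      rw [e2]
      linear_combination cst u * he - cst u * he'
  · rintro rfl
    exact back hR N w f h2 m hmB η hη n hn

end SNX
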