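import Pool.Agent.SNX.TL

/-!
# SNX, target SP: strong NIP for finite extensions of residue fields
-/

set_option autoImplicit false
set_option linter.unusedSectionVars false

noncomputable section

namespace SNX

open Filter Polynomial NST FirstOrder

theorem p_SP (h1 : NST.T_LI) (h2 : T_FB) (h3 : T_LF) : T_SP := by
  classical
  intro K _ _ _ _ _ _ hS W hW k _ _ _ π hπ F _ _ _
  obtain ⟨E, _, _, s, b, A, ρ, -, hA, hAn, hρs, hρk, -, -⟩ := h1 K k W π hπ.surj hπ.ker F
  intro r m R hR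
  choose l t P hP using hR
  choose m' Φ enc hΦ using fun i => h2 K E s b r (m i) (l i) (t i) (P i)
  obtain ⟨N, hN⟩ := hS (r * s) m' Φ
  have hN0 : 0 < N := by
    obtain ⟨η, hη, -⟩ := hN fun i _ _ => 0
    exact lt_of_le_of_lt (Nat.zero_le _) (hη 0)
  refine ⟨N, fun a => ?_⟩
  by_contra hcon
  have hcon' : ∀ η : ℕ → ℕ, (∀ i, η i < N) → ∃ x : Fin r → F, ∀ i < N, ∀ j < N,
      (R i (Sum.elim x (a i j)) ↔ j = η i) := by
    intro η hη
    by_contra h
    exact hcon ⟨η, hη, fun x hx => h ⟨x, hx⟩⟩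
  choose lift hlift using hρs
  choose x hx using fun η : Fin N → Fin N =>
    hcon' (fun i => if h : i < N then (η ⟨i, h⟩ : ℕ) else 0) (by
      intro i
      by_cases h : i < N
      · simp only [h, dif_pos]
        exact (η ⟨i, h⟩).2
      · simp only [h, dif_neg, not_false_eq_true]
        exact hN0)
  let v₁ : ∀ i : ℕ, (Fin N → Fin N) × Fin N → Fin r ⊕ Fin (m i) → A := fun i g =>
    Sum.elim (fun u => lift (x g.1 u)) (fun u => lift (a i g.2 u))
  choose δ C hLF using fun i => h3 K E F W hW s b A ρ hA hAn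
    (fun f => ⟨lift f, hlift f⟩) hρk (Fin r ⊕ Fin (m i)) (l i) (t i) (P i)
    ((Fin N → Fin N) × Fin N) (v₁ i)
  obtain ⟨η₀, hη₀, hno⟩ := hN fun i j => enc i (fun u => ((lift (a i j u) : A) : E)) (δ i) (C i)
  let η : Fin N → Fin N := fun i => ⟨η₀ i, hη₀ i⟩
  refine hno (encX b fun u => ((lift (x η u) : A) : E)) ?_
  intro i hi j hj
  rw [hΦ i (fun u => ((lift (x η u) : A) : E)) (fun u => ((lift (a i j u) : A) : E)) (δ i) (C i)]
  have e1 : (Sum.elim (fun u => ((lift (x η u) : A) : E)) (fun u => ((lift (a i j u) : A) : E)) :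
      Fin r ⊕ Fin (m i) → E) = fun u => ((v₁ i (η, ⟨j, hj⟩) u : A) : E) := by
    funext u
    cases u <;> rfl
  rw [e1, ← hLF i (η, ⟨j, hj⟩)]
  have e2 : (fun u => ρ (v₁ i (η, ⟨j, hj⟩) u)) = (Sum.elim (x η) (a i j) :
      Fin r ⊕ Fin (m i) → F) := by
    funext u
    cases u with
    | inl u => exact hlift _
    | inr u => exact hlift _
  rw [e2, ← hP i]
  have h4 := hx η i hi j hj
  simp only [hi, dif_pos] at h4
  exact h4

end SNX
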