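import Pool.Agent.NST.TG

/-!
# SNX, part S (subadditivity), file A: basics, mutually indiscernible arrays (helper54)

`MI w`: the rows `k ↦ w i k` of the array `w : ℕ → ℤ → γ → M` are mutually indiscernible.
-/

set_option autoImplicit false

noncomputable section

namespace SNX

open Filter FirstOrder FirstOrder.Language

section Basic

variable {L : FirstOrder.Language.{0, 0}} {M : Type} [L.Structure M]

/-- the truth value of a formula depends only on its free variables -/
theorem realize_congr {α : Type} [DecidableEq α] (φ : L.Formula α) {v v' : α → M}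
    (h : ∀ a ∈ BoundedFormula.freeVarFinset φ, v a = v' a) : φ.Realize v ↔ φ.Realize v' := by
  have h1 := BoundedFormula.realize_restrictFreeVar' (M := M) (φ := φ)
    (s := (↑(BoundedFormula.freeVarFinset φ) : Set α)) subset_rfl (v := v) (xs := default)
  have h2 := BoundedFormula.realize_restrictFreeVar' (M := M) (φ := φ)
    (s := (↑(BoundedFormula.freeVarFinset φ) : Set α)) subset_rfl (v := v') (xs := default)
  have h3 : (v ∘ (↑) : (↑(BoundedFormula.freeVarFinset φ) : Set α) → M) = v' ∘ (↑) := by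
    funext a
    exact h a.1 a.2
  rw [h3] at h1
  exact h1.symm.trans h2

/-- no ict-pattern in one variable, in the structure itself, for all formulas -/
def NoPat (L : FirstOrder.Language.{0, 0}) (M : Type) [L.Structure M] : Prop :=
  ∀ (m : ℕ → ℕ) (φ : ∀ i, L.Formula (Unit ⊕ Fin (m i))) (a : ∀ i, ℕ → Fin (m i) → M),
    ¬ ∀ η : ℕ → ℕ, ∀ n : ℕ, ∃ x : M, ∀ i < n, ∀ j < n,
      ((φ i).Realize (Sum.elim (fun _ => x) (a i j)) ↔ j = η i)

/-- finite parameter tuples may be replaced by infinite ones -/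
theorem NoPat.gen (h : NoPat L M) (α : Type) (φ : ℕ → L.Formula (Unit ⊕ α)) (a : ℕ → ℕ → α → M) :
    ¬ ∀ η : ℕ → ℕ, ∀ n : ℕ, ∃ x : M, ∀ i < n, ∀ j < n,
      ((φ i).Realize (Sum.elim (fun _ => x) (a i j)) ↔ j = η i) := by
  classical
  intro H
  -- the finite set of the parameter variables
  let V : ℕ → Finset α := fun i => (BoundedFormula.freeVarFinset (φ i)).toRight
  let e : ∀ i, V i ≃ Fin (V i).card := fun i => (V i).equivFin
  let g : ∀ i, BoundedFormula.freeVarFinset (φ i) → Unit ⊕ Fin (V i).card := fun i v =>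
    match v with
    | ⟨Sum.inl u, _⟩ => Sum.inl u
    | ⟨Sum.inr b, hb⟩ => Sum.inr (e i ⟨b, Finset.mem_toRight.2 hb⟩)
  refine h (fun i => (V i).card) (fun i => BoundedFormula.restrictFreeVar (φ i) (g i))
    (fun i j t => a i j ((e i).symm t)) ?_
  intro η n
  obtain ⟨x, hx⟩ := H η n
  refine ⟨x, fun i hi j hj => ?_⟩
  rw [← hx i hi j hj]
  refine BoundedFormula.realize_restrictFreeVar (Sum.elim (fun _ => x) (a i j)) ?_
  rintro ⟨v, hv⟩
  rcases v with u | b
  · rfl
  · show a i j ((e i).symm (e i ⟨b, _⟩)) = a i j b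
    rw [Equiv.symm_apply_apply]

/-- NIP in one variable, in the structure itself -/
def NIPone (L : FirstOrder.Language.{0, 0}) (M : Type) [L.Structure M] : Prop :=
  ∀ (α : Type) (φ : L.Formula (Unit ⊕ α)), ∃ n : ℕ, ∀ a : Fin n → α → M,
    ∃ S : Set (Fin n), ∀ x : M, ¬ ∀ i, (φ.Realize (Sum.elim (fun _ => x) (a i)) ↔ i ∈ S)

theorem nipone_of_NIP1 {M : Type} [NFV.Lor.Structure M] (h : NST.NIP1 M) : NIPone NFV.Lor M := by
  classical
  intro α φ
  let V : Finset α := (BoundedFormula.freeVarFinset φ).toRight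
  let e : V ≃ Fin V.card := V.equivFin
  let g : BoundedFormula.freeVarFinset φ → Unit ⊕ Fin V.card := fun v =>
    match v with
    | ⟨Sum.inl u, _⟩ => Sum.inl u
    | ⟨Sum.inr b, hb⟩ => Sum.inr (e ⟨b, Finset.mem_toRight.2 hb⟩)
  obtain ⟨n, hn⟩ := h V.card (BoundedFormula.restrictFreeVar φ g)
  refine ⟨n, fun a => ?_⟩
  obtain ⟨S, hS⟩ := hn (fun i t => a i (e.symm t))
  refine ⟨S, fun x hx => hS x fun i => ?_⟩
  rw [← hx i]
  refine BoundedFormula.realize_restrictFreeVar (Sum.elim (fun _ => x) (a i)) ?_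
  rintro ⟨v, hv⟩
  rcases v with u | b
  · rfl
  · show a i (e.symm (e ⟨b, _⟩)) = a i b
    rw [Equiv.symm_apply_apply]

end Basic

section MI

variable {L : FirstOrder.Language.{0, 0}} {M : Type} [L.Structure M] {γ γ' : Type}

variable (L) in
/-- the rows of the array are mutually indiscernible -/
def MI (w : ℕ → ℤ → γ → M) : Prop :=
  ∀ (θ : L.Formula (ℕ × ℕ × γ)) (f g : ℕ → ℕ → ℤ), (∀ i, StrictMono (f i)) →
    (∀ i, StrictMono (g i)) → (θ.Realize (fun p => w p.1 (f p.1 p.2.1) p.2.2) ↔
      θ.Realize (fun p => w p.1 (g p.1 p.2.1) p.2.2))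

/-- change of coordinates -/
theorem MI.map {w : ℕ → ℤ → γ → M} (h : MI L w) (e : γ' → γ) : MI L fun i k => w i k ∘ e := by
  intro θ f g hf hg
  have h1 := h (θ.relabel fun p : ℕ × ℕ × γ' => (p.1, p.2.1, e p.2.2)) f g hf hg
  rw [Formula.realize_relabel, Formula.realize_relabel] at h1
  exact h1

/-- shift of rows -/
theorem MI.shift {w : ℕ → ℤ → γ → M} (h : MI L w) (N : ℕ) : MI L fun i => w (i + N) := by
  intro θ f g hf hg
  have h1 := h (θ.relabel fun p : ℕ × ℕ × γ => (p.1 + N, p.2.1, p.2.2)) (fun i => f (i - N))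
    (fun i => g (i - N)) (fun i => hf _) (fun i => hg _)
  rw [Formula.realize_relabel, Formula.realize_relabel] at h1
  simp only [Function.comp_def, Nat.add_sub_cancel] at h1
  exact h1

/-- a strictly monotone extension -/
theorem exists_ext {R : ℕ} {f : ℕ → ℤ} (hf : ∀ s t, s < t → t < R → f s < f t) :
    ∃ f' : ℕ → ℤ, StrictMono f' ∧ ∀ s < R, f' s = f s := by
  rcases Nat.eq_zero_or_pos R with rfl | hR
  · exact ⟨fun s => s, fun a b h => by simpa using h, fun s hs => absurd hs (Nat.not_lt_zero s)⟩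
  refine ⟨fun s => if s < R then f s else f (R - 1) + s, ?_, fun s hs => if_pos hs⟩
  intro s t hst
  show (if s < R then f s else f (R - 1) + s) < (if t < R then f t else f (R - 1) + t)
  by_cases ht : t < R
  · have hs : s < R := lt_trans hst ht
    rw [if_pos hs, if_pos ht]
    exact hf s t hst ht
  · rw [if_neg ht]
    by_cases hs : s < R
    · rw [if_pos hs]
      have h1 : f s ≤ f (R - 1) := by
        rcases Nat.lt_or_ge s (R - 1) with h | h
        · exact (hf s (R - 1) h (by omega)).le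
        · have : s = R - 1 := by omega
          rw [this]
      have h2 : (0 : ℤ) < t := by
        have : 0 < t := by omega
        exact_mod_cast this
      linarith
    · rw [if_neg hs]
      have : (s : ℤ) < t := by exact_mod_cast hst
      linarith

/-- only finitely many columns matter -/
theorem MI.fin {w : ℕ → ℤ → γ → M} (h : MI L w) [DecidableEq γ] (θ : L.Formula (ℕ × ℕ × γ)) {R : ℕ}
    (hR : ∀ p ∈ BoundedFormula.freeVarFinset θ, p.2.1 < R) (f g : ℕ → ℕ → ℤ)
    (hf : ∀ i s t, s < t → t < R → f i s < f i t) (hg : ∀ i s t, s < t → t < R → g i s < g i t) :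
    θ.Realize (fun p => w p.1 (f p.1 p.2.1) p.2.2) ↔
      θ.Realize (fun p => w p.1 (g p.1 p.2.1) p.2.2) := by
  choose f' hf1 hf2 using fun i => exists_ext (hf i)
  choose g' hg1 hg2 using fun i => exists_ext (hg i)
  have h1 := h θ f' g' hf1 hg1
  rw [realize_congr θ (v := fun p => w p.1 (f' p.1 p.2.1) p.2.2)
    (v' := fun p => w p.1 (f p.1 p.2.1) p.2.2) (fun p hp => by
      show w p.1 (f' p.1 p.2.1) p.2.2 = w p.1 (f p.1 p.2.1) p.2.2
      rw [hf2 _ _ (hR p hp)]), realize_congr θ (v := fun p => w p.1 (g' p.1 p.2.1) p.2.2)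
    (v' := fun p => w p.1 (g p.1 p.2.1) p.2.2) (fun p hp => by
      show w p.1 (g' p.1 p.2.1) p.2.2 = w p.1 (g p.1 p.2.1) p.2.2
      rw [hg2 _ _ (hR p hp)])] at h1
  exact h1

end MI

end SNX
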