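import Pool.Agent.SNX.SubA

/-!
# SNX, part S (subadditivity), file B: alternation gives a pattern (helper54)
-/

set_option autoImplicit false

noncomputable section

namespace SNX

open Filter FirstOrder FirstOrder.Language

variable {L : FirstOrder.Language.{0, 0}} {M : Type} [L.Structure M] {γ : Type}

/-- existence of one element realising finitely many formulas and negations of formulas -/
theorem MI.ex {w : ℕ → ℤ → γ → M} (hw : MI L w) {I : Type} [Finite I]
    (ψ : I → L.Formula (Unit ⊕ (ℕ × ℕ × γ))) (ε : I → Prop) {f g : ℕ → ℕ → ℤ}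
    (hf : ∀ i, StrictMono (f i)) (hg : ∀ i, StrictMono (g i))
    (h : ∃ x : M, ∀ i, ((ψ i).Realize (Sum.elim (fun _ => x)
      (fun p => w p.1 (f p.1 p.2.1) p.2.2)) ↔ ε i)) :
    ∃ x : M, ∀ i, ((ψ i).Realize (Sum.elim (fun _ => x)
      (fun p => w p.1 (g p.1 p.2.1) p.2.2)) ↔ ε i) := by
  classical
  let χ : I → L.Formula ((ℕ × ℕ × γ) ⊕ Unit) := fun i =>
    if ε i then (ψ i).relabel Sum.swap else ((ψ i).relabel Sum.swap).not
  have key : ∀ v : ℕ × ℕ × γ → M, ((Formula.iInf χ).iExs Unit).Realize v ↔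
      ∃ x : M, ∀ i, ((ψ i).Realize (Sum.elim (fun _ => x) v) ↔ ε i) := by
    intro v
    rw [Formula.realize_iExs]
    have h1 : ∀ u : Unit → M, (Formula.iInf χ).Realize (Sum.elim v u) ↔
        ∀ i, ((ψ i).Realize (Sum.elim u v) ↔ ε i) := by
      intro u
      rw [Formula.realize_iInf]
      refine forall_congr' fun i => ?_
      have h2 : (Sum.elim v u) ∘ (Sum.swap : Unit ⊕ (ℕ × ℕ × γ) → (ℕ × ℕ × γ) ⊕ Unit) =
          Sum.elim u v := by
        funext a
        cases a <;> rfl
      by_cases hi : ε i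
      · simp only [χ, if_pos hi, Formula.realize_relabel, h2, hi, iff_true]
      · simp only [χ, if_neg hi, Formula.realize_relabel, Formula.realize_not, h2, hi, iff_false]
    constructor
    · rintro ⟨u, hu⟩
      exact ⟨u (), (h1 u).1 hu⟩
    · rintro ⟨x, hx⟩
      exact ⟨fun _ => x, (h1 _).2 hx⟩
  have h1 := hw ((Formula.iInf χ).iExs Unit) f g hf hg
  rw [key, key] at h1
  exact h1.1 h

/-- if the values at the columns `0` and `1` differ for all rows, we get a pattern of infinite depth -/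
theorem alt {w : ℕ → ℤ → γ → M} (hNIP : NIPone L M) (hNP : NoPat L M) (hw : MI L w)
    (θ : ℕ → L.Formula (Unit ⊕ γ)) (c : M)
    (h : ∀ b, ¬ ((θ b).Realize (Sum.elim (fun _ => c) (w b 0)) ↔
      (θ b).Realize (Sum.elim (fun _ => c) (w b 1)))) : False := by
  classical
  -- the set of the alternations is finite
  have h1 : ∀ b, {k : ℤ | ¬ ((θ b).Realize (Sum.elim (fun _ => c) (w b (2 * k))) ↔
      (θ b).Realize (Sum.elim (fun _ => c) (w b (2 * k + 1))))}.Finite := by
    intro b
    by_contra hinf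
    obtain ⟨n, hn⟩ := hNIP γ (θ b)
    obtain ⟨s, hs, hsc⟩ := Set.Infinite.exists_subset_card_eq hinf n
    obtain ⟨S, hS⟩ := hn fun i => w b ((i : ℕ) : ℤ)
    let κ : Fin n → ℤ := fun i => s.orderEmbOfFin hsc i
    have hκm : StrictMono κ := (s.orderEmbOfFin hsc).strictMono
    have hκ : ∀ i, ¬ ((θ b).Realize (Sum.elim (fun _ => c) (w b (2 * κ i))) ↔
        (θ b).Realize (Sum.elim (fun _ => c) (w b (2 * κ i + 1)))) := fun i =>
      hs (s.orderEmbOfFin_mem hsc i)
    have hp : ∀ i : Fin n, ∃ p : ℤ, 2 * κ i ≤ p ∧ p ≤ 2 * κ i + 1 ∧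
        ((θ b).Realize (Sum.elim (fun _ => c) (w b p)) ↔ i ∈ S) := by
      intro i
      by_cases h0 : (θ b).Realize (Sum.elim (fun _ => c) (w b (2 * κ i))) ↔ i ∈ S
      · exact ⟨2 * κ i, le_rfl, by omega, h0⟩
      · refine ⟨2 * κ i + 1, by omega, le_rfl, ?_⟩
        have := hκ i
        tauto
    choose p hp1 hp2 hp3 using hp
    have hpm : ∀ s t, s < t → t < n → (fun t : ℕ => if h : t < n then p ⟨t, h⟩ else 0) s <
        (fun t : ℕ => if h : t < n then p ⟨t, h⟩ else 0) t := by
      intro s t hst ht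
      have hs' : s < n := lt_trans hst ht
      simp only [dif_pos hs', dif_pos ht]
      have h2 : κ ⟨s, hs'⟩ < κ ⟨t, ht⟩ := hκm hst
      have h3 := hp2 ⟨s, hs'⟩
      have h4 := hp1 ⟨t, ht⟩
      omega
    obtain ⟨p', hp'1, hp'2⟩ := exists_ext hpm
    have hex : ∃ x : M, ∀ i : Fin n, (((θ b).relabel
        (Sum.map id fun l => ((b, (i : ℕ), l) : ℕ × ℕ × γ))).Realize (Sum.elim (fun _ => x)
          (fun q : ℕ × ℕ × γ => w q.1 ((fun (_ : ℕ) (t : ℕ) => (t : ℤ)) q.1 q.2.1) q.2.2)) ↔
            i ∈ S) := by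
      refine hw.ex (fun i : Fin n => (θ b).relabel (Sum.map id fun l => ((b, (i : ℕ), l) : ℕ × ℕ × γ)))
        (fun i => i ∈ S) (f := fun _ => p') (fun _ => hp'1) (fun _ a b h => by
          show (a : ℤ) < b
          exact_mod_cast h) ⟨c, fun i => ?_⟩
      rw [Formula.realize_relabel, ← hp3 i]
      have h5 : p' (i : ℕ) = p i := by
        rw [hp'2 _ i.2]
        exact dif_pos i.2
      rw [← h5]
      refine iff_of_eq (congrArg _ ?_)
      funext a
      cases a <;> rfl
    obtain ⟨x, hx⟩ := hex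
    refine hS x fun i => ?_
    rw [← hx i, Formula.realize_relabel]
    refine iff_of_eq (congrArg _ ?_)
    funext a
    cases a <;> rfl
  have h2 : ∀ b, ∃ C : ℕ, 0 < C ∧ ∀ k : ℤ, ¬ ((θ b).Realize (Sum.elim (fun _ => c) (w b (2 * k))) ↔
      (θ b).Realize (Sum.elim (fun _ => c) (w b (2 * k + 1)))) → |k| < C := by
    intro b
    obtain ⟨C, hC⟩ := ((h1 b).image fun k : ℤ => k.natAbs).bddAbove
    refine ⟨C + 1, by omega, fun k hk => ?_⟩
    have := hC ⟨k, hk, rfl⟩
    change k.natAbs ≤ C at this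
    have h3 : |k| = (k.natAbs : ℤ) := Int.abs_eq_natAbs k
    rw [h3]
    omega
  choose C hC0 hC using h2
  -- the pattern
  refine hNP.gen (γ ⊕ γ) (fun b => ((θ b).relabel (Sum.map id Sum.inl)).iff
    ((θ b).relabel (Sum.map id Sum.inr)) |>.not)
    (fun b j => Sum.elim (w b (2 * j)) (w b (2 * j + 1))) ?_
  intro η n
  have hgm : ∀ b, StrictMono fun T : ℕ =>
      2 * ((((T / 2 : ℕ) : ℤ) - η b) * C b) + ((T % 2 : ℕ) : ℤ) := by
    intro b
    refine strictMono_nat_of_lt_succ fun T => ?_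
    have hc : (1 : ℤ) ≤ C b := by exact_mod_cast hC0 b
    rcases Nat.mod_two_eq_zero_or_one T with hT | hT
    · have h4 : (T + 1) / 2 = T / 2 := by omega
      have h5 : (T + 1) % 2 = 1 := by omega
      rw [h4, h5, hT]
      simp
    · have h4 : (T + 1) / 2 = T / 2 + 1 := by omega
      have h5 : (T + 1) % 2 = 0 := by omega
      rw [h4, h5, hT]
      push_cast
      nlinarith
  have hex := hw.ex (I := Fin n × Fin n)
    (fun q => (((θ q.1).relabel (Sum.map id fun l => (((q.1 : ℕ), 2 * (q.2 : ℕ), l) : ℕ × ℕ × γ))).iff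
      ((θ q.1).relabel (Sum.map id fun l => (((q.1 : ℕ), 2 * (q.2 : ℕ) + 1, l) : ℕ × ℕ × γ)))).not)
    (fun q => (q.2 : ℕ) = η q.1)
    (f := fun b T => 2 * ((((T / 2 : ℕ) : ℤ) - η b) * C b) + ((T % 2 : ℕ) : ℤ))
    (g := fun _ T => (T : ℤ)) hgm (fun _ a b h => by
      show (a : ℤ) < b
      exact_mod_cast h) ⟨c, ?_⟩
  · obtain ⟨x, hx⟩ := hex
    refine ⟨x, fun i hi j hj => ?_⟩
    have h3 := hx (⟨i, hi⟩, ⟨j, hj⟩)
    simp only [Formula.realize_not, Formula.realize_iff, Formula.realize_relabel] at h3 ⊢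
    rw [← h3]
    refine not_congr (iff_congr (iff_of_eq (congrArg _ ?_)) (iff_of_eq (congrArg _ ?_)))
    · funext a
      cases a with
      | inl _ => rfl
      | inr l =>
        show w i (2 * (j : ℤ)) l = w i ((2 * j : ℕ) : ℤ) l
        push_cast
        rfl
    · funext a
      cases a with
      | inl _ => rfl
      | inr l =>
        show w i (2 * (j : ℤ) + 1) l = w i ((2 * j + 1 : ℕ) : ℤ) l
        push_cast
        rfl
  · rintro ⟨i, j⟩
    simp only [Formula.realize_not, Formula.realize_iff, Formula.realize_relabel]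
    have e1 : (2 * (j : ℕ)) / 2 = j := by omega
    have e2 : (2 * (j : ℕ)) % 2 = 0 := by omega
    have e3 : (2 * (j : ℕ) + 1) / 2 = j := by omega
    have e4 : (2 * (j : ℕ) + 1) % 2 = 1 := by omega
    have h3 : ∀ k : ℤ, k = (((j : ℕ) : ℤ) - η i) * C i →
        ((¬ ((θ i).Realize (Sum.elim (fun _ => c) (w i (2 * k))) ↔
          (θ i).Realize (Sum.elim (fun _ => c) (w i (2 * k + 1))))) ↔ (j : ℕ) = η i) := by
      intro k hk
      constructor
      · intro h4
        have h5 := hC i k h4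
        by_contra h6
        have h7 : (1 : ℤ) ≤ |((j : ℕ) : ℤ) - η i| := by
          apply Int.one_le_abs
          intro h8
          apply h6
          omega
        rw [hk, abs_mul] at h5
        have h8 : |(C i : ℤ)| = C i := abs_of_nonneg (by positivity)
        rw [h8] at h5
        have hc : (1 : ℤ) ≤ C i := by exact_mod_cast hC0 i
        nlinarith
      · intro h4
        have h5 : k = 0 := by
          rw [hk, h4]
          simp
        rw [h5]
        simpa using h i
    refine Iff.trans ?_ (h3 _ rfl)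
    refine not_congr (iff_congr (iff_of_eq (congrArg _ ?_)) (iff_of_eq (congrArg _ ?_)))
    · funext a
      cases a with
      | inl _ => rfl
      | inr l =>
        show w i (2 * ((((2 * (j : ℕ) / 2 : ℕ) : ℤ) - η i) * C i) + ((2 * (j : ℕ) % 2 : ℕ) : ℤ)) l =
          w i (2 * ((((j : ℕ) : ℤ) - η i) * C i)) l
        rw [e1, e2]
        simp
    · funext a
      cases a with
      | inl _ => rfl
      | inr l =>
        show w i (2 * (((((2 * (j : ℕ) + 1) / 2 : ℕ) : ℤ) - η i) * C i) +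
          (((2 * (j : ℕ) + 1) % 2 : ℕ) : ℤ)) l = w i (2 * ((((j : ℕ) : ℤ) - η i) * C i) + 1) l
        rw [e3, e4]
        simp

end SNX
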