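import Pool.Agent.SNX.SubB

/-!
# SNX, part S (subadditivity), file C: almost all rows stay mutually indiscernible over a finite
tuple (helper54)
-/

set_option autoImplicit false

noncomputable section

namespace SNX

open Filter FirstOrder FirstOrder.Language

variable {L : FirstOrder.Language.{0, 0}} {M : Type} [L.Structure M] {γ : Type}

/-- blocks of rows and columns form a mutually indiscernible array -/
theorem MI.block {w : ℕ → ℤ → γ → M} (hw : MI L w) (Nb R : ℕ → ℕ) (hR : ∀ b, 0 < R b)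
    (hN : ∀ b, Nb b + R b ≤ Nb (b + 1)) (d : ℕ → ℤ → ℕ → ℕ → ℤ)
    (hd1 : ∀ b k i s t, s < t → t < R b → d b k i s < d b k i t)
    (hd2 : ∀ b k k' i s t, k < k' → s < R b → t < R b → d b k i s < d b k' i t) :
    MI L fun b k (q : ℕ × ℕ × γ) => w (Nb b + min q.1 (R b - 1))
      (d b k (min q.1 (R b - 1)) (min q.2.1 (R b - 1))) q.2.2 := by
  classical
  intro θ f g hf hg
  -- monotonicity and uniqueness of the block
  have hmono : ∀ b b', b < b' → Nb b + R b ≤ Nb b' := by
    intro b b' hbb'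
    induction b', hbb' using Nat.le_induction with
    | base => exact hN b
    | succ n hn ih => exact le_trans ih (le_trans (Nat.le_add_right _ _) (hN n))
  have huniq : ∀ b b' r, Nb b ≤ r → r < Nb b + R b → Nb b' ≤ r → r < Nb b' + R b' → b = b' := by
    intro b b' r h1 h2 h3 h4
    rcases lt_trichotomy b b' with h | h | h
    · have := hmono b b' h
      omega
    · exact h
    · have := hmono b' b h
      omega
  let F : (ℕ → ℕ → ℤ) → ℕ → ℕ → ℤ := fun f r T =>
    if h : ∃ b, Nb b ≤ r ∧ r < Nb b + R b then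
      d h.choose (f h.choose (T / R h.choose)) (r - Nb h.choose) (T % R h.choose)
    else T
  have hF1 : ∀ (f : ℕ → ℕ → ℤ) b r T, Nb b ≤ r → r < Nb b + R b →
      F f r T = d b (f b (T / R b)) (r - Nb b) (T % R b) := by
    intro f b r T h1 h2
    have h : ∃ b, Nb b ≤ r ∧ r < Nb b + R b := ⟨b, h1, h2⟩
    have hb : h.choose = b :=
      huniq _ _ r h.choose_spec.1 h.choose_spec.2 h1 h2
    show (if h : ∃ b, Nb b ≤ r ∧ r < Nb b + R b then
      d h.choose (f h.choose (T / R h.choose)) (r - Nb h.choose) (T % R h.choose) else (T : ℤ)) = _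
    rw [dif_pos h, hb]
  have hF2 : ∀ (f : ℕ → ℕ → ℤ), (∀ i, StrictMono (f i)) → ∀ r, StrictMono (F f r) := by
    intro f hf r
    by_cases h : ∃ b, Nb b ≤ r ∧ r < Nb b + R b
    · obtain ⟨b, h1, h2⟩ := h
      intro T T' hT
      rw [hF1 f b r T h1 h2, hF1 f b r T' h1 h2]
      have h3 : T / R b ≤ T' / R b := Nat.div_le_div_right hT.le
      have h4 := Nat.mod_lt T (hR b)
      have h5 := Nat.mod_lt T' (hR b)
      rcases h3.eq_or_lt with h6 | h6
      · have h7 : T % R b < T' % R b := by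
          have e1 := Nat.div_add_mod T (R b)
          have e2 := Nat.div_add_mod T' (R b)
          rw [h6] at e1
          omega
        rw [h6]
        exact hd1 _ _ _ _ _ h7 h5
      · exact hd2 _ _ _ _ _ _ (hf b h6) h4 h5
    · intro T T' hT
      show F f r T < F f r T'
      have e : ∀ T, F f r T = (T : ℤ) := fun T => dif_neg h
      rw [e, e]
      exact_mod_cast hT
  have h1 := hw (θ.relabel fun p : ℕ × ℕ × (ℕ × ℕ × γ) =>
    ((Nb p.1 + min p.2.2.1 (R p.1 - 1), p.2.1 * R p.1 + min p.2.2.2.1 (R p.1 - 1), p.2.2.2.2) :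
      ℕ × ℕ × γ)) (F f) (F g) (hF2 f hf) (hF2 g hg)
  rw [Formula.realize_relabel, Formula.realize_relabel] at h1
  have key : ∀ (f : ℕ → ℕ → ℤ), ((fun p : ℕ × ℕ × γ => w p.1 (F f p.1 p.2.1) p.2.2) ∘
      fun p : ℕ × ℕ × (ℕ × ℕ × γ) =>
    ((Nb p.1 + min p.2.2.1 (R p.1 - 1), p.2.1 * R p.1 + min p.2.2.2.1 (R p.1 - 1), p.2.2.2.2) :
      ℕ × ℕ × γ)) = fun p => w (Nb p.1 + min p.2.2.1 (R p.1 - 1))
      (d p.1 (f p.1 p.2.1) (min p.2.2.1 (R p.1 - 1)) (min p.2.2.2.1 (R p.1 - 1))) p.2.2.2.2 := by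
    intro f
    funext ⟨b, T, i, s, l⟩
    show w (Nb b + min i (R b - 1)) (F f (Nb b + min i (R b - 1)) (T * R b + min s (R b - 1))) l = _
    have h2 : min i (R b - 1) < R b := lt_of_le_of_lt (min_le_right _ _) (Nat.sub_lt (hR b) one_pos)
    have h3 : min s (R b - 1) < R b := lt_of_le_of_lt (min_le_right _ _) (Nat.sub_lt (hR b) one_pos)
    rw [hF1 f b _ _ (Nat.le_add_right _ _) (by omega)]
    have e1 : (T * R b + min s (R b - 1)) / R b = T := by
      rw [Nat.div_eq_iff (hR b)]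
      constructor
      · omega
      · have : T * R b + min s (R b - 1) < T * R b + R b := by omega
        have := this
        omega
    have e2 : (T * R b + min s (R b - 1)) % R b = min s (R b - 1) := by
      rw [Nat.mul_comm, Nat.mul_add_mod, Nat.mod_eq_of_lt h3]
    rw [e1, e2, Nat.add_sub_cancel_left]
  rw [key f, key g] at h1
  exact h1

/-- almost all rows stay mutually indiscernible over a single element -/
theorem single {w : ℕ → ℤ → γ → M} (hNIP : NIPone L M) (hNP : NoPat L M) (hw : MI L w) (c : M) :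
    ∃ N, MI L fun i k (o : Option γ) => o.elim c (w (i + N) k) := by
  classical
  by_contra hcon
  push Not at hcon
  have key : ∀ N, ∃ (θ : L.Formula (ℕ × ℕ × Option γ)) (R : ℕ) (u h : ℕ → ℕ → ℤ), 0 < R ∧
      (∀ p ∈ BoundedFormula.freeVarFinset θ, p.1 < R ∧ p.2.1 < R) ∧ (∀ i, StrictMono (u i)) ∧
      (∀ i, StrictMono (h i)) ∧ (∀ i s t, s < R → u i s < h i t) ∧
      ¬ (θ.Realize (fun p => p.2.2.elim c (w (p.1 + N) (u p.1 p.2.1))) ↔
        θ.Realize (fun p => p.2.2.elim c (w (p.1 + N) (h p.1 p.2.1)))) := by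
    intro N
    have h1 := hcon N
    unfold MI at h1
    push Not at h1
    obtain ⟨θ, f, g, hf, hg, hθ⟩ := h1
    let R : ℕ := (BoundedFormula.freeVarFinset θ).sup (fun p => p.1 + p.2.1) + 1
    let h : ℕ → ℕ → ℤ := fun i s => max (f i R) (g i R) + s
    have hh : ∀ i, StrictMono (h i) := by
      intro i a b hab
      show max (f i R) (g i R) + (a : ℤ) < max (f i R) (g i R) + (b : ℤ)
      have : (a : ℤ) < b := by exact_mod_cast hab
      linarith
    have hfh : ∀ i s t, s < R → f i s < h i t := by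
      intro i s t hs
      have h2 := hf i hs
      have h3 : (0 : ℤ) ≤ t := by positivity
      have h4 := le_max_left (f i R) (g i R)
      show f i s < max (f i R) (g i R) + (t : ℤ)
      linarith
    have hgh : ∀ i s t, s < R → g i s < h i t := by
      intro i s t hs
      have h2 := hg i hs
      have h3 : (0 : ℤ) ≤ t := by positivity
      have h4 := le_max_right (f i R) (g i R)
      show g i s < max (f i R) (g i R) + (t : ℤ)
      linarith
    have hR : ∀ p ∈ BoundedFormula.freeVarFinset θ, p.1 < R ∧ p.2.1 < R := by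
      intro p hp
      have h2 : p.1 + p.2.1 ≤ (BoundedFormula.freeVarFinset θ).sup (fun p => p.1 + p.2.1) :=
        Finset.le_sup (f := fun p : ℕ × ℕ × Option γ => p.1 + p.2.1) hp
      constructor <;> (show _ < _ + 1; omega)
    by_cases h5 : θ.Realize (fun p => p.2.2.elim c (w (p.1 + N) (f p.1 p.2.1))) ↔
        θ.Realize (fun p => p.2.2.elim c (w (p.1 + N) (h p.1 p.2.1)))
    · refine ⟨θ, R, g, h, Nat.succ_pos _, hR, hg, hh, hgh, fun h6 => ?_⟩
      have h7 : θ.Realize (fun p => p.2.2.elim c (w (p.1 + N) (f p.1 p.2.1))) ↔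
        θ.Realize (fun p => p.2.2.elim c (w (p.1 + N) (g p.1 p.2.1))) := h5.trans h6.symm
      rcases hθ with hθ | hθ
      · exact hθ.2 (h7.1 hθ.1)
      · exact hθ.1 (h7.2 hθ.2)
    · exact ⟨θ, R, f, h, Nat.succ_pos _, hR, hf, hh, hfh, h5⟩
  choose θ R u h hR0 hR hu hh huh hne using key
  let Nb : ℕ → ℕ := fun b => Nat.rec 0 (fun _ N => N + R N) b
  have hNb : ∀ b, Nb (b + 1) = Nb b + R (Nb b) := fun b => rfl
  -- the positions of the blocks
  let d : ℕ → ℤ → ℕ → ℕ → ℤ := fun b k i s =>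
    if k ≤ 0 then u (Nb b) i s + k * (u (Nb b) i (R (Nb b)) - u (Nb b) i 0)
    else h (Nb b) i s + (k - 1) * (h (Nb b) i (R (Nb b)) - h (Nb b) i 0)
  have hd0 : ∀ b i s, d b 0 i s = u (Nb b) i s := by
    intro b i s
    show (if (0 : ℤ) ≤ 0 then u (Nb b) i s + 0 * (u (Nb b) i (R (Nb b)) - u (Nb b) i 0) else _) = _
    rw [if_pos le_rfl]
    ring
  have hd1' : ∀ b i s, d b 1 i s = h (Nb b) i s := by
    intro b i s
    show (if (1 : ℤ) ≤ 0 then _ else
      h (Nb b) i s + (1 - 1) * (h (Nb b) i (R (Nb b)) - h (Nb b) i 0)) = _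
    rw [if_neg (by norm_num)]
    ring
  have hd1 : ∀ b k i s t, s < t → t < R (Nb b) → d b k i s < d b k i t := by
    intro b k i s t hst _
    show (if k ≤ 0 then _ else _) < (if k ≤ 0 then _ else _)
    by_cases hk : k ≤ 0
    · rw [if_pos hk, if_pos hk]
      have := hu (Nb b) i hst
      linarith
    · rw [if_neg hk, if_neg hk]
      have := hh (Nb b) i hst
      linarith
  have hd2 : ∀ b k k' i s t, k < k' → s < R (Nb b) → t < R (Nb b) → d b k i s < d b k' i t := by
    intro b k k' i s t hkk hs ht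
    have hu1 : u (Nb b) i s < u (Nb b) i (R (Nb b)) := hu _ i hs
    have hu2 : u (Nb b) i 0 ≤ u (Nb b) i t := (hu _ i).monotone (Nat.zero_le _)
    have hh1 : h (Nb b) i s < h (Nb b) i (R (Nb b)) := hh _ i hs
    have hh2 : h (Nb b) i 0 ≤ h (Nb b) i t := (hh _ i).monotone (Nat.zero_le _)
    have hB : 0 ≤ u (Nb b) i (R (Nb b)) - u (Nb b) i 0 := by
      have : u (Nb b) i 0 ≤ u (Nb b) i (R (Nb b)) := (hu _ i).monotone (Nat.zero_le _)
      linarith
    have hA : 0 ≤ h (Nb b) i (R (Nb b)) - h (Nb b) i 0 := by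
      have : h (Nb b) i 0 ≤ h (Nb b) i (R (Nb b)) := (hh _ i).monotone (Nat.zero_le _)
      linarith
    show (if k ≤ 0 then _ else _) < (if k' ≤ 0 then _ else _)
    by_cases hk' : k' ≤ 0
    · have hk : k ≤ 0 := by omega
      rw [if_pos hk, if_pos hk']
      have h1 : (k + 1) * (u (Nb b) i (R (Nb b)) - u (Nb b) i 0) ≤
          k' * (u (Nb b) i (R (Nb b)) - u (Nb b) i 0) :=
        mul_le_mul_of_nonneg_right (by omega) hB
      linarith
    · by_cases hk : k ≤ 0
      · rw [if_pos hk, if_neg hk']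
        have h1 : k * (u (Nb b) i (R (Nb b)) - u (Nb b) i 0) ≤ 0 :=
          mul_nonpos_of_nonpos_of_nonneg hk hB
        have h2 : 0 ≤ (k' - 1) * (h (Nb b) i (R (Nb b)) - h (Nb b) i 0) :=
          mul_nonneg (by omega) hA
        have h3 := huh (Nb b) i s t hs
        linarith
      · rw [if_neg hk, if_neg hk']
        have h1 : (k - 1 + 1) * (h (Nb b) i (R (Nb b)) - h (Nb b) i 0) ≤
            (k' - 1) * (h (Nb b) i (R (Nb b)) - h (Nb b) i 0) :=
          mul_le_mul_of_nonneg_right (by omega) hA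
        linarith
  have hD := hw.block Nb (fun b => R (Nb b)) (fun b => hR0 _) (fun b => (hNb b).ge) d hd1 hd2
  refine alt hNIP hNP hD (fun b => (θ (Nb b)).relabel fun p : ℕ × ℕ × Option γ =>
    p.2.2.elim (Sum.inl () : Unit ⊕ (ℕ × ℕ × γ)) fun l => Sum.inr (p.1, p.2.1, l)) c fun b => ?_
  rw [Formula.realize_relabel, Formula.realize_relabel]
  have e : ∀ k : ℤ, (θ (Nb b)).Realize ((Sum.elim (fun _ : Unit => c) fun q : ℕ × ℕ × γ =>
      w (Nb b + min q.1 (R (Nb b) - 1))
        (d b k (min q.1 (R (Nb b) - 1)) (min q.2.1 (R (Nb b) - 1))) q.2.2) ∘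
      fun p : ℕ × ℕ × Option γ => p.2.2.elim (Sum.inl () : Unit ⊕ (ℕ × ℕ × γ))
        fun l => Sum.inr (p.1, p.2.1, l)) ↔
      (θ (Nb b)).Realize (fun p => p.2.2.elim c (w (p.1 + Nb b) (d b k p.1 p.2.1))) := by
    intro k
    refine realize_congr _ fun p hp => ?_
    obtain ⟨h1, h2⟩ := hR _ p hp
    obtain ⟨i, s, o⟩ := p
    cases o with
    | none => rfl
    | some l =>
      show w (Nb b + min i (R (Nb b) - 1))
        (d b k (min i (R (Nb b) - 1)) (min s (R (Nb b) - 1))) l = w (i + Nb b) (d b k i s) l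
      have h3 : min i (R (Nb b) - 1) = i := min_eq_left (by change i < _ at h1; omega)
      have h4 : min s (R (Nb b) - 1) = s := min_eq_left (by change s < _ at h2; omega)
      rw [h3, h4, Nat.add_comm]
  rw [e 0, e 1]
  have e0 : (fun p : ℕ × ℕ × Option γ => p.2.2.elim c (w (p.1 + Nb b) (d b 0 p.1 p.2.1))) =
      fun p => p.2.2.elim c (w (p.1 + Nb b) (u (Nb b) p.1 p.2.1)) := by
    funext p
    rw [hd0]
  have e1 : (fun p : ℕ × ℕ × Option γ => p.2.2.elim c (w (p.1 + Nb b) (d b 1 p.1 p.2.1))) =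
      fun p => p.2.2.elim c (w (p.1 + Nb b) (h (Nb b) p.1 p.2.1)) := by
    funext p
    rw [hd1']
  rw [e0, e1]
  exact hne (Nb b)

/-- almost all rows stay mutually indiscernible over a finite tuple -/
theorem multi (hNIP : NIPone L M) (hNP : NoPat L M) (r : ℕ) : ∀ (γ : Type) (w : ℕ → ℤ → γ → M),
    MI L w → ∀ x : Fin r → M, ∃ N, MI L fun i k => (Sum.elim x (w (i + N) k) : Fin r ⊕ γ → M) := by
  induction r with
  | zero =>
    intro γ w hw x
    refine ⟨0, ?_⟩
    have h1 := hw.map (fun v : Fin 0 ⊕ γ => Sum.elim (fun i => i.elim0) id v)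
    convert h1 using 3 with i k
    funext v
    rcases v with v | v
    · exact v.elim0
    · rfl
  | succ r ih =>
    intro γ w hw x
    obtain ⟨N1, h1⟩ := single hNIP hNP hw (x 0)
    obtain ⟨N2, h2⟩ := ih (Option γ) _ h1 (fun j => x j.succ)
    refine ⟨N2 + N1, ?_⟩
    have h3 := h2.map (fun v : Fin (r + 1) ⊕ γ => Sum.elim
      (fun j : Fin (r + 1) => Fin.cases (Sum.inr none : Fin r ⊕ Option γ) (fun j => Sum.inl j) j)
      (fun l => Sum.inr (some l)) v)
    convert h3 using 3 with i k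
    funext v
    rcases v with v | v
    · refine Fin.cases ?_ (fun j => ?_) v
      · rfl
      · rfl
    · show w (i + (N2 + N1)) k v = w (i + N2 + N1) k v
      rw [Nat.add_assoc]

/-- there is no row pattern in `r` variables with mutually indiscernible rows -/
theorem no_multi (hNIP : NIPone L M) (hNP : NoPat L M) {r : ℕ} {w : ℕ → ℤ → γ → M} (hw : MI L w)
    (φ : ℕ → L.Formula (Fin r ⊕ γ)) (x : Fin r → M)
    (h : ∀ i k, (φ i).Realize (Sum.elim x (w i k)) ↔ k = 0) : False := by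
  obtain ⟨N, hN⟩ := multi hNIP hNP r γ w hw x
  have h1 := hN ((φ N).relabel fun v => ((0, 0, v) : ℕ × ℕ × (Fin r ⊕ γ))) (fun _ t => t)
    (fun _ t => t + 1) (fun _ a b h => by
      show (a : ℤ) < b
      exact_mod_cast h) (fun _ a b h => by
      show (a : ℤ) + 1 < b + 1
      have : (a : ℤ) < b := by exact_mod_cast h
      linarith)
  rw [Formula.realize_relabel, Formula.realize_relabel] at h1
  have h2 : (φ N).Realize (Sum.elim x (w N 0)) := (h N 0).2 rfl
  have h3 : ¬ (φ N).Realize (Sum.elim x (w N 1)) := fun h' => by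
    have := (h N 1).1 h'
    norm_num at this
  apply h3
  have e1 : ((fun p : ℕ × ℕ × (Fin r ⊕ γ) => (Sum.elim x (w (p.1 + N) ((p.2.1 : ℕ) : ℤ)) :
      Fin r ⊕ γ → M) p.2.2) ∘ fun v => ((0, 0, v) : ℕ × ℕ × (Fin r ⊕ γ))) = Sum.elim x (w N 0) := by
    funext v
    show (Sum.elim x (w (0 + N) ((0 : ℕ) : ℤ)) : Fin r ⊕ γ → M) v = _
    rw [Nat.zero_add]
    rfl
  have e2 : ((fun p : ℕ × ℕ × (Fin r ⊕ γ) => (Sum.elim x (w (p.1 + N) (((p.2.1 : ℕ) : ℤ) + 1)) :
      Fin r ⊕ γ → M) p.2.2) ∘ fun v => ((0, 0, v) : ℕ × ℕ × (Fin r ⊕ γ))) = Sum.elim x (w N 1) := by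
    funext v
    show (Sum.elim x (w (0 + N) (((0 : ℕ) : ℤ) + 1)) : Fin r ⊕ γ → M) v = _
    rw [Nat.zero_add]
    rfl
  rw [e1, e2] at h1
  exact h1.1 h2

end SNX
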