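import Pool.Agent.SNX.SubC
import Pool.Agent.NST.P_SN1

/-!
# SNX, part S (subadditivity), file D: Ramsey, indiscernible arrays, the theorem (helper54)

`SUBg`: a strongly NIP structure (ict-patterns in one variable) has no ict-patterns of depth `ω` in
`r` variables, in the form: for each sequence of formulas there is `N` such that there is no
`N × N` pattern.
-/

set_option autoImplicit false

noncomputable section

namespace SNX

open Filter FirstOrder FirstOrder.Language

/-- the infinite Ramsey theorem for two colours, in terms of increasing tuples -/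
theorem ramsey (n : ℕ) : ∀ P : (Fin n → ℕ) → Prop, ∃ H : ℕ → ℕ, StrictMono H ∧
    ∀ f g : Fin n → ℕ, StrictMono f → StrictMono g → (P (H ∘ f) ↔ P (H ∘ g)) := by
  classical
  induction n with
  | zero =>
    intro P
    refine ⟨id, strictMono_id, fun f g _ _ => ?_⟩
    rw [Subsingleton.elim f g]
  | succ n ih =>
    intro P
    have h1 : ∀ G : ℕ → ℕ, ∃ H : ℕ → ℕ, StrictMono H ∧ ∀ f g : Fin n → ℕ, StrictMono f →
        StrictMono g → (P (Fin.cons (G 0) fun i => G (H (f i) + 1)) ↔
          P (Fin.cons (G 0) fun i => G (H (g i) + 1))) := fun G =>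
      ih fun f => P (Fin.cons (G 0) fun i => G (f i + 1))
    choose T hT1 hT2 using h1
    let G : ℕ → ℕ → ℕ := fun k => Nat.rec id (fun _ G t => G (T G t + 1)) k
    have hG : ∀ k t, G (k + 1) t = G k (T (G k) t + 1) := fun k t => rfl
    have hGm : ∀ k, StrictMono (G k) := by
      intro k
      induction k with
      | zero => exact strictMono_id
      | succ k ihk =>
        intro s t hst
        rw [hG, hG]
        exact ihk (Nat.succ_lt_succ (hT1 _ hst))
    have ham : StrictMono fun k => G k 0 := by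
      refine strictMono_nat_of_lt_succ fun k => ?_
      show G k 0 < G (k + 1) 0
      rw [hG]
      exact hGm k (Nat.succ_pos _)
    -- later elements are in the range
    have hran : ∀ k m, ∀ s, ∃ t, G (k + m) s = G k t := by
      intro k m
      induction m with
      | zero => exact fun s => ⟨s, rfl⟩
      | succ m ihm =>
        intro s
        obtain ⟨t, ht⟩ := ihm (T (G (k + m)) s + 1)
        exact ⟨t, by rw [← ht]; rfl⟩
    let B : ℕ → Prop := fun k => P (Fin.cons (G k 0) fun i : Fin n => G k (T (G k) (i : ℕ) + 1))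
    have hB : ∀ k (f : Fin n → ℕ), StrictMono f → (∀ i, k < f i) →
        (P (Fin.cons (G k 0) fun i => G (f i) 0) ↔ B k) := by
      intro k f hf hk
      have h2 : ∀ i, ∃ t, G (f i) 0 = G (k + 1) t := by
        intro i
        obtain ⟨m, hm⟩ := Nat.exists_eq_add_of_le (Nat.succ_le_of_lt (hk i))
        rw [hm]
        exact hran (k + 1) m 0
      choose t ht using h2
      have htm : StrictMono t := by
        intro i j hij
        have h3 : G (f i) 0 < G (f j) 0 := ham (hf hij)
        rw [ht, ht] at h3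
        exact (hGm (k + 1)).lt_iff_lt.1 h3
      have h4 : (fun i => G (f i) 0) = fun i => G k (T (G k) (t i) + 1) := by
        funext i
        rw [ht, hG]
      rw [h4]
      exact hT2 (G k) t (fun i => (i : ℕ)) htm fun i j h => h
    -- pigeonhole
    obtain ⟨ι, hι, b, hb⟩ : ∃ ι : ℕ → ℕ, StrictMono ι ∧ ∃ b : Prop, ∀ m, (B (ι m) ↔ b) := by
      by_cases h2 : {k | B k}.Infinite
      · exact ⟨Nat.nth B, Nat.nth_strictMono h2, True, fun m =>
          iff_true_intro (Nat.nth_mem_of_infinite h2 m)⟩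
      · have h3 : {k | ¬ B k}.Infinite := by
          have := (Set.not_infinite.1 h2).infinite_compl
          exact this
        exact ⟨Nat.nth fun k => ¬ B k, Nat.nth_strictMono h3, False, fun m =>
          iff_false_intro (Nat.nth_mem_of_infinite h3 m)⟩
    refine ⟨fun m => G (ι m) 0, fun s t hst => ham (hι hst), ?_⟩
    have key : ∀ f : Fin (n + 1) → ℕ, StrictMono f → (P ((fun m => G (ι m) 0) ∘ f) ↔ b) := by
      intro f hf
      have h2 : (fun m => G (ι m) 0) ∘ f =
          Fin.cons (G (ι (f 0)) 0) fun i => G (ι (f i.succ)) 0 := by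
        funext i
        refine Fin.cases ?_ (fun i => ?_) i
        · rfl
        · rfl
      rw [h2, hB (ι (f 0)) (fun i => ι (f i.succ)) (fun i j h => hι (hf (Fin.succ_lt_succ_iff.2 h)))
        (fun i => hι (hf (Fin.succ_pos i)))]
      exact hb _
    intro f g hf hg
    rw [key f hf, key g hg]

variable {L : FirstOrder.Language.{0, 0}}

theorem ee_prod (M J : Type) [L.Structure M] [Nonempty M] (u : Ultrafilter J) :
    L.ElementarilyEquivalent ((u : Filter J).Product fun _ : J => M) M := by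
  rw [FirstOrder.Language.elementarilyEquivalent_iff]
  intro φ
  rw [FirstOrder.Language.Ultraproduct.sentence_realize]
  simp

/-- patterns of all finite sizes give an infinite pattern in an elementarily equivalent structure -/
theorem exists_inf {K : Type} [L.Structure K] [Nonempty K] {r : ℕ} {γ : Type}
    (φ : ℕ → L.Formula (Fin r ⊕ γ))
    (h : ∀ N : ℕ, ∃ a : ℕ → ℕ → γ → K, ∀ η : ℕ → ℕ, ∃ x : Fin r → K, ∀ i < N, ∀ j < N,
      ((φ i).Realize (Sum.elim x (a i j)) ↔ j = η i)) :
    ∃ (M : Type) (_ : L.Structure M) (_ : Nonempty M) (a : ℕ → ℕ → γ → M),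
      L.ElementarilyEquivalent M K ∧ ∀ (η : ℕ → ℕ) (n : ℕ), ∃ x : Fin r → M, ∀ i < n, ∀ j < n,
        ((φ i).Realize (Sum.elim x (a i j)) ↔ j = η i) := by
  classical
  choose a ha using h
  let u : Ultrafilter ℕ := hyperfilter ℕ
  refine ⟨(u : Filter ℕ).Product fun _ : ℕ => K, inferInstance, inferInstance,
    fun i j l => ((fun N => a N i j l : ℕ → K) : (u : Filter ℕ).Product fun _ : ℕ => K),
    ee_prod K ℕ u, fun η n => ?_⟩
  choose x hx using fun N => ha N η
  refine ⟨fun v => ((fun N => x N v : ℕ → K) : (u : Filter ℕ).Product fun _ : ℕ => K),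
    fun i hi j hj => ?_⟩
  have h1 : (Sum.elim (fun v => ((fun N => x N v : ℕ → K) : (u : Filter ℕ).Product fun _ : ℕ => K))
      (fun l => ((fun N => a N i j l : ℕ → K) : (u : Filter ℕ).Product fun _ : ℕ => K)) :
        Fin r ⊕ γ → (u : Filter ℕ).Product fun _ : ℕ => K) =
      fun v => (((Sum.elim (fun v N => x N v) (fun l N => a N i j l) : Fin r ⊕ γ → ℕ → K) v :
        ℕ → K) : (u : Filter ℕ).Product fun _ : ℕ => K) := by
    funext v
    cases v <;> rfl
  refine (iff_of_eq (congrArg (φ i).Realize h1)).trans ?_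
  refine (FirstOrder.Language.Ultraproduct.realize_formula_cast (M := fun _ : ℕ => K)
    (u := u) (φ i) (Sum.elim (fun v N => x N v) (fun l N => a N i j l))).trans ?_
  have h2 : ∀ᶠ N in (u : Filter ℕ), n ≤ N := by
    apply Filter.Eventually.filter_mono (Nat.hyperfilter_le_atTop)
    exact Filter.eventually_ge_atTop _
  have h3 : ∀ᶠ N in (u : Filter ℕ), ((φ i).Realize (fun v =>
      (Sum.elim (fun v N => x N v) (fun l N => a N i j l) : Fin r ⊕ γ → ℕ → K) v N) ↔ j = η i) := by
    filter_upwards [h2] with N hN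
    rw [← hx N i (lt_of_lt_of_le hi hN) j (lt_of_lt_of_le hj hN)]
    refine iff_of_eq (congrArg _ ?_)
    funext v
    cases v <;> rfl
  rw [Filter.eventually_congr h3]
  simp

/-- an infinite pattern gives a mutually indiscernible one with a realisation of the zero path -/
theorem exists_MI {M : Type} [L.Structure M] [Nonempty M] {r : ℕ} {γ : Type}
    (φ : ℕ → L.Formula (Fin r ⊕ γ)) (a : ℕ → ℕ → γ → M)
    (h : ∀ (η : ℕ → ℕ) (n : ℕ), ∃ x : Fin r → M, ∀ i < n, ∀ j < n,
      ((φ i).Realize (Sum.elim x (a i j)) ↔ j = η i)) :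
    ∃ (M' : Type) (_ : L.Structure M') (_ : Nonempty M') (w : ℕ → ℤ → γ → M') (x : Fin r → M'),
      L.ElementarilyEquivalent M' M ∧ MI L w ∧
        ∀ i k, (φ i).Realize (Sum.elim x (w i k)) ↔ k = 0 := by
  classical
  -- bounds for the variables
  let R : L.Formula (ℕ × ℕ × γ) → ℕ := fun θ =>
    (BoundedFormula.freeVarFinset θ).sup (fun p => p.1 + p.2.1) + 1
  have hR : ∀ θ, ∀ p ∈ BoundedFormula.freeVarFinset θ, p.1 < R θ ∧ p.2.1 < R θ := by
    intro θ p hp
    have h2 : p.1 + p.2.1 ≤ (BoundedFormula.freeVarFinset θ).sup (fun p => p.1 + p.2.1) :=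
      Finset.le_sup (f := fun p : ℕ × ℕ × γ => p.1 + p.2.1) hp
    constructor <;> (show _ < _ + 1; omega)
  have hR0 : ∀ θ, 0 < R θ := fun θ => Nat.succ_pos _
  -- the colourings
  let ev : ∀ θ : L.Formula (ℕ × ℕ × γ), (Fin (R θ * R θ) → ℕ) → ℕ × ℕ × γ → ℕ := fun θ e p =>
    if hp : p.1 * R θ + p.2.1 < R θ * R θ then e ⟨p.1 * R θ + p.2.1, hp⟩ else 0
  let P : ∀ θ : L.Formula (ℕ × ℕ × γ), (Fin (R θ * R θ) → ℕ) → Prop := fun θ e =>
    θ.Realize fun p => a p.1 (ev θ e p) p.2.2
  have hH : ∀ F : Finset (L.Formula (ℕ × ℕ × γ)), ∃ H : ℕ → ℕ, StrictMono H ∧ ∀ θ ∈ F,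
      ∀ e e' : Fin (R θ * R θ) → ℕ, StrictMono e → StrictMono e' →
        (P θ (H ∘ e) ↔ P θ (H ∘ e')) := by
    intro F
    induction F using Finset.induction_on with
    | empty => exact ⟨id, strictMono_id, fun θ hθ => absurd hθ (Finset.notMem_empty _)⟩
    | insert θ F hθ ih =>
      obtain ⟨H, hH1, hH2⟩ := ih
      obtain ⟨H', hH'1, hH'2⟩ := ramsey _ fun e : Fin (R θ * R θ) → ℕ => P θ (H ∘ e)
      refine ⟨H ∘ H', hH1.comp hH'1, fun θ' hθ' e e' he he' => ?_⟩
      rcases Finset.mem_insert.1 hθ' with rfl | hθ'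
      · exact hH'2 e e' he he'
      · exact hH2 θ' hθ' (H' ∘ e) (H' ∘ e') (hH'1.comp he) (hH'1.comp he')
  choose H hH1 hH2 using hH
  -- positions
  let ι : ℕ → ℕ → ℤ → ℕ := fun B i k => i * (2 * B + 1) + (k + B).toNat
  have hι1 : ∀ (B i : ℕ) (k k' : ℤ), |k| ≤ (B : ℤ) → |k'| ≤ (B : ℤ) → k < k' → ι B i k < ι B i k' := by
    intro B i k k' hk hk' hkk
    rw [abs_le] at hk hk'
    show i * (2 * B + 1) + (k + B).toNat < i * (2 * B + 1) + (k' + B).toNat
    omega
  have hι2 : ∀ (B i i' : ℕ) (k k' : ℤ), |k| ≤ (B : ℤ) → |k'| ≤ (B : ℤ) → i < i' → ι B i k < ι B i' k' := by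
    intro B i i' k k' hk hk' hii
    rw [abs_le] at hk hk'
    show i * (2 * B + 1) + (k + B).toNat < i' * (2 * B + 1) + (k' + B).toNat
    have h1 : (i + 1) * (2 * B + 1) ≤ i' * (2 * B + 1) := Nat.mul_le_mul_right _ hii
    have h2 : (k + B).toNat < 2 * B + 1 := by omega
    nlinarith
  have hι3 : ∀ (B i : ℕ) (k : ℤ), i ≤ B → |k| ≤ (B : ℤ) → ι B i k ≤ B * (2 * B + 1) + 2 * B := by
    intro B i k hi hk
    rw [abs_le] at hk
    show i * (2 * B + 1) + (k + B).toNat ≤ B * (2 * B + 1) + 2 * B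
    have h1 : i * (2 * B + 1) ≤ B * (2 * B + 1) := Nat.mul_le_mul_right _ hi
    omega
  -- the elements
  have hx : ∀ s : Finset (L.Formula (ℕ × ℕ × γ)) × ℕ, ∃ x : Fin r → M, ∀ i ≤ s.2, ∀ k : ℤ,
      |k| ≤ (s.2 : ℤ) → ((φ i).Realize (Sum.elim x (a i (H s.1 (ι s.2 i k)))) ↔ k = 0) := by
    rintro ⟨F, B⟩
    obtain ⟨x, hx⟩ := h (fun i => H F (ι B i 0)) (max (B + 1) (H F (B * (2 * B + 1) + 2 * B) + 1))
    refine ⟨x, fun i hi k hk => ?_⟩
    change i ≤ B at hi
    change |k| ≤ (B : ℤ) at hk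
    have h1 : H F (ι B i k) < max (B + 1) (H F (B * (2 * B + 1) + 2 * B) + 1) :=
      lt_of_lt_of_le (Nat.lt_succ_of_le ((hH1 F).monotone (hι3 B i k hi hk))) (le_max_right _ _)
    refine (hx i (lt_of_lt_of_le (Nat.lt_succ_of_le hi) (le_max_left _ _)) _ h1).trans ?_
    constructor
    · intro h2
      have h3 : ι B i k = ι B i 0 := (hH1 F).injective h2
      rcases lt_trichotomy k 0 with h4 | h4 | h4
      · exact absurd h3 (hι1 B i k 0 hk (by simp) h4).ne
      · exact h4
      · exact absurd h3 (hι1 B i 0 k (by simp) hk h4).ne'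
    · rintro rfl
      rfl
  choose x hx using hx
  let J : Type := Finset (L.Formula (ℕ × ℕ × γ)) × ℕ
  let u : Ultrafilter J := Ultrafilter.of (atTop : Filter J)
  have hu : (u : Filter J) ≤ atTop := Ultrafilter.of_le _
  let w : ℕ → ℤ → γ → J → M := fun i k l s => a i (H s.1 (ι s.2 i k)) l
  refine ⟨(u : Filter J).Product fun _ : J => M, inferInstance, inferInstance,
    fun i k l => ((w i k l : J → M) : (u : Filter J).Product fun _ : J => M),
    fun v => ((fun s => x s v : J → M) : (u : Filter J).Product fun _ : J => M),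
    ee_prod M J u, ?_, ?_⟩
  · intro θ f g hf hg
    have hcast : ∀ f : ℕ → ℕ → ℤ, (θ.Realize (fun p : ℕ × ℕ × γ =>
        ((w p.1 (f p.1 p.2.1) p.2.2 : J → M) : (u : Filter J).Product fun _ : J => M)) ↔
        ∀ᶠ s in (u : Filter J), θ.Realize fun p => w p.1 (f p.1 p.2.1) p.2.2 s) := fun f =>
      FirstOrder.Language.Ultraproduct.realize_formula_cast (M := fun _ : J => M) (u := u) θ
        fun p => w p.1 (f p.1 p.2.1) p.2.2
    refine (hcast f).trans (Iff.trans ?_ (hcast g).symm)
    -- a bound for the values of `f` and `g`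
    obtain ⟨B, hB⟩ : ∃ B : ℕ, ∀ i < R θ, ∀ s < R θ, |f i s| ≤ (B : ℤ) ∧ |g i s| ≤ (B : ℤ) := by
      refine ⟨∑ i ∈ Finset.range (R θ), ∑ s ∈ Finset.range (R θ),
        ((f i s).natAbs + (g i s).natAbs), fun i hi s hs => ?_⟩
      have h1 : (f i s).natAbs + (g i s).natAbs ≤ ∑ i ∈ Finset.range (R θ),
          ∑ s ∈ Finset.range (R θ), ((f i s).natAbs + (g i s).natAbs) := by
        refine le_trans ?_ (Finset.single_le_sum (f := fun i => ∑ s ∈ Finset.range (R θ),
          ((f i s).natAbs + (g i s).natAbs)) (fun _ _ => Nat.zero_le _) (Finset.mem_range.2 hi))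
        exact Finset.single_le_sum (f := fun s => ((f i s).natAbs + (g i s).natAbs))
          (fun _ _ => Nat.zero_le _) (Finset.mem_range.2 hs)
      rw [Int.abs_eq_natAbs, Int.abs_eq_natAbs]
      constructor <;> exact_mod_cast (by omega)
    have h1 : ∀ᶠ s : J in (u : Filter J), (({θ}, B) : J) ≤ s := hu (eventually_ge_atTop _)
    refine Filter.eventually_congr (h1.mono fun s hs => ?_)
    obtain ⟨F, B'⟩ := s
    have hθF : θ ∈ F := by
      have h2 : ({θ} : Finset (L.Formula (ℕ × ℕ × γ))) ≤ F := hs.1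
      exact h2 (Finset.mem_singleton_self θ)
    have hBB : (B : ℤ) ≤ (B' : ℤ) := by
      have h2 : B ≤ B' := hs.2
      exact_mod_cast h2
    have key : ∀ f : ℕ → ℕ → ℤ, (∀ i, StrictMono (f i)) →
        (∀ i < R θ, ∀ s < R θ, |f i s| ≤ (B' : ℤ)) →
        ∃ e : Fin (R θ * R θ) → ℕ, StrictMono e ∧
          ((θ.Realize fun p => w p.1 (f p.1 p.2.1) p.2.2 (F, B')) ↔ P θ (H F ∘ e)) := by
      intro f hf hfB
      refine ⟨fun t => ι B' ((t : ℕ) / R θ) (f ((t : ℕ) / R θ) ((t : ℕ) % R θ)), ?_, ?_⟩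
      · intro t t' htt
        have h2 : (t : ℕ) / R θ < R θ := Nat.div_lt_of_lt_mul t.2
        have h2' : (t' : ℕ) / R θ < R θ := Nat.div_lt_of_lt_mul t'.2
        have h3 := Nat.mod_lt (t : ℕ) (hR0 θ)
        have h3' := Nat.mod_lt (t' : ℕ) (hR0 θ)
        have h4 : (t : ℕ) < t' := htt
        rcases (Nat.div_le_div_right (c := R θ) h4.le).eq_or_lt with h5 | h5
        · have h6 : (t : ℕ) % R θ < t' % R θ := by
            have e1 := Nat.div_add_mod (t : ℕ) (R θ)
            have e2 := Nat.div_add_mod (t' : ℕ) (R θ)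
            rw [h5] at e1
            omega
          show ι B' ((t : ℕ) / R θ) (f ((t : ℕ) / R θ) ((t : ℕ) % R θ)) <
            ι B' ((t' : ℕ) / R θ) (f ((t' : ℕ) / R θ) ((t' : ℕ) % R θ))
          rw [h5]
          exact hι1 _ _ _ _ (hfB _ h2' _ h3) (hfB _ h2' _ h3') (hf _ h6)
        · exact hι2 _ _ _ _ _ (hfB _ h2 _ h3) (hfB _ h2' _ h3') h5
      · refine realize_congr θ fun p hp => ?_
        obtain ⟨h2, h3⟩ := hR θ p hp
        obtain ⟨i, s, l⟩ := p
        change i < R θ at h2
        change s < R θ at h3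
        have h4 : i * R θ + s < R θ * R θ := by
          have : (i + 1) * R θ ≤ R θ * R θ := Nat.mul_le_mul_right _ h2
          nlinarith
        show a i (H F (ι B' i (f i s))) l = a i (if hp : i * R θ + s < R θ * R θ then
          (H F ∘ fun t : Fin (R θ * R θ) => ι B' ((t : ℕ) / R θ)
            (f ((t : ℕ) / R θ) ((t : ℕ) % R θ))) ⟨i * R θ + s, hp⟩ else 0) l
        rw [dif_pos h4]
        have e1 : (i * R θ + s) / R θ = i := by
          rw [Nat.div_eq_iff (hR0 θ)]
          constructor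
          · omega
          · omega
        have e2 : (i * R θ + s) % R θ = s := by
          rw [Nat.mul_comm, Nat.mul_add_mod, Nat.mod_eq_of_lt h3]
        show a i (H F (ι B' i (f i s))) l = a i (H F (ι B' ((i * R θ + s) / R θ)
            (f ((i * R θ + s) / R θ) ((i * R θ + s) % R θ)))) l
        rw [e1, e2]
    obtain ⟨e, he1, he2⟩ := key f hf fun i hi s hs => le_trans (hB i hi s hs).1 hBB
    obtain ⟨e', he'1, he'2⟩ := key g hg fun i hi s hs => le_trans (hB i hi s hs).2 hBB
    exact he2.trans ((hH2 F θ hθF e e' he1 he'1).trans he'2.symm)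
  · intro i k
    have h1 : (Sum.elim (fun v => ((fun s => x s v : J → M) : (u : Filter J).Product fun _ : J => M))
        (fun l => ((w i k l : J → M) : (u : Filter J).Product fun _ : J => M)) :
          Fin r ⊕ γ → (u : Filter J).Product fun _ : J => M) =
        fun v => (((Sum.elim (fun v s => x s v) (fun l => w i k l) : Fin r ⊕ γ → J → M) v :
          J → M) : (u : Filter J).Product fun _ : J => M) := by
      funext v
      cases v <;> rfl
    refine (iff_of_eq (congrArg (φ i).Realize h1)).trans ?_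
    refine (FirstOrder.Language.Ultraproduct.realize_formula_cast (M := fun _ : J => M)
      (u := u) (φ i) (Sum.elim (fun v s => x s v) (fun l => w i k l))).trans ?_
    have h2 : ∀ᶠ s : J in (u : Filter J), ((∅, max i k.natAbs) : J) ≤ s :=
      hu (eventually_ge_atTop _)
    have h3 : ∀ᶠ s : J in (u : Filter J), ((φ i).Realize (fun v =>
        (Sum.elim (fun v s => x s v) (fun l => w i k l) : Fin r ⊕ γ → J → M) v s) ↔ k = 0) := by
      filter_upwards [h2] with s hs
      have h4 : max i k.natAbs ≤ s.2 := hs.2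
      rw [← hx s i (le_trans (le_max_left _ _) h4) k (by
        rw [Int.abs_eq_natAbs]
        exact_mod_cast le_trans (le_max_right _ _) h4)]
      refine iff_of_eq (congrArg _ ?_)
      funext v
      cases v <;> rfl
    rw [Filter.eventually_congr h3]
    simp

theorem SNIP.of_ee {K M : Type} [NFV.Lor.Structure K] [NFV.Lor.Structure M] (h : NST.SNIP K)
    (he : NFV.Lor.ElementarilyEquivalent M K) : NST.SNIP M := by
  intro M' _ hM' m φ a
  exact h M' (hM'.trans he) m φ a

theorem SNIP.noPat {K : Type} [NFV.Lor.Structure K] (h : NST.SNIP K) : NoPat NFV.Lor K := by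
  intro m φ a
  exact h K (rfl : NFV.Lor.completeTheory K = NFV.Lor.completeTheory K) m φ a

/-- SUB (subadditivity, general parameter type) -/
theorem SUBg (K : Type) [Nonempty K] [NFV.Lor.Structure K] (hS : NST.SNIP K) (r : ℕ) (γ : Type)
    (φ : ℕ → NFV.Lor.Formula (Fin r ⊕ γ)) : ∃ N : ℕ, ∀ a : ℕ → ℕ → γ → K,
      ¬ ∀ η : ℕ → ℕ, ∃ x : Fin r → K, ∀ i < N, ∀ j < N,
        ((φ i).Realize (Sum.elim x (a i j)) ↔ j = η i) := by
  by_contra hcon
  push Not at hcon
  obtain ⟨M, _, _, a, hMK, ha⟩ := exists_inf φ hcon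
  obtain ⟨M', _, _, w, x, hMM, hw, hx⟩ := exists_MI φ a ha
  have hS' : NST.SNIP M' := SNIP.of_ee hS (hMM.trans hMK)
  exact no_multi (nipone_of_NIP1 (NST.p_SN1 M' hS')) (SNIP.noPat hS') hw φ x hx

end SNX
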