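import Pool.Agent.SNX.PE
import Pool.Agent.NST.TG

/-!
# SNX: targets, part L: lifting to finite extensions of residue fields

Strong NIP and NIP of an ordered field `K` give `SNF F` and `NFp F` for each finite extension `F`
of the residue field of a convex valuation ring.  Compare `NST/P_VCK.lean`, `NST/P_VN.lean`,
`NST/P_SN1.lean`.
-/

set_option autoImplicit false
set_option linter.unusedSectionVars false

noncomputable section

namespace SNX

open Filter Polynomial NST FirstOrder

/-- strong NIP for formulas, in finite form, in `K` itself -/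
def SNL (K : Type) [NFV.Lor.Structure K] : Prop :=
  ∀ (r : ℕ) (m : ℕ → ℕ) (φ : ∀ i, NFV.Lor.Formula (Fin r ⊕ Fin (m i))), ∃ N : ℕ,
    ∀ a : ∀ i, ℕ → Fin (m i) → K, ∃ η : ℕ → ℕ, (∀ i, η i < N) ∧
      ∀ x : Fin r → K, ¬ ∀ i < N, ∀ j < N, ((φ i).Realize (Sum.elim x (a i j)) ↔ j = η i)

/-- approximate solutions -/
def Apx {K E : Type} [Field K] [LinearOrder K] [Field E] [Algebra K E] {s : ℕ}
    (b : Module.Basis (Fin s) K E) {ι : Type} {l t : ℕ}
    (P : Fin t → MvPolynomial (ι ⊕ Fin l) ℤ) (v : ι → E) (δ C : K) : Prop :=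
  ∃ z : Fin l → E, (∀ i k, |b.repr (z i) k| ≤ C) ∧
    ∀ j k, |b.repr (MvPolynomial.aeval (Sum.elim v z) (P j)) k| ≤ δ

/-- coordinates of a tuple -/
def encX {K E : Type} [Field K] [Field E] [Algebra K E] {s : ℕ}
    (b : Module.Basis (Fin s) K E) {r : ℕ} (x : Fin r → E) : Fin (r * s) → K :=
  fun i => b.repr (x (finProdFinEquiv.symm i).1) (finProdFinEquiv.symm i).2

/-- CP (compactness).  PROOF.  As `NST/P_SN1.lean`.  If not, there are `r, m, φ` and for each `N`
an array `a N` such that for all `η` with values `< N` some `x` works.  `M` = the ultrapower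
`(hyperfilter ℕ).Product` of `K`; `a' i j : Fin (m i) → M` is the class of `n ↦ a n i j`.  Given
`η` and `n₀`, for all `n` larger than `n₀` and all `η i`, `i < n₀`, apply the property of `a n` to
`η' i = η i` for `i < n₀`, `0` otherwise: `x n`.  The class of `x` works by Łoś. -/
def T_CP : Prop := ∀ (K : Type) [Nonempty K] [NFV.Lor.Structure K], SNIPn K → SNL K

/-- CO (coordinates of polynomials).  PROOF.  `MvPolynomial.induction_on P`.  Integer constants
`n`: `C n * X (inr (inl k))`; sums; multiplication by `X i`: coordinate `k` of `u * v i` is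
`∑ i' j', (b i' * b j')_k * u_{i'} * (v i)_{j'}` (`NST.VCK_.repr_mul`). -/
def T_CO : Prop :=
  ∀ (K E : Type) [Field K] [Field E] [Algebra K E] (s : ℕ) (b : Module.Basis (Fin s) K E)
    (ι : Type) (P : MvPolynomial ι ℤ),
    ∃ G : Fin s → MvPolynomial ((ι × Fin s) ⊕ (Fin s ⊕ (Fin s × Fin s × Fin s))) ℤ,
      ∀ (v : ι → E) (k : Fin s), b.repr (MvPolynomial.aeval v P) k =
        MvPolynomial.aeval (Sum.elim (fun p => b.repr (v p.1) p.2)
          (Sum.elim (fun k => b.repr 1 k) fun p => b.repr (b p.1 * b p.2.1) p.2.2)) (G k)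

/-- FB (the formula).  PROOF.  CO for all `P j`; the formula
`∃ z_{i,k}, ∧ (z_{i,k} ≤ C ∧ - z_{i,k} ≤ C) ∧ ∧ (G_{j,k} ≤ δ ∧ - G_{j,k} ≤ δ)`, the parameters are
the coordinates of `a`, `δ`, `C`, the coordinates of `1` and the structure constants, numbered by
`Fin m'`.  Tools: `NST.VCK_.leF`, `NST.VCK_.leF_realize` (comparison of two elements of
`FreeCommRing`; `freeCommRingEquivMvPolynomialInt`), `Formula.iExs`, `Formula.iInf`,
`Formula.relabel`, as in `NST/P_VCK.lean`. -/
def T_FB : Prop :=
  ∀ (K E : Type) [Field K] [LinearOrder K] [IsStrictOrderedRing K] [Ring.CompatibleRing K]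
    [Language.order.Structure K] [Language.order.OrderedStructure K] [Field E] [Algebra K E]
    (s : ℕ) (b : Module.Basis (Fin s) K E) (r m l t : ℕ)
    (P : Fin t → MvPolynomial ((Fin r ⊕ Fin m) ⊕ Fin l) ℤ),
    ∃ (m' : ℕ) (Φ : NFV.Lor.Formula (Fin (r * s) ⊕ Fin m'))
      (enc : (Fin m → E) → K → K → Fin m' → K),
      ∀ (x : Fin r → E) (a : Fin m → E) (δ C : K),
        (Φ.Realize (Sum.elim (encX b x) (enc a δ C)) ↔ Apx b P (Sum.elim x a) δ C)

/-- LF (lifting of finitely many instances).  PROOF.  For each `g` with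
`∃ z, ∀ j, P j (v g, z) = 0` choose such a `z` and lift it to `A` (`ρ` is surjective): `z₁`; then
`P j (v₁ g, z₁) ∈ A.nonunits` (`ρ` of it is `0`; `ρ` and the inclusion `A → E` commute with
polynomials over `ℤ`).  `δ` = sum of the absolute values of all coordinates of all these elements,
in `W.nonunits` (`NST.VN_bound`); `C` = sum of the absolute values of all coordinates of all
`z₁`, in `W`.  Conversely, if `z : Fin l → E` has coordinates `≤ C` in absolute value then
`z i ∈ A` (`Cvx W`), and if the coordinates of `P j (v₁ g, z)` are `≤ δ` it is in `A.nonunits`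
(`NST.VN_cvx`), so `P j (v g, ρ z) = 0`. -/
def T_LF : Prop :=
  ∀ (K E F : Type) [Field K] [LinearOrder K] [IsStrictOrderedRing K] [Field E] [Algebra K E]
    [Field F] (W : ValuationSubring K), Cvx W → ∀ (s : ℕ) (b : Module.Basis (Fin s) K E)
    (A : ValuationSubring E) (ρ : A →+* F), (∀ z, z ∈ A ↔ ∀ i, b.repr z i ∈ W) →
    (∀ z, z ∈ A.nonunits ↔ ∀ i, b.repr z i ∈ W.nonunits) → Function.Surjective ρ →
    (∀ a : A, ρ a = 0 ↔ (a : E) ∈ A.nonunits) →
    ∀ (ι : Type) (l t : ℕ) (P : Fin t → MvPolynomial (ι ⊕ Fin l) ℤ) (Γ : Type) [Finite Γ]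
      (v₁ : Γ → ι → A), ∃ δ C : K, ∀ g : Γ,
      ((∃ z : Fin l → F, ∀ j, MvPolynomial.aeval (Sum.elim (fun i => ρ (v₁ g i)) z) (P j) = 0) ↔
        Apx b P (fun i => (v₁ g i : E)) δ C)

/-- NP.  PROOF.  `NST.T_LI`: `E, s, b, A, ρ`.  For `R` given by `P`: FB gives `Φ`; `NFV.NIP K` for
`Φ` gives `n`.  Suppose that all subsets `S` of `Fin n` are realised in `F` by `x S` for the
points `a i`; lift the `a i` and `x S` to `A`, LF for `Γ = Finset (Fin n) × Fin n` and
`v₁ (S, i) = Sum.elim (x S) (a i)`: `δ, C`.  The points `enc (a i) δ C` are shattered by the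
`encX b (x S)`, a contradiction. -/
def T_NP : Prop :=
  ∀ (K : Type) [Field K] [LinearOrder K] [IsStrictOrderedRing K] [Ring.CompatibleRing K]
    [Language.order.Structure K] [Language.order.OrderedStructure K], NFV.NIP K →
    ∀ (W : ValuationSubring K), Cvx W → ∀ (k : Type) [Field k] [LinearOrder k]
    [IsStrictOrderedRing k] (π : W →+* k), OR W k π →
    ∀ (F : Type) [Field F] [Algebra k F] [FiniteDimensional k F], NFp F

/-- SP.  PROOF.  `NST.T_LI`: `E, s, b, A, ρ`.  Each `R i` is given by some `P i`; FB gives `Φ i`,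
`m' i`, `enc i`; `SNL K` for these formulas (`r * s` variables) gives `N`.  Suppose that there is
a pattern `a` in `F` with `N` rows and columns (for each `η` with values `< N` some `x`).  Lift
all `a i j` (`i, j < N`) and the `x η` (`η : Fin N → Fin N`) to `A`.  For each row `i` LF for
`Γ = (Fin N → Fin N) × Fin N`, `v₁ (η, j) = Sum.elim (x η) (a i j)`: `δ i, C i`.  The array
`enc i (a i j) (δ i) (C i)` with the `encX b (x η)` contradicts the choice of `N`. -/
def T_SP : Prop :=
  ∀ (K : Type) [Field K] [LinearOrder K] [IsStrictOrderedRing K] [Ring.CompatibleRing K]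
    [Language.order.Structure K] [Language.order.OrderedStructure K], SNL K →
    ∀ (W : ValuationSubring K), Cvx W → ∀ (k : Type) [Field k] [LinearOrder k]
    [IsStrictOrderedRing k] (π : W →+* k), OR W k π →
    ∀ (F : Type) [Field F] [Algebra k F] [FiniteDimensional k F], SNF F

end SNX
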