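import Pool.Agent.SNX.TE

/-!
# SNX: the block NE (nonzero infinitesimals), owner helper51

Ideas rows 1925 (1), (2) and 1957 (A), (B).  The target `T_NE` is in `SNX/TE.lean`.
-/
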